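import Pool.Agent.Helper34.FQ.Defs

/-!
Fractional polychromatic colourings (problem MP_08bd45_co): the step of the chain.
-/

namespace Pool.Agent.Helper34.FQ

open Finset Pool.Agent.Helper34.PN

/-- an average of `f q`, `q ∈ B`, tested against `F` -/
theorem cstep_avg {E : Type} [Fintype E] (f : ℕ → E → ℝ) (B : Finset ℕ) (F : E → ℝ) :
    ∑ x, F x * fb f B x = (∑ p ∈ B, ∑ x, F x * f p x) / (B.card : ℝ) := by
  rw [Finset.sum_comm, Finset.sum_div]
  refine Finset.sum_congr rfl (fun x _ => ?_)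
  unfold fb
  rw [← Finset.mul_sum, mul_div_assoc]

theorem cstep_avg_le {E : Type} [Fintype E] (f : ℕ → E → ℝ) (B : Finset ℕ)
    (hB : B.Nonempty) (F : E → ℝ) (c : ℝ) (hc : ∀ p ∈ B, ∑ x, F x * f p x ≤ c) :
    ∑ x, F x * fb f B x ≤ c := by
  rw [cstep_avg]
  have hB' : (0 : ℝ) < (B.card : ℝ) := by exact_mod_cast hB.card_pos
  rw [div_le_iff₀ hB']
  calc ∑ p ∈ B, ∑ x, F x * f p x ≤ ∑ p ∈ B, c := Finset.sum_le_sum hc
    _ = c * (B.card : ℝ) := by rw [Finset.sum_const, nsmul_eq_mul, mul_comm]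

theorem cstep_le_avg {E : Type} [Fintype E] (f : ℕ → E → ℝ) (B : Finset ℕ)
    (hB : B.Nonempty) (F : E → ℝ) (c : ℝ) (hc : ∀ p ∈ B, c ≤ ∑ x, F x * f p x) :
    c ≤ ∑ x, F x * fb f B x := by
  rw [cstep_avg]
  have hB' : (0 : ℝ) < (B.card : ℝ) := by exact_mod_cast hB.card_pos
  rw [le_div_iff₀ hB']
  calc c * (B.card : ℝ) = ∑ p ∈ B, c := by rw [Finset.sum_const, nsmul_eq_mul, mul_comm]
    _ ≤ ∑ p ∈ B, ∑ x, F x * f p x := Finset.sum_le_sum hc

theorem cstep_fb_nonneg {E : Type} (f : ℕ → E → ℝ) (O : Finset ℕ)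
    (f0 : ∀ q x, 0 ≤ f q x) (x : E) : 0 ≤ fb f O x := by
  unfold fb
  exact div_nonneg (Finset.sum_nonneg (fun i _ => f0 i x)) (Nat.cast_nonneg _)

theorem cstep_fb_le {E : Type} (f : ℕ → E → ℝ) (O : Finset ℕ)
    (f2 : ∀ q x, f q x ≤ 2) (x : E) : fb f O x ≤ 2 := by
  unfold fb
  rcases O.eq_empty_or_nonempty with h | h
  · subst h
    simp
  · have hO' : (0 : ℝ) < (O.card : ℝ) := by exact_mod_cast h.card_pos
    rw [div_le_iff₀ hO']
    calc ∑ i ∈ O, f i x ≤ ∑ i ∈ O, (2 : ℝ) := Finset.sum_le_sum (fun i _ => f2 i x)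
      _ = 2 * (O.card : ℝ) := by rw [Finset.sum_const, nsmul_eq_mul, mul_comm]

/-- the tangent line of `b ↦ b ^ (k + 1)` at `a` -/
theorem cstep_tangent (k : ℕ) (a b : ℝ) (ha : 0 ≤ a) (hb : 0 ≤ b) :
    -(k : ℝ) * a ^ (k + 1) + ((k : ℝ) + 1) * (a ^ k * b) ≤ b ^ (k + 1) := by
  induction k with
  | zero => simp
  | succ k ih =>
    have h1 := mul_le_mul_of_nonneg_left ih hb
    have h2 : 0 ≤ ((k : ℝ) + 1) * a ^ k * (b - a) ^ 2 := by positivity
    push_cast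
    have e1 : b ^ (k + 1 + 1) = b * b ^ (k + 1) := by ring
    rw [e1]
    refine le_trans ?_ h1
    have e2 : b * (-(k : ℝ) * a ^ (k + 1) + ((k : ℝ) + 1) * (a ^ k * b))
        - (-((k : ℝ) + 1) * a ^ (k + 1 + 1) + ((k : ℝ) + 1 + 1) * (a ^ (k + 1) * b))
        = ((k : ℝ) + 1) * a ^ k * (b - a) ^ 2 := by ring
    linarith [h2, e2]

theorem chain_step {E : Type} [Fintype E] {m r : ℕ} {τ : ℝ} {μ : Finset ℕ → E → ℝ}
    {f : ℕ → E → ℝ} (h : Sys m r τ μ f) (P O B O' : Finset ℕ) (k : ℕ) (hk1 : 1 ≤ k)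
    (hk : k < m) (hO : O.Nonempty) (hB : B.Nonempty) (hO' : O'.Nonempty)
    (hOB : ∀ i ∈ O, ∀ j ∈ B, i < j) (hBO : ∀ i ∈ B, ∀ j ∈ O', i < j)
    (hPB : ∀ p ∈ P, ∀ j ∈ B, p < j) (hO'r : O' ⊆ range r) (δ ρ : ℝ)
    (h1 : ∑ x, μ P x * |fb f B x - fb f O x| ≤ δ)
    (h2 : ∑ x, μ P x * |fb f O' x - fb f O x| ≤ δ)
    (h3 : ∀ p ∈ B, ∑ x, μ (insert p P) x * fb f O' x ^ k ≤ ρ) :
    ∑ x, μ P x * fb f O x ^ (k + 1) ≤ ρ + 2 * m * τ + m * 2 ^ m * δ := by
  obtain ⟨n, rfl⟩ : ∃ n, k = n + 1 := ⟨k - 1, by omega⟩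
  have hδ : 0 ≤ δ := le_trans (Finset.sum_nonneg
    (fun x _ => mul_nonneg (h.mu0 P x) (abs_nonneg _))) h1
  have a0 : ∀ x, 0 ≤ fb f O x := cstep_fb_nonneg f O h.f0
  have a2 : ∀ x, fb f O x ≤ 2 := cstep_fb_le f O h.f2
  have b0 : ∀ x, 0 ≤ fb f O' x := cstep_fb_nonneg f O' h.f0
  obtain ⟨j0, hj0⟩ := hO'
  obtain ⟨p0, hp0⟩ := hB
  have side : ∀ p ∈ B, P ⊆ range p ∧ p < r ∧ O ⊆ range p := by
    intro p hp
    refine ⟨fun q hq => ?_, ?_, fun q hq => ?_⟩
    · exact Finset.mem_range.2 (hPB q hq p hp)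
    · exact lt_trans (hBO p hp j0 hj0) (Finset.mem_range.1 (hO'r hj0))
    · exact Finset.mem_range.2 (hOB q hq p hp)
  have hτ : 0 ≤ τ := by
    obtain ⟨s1, s2, s3⟩ := side p0 hp0
    exact le_trans (abs_nonneg _) (h.rule1 P p0 O 0 s1 s2 s3 (Nat.zero_le _))
  -- the estimate for one `p`
  have key : ∀ p ∈ B, ∑ x, (μ P x * fb f O x ^ (n + 1)) * f p x
      ≤ ρ + ((n : ℝ) + 1) * 2 ^ (n + 1) * δ + (2 * (n : ℝ) + 1) * τ := by
    intro p hp
    obtain ⟨s1, s2, s3⟩ := side p hp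
    have r1 := h.rule1 P p O (n + 1) s1 s2 s3 (by omega)
    have r1' := (abs_le.1 r1).2
    -- rule 2 averaged over `O'`
    have r2 : ∑ x, μ P x * (fb f O x ^ n * f p x) * fb f O' x - τ
        ≤ ∑ x, (μ (insert p P) x * fb f O x ^ n) * fb f O' x := by
      have q1 : ∀ q ∈ O', -τ ≤ ∑ x, (μ (insert p P) x * fb f O x ^ n
          - μ P x * (fb f O x ^ n * f p x)) * f q x := by
        intro q hq
        have r := h.rule2 P p q O n s1 (hBO p hp q hq) (Finset.mem_range.1 (hO'r hq)) s3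
          (by omega)
        have r' := (abs_le.1 r).1
        refine le_trans r' (le_of_eq ?_)
        rw [← Finset.sum_sub_distrib]
        refine Finset.sum_congr rfl (fun x _ => ?_)
        ring
      have q2 := cstep_le_avg f O' ⟨j0, hj0⟩ (fun x => μ (insert p P) x * fb f O x ^ n
          - μ P x * (fb f O x ^ n * f p x)) (-τ) q1
      have q3 : ∑ x, (μ (insert p P) x * fb f O x ^ n
          - μ P x * (fb f O x ^ n * f p x)) * fb f O' x
          = ∑ x, (μ (insert p P) x * fb f O x ^ n) * fb f O' x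
            - ∑ x, μ P x * (fb f O x ^ n * f p x) * fb f O' x := by
        rw [← Finset.sum_sub_distrib]
        refine Finset.sum_congr rfl (fun x _ => ?_)
        ring
      rw [q3] at q2
      linarith
    -- tangent
    have t1 : -(n : ℝ) * ∑ x, μ (insert p P) x * fb f O x ^ (n + 1)
        + ((n : ℝ) + 1) * ∑ x, (μ (insert p P) x * fb f O x ^ n) * fb f O' x ≤ ρ := by
      refine le_trans ?_ (h3 p hp)
      rw [Finset.mul_sum, Finset.mul_sum, ← Finset.sum_add_distrib]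
      refine Finset.sum_le_sum (fun x _ => ?_)
      have t := mul_le_mul_of_nonneg_left
        (cstep_tangent n (fb f O x) (fb f O' x) (a0 x) (b0 x)) (h.mu0 (insert p P) x)
      refine le_trans (le_of_eq ?_) t
      ring
    -- comparison of the two sides of the rules
    have c1 : ∑ x, (μ P x * fb f O x ^ (n + 1)) * f p x
        ≤ -(n : ℝ) * ∑ x, μ P x * (fb f O x ^ (n + 1) * f p x)
          + ((n : ℝ) + 1) * ∑ x, μ P x * (fb f O x ^ n * f p x) * fb f O' x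
          + ((n : ℝ) + 1) * 2 ^ (n + 1) * ∑ x, μ P x * |fb f O' x - fb f O x| := by
      rw [Finset.mul_sum, Finset.mul_sum, Finset.mul_sum, ← Finset.sum_add_distrib,
        ← Finset.sum_add_distrib]
      refine Finset.sum_le_sum (fun x _ => ?_)
      have u1 : fb f O x ^ n * f p x ≤ 2 ^ (n + 1) := by
        rw [pow_succ]
        exact mul_le_mul (pow_le_pow_left₀ (a0 x) (a2 x) n) (h.f2 p x) (h.f0 p x)
          (by positivity)
      have u0 : 0 ≤ fb f O x ^ n * f p x := mul_nonneg (pow_nonneg (a0 x) n) (h.f0 p x)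
      have u2 : fb f O x ^ n * f p x * (fb f O x - fb f O' x)
          ≤ 2 ^ (n + 1) * |fb f O' x - fb f O x| := by
        calc fb f O x ^ n * f p x * (fb f O x - fb f O' x)
            ≤ fb f O x ^ n * f p x * |fb f O' x - fb f O x| := by
              refine mul_le_mul_of_nonneg_left ?_ u0
              rw [abs_sub_comm]
              exact le_abs_self _
          _ ≤ 2 ^ (n + 1) * |fb f O' x - fb f O x| :=
              mul_le_mul_of_nonneg_right u1 (abs_nonneg _)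
      have u3 := mul_le_mul_of_nonneg_left u2
        (mul_nonneg (by positivity : (0 : ℝ) ≤ (n : ℝ) + 1) (h.mu0 P x))
      have e1 : fb f O x ^ (n + 1) = fb f O x ^ n * fb f O x := pow_succ _ _
      rw [e1]
      nlinarith [u3]
    have c2 : ((n : ℝ) + 1) * 2 ^ (n + 1) * ∑ x, μ P x * |fb f O' x - fb f O x|
        ≤ ((n : ℝ) + 1) * 2 ^ (n + 1) * δ :=
      mul_le_mul_of_nonneg_left h2 (by positivity)
    have n0 : (0 : ℝ) ≤ (n : ℝ) := Nat.cast_nonneg _
    have c3 := mul_le_mul_of_nonneg_left r1' n0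
    have c4 := mul_le_mul_of_nonneg_left r2 (by positivity : (0 : ℝ) ≤ (n : ℝ) + 1)
    nlinarith [c1, c2, c3, c4, t1]
  have a1 := cstep_avg_le f B ⟨p0, hp0⟩ (fun x => μ P x * fb f O x ^ (n + 1)) _ key
  have a3 : ∑ x, μ P x * fb f O x ^ (n + 1 + 1)
      ≤ ∑ x, (μ P x * fb f O x ^ (n + 1)) * fb f B x
        + 2 ^ (n + 1) * ∑ x, μ P x * |fb f B x - fb f O x| := by
    rw [Finset.mul_sum, ← Finset.sum_add_distrib]
    refine Finset.sum_le_sum (fun x _ => ?_)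
    have u1 : fb f O x ^ (n + 1) ≤ 2 ^ (n + 1) := pow_le_pow_left₀ (a0 x) (a2 x) _
    have u0 : 0 ≤ fb f O x ^ (n + 1) := pow_nonneg (a0 x) _
    have u2 : fb f O x ^ (n + 1) * (fb f O x - fb f B x)
        ≤ 2 ^ (n + 1) * |fb f B x - fb f O x| := by
      calc fb f O x ^ (n + 1) * (fb f O x - fb f B x)
          ≤ fb f O x ^ (n + 1) * |fb f B x - fb f O x| := by
            refine mul_le_mul_of_nonneg_left ?_ u0
            rw [abs_sub_comm]
            exact le_abs_self _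
        _ ≤ 2 ^ (n + 1) * |fb f B x - fb f O x| :=
            mul_le_mul_of_nonneg_right u1 (abs_nonneg _)
    have u3 := mul_le_mul_of_nonneg_left u2 (h.mu0 P x)
    have e1 : fb f O x ^ (n + 1 + 1) = fb f O x ^ (n + 1) * fb f O x := pow_succ _ _
    rw [e1]
    nlinarith [u3]
  have a4 : (2 : ℝ) ^ (n + 1) * ∑ x, μ P x * |fb f B x - fb f O x| ≤ 2 ^ (n + 1) * δ :=
    mul_le_mul_of_nonneg_left h1 (by positivity)
  have hm1 : ((n : ℝ) + 2) ≤ m := by exact_mod_cast (by omega : n + 2 ≤ m)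
  have hp2 : (2 : ℝ) ^ (n + 1) ≤ 2 ^ m :=
    pow_le_pow_right₀ (by norm_num) (by omega)
  have f1 : ((n : ℝ) + 2) * 2 ^ (n + 1) * δ ≤ m * 2 ^ m * δ := by
    refine mul_le_mul_of_nonneg_right ?_ hδ
    exact mul_le_mul hm1 hp2 (by positivity) (by positivity)
  have f2 : (2 * (n : ℝ) + 1) * τ ≤ 2 * m * τ := by
    refine mul_le_mul_of_nonneg_right ?_ hτ
    linarith
  have f3 : ((n : ℝ) + 2) * 2 ^ (n + 1) * δ
      = ((n : ℝ) + 1) * 2 ^ (n + 1) * δ + 2 ^ (n + 1) * δ := by ring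
  linarith [a1, a3, a4, f1, f2, f3]

theorem chain_step0 {E : Type} [Fintype E] {m r : ℕ} {τ : ℝ} {μ : Finset ℕ → E → ℝ}
    {f : ℕ → E → ℝ} (h : Sys m r τ μ f) (P O B : Finset ℕ) (hm : 1 ≤ m) (hτ : 0 ≤ τ)
    (hP : P ⊆ range r) (hPm : P.card + 1 = m) (hB : B.Nonempty) (hBr : B ⊆ range r)
    (hPB : ∀ p ∈ P, ∀ j ∈ B, p < j) (δ : ℝ)
    (h1 : ∑ x, μ P x * |fb f B x - fb f O x| ≤ δ) :
    ∑ x, μ P x * fb f O x ≤ 2 * m * τ + m * 2 ^ m * δ := by
  have hδ : 0 ≤ δ := le_trans (Finset.sum_nonneg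
    (fun x _ => mul_nonneg (h.mu0 P x) (abs_nonneg _))) h1
  have key : ∀ p ∈ B, ∑ x, μ P x * f p x ≤ τ := by
    intro p hp
    have hpP : p ∉ P := fun hh => lt_irrefl p (hPB p hh p hp)
    have hsub : insert p P ⊆ range r := Finset.insert_subset (hBr hp) hP
    have hcard : (insert p P).card = m := by
      rw [Finset.card_insert_of_notMem hpP]
      exact hPm
    have hv := h.van (insert p P) hsub hcard
    have hr := h.rule1 P p ∅ 0 (fun q hq => Finset.mem_range.2 (hPB q hq p hp))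
      (Finset.mem_range.1 (hBr hp)) (Finset.empty_subset _) (Nat.zero_le _)
    have hr' := (abs_le.1 hr).1
    have e1 : ∑ x, μ (insert p P) x * fb f ∅ x ^ 0 = 0 := by
      refine Finset.sum_eq_zero (fun x _ => ?_)
      rw [hv x, zero_mul]
    have e2 : ∑ x, μ P x * (fb f ∅ x ^ 0 * f p x) = ∑ x, μ P x * f p x := by
      refine Finset.sum_congr rfl (fun x _ => ?_)
      rw [pow_zero, one_mul]
    rw [e1, e2] at hr'
    linarith
  have a1 := cstep_avg_le f B hB (fun x => μ P x) _ key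
  have a3 : ∑ x, μ P x * fb f O x
      ≤ ∑ x, μ P x * fb f B x + ∑ x, μ P x * |fb f B x - fb f O x| := by
    rw [← Finset.sum_add_distrib]
    refine Finset.sum_le_sum (fun x _ => ?_)
    rw [← mul_add]
    refine mul_le_mul_of_nonneg_left ?_ (h.mu0 P x)
    have := neg_abs_le (fb f B x - fb f O x)
    linarith
  have hm1 : (1 : ℝ) ≤ m := by exact_mod_cast hm
  have hp2 : (1 : ℝ) ≤ 2 ^ m := one_le_pow₀ (by norm_num)
  have f1 : δ ≤ m * 2 ^ m * δ := by
    have : 1 * 1 ≤ (m : ℝ) * 2 ^ m := mul_le_mul hm1 hp2 (by norm_num) (by positivity)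
    nlinarith
  have f2 : τ ≤ 2 * m * τ := by nlinarith
  linarith

end Pool.Agent.Helper34.FQ
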