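import Pool.Agent.Helper34.FQ.Defs

/-!
Fractional polychromatic colourings (problem MP_08bd45_co): the rows ABEL and FIN.
-/

namespace Pool.Agent.Helper34.FQ

open Finset Pool.Agent.Helper34.PN

theorem abel_aux {α : Type} [LinearOrder α] (D u n : α → ℝ) (Z : Finset α) :
    (∀ x ∈ Z, 0 ≤ D x) → (∀ x ∈ Z, ∀ y ∈ Z, x ≤ y → D y ≤ D x) →
    (∀ y ∈ Z, ∑ x ∈ Z.filter (fun x => x ≤ y), u x
      ≤ ∑ x ∈ Z.filter (fun x => x ≤ y), n x) →
    ∀ d : ℝ, 0 ≤ d → (∀ x ∈ Z, d ≤ D x) →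
    d * ∑ x ∈ Z, (n x - u x) ≤ ∑ x ∈ Z, D x * (n x - u x) := by
  induction Z using Finset.induction_on_max with
  | empty =>
    intro _ _ _ d _ _
    simp
  | insert a s ha ih =>
    intro hD hDa h d hd0 hd
    have has : a ∉ s := fun hh => lt_irrefl a (ha a hh)
    have i1 := ih (fun x hx => hD x (Finset.mem_insert_of_mem hx))
      (fun x hx y hy => hDa x (Finset.mem_insert_of_mem hx) y (Finset.mem_insert_of_mem hy))
      (fun y hy => by
        have := h y (Finset.mem_insert_of_mem hy)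
        rw [Finset.filter_insert, if_neg (not_le.2 (ha y hy))] at this
        exact this)
      (D a) (hD a (Finset.mem_insert_self _ _))
      (fun x hx => hDa x (Finset.mem_insert_of_mem hx) a (Finset.mem_insert_self _ _)
        (ha x hx).le)
    have i2 := h a (Finset.mem_insert_self _ _)
    have i3 : (insert a s).filter (fun x => x ≤ a) = insert a s := by
      refine Finset.filter_true_of_mem (fun x hx => ?_)
      rcases Finset.mem_insert.1 hx with rfl | hx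
      · exact le_refl _
      · exact (ha x hx).le
    rw [i3] at i2
    have i4 : 0 ≤ ∑ x ∈ insert a s, (n x - u x) := by
      rw [Finset.sum_sub_distrib]
      linarith
    have i5 := mul_le_mul_of_nonneg_right (hd a (Finset.mem_insert_self _ _)) i4
    refine le_trans i5 ?_
    rw [Finset.sum_insert has, Finset.sum_insert has, mul_add]
    linarith

theorem abel {α : Type} [LinearOrder α] (Z : Finset α) (D u n : α → ℝ)
    (hD : ∀ x ∈ Z, 0 ≤ D x) (hDa : ∀ x ∈ Z, ∀ y ∈ Z, x ≤ y → D y ≤ D x)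
    (h : ∀ y ∈ Z, ∑ x ∈ Z.filter (fun x => x ≤ y), u x
      ≤ ∑ x ∈ Z.filter (fun x => x ≤ y), n x) :
    ∑ x ∈ Z, D x * u x ≤ ∑ x ∈ Z, D x * n x := by
  have h1 := abel_aux D u n Z hD hDa h 0 le_rfl hD
  rw [zero_mul] at h1
  have h2 : ∑ x ∈ Z, D x * (n x - u x) = ∑ x ∈ Z, D x * n x - ∑ x ∈ Z, D x * u x := by
    rw [← Finset.sum_sub_distrib]
    exact Finset.sum_congr rfl (fun x _ => mul_sub _ _ _)
  linarith

theorem final_ineq {E : Type} [Fintype E] (m : ℕ) (hm : 1 ≤ m) (μ : E → ℝ)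
    (hμ : ∀ x, 0 ≤ μ x) (u v : E → ℝ) (hu : ∀ x, 0 ≤ u x) (hv : ∀ x, 0 ≤ v x) (τ : ℝ)
    (h1 : 1 - τ ≤ ∑ x, μ x) (h2 : ∑ x, μ x * |u x + v x - 1| ≤ τ) :
    2 * (1 / 2 : ℝ) ^ m * (1 - (m + 1) * τ) ≤ ∑ x, μ x * (u x ^ m + v x ^ m) := by
  obtain ⟨k, rfl⟩ : ∃ k, m = k + 1 := ⟨m - 1, by omega⟩
  have key : ∀ x, 2 * (1 / 2 : ℝ) ^ (k + 1) * (1 - ((k + 1 : ℕ) : ℝ) * |u x + v x - 1|)
      ≤ u x ^ (k + 1) + v x ^ (k + 1) := by
    intro x
    have a1 := add_pow_le (hu x) (hv x) (k + 1)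
    have a2 : 1 + ((k + 1 : ℕ) : ℝ) * (u x + v x - 1) ≤ (1 + (u x + v x - 1)) ^ (k + 1) :=
      one_add_mul_le_pow (by linarith [hu x, hv x]) (k + 1)
    have a3 : -|u x + v x - 1| ≤ u x + v x - 1 := neg_abs_le _
    have a4 : ((k + 1 : ℕ) : ℝ) * (-|u x + v x - 1|)
        ≤ ((k + 1 : ℕ) : ℝ) * (u x + v x - 1) :=
      mul_le_mul_of_nonneg_left a3 (Nat.cast_nonneg _)
    have a5 : 1 + (u x + v x - 1) = u x + v x := by ring
    rw [a5] at a2
    have a6 : 1 - ((k + 1 : ℕ) : ℝ) * |u x + v x - 1|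
        ≤ 2 ^ k * (u x ^ (k + 1) + v x ^ (k + 1)) := by
      have a7 : k + 1 - 1 = k := by omega
      rw [a7] at a1
      linarith
    have a8 := mul_le_mul_of_nonneg_left a6
      (by positivity : (0 : ℝ) ≤ 2 * (1 / 2 : ℝ) ^ (k + 1))
    refine le_trans a8 (le_of_eq ?_)
    have a9 : 2 * (1 / 2 : ℝ) ^ (k + 1) * 2 ^ k = 1 := by
      rw [pow_succ]
      have : (1 / 2 : ℝ) ^ k * 2 ^ k = 1 := by
        rw [← mul_pow]
        norm_num
      linarith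
    rw [← mul_assoc, a9, one_mul]
  have s1 : ∑ x, μ x * (2 * (1 / 2 : ℝ) ^ (k + 1)
        * (1 - ((k + 1 : ℕ) : ℝ) * |u x + v x - 1|))
      ≤ ∑ x, μ x * (u x ^ (k + 1) + v x ^ (k + 1)) :=
    Finset.sum_le_sum (fun x _ => mul_le_mul_of_nonneg_left (key x) (hμ x))
  refine le_trans ?_ s1
  have s2 : ∑ x, μ x * (2 * (1 / 2 : ℝ) ^ (k + 1)
        * (1 - ((k + 1 : ℕ) : ℝ) * |u x + v x - 1|))
      = 2 * (1 / 2 : ℝ) ^ (k + 1) * (∑ x, μ x
        - ((k + 1 : ℕ) : ℝ) * ∑ x, μ x * |u x + v x - 1|) := by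
    rw [Finset.mul_sum, ← Finset.sum_sub_distrib, Finset.mul_sum]
    refine Finset.sum_congr rfl (fun x _ => ?_)
    ring
  rw [s2]
  refine mul_le_mul_of_nonneg_left ?_ (by positivity)
  have s3 := mul_le_mul_of_nonneg_left h2 (Nat.cast_nonneg (k + 1) : (0 : ℝ) ≤ _)
  linarith

end Pool.Agent.Helper34.FQ
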