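import Mathlib

open Finset

set_option autoImplicit false

namespace Pool.Agent.Helper31.Ab

variable {Γ : Type*} [AddCommGroup Γ] [Fintype Γ] [DecidableEq Γ]

/-- `∑_χ |∑_{x∈B} χ x|² Re (χ s) = |Γ| #{(x,y) ∈ B² : x = y + s}` in the two cases we need. -/
theorem sum_norm_sq (B : Finset Γ) (s : Γ) :
    ∑ χ : AddChar Γ ℂ, (‖∑ x ∈ B, χ x‖ ^ 2 * (χ s).re) =
      (Fintype.card Γ : ℝ) * ((B.filter (fun x => x + s ∈ B)).card : ℝ) := by
  have h1 : ∀ χ : AddChar Γ ℂ, ((‖∑ x ∈ B, χ x‖ ^ 2 * (χ s).re : ℝ)) =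
      (∑ x ∈ B, ∑ y ∈ B, χ (x - y + s)).re := by
    intro χ
    have h2 : (∑ x ∈ B, ∑ y ∈ B, χ (x - y + s)) =
        (∑ x ∈ B, χ x) * (starRingEnd ℂ) (∑ x ∈ B, χ x) * χ s := by
      rw [map_sum, Finset.sum_mul_sum, Finset.sum_mul]
      refine Finset.sum_congr rfl fun x _ => ?_
      rw [Finset.sum_mul]
      refine Finset.sum_congr rfl fun y _ => ?_
      rw [AddChar.map_add_eq_mul, sub_eq_add_neg, AddChar.map_add_eq_mul]
      have h3 : χ (-y) = (starRingEnd ℂ) (χ y) := by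
        have h4 : ‖χ y‖ = 1 := χ.norm_apply y
        rw [AddChar.map_neg_eq_inv]
        exact Complex.inv_eq_conj h4
      rw [h3]
    rw [h2, Complex.mul_conj, Complex.normSq_eq_norm_sq]
    rw [Complex.re_ofReal_mul]
  rw [Finset.sum_congr rfl fun χ _ => h1 χ, ← Complex.re_sum]
  rw [Finset.sum_comm]
  have h5 : ∀ x ∈ B, ∑ χ : AddChar Γ ℂ, ∑ y ∈ B, χ (x - y + s) =
      if x + s ∈ B then (Fintype.card Γ : ℂ) else 0 := by
    intro x hx
    rw [Finset.sum_comm]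
    have h6 : ∀ y ∈ B, ∑ χ : AddChar Γ ℂ, χ (x - y + s) =
        if x + s = y then (Fintype.card Γ : ℂ) else 0 := by
      intro y _
      rw [AddChar.sum_apply_eq_ite]
      have : (x - y + s = 0) ↔ (x + s = y) := by
        constructor
        · intro h
          have : x + s = (x - y + s) + y := by abel
          rw [this, h, zero_add]
        · intro h
          have : x - y + s = (x + s) - y := by abel
          rw [this, h, sub_self]
      simp only [this]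
    rw [Finset.sum_congr rfl h6]
    rw [Finset.sum_ite_eq]
  rw [Finset.sum_congr rfl h5]
  rw [← Finset.sum_filter, Finset.sum_const, nsmul_eq_mul]
  rw [← Nat.cast_mul, Complex.natCast_re, Nat.cast_mul]
  ring

/-- Spectral selection: there is a tuple of characters which works on average for all of `N`. -/
theorem exists_tuple (B : Finset Γ) (hB : Fintype.card Γ ≤ 3 * B.card) (N : Finset Γ)
    (hN : ∀ s ∈ N, ∀ x ∈ B, x + s ∉ B) (hne : N.Nonempty) {a b : ℝ} (hb : 0 ≤ b) (hab : b ≤ a)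
    (k : ℕ) :
    ∃ χ : Fin k → AddChar Γ ℂ,
      ∑ s ∈ N, ∏ i, (a + b * (χ i s).re) ≤ N.card * (a - b / 2) ^ k := by
  classical
  set μ : AddChar Γ ℂ → ℝ := fun χ => if χ = 0 then 0 else ‖∑ x ∈ B, χ x‖ ^ 2 with hμ
  have hcard : 0 < (Fintype.card Γ : ℝ) := by
    exact_mod_cast Fintype.card_pos_iff.mpr ⟨0⟩
  have hBpos : 0 < (B.card : ℝ) := by
    have h1 : 0 < Fintype.card Γ := Fintype.card_pos_iff.mpr ⟨0⟩
    have : 0 < B.card := by omega
    exact_mod_cast this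
  have hμ0 : ∀ χ, 0 ≤ μ χ := by
    intro χ; simp only [hμ]; split_ifs <;> positivity
  -- total weight
  have hsplit : ∀ s : Γ, ∑ χ : AddChar Γ ℂ, μ χ * (χ s).re =
      (Fintype.card Γ : ℝ) * ((B.filter (fun x => x + s ∈ B)).card : ℝ) - (B.card : ℝ) ^ 2 := by
    intro s
    rw [← sum_norm_sq B s, ← Finset.add_sum_erase _ _ (Finset.mem_univ (0 : AddChar Γ ℂ)),
      ← Finset.add_sum_erase _ _ (Finset.mem_univ (0 : AddChar Γ ℂ))]
    have e1 : μ 0 * ((0 : AddChar Γ ℂ) s).re = 0 := by simp [hμ]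
    have e2 : ‖∑ x ∈ B, (0 : AddChar Γ ℂ) x‖ ^ 2 * ((0 : AddChar Γ ℂ) s).re = (B.card : ℝ) ^ 2 := by
      simp
    rw [e1, e2]
    have e3 : ∑ χ ∈ univ.erase (0 : AddChar Γ ℂ), μ χ * (χ s).re =
        ∑ χ ∈ univ.erase (0 : AddChar Γ ℂ), ‖∑ x ∈ B, χ x‖ ^ 2 * (χ s).re := by
      refine Finset.sum_congr rfl fun χ hχ => ?_
      have : χ ≠ 0 := (Finset.mem_erase.mp hχ).1
      simp only [hμ, if_neg this]
    rw [e3]; ring
  set W : ℝ := ∑ χ : AddChar Γ ℂ, μ χ with hW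
  have hWeq : W = (Fintype.card Γ : ℝ) * B.card - (B.card : ℝ) ^ 2 := by
    have := hsplit 0
    simp only [add_zero, AddChar.map_zero_eq_one, Complex.one_re, mul_one,
      Finset.filter_true_of_mem (fun x (hx : x ∈ B) => hx)] at this
    rw [hW, this]
  have hneg : ∀ s ∈ N, ∑ χ : AddChar Γ ℂ, μ χ * (χ s).re = - (B.card : ℝ) ^ 2 := by
    intro s hs
    rw [hsplit s, Finset.filter_false_of_mem (hN s hs)]
    simp
  -- positivity of W
  have hBlt : (B.card : ℝ) < Fintype.card Γ := by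
    obtain ⟨s, hs⟩ := hne
    have hlt : B.card < Fintype.card Γ := by
      rw [← Finset.card_univ]
      apply Finset.card_lt_card
      rw [Finset.ssubset_univ_iff]
      rintro rfl
      exact hN s hs 0 (Finset.mem_univ _) (Finset.mem_univ _)
    exact_mod_cast hlt
  have hWpos : 0 < W := by
    rw [hWeq]; nlinarith
  have hhalf : W ≤ 2 * (B.card : ℝ) ^ 2 := by
    rw [hWeq]
    have : (Fintype.card Γ : ℝ) ≤ 3 * B.card := by exact_mod_cast hB
    nlinarith
  -- averaging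
  by_contra hcon
  push Not at hcon
  have hsum : ∑ χ : Fin k → AddChar Γ ℂ, (∏ i, μ (χ i)) * ∑ s ∈ N, ∏ i, (a + b * (χ i s).re) =
      ∑ s ∈ N, (∑ χ : AddChar Γ ℂ, μ χ * (a + b * (χ s).re)) ^ k := by
    have e1 : ∀ χ : Fin k → AddChar Γ ℂ, (∏ i, μ (χ i)) * ∑ s ∈ N, ∏ i, (a + b * (χ i s).re) =
        ∑ s ∈ N, ∏ i, (μ (χ i) * (a + b * (χ i s).re)) := by
      intro χ
      rw [Finset.mul_sum]
      refine Finset.sum_congr rfl fun s _ => ?_
      rw [Finset.prod_mul_distrib]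
    rw [Finset.sum_congr rfl fun χ _ => e1 χ, Finset.sum_comm]
    refine Finset.sum_congr rfl fun s _ => ?_
    have h := Finset.prod_univ_sum (fun _ : Fin k => (Finset.univ : Finset (AddChar Γ ℂ)))
      (fun _ χ => μ χ * (a + b * (χ s).re))
    rw [Fintype.piFinset_univ] at h
    rw [← h, Finset.prod_const, Finset.card_univ, Fintype.card_fin]
  have hsumW : ∑ χ : Fin k → AddChar Γ ℂ, (∏ i, μ (χ i)) = W ^ k := by
    have h := Finset.prod_univ_sum (fun _ : Fin k => (Finset.univ : Finset (AddChar Γ ℂ)))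
      (fun _ χ => μ χ)
    rw [Fintype.piFinset_univ] at h
    rw [← h, Finset.prod_const, Finset.card_univ, Fintype.card_fin]
  have hone : ∀ s ∈ N, ∑ χ : AddChar Γ ℂ, μ χ * (a + b * (χ s).re) ≤ W * (a - b / 2) := by
    intro s hs
    have : ∑ χ : AddChar Γ ℂ, μ χ * (a + b * (χ s).re) =
        a * W + b * ∑ χ : AddChar Γ ℂ, μ χ * (χ s).re := by
      rw [hW, Finset.mul_sum, Finset.mul_sum, ← Finset.sum_add_distrib]
      refine Finset.sum_congr rfl fun χ _ => ?_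
      ring
    rw [this, hneg s hs]
    nlinarith
  have hnn : ∀ s ∈ N, 0 ≤ ∑ χ : AddChar Γ ℂ, μ χ * (a + b * (χ s).re) := by
    intro s _
    refine Finset.sum_nonneg fun χ _ => mul_nonneg (hμ0 χ) ?_
    have h1 : |(χ s).re| ≤ 1 := by
      rw [← χ.norm_apply s]; exact Complex.abs_re_le_norm _
    have h2 := (abs_le.mp h1).1
    nlinarith
  have hub : ∑ χ : Fin k → AddChar Γ ℂ, (∏ i, μ (χ i)) * ∑ s ∈ N, ∏ i, (a + b * (χ i s).re) ≤
      W ^ k * (N.card * (a - b / 2) ^ k) := by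
    rw [hsum]
    calc ∑ s ∈ N, (∑ χ : AddChar Γ ℂ, μ χ * (a + b * (χ s).re)) ^ k
        ≤ ∑ s ∈ N, (W * (a - b / 2)) ^ k :=
          Finset.sum_le_sum fun s hs => pow_le_pow_left₀ (hnn s hs) (hone s hs) k
      _ = W ^ k * (N.card * (a - b / 2) ^ k) := by
          rw [Finset.sum_const, nsmul_eq_mul, mul_pow]; ring
  have hWk : 0 < W ^ k := by positivity
  have hlb : W ^ k * (N.card * (a - b / 2) ^ k) <
      ∑ χ : Fin k → AddChar Γ ℂ, (∏ i, μ (χ i)) * ∑ s ∈ N, ∏ i, (a + b * (χ i s).re) := by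
    rw [← hsumW, Finset.sum_mul]
    have hex : ∃ χ : Fin k → AddChar Γ ℂ, 0 < ∏ i, μ (χ i) := by
      by_contra hno
      push Not at hno
      have : ∑ χ : Fin k → AddChar Γ ℂ, (∏ i, μ (χ i)) ≤ 0 :=
        Finset.sum_nonpos fun χ _ => hno χ
      rw [hsumW] at this
      linarith
    obtain ⟨χ₀, hχ₀⟩ := hex
    refine Finset.sum_lt_sum (fun χ _ => ?_) ⟨χ₀, Finset.mem_univ _, ?_⟩
    · exact mul_le_mul_of_nonneg_left (hcon χ).le (Finset.prod_nonneg fun i _ => hμ0 _)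
    · exact mul_lt_mul_of_pos_left (hcon χ₀) hχ₀
  linarith

end Pool.Agent.Helper31.Ab
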