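import Mathlib

open Real Set

set_option autoImplicit false

namespace Pool.Agent.Helper31.Ab

/-- chord bound for the sine on `[0, π/4]`. -/
theorem sin_chord {y : ℝ} (h0 : 0 ≤ y) (h1 : y ≤ π / 4) : 2 * √2 / π * y ≤ sin y := by
  have hpi := Real.pi_pos
  have hc : ConcaveOn ℝ (Icc 0 π) sin := strictConcaveOn_sin_Icc.concaveOn
  have h := hc.2 (show (0 : ℝ) ∈ Icc 0 π from ⟨le_refl 0, hpi.le⟩)
    (show (π / 4 : ℝ) ∈ Icc 0 π from ⟨by positivity, by linarith⟩)
    (show (0 : ℝ) ≤ 1 - 4 / π * y by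
      have : 4 / π * y ≤ 1 := by
        calc 4 / π * y ≤ 4 / π * (π / 4) := by gcongr
          _ = 1 := by field_simp
      linarith)
    (show (0 : ℝ) ≤ 4 / π * y by positivity) (by ring)
  simp only [smul_eq_mul, sin_zero, mul_zero, zero_add, Real.sin_pi_div_four] at h
  have e : 4 / π * y * (π / 4) = y := by field_simp
  rw [e] at h
  calc 2 * √2 / π * y = 4 / π * y * (√2 / 2) := by ring
    _ ≤ sin y := h

theorem cos_le_quad {x : ℝ} (h0 : 0 ≤ x) (h1 : x ≤ π / 2) : cos x ≤ 1 - 4 / π ^ 2 * x ^ 2 := by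
  have h := sin_chord (y := x / 2) (by linarith) (by linarith)
  have hpi := Real.pi_pos
  have h2 : cos x = 1 - 2 * sin (x / 2) ^ 2 := by
    have := Real.cos_two_mul (x / 2)
    rw [show 2 * (x / 2) = x by ring] at this
    rw [this]
    have := Real.sin_sq_add_cos_sq (x / 2)
    linarith
  have h3 : (2 * √2 / π * (x / 2)) ^ 2 ≤ sin (x / 2) ^ 2 :=
    pow_le_pow_left₀ (by positivity) h 2
  have h4 : (2 * √2 / π * (x / 2)) ^ 2 = 2 / π ^ 2 * x ^ 2 := by
    have : (√2) ^ 2 = 2 := Real.sq_sqrt (by norm_num)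
    calc (2 * √2 / π * (x / 2)) ^ 2 = (√2) ^ 2 * x ^ 2 / π ^ 2 := by field_simp
      _ = _ := by rw [this]; ring
  rw [h2]
  rw [h4] at h3
  have e : 4 / π ^ 2 * x ^ 2 = 2 * (2 / π ^ 2 * x ^ 2) := by ring
  rw [e]
  linarith

/-- the rounding inequality. -/
theorem trig {t : ℝ} (h0 : 0 ≤ t) (h1 : t ≤ 1 / 2) :
    1 - 2 * t ≤ 29 / 50 + 21 / 50 * cos (2 * π * t) := by
  have hpi := Real.pi_pos
  rcases le_total t (1 / 4) with h | h
  · have h2 := Real.one_sub_mul_le_cos (x := 2 * π * t) (by positivity) (by nlinarith)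
    have e : 2 / π * (2 * π * t) = 4 * t := by field_simp; ring
    rw [e] at h2
    nlinarith
  · have h2 := cos_le_quad (x := π * (1 - 2 * t)) (by apply mul_nonneg hpi.le; linarith)
      (by nlinarith)
    have e : 4 / π ^ 2 * (π * (1 - 2 * t)) ^ 2 = 4 * (1 - 2 * t) ^ 2 := by field_simp
    rw [e] at h2
    have e2 : cos (2 * π * t) = - cos (π * (1 - 2 * t)) := by
      rw [show π * (1 - 2 * t) = π - 2 * π * t by ring, Real.cos_pi_sub, neg_neg]
    rw [e2]
    nlinarith [sq_nonneg (1 - 2 * t - 25 / 84)]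

end Pool.Agent.Helper31.Ab
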