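import Mathlib
import Pool.Agent.Helper31.AbTrig

open Finset Real

set_option autoImplicit false

namespace Pool.Agent.Helper31.Ab

instance : NeZero (2000 : ℕ) := ⟨by norm_num⟩

/-- the two half circles of `ZMod 2000`. -/
def bit (x : ZMod 2000) : Prop := x.val < 1000

instance (x : ZMod 2000) : Decidable (bit x) := by unfold bit; infer_instance

/-- shifts by `D` or by `D + 1` may keep `m` on its side. -/
def Bad (D m : ZMod 2000) : Prop := (bit m ↔ bit (m + D)) ∨ (bit m ↔ bit (m + D + 1))

instance (D m : ZMod 2000) : Decidable (Bad D m) := by unfold Bad; infer_instance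

theorem val_add' (a b : ZMod 2000) : (a + b).val = (a.val + b.val) % 2000 := ZMod.val_add a b

theorem card_good (D : ZMod 2000) :
    2 * min D.val (1999 - D.val) ≤
      ((univ : Finset (ZMod 2000)).filter (fun m => ¬ Bad D m)).card := by
  have hD : D.val < 2000 := ZMod.val_lt D
  set E := min D.val (1999 - D.val) with hE
  have hone : (1 : ZMod 2000).val = 1 := by
    have := ZMod.val_natCast 2000 1
    simpa using this
  let f : ℕ → ZMod 2000 := fun t =>
    ((if D.val < 1000 then (if t < E then 1000 - D.val + t else 2000 - D.val + (t - E))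
      else (if t < E then t else 1000 + (t - E)) : ℕ) : ZMod 2000)
  have hval : ∀ t, t < 2 * E → (f t).val =
      (if D.val < 1000 then (if t < E then 1000 - D.val + t else 2000 - D.val + (t - E))
      else (if t < E then t else 1000 + (t - E))) := by
    intro t ht
    simp only [f]
    rw [ZMod.val_natCast]
    apply Nat.mod_eq_of_lt
    split_ifs <;> omega
  have h := Finset.card_le_card_of_injOn (s := Finset.range (2 * E))
    (t := (univ : Finset (ZMod 2000)).filter (fun m => ¬ Bad D m)) f ?_ ?_
  · simpa using h
  · intro t ht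
    rw [Finset.coe_range, Set.mem_Iio] at ht
    have hv := hval t ht
    rw [Finset.mem_coe, Finset.mem_filter]
    refine ⟨Finset.mem_univ _, ?_⟩
    unfold Bad bit
    rw [val_add' (f t + D) 1, val_add' (f t) D, hone, hv]
    split_ifs <;> omega
  · intro t ht t' ht' he
    rw [Finset.coe_range, Set.mem_Iio] at ht ht'
    have hv := hval t ht
    have hv' := hval t' ht'
    rw [he] at hv
    rw [hv] at hv'
    split_ifs at hv' <;> omega

theorem card_bad (D : ZMod 2000) :
    ((univ : Finset (ZMod 2000)).filter (fun m => Bad D m)).card + 2 * min D.val (1999 - D.val) ≤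
      2000 := by
  have h := card_good D
  have h2 := Finset.card_filter_add_card_filter_not (s := (univ : Finset (ZMod 2000)))
    (fun m => Bad D m)
  rw [Finset.card_univ, ZMod.card] at h2
  omega

theorem card_bad_shift (D a : ZMod 2000) :
    ((univ : Finset (ZMod 2000)).filter (fun m => Bad D (a + m))).card =
      ((univ : Finset (ZMod 2000)).filter (fun m => Bad D m)).card := by
  apply Finset.card_bij (fun m _ => a + m)
  · intro m hm
    rw [Finset.mem_filter] at hm ⊢
    exact ⟨Finset.mem_univ _, hm.2⟩
  · intro m _ m' _ h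
    exact add_left_cancel h
  · intro m hm
    rw [Finset.mem_filter] at hm
    refine ⟨m - a, ?_, by abel⟩
    rw [Finset.mem_filter]
    refine ⟨Finset.mem_univ _, ?_⟩
    rw [show a + (m - a) = m by abel]
    exact hm.2

/-- the discretised angle. -/
noncomputable def cls (φ : ℝ) : ZMod 2000 := ((⌊2000 * φ⌋ : ℤ) : ZMod 2000)

theorem cls_val (φ : ℝ) : ((cls φ).val : ℤ) = ⌊2000 * Int.fract φ⌋ := by
  unfold cls
  rw [ZMod.val_intCast]
  have h1 : 2000 * φ = 2000 * Int.fract φ + ((2000 * ⌊φ⌋ : ℤ) : ℝ) := by
    push_cast
    have := Int.floor_add_fract φ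
    linarith
  rw [h1, Int.floor_add_intCast]
  have h0 : 0 ≤ ⌊2000 * Int.fract φ⌋ := Int.floor_nonneg.mpr (by
    have := Int.fract_nonneg φ; positivity)
  have h2 : ⌊2000 * Int.fract φ⌋ < 2000 := by
    rw [Int.floor_lt]
    have := Int.fract_lt_one φ
    push_cast
    linarith
  simp only [Nat.cast_ofNat]
  omega

theorem bad_le (φ : ℝ) (a : ZMod 2000) :
    (((univ : Finset (ZMod 2000)).filter (fun m => Bad (cls φ) (a + m))).card : ℝ) ≤
      2000 * (581 / 1000 + 420 / 1000 * cos (2 * π * φ)) := by
  rw [card_bad_shift]
  have h := card_bad (cls φ)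
  set c := ((univ : Finset (ZMod 2000)).filter (fun m => Bad (cls φ) m)).card
  have hv := cls_val φ
  set D := (cls φ).val with hD
  have hDlt : D < 2000 := ZMod.val_lt _
  set f := Int.fract φ with hf
  have hf0 : 0 ≤ f := Int.fract_nonneg φ
  have hf1 : f < 1 := Int.fract_lt_one φ
  have hDle : (D : ℝ) ≤ 2000 * f := by
    have := Int.floor_le (2000 * f)
    rw [← hv] at this
    exact_mod_cast this
  have hDgt : 2000 * f < D + 1 := by
    have := Int.lt_floor_add_one (2000 * f)
    rw [← hv] at this
    exact_mod_cast this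
  have hcos : cos (2 * π * φ) = cos (2 * π * f) := by
    have : 2 * π * φ = 2 * π * f + ⌊φ⌋ * (2 * π) := by
      have h7 : φ = ⌊φ⌋ + f := (Int.floor_add_fract φ).symm
      calc 2 * π * φ = 2 * π * (⌊φ⌋ + f) := by rw [← h7]
        _ = _ := by ring
    rw [this, Real.cos_add_int_mul_two_pi]
  rw [hcos]
  rcases le_total f (1 / 2) with h1 | h1
  · have h2 := trig hf0 h1
    have h3 : (c : ℝ) + 2 * (2000 * f - 1) ≤ 2000 := by
      have h4 : 2000 * f - 1 ≤ (min D (1999 - D) : ℕ) := by
        rcases le_total D (1999 - D) with h5 | h5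
        · rw [min_eq_left h5]; linarith
        · rw [min_eq_right h5]
          rw [Nat.cast_sub (by omega)]
          push_cast
          linarith
      have h5 : ((c + 2 * min D (1999 - D) : ℕ) : ℝ) ≤ (2000 : ℕ) := by exact_mod_cast h
      push_cast at h5
      push_cast at h4
      linarith
    linarith
  · have h2 := trig (t := 1 - f) (by linarith) (by linarith)
    have hc2 : cos (2 * π * (1 - f)) = cos (2 * π * f) := by
      rw [show 2 * π * (1 - f) = 2 * π - 2 * π * f by ring, Real.cos_two_pi_sub]
    rw [hc2] at h2
    have h3 : (c : ℝ) + 2 * (2000 * (1 - f) - 1) ≤ 2000 := by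
      have h4 : 2000 * (1 - f) - 1 ≤ (min D (1999 - D) : ℕ) := by
        rcases le_total D (1999 - D) with h5 | h5
        · rw [min_eq_left h5]
          have : (1999 : ℝ) - D ≤ 1999 - D := le_refl _
          have h6 : 1000 ≤ 2000 * f := by linarith
          have h7 : (999 : ℝ) < D := by linarith
          have h8 : 999 < D := by exact_mod_cast h7
          omega
        · rw [min_eq_right h5]
          rw [Nat.cast_sub (by omega)]
          push_cast
          linarith
      have h5 : ((c + 2 * min D (1999 - D) : ℕ) : ℝ) ≤ (2000 : ℕ) := by exact_mod_cast h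
      push_cast at h5
      push_cast at h4
      linarith
    linarith

/-- covering by few rotations. -/
theorem cover {X Y : Type*} [DecidableEq X] [Fintype Y] [Nonempty Y]
    (good : X → Y → Prop) [∀ x, DecidablePred (good x)]
    (hg : ∀ x, Fintype.card Y ≤ 2 * (univ.filter (fun y => good x y)).card) (R : ℕ) :
    ∀ S : Finset X, S.card < 2 ^ R → ∃ f : Fin R → Y, ∀ x ∈ S, ∃ j, good x (f j) := by
  induction R with
  | zero =>
    intro S hS
    have : S = ∅ := by
      rw [pow_zero] at hS
      exact Finset.card_eq_zero.mp (by omega)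
    subst this
    exact ⟨fun _ => Classical.arbitrary Y, fun x hx => absurd hx (Finset.notMem_empty x)⟩
  | succ R ih =>
    intro S hS
    -- average
    have hex : ∃ y : Y, S.card ≤ 2 * (S.filter (fun x => good x y)).card := by
      by_contra hno
      push Not at hno
      have h1 : ∑ y : Y, 2 * (S.filter (fun x => good x y)).card < ∑ _y : Y, S.card :=
        Finset.sum_lt_sum_of_nonempty Finset.univ_nonempty fun y _ => hno y
      have h2 : ∑ y : Y, 2 * (S.filter (fun x => good x y)).card =
          ∑ x ∈ S, 2 * (univ.filter (fun y => good x y)).card := by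
        rw [← Finset.mul_sum, ← Finset.mul_sum]
        congr 1
        simp_rw [Finset.card_filter]
        exact Finset.sum_comm
      have h3 : ∑ x ∈ S, Fintype.card Y ≤ ∑ x ∈ S, 2 * (univ.filter (fun y => good x y)).card :=
        Finset.sum_le_sum fun x _ => hg x
      rw [h2] at h1
      rw [Finset.sum_const, smul_eq_mul] at h3
      rw [Finset.sum_const, smul_eq_mul, Finset.card_univ] at h1
      rw [mul_comm] at h3
      omega
    obtain ⟨y, hy⟩ := hex
    obtain ⟨f, hf⟩ := ih (S.filter (fun x => ¬ good x y)) (by
      have := Finset.card_filter_add_card_filter_not (s := S) (fun x => good x y)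
      rw [pow_succ] at hS
      omega)
    refine ⟨Fin.cons y f, fun x hx => ?_⟩
    by_cases hxy : good x y
    · exact ⟨0, by simpa using hxy⟩
    · obtain ⟨j, hj⟩ := hf x (Finset.mem_filter.mpr ⟨hx, hxy⟩)
      exact ⟨j.succ, by simpa using hj⟩

end Pool.Agent.Helper31.Ab
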