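import Mathlib
import Pool.Agent.Helper31.AbChar
import Pool.Agent.Helper31.AbRound

open Finset Real

set_option autoImplicit false

namespace Pool.Agent.Helper31.Ab

section

variable {Γ : Type*} [AddCommGroup Γ] [Finite Γ]

/-- normalised argument. -/
noncomputable def ph (χ : AddChar Γ ℂ) (v : Γ) : ℝ := (χ v).arg / (2 * π)

theorem exp_ph (χ : AddChar Γ ℂ) (v : Γ) :
    Complex.exp ((2 * π * ph χ v : ℝ) * Complex.I) = χ v := by
  have h : (2 * π * ph χ v : ℝ) = (χ v).arg := by
    unfold ph
    have := Real.pi_pos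
    field_simp
  rw [h]
  have h2 := Complex.norm_mul_exp_arg_mul_I (χ v)
  rw [χ.norm_apply v] at h2
  simpa using h2

theorem cos_ph (χ : AddChar Γ ℂ) (v : Γ) : cos (2 * π * ph χ v) = (χ v).re := by
  rw [← exp_ph χ v, Complex.exp_ofReal_mul_I_re]

theorem ph_add (χ : AddChar Γ ℂ) (v s : Γ) : ∃ n : ℤ, ph χ (v + s) = ph χ v + ph χ s + n := by
  have h : Complex.exp ((2 * π * ph χ (v + s) : ℝ) * Complex.I) =
      Complex.exp ((2 * π * (ph χ v + ph χ s) : ℝ) * Complex.I) := by
    rw [exp_ph, χ.map_add_eq_mul, ← exp_ph χ v, ← exp_ph χ s, ← Complex.exp_add]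
    congr 1
    push_cast
    ring
  rw [Complex.exp_eq_exp_iff_exists_int] at h
  obtain ⟨n, hn⟩ := h
  refine ⟨n, ?_⟩
  have hpi := Real.pi_pos
  have h2 : ((2 * π * ph χ (v + s) : ℝ) : ℂ) =
      ((2 * π * (ph χ v + ph χ s) + n * (2 * π) : ℝ) : ℂ) := by
    apply mul_right_cancel₀ Complex.I_ne_zero
    rw [hn]
    push_cast
    ring
  have h3 := Complex.ofReal_injective h2
  have h4 : 2 * π * ph χ (v + s) = 2 * π * (ph χ v + ph χ s + n) := by rw [h3]; ring
  exact mul_left_cancel₀ (by positivity) h4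

theorem cls_add (χ : AddChar Γ ℂ) (v s : Γ) :
    cls (ph χ (v + s)) = cls (ph χ v) + cls (ph χ s) ∨
      cls (ph χ (v + s)) = cls (ph χ v) + cls (ph χ s) + 1 := by
  obtain ⟨n, hn⟩ := ph_add χ v s
  have h1 : ⌊2000 * ph χ (v + s)⌋ = ⌊2000 * ph χ v + 2000 * ph χ s⌋ + 2000 * n := by
    rw [hn]
    have : 2000 * (ph χ v + ph χ s + n) = 2000 * ph χ v + 2000 * ph χ s + ((2000 * n : ℤ) : ℝ) := by
      push_cast; ring
    rw [this, Int.floor_add_intCast]
  have h2 := Int.le_floor_add (2000 * ph χ v) (2000 * ph χ s)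
  have h3 := Int.le_floor_add_floor (2000 * ph χ v) (2000 * ph χ s)
  have h4 : ((2000 * n : ℤ) : ZMod 2000) = 0 := by
    rw [Int.cast_mul]
    have : ((2000 : ℤ) : ZMod 2000) = 0 := by
      have := ZMod.natCast_self 2000
      exact_mod_cast this
    rw [this, zero_mul]
  have h5 : ⌊2000 * ph χ v + 2000 * ph χ s⌋ = ⌊2000 * ph χ v⌋ + ⌊2000 * ph χ s⌋ ∨
      ⌊2000 * ph χ v + 2000 * ph χ s⌋ = ⌊2000 * ph χ v⌋ + ⌊2000 * ph χ s⌋ + 1 := by omega
  unfold cls
  rw [h1]
  rcases h5 with h5 | h5
  · left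
    rw [h5, Int.cast_add, h4, add_zero, Int.cast_add]
  · right
    rw [h5, Int.cast_add, h4, add_zero, Int.cast_add, Int.cast_add, Int.cast_one]

end

variable {Γ : Type*} [AddCommGroup Γ] [Fintype Γ]

theorem core (G : SimpleGraph Γ) (hG : ∀ x y g, G.Adj (x + g) (y + g) ↔ G.Adj x y)
    (N : Finset Γ) (hN : ∀ s, s ∈ N ↔ G.Adj 0 s) (B : Finset Γ)
    (hB : Fintype.card Γ ≤ 3 * B.card) (hBi : ∀ x ∈ B, ∀ y ∈ B, ¬ G.Adj x y) (k : ℕ)
    (hk : (2 * N.card : ℝ) * (371 / 1000) ^ k ≤ 1) : G.Colorable ((11 * k + 1) * 2 ^ k) := by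
  classical
  rcases N.eq_empty_or_nonempty with hNe | hNe
  · have hpos : 0 < (11 * k + 1) * 2 ^ k := by positivity
    refine ⟨SimpleGraph.Coloring.mk (fun _ => (⟨0, hpos⟩ : Fin _)) ?_⟩
    intro v w hvw
    exfalso
    have h1 : G.Adj 0 (w - v) := by
      have := (hG v w (-v)).mpr hvw
      rwa [add_neg_cancel, ← sub_eq_add_neg] at this
    rw [← hN, hNe] at h1
    exact Finset.notMem_empty _ h1
  obtain ⟨χ, hχ⟩ := exists_tuple B hB N (fun s hs x hx hxs => by
      refine hBi x hx (x + s) hxs ?_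
      have h1 := (hN s).mp hs
      have h2 := (hG 0 s x).mpr h1
      rwa [zero_add, add_comm s x] at h2) hNe (a := 581 / 1000) (b := 420 / 1000)
      (by norm_num) (by norm_num) k
  have hp : (581 / 1000 - 420 / 1000 / 2 : ℝ) = 371 / 1000 := by norm_num
  rw [hp] at hχ
  let good : (Fin k → ZMod 2000) → (Fin k → ZMod 2000) → Prop := fun x β =>
    ∀ s ∈ N, ∃ i, ¬ Bad (cls (ph (χ i) s)) (x i + β i)
  have hg : ∀ x, Fintype.card (Fin k → ZMod 2000) ≤
      2 * (univ.filter (fun β => good x β)).card := by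
    intro x
    have h1 := Finset.card_filter_add_card_filter_not
      (s := (univ : Finset (Fin k → ZMod 2000))) (fun β => good x β)
    rw [Finset.card_univ] at h1
    have h2 : (univ.filter (fun β => ¬ good x β)) ⊆
        N.biUnion (fun s => Fintype.piFinset
          (fun i => (univ : Finset (ZMod 2000)).filter
            (fun m => Bad (cls (ph (χ i) s)) (x i + m)))) := by
      intro β hβ
      rw [Finset.mem_filter] at hβ
      have h3 := hβ.2
      simp only [good] at h3
      push Not at h3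
      obtain ⟨s, hs, h4⟩ := h3
      rw [Finset.mem_biUnion]
      refine ⟨s, hs, ?_⟩
      rw [Fintype.mem_piFinset]
      intro i
      rw [Finset.mem_filter]
      exact ⟨Finset.mem_univ _, h4 i⟩
    have h3 : ((univ.filter (fun β => ¬ good x β)).card : ℝ) ≤ 2000 ^ k / 2 := by
      calc ((univ.filter (fun β => ¬ good x β)).card : ℝ)
          ≤ ∑ s ∈ N, ((Fintype.piFinset
          (fun i => (univ : Finset (ZMod 2000)).filter
            (fun m => Bad (cls (ph (χ i) s)) (x i + m)))).card : ℝ) := by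
            have := (Finset.card_le_card h2).trans Finset.card_biUnion_le
            exact_mod_cast this
        _ = ∑ s ∈ N, ∏ i, (((univ : Finset (ZMod 2000)).filter
            (fun m => Bad (cls (ph (χ i) s)) (x i + m))).card : ℝ) := by
            refine Finset.sum_congr rfl fun s _ => ?_
            rw [Fintype.card_piFinset]
            push_cast
            rfl
        _ ≤ ∑ s ∈ N, ∏ i, (2000 * (581 / 1000 + 420 / 1000 * ((χ i) s).re)) := by
            refine Finset.sum_le_sum fun s _ => Finset.prod_le_prod (fun i _ => Nat.cast_nonneg _)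
              fun i _ => ?_
            have := bad_le (ph (χ i) s) (x i)
            rwa [cos_ph] at this
        _ = (2000 : ℝ) ^ k * ∑ s ∈ N, ∏ i, (581 / 1000 + 420 / 1000 * ((χ i) s).re) := by
            rw [Finset.mul_sum]
            refine Finset.sum_congr rfl fun s _ => ?_
            rw [Finset.prod_mul_distrib, Finset.prod_const, Finset.card_univ, Fintype.card_fin]
        _ ≤ 2000 ^ k * (N.card * (371 / 1000) ^ k) := by gcongr
        _ ≤ 2000 ^ k / 2 := by
            have h7 : (0 : ℝ) < (2000 : ℝ) ^ k := pow_pos (by norm_num) k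
            have h8 : (N.card : ℝ) * (371 / 1000) ^ k ≤ 1 / 2 := by linarith
            have h9 := mul_le_mul_of_nonneg_left h8 h7.le
            linarith
    have h4 : Fintype.card (Fin k → ZMod 2000) = 2000 ^ k := by
      rw [Fintype.card_fun, ZMod.card, Fintype.card_fin]
    rw [h4]
    rw [h4] at h1
    have h5 : 2 * (univ.filter (fun β => ¬ good x β)).card ≤ 2000 ^ k := by
      have : (2 : ℝ) * (univ.filter (fun β => ¬ good x β)).card ≤ 2000 ^ k := by linarith
      exact_mod_cast this
    omega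
  obtain ⟨f, hf⟩ := cover good hg (11 * k + 1) univ (by
    rw [Finset.card_univ, Fintype.card_fun, ZMod.card, Fintype.card_fin]
    calc 2000 ^ k ≤ 2048 ^ k := Nat.pow_le_pow_left (by norm_num) k
      _ = 2 ^ (11 * k) := by rw [show 2048 = 2 ^ 11 by norm_num, ← pow_mul]
      _ < 2 ^ (11 * k + 1) := Nat.pow_lt_pow_right (by norm_num) (by omega))
  let cl : Γ → (Fin k → ZMod 2000) := fun v i => cls (ph (χ i) v)
  have hf' : ∀ v, ∃ j, good (cl v) (f j) := fun v => hf (cl v) (Finset.mem_univ _)
  choose j hj using hf'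
  let col : Γ → Fin (11 * k + 1) × (Fin k → Bool) := fun v =>
    (j v, fun i => decide (bit (cl v i + f (j v) i)))
  have hcol : ∀ {v w : Γ}, G.Adj v w → col v ≠ col w := by
    intro v w hvw he
    have h1 : G.Adj 0 (w - v) := by
      have := (hG v w (-v)).mpr hvw
      rwa [add_neg_cancel, ← sub_eq_add_neg] at this
    rw [← hN] at h1
    obtain ⟨i, hi⟩ := hj v (w - v) h1
    apply hi
    have h2 : j v = j w := congrArg Prod.fst he
    have h3 : decide (bit (cl v i + f (j v) i)) = decide (bit (cl w i + f (j w) i)) :=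
      congrFun (congrArg Prod.snd he) i
    rw [← h2, decide_eq_decide] at h3
    have h4 := cls_add (χ i) v (w - v)
    rw [add_sub_cancel] at h4
    unfold Bad
    rcases h4 with h4 | h4
    · left
      have e : cl v i + f (j v) i + cls (ph (χ i) (w - v)) = cl w i + f (j v) i := by
        simp only [cl]; rw [h4]; ring
      rw [e]; exact h3
    · right
      have e : cl v i + f (j v) i + cls (ph (χ i) (w - v)) + 1 = cl w i + f (j v) i := by
        simp only [cl]; rw [h4]; ring
      rw [e]; exact h3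
  have hc := (SimpleGraph.Coloring.mk col hcol).colorable
  rw [Fintype.card_prod, Fintype.card_fin, Fintype.card_fun, Fintype.card_bool,
    Fintype.card_fin] at hc
  exact hc

end Pool.Agent.Helper31.Ab
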