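import Mathlib
import Pool.Agent.Helper31.AbCore

open Finset Real

set_option autoImplicit false

namespace Pool.Agent.Helper31.Ab

theorem numeric (d : ℕ) (hd : 1 ≤ d) : ∃ k : ℕ, (2 * d : ℝ) * (371 / 1000) ^ k ≤ 1 ∧
    (((11 * k + 1) * 2 ^ k : ℕ) : ℝ) ≤ 50000 * (d : ℝ) ^ (7 / 10 : ℝ) := by
  have hd0 : (1 : ℝ) ≤ d := by exact_mod_cast hd
  have hex : ∃ k : ℕ, (2 * d : ℝ) * (371 / 1000) ^ k ≤ 1 := by
    obtain ⟨k, hk⟩ := exists_pow_lt_of_lt_one (show (0 : ℝ) < 1 / (2 * d) by positivity)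
      (show (371 / 1000 : ℝ) < 1 by norm_num)
    refine ⟨k, ?_⟩
    rw [lt_div_iff₀ (by positivity)] at hk
    linarith
  classical
  set k := Nat.find hex with hk
  have hk1 := Nat.find_spec hex
  rw [← hk] at hk1
  refine ⟨k, hk1, ?_⟩
  have hk0 : k ≠ 0 := by
    intro h0
    rw [h0, pow_zero, mul_one] at hk1
    linarith
  obtain ⟨k', hk'⟩ := Nat.exists_eq_succ_of_ne_zero hk0
  have hmin := Nat.find_min hex (m := k') (by omega)
  push Not at hmin
  -- (1000/371)^k' < 2 d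
  have h1 : ((1000 : ℝ) / 371) ^ k' < 2 * d := by
    have h2 : ((371 : ℝ) / 1000) ^ k' * (1000 / 371) ^ k' = 1 := by
      rw [← mul_pow]; norm_num
    have h3 : (0 : ℝ) < (1000 / 371) ^ k' := by positivity
    calc ((1000 : ℝ) / 371) ^ k' = 1 * (1000 / 371) ^ k' := (one_mul _).symm
      _ < (2 * d * (371 / 1000) ^ k') * (1000 / 371) ^ k' := by gcongr
      _ = 2 * d * ((371 / 1000) ^ k' * (1000 / 371) ^ k') := by ring
      _ = 2 * d := by rw [h2, mul_one]
  have h4 : ((10009 / 5000 : ℝ) ^ k') ≤ (2 * d : ℝ) ^ (7 / 10 : ℝ) := by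
    have h5 : (10009 / 5000 : ℝ) ^ 10 ≤ (1000 / 371) ^ 7 := by norm_num
    have h6 : ((10009 / 5000 : ℝ) ^ k') ^ 10 ≤ (2 * d : ℝ) ^ 7 := by
      calc ((10009 / 5000 : ℝ) ^ k') ^ 10 = ((10009 / 5000 : ℝ) ^ 10) ^ k' := by
            rw [← pow_mul, ← pow_mul, mul_comm]
        _ ≤ ((1000 / 371 : ℝ) ^ 7) ^ k' := by gcongr
        _ = ((1000 / 371 : ℝ) ^ k') ^ 7 := by rw [← pow_mul, ← pow_mul, mul_comm]
        _ ≤ (2 * d : ℝ) ^ 7 := by gcongr
    have h7 : (2 * d : ℝ) ^ 7 = ((2 * d : ℝ) ^ (7 / 10 : ℝ)) ^ 10 := by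
      rw [← Real.rpow_natCast, ← Real.rpow_natCast, ← Real.rpow_mul (by positivity)]
      norm_num
    rw [h7] at h6
    exact le_of_pow_le_pow_left₀ (by norm_num) (by positivity) h6
  have h8 : (2 * d : ℝ) ^ (7 / 10 : ℝ) ≤ 2 * (d : ℝ) ^ (7 / 10 : ℝ) := by
    rw [Real.mul_rpow (by norm_num) (by positivity)]
    gcongr
    calc (2 : ℝ) ^ (7 / 10 : ℝ) ≤ (2 : ℝ) ^ (1 : ℝ) :=
          Real.rpow_le_rpow_of_exponent_le (by norm_num) (by norm_num)
      _ = 2 := Real.rpow_one 2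
  have h9 : 1 + (k' : ℝ) * (9 / 10000) ≤ (10009 / 10000 : ℝ) ^ k' := by
    have := one_add_mul_le_pow (show (-2 : ℝ) ≤ 9 / 10000 by norm_num) k'
    calc 1 + (k' : ℝ) * (9 / 10000) ≤ (1 + 9 / 10000 : ℝ) ^ k' := this
      _ = _ := by norm_num
  have h10 : (11 * (k' : ℝ) + 12) ≤ 12223 * (10009 / 10000 : ℝ) ^ k' := by
    have : (0 : ℝ) ≤ k' := Nat.cast_nonneg _
    linarith
  rw [hk']
  push_cast
  calc (11 * ((k' : ℝ) + 1) + 1) * 2 ^ (k' + 1) = 2 * ((11 * (k' : ℝ) + 12) * 2 ^ k') := by ring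
    _ ≤ 2 * ((12223 * (10009 / 10000 : ℝ) ^ k') * 2 ^ k') := by gcongr
    _ = 24446 * ((10009 / 10000 : ℝ) * 2) ^ k' := by rw [mul_pow]; ring
    _ = 24446 * (10009 / 5000 : ℝ) ^ k' := by norm_num
    _ ≤ 24446 * (2 * (d : ℝ) ^ (7 / 10 : ℝ)) := by
        gcongr
        exact h4.trans h8
    _ ≤ 50000 * (d : ℝ) ^ (7 / 10 : ℝ) := by
        have : (0 : ℝ) ≤ (d : ℝ) ^ (7 / 10 : ℝ) := by positivity
        linarith

theorem orbit_col {V : Type*} [Fintype V] [DecidableEq V] (G : SimpleGraph V)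
    [DecidableRel G.Adj] {A : Type*} [CommGroup A] [MulAction A V]
    (hA : ∀ (a : A) (v w : V), G.Adj (a • v) (a • w) ↔ G.Adj v w) (d : ℕ)
    (hd : ∀ v, G.degree v ≤ d)
    (hS : ∀ S : Finset V, ∃ I ⊆ S, G.IsIndepSet (I : Set V) ∧ S.card ≤ 3 * I.card)
    (k : ℕ) (hk : (2 * d : ℝ) * (371 / 1000) ^ k ≤ 1) (v₀ : V) :
    ∃ c : V → Fin ((11 * k + 1) * 2 ^ k), ∀ v w, v ∈ MulAction.orbit A v₀ →
      w ∈ MulAction.orbit A v₀ → G.Adj v w → c v ≠ c w := by
  classical
  let Γ := Additive (A ⧸ MulAction.stabilizer A v₀)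
  let e : Γ → V := fun x => MulAction.ofQuotientStabilizer A v₀ x.toMul
  have he : Function.Injective e := fun x y h =>
    Additive.toMul.injective (MulAction.injective_ofQuotientStabilizer A v₀ h)
  have : Finite Γ := Finite.of_injective e he
  have : Fintype Γ := Fintype.ofFinite Γ
  let G' : SimpleGraph Γ := G.comap e
  have hmk : ∀ (x : Γ) (a : A), e (x + Additive.ofMul (QuotientGroup.mk a)) = a • e x := by
    intro x a
    have h1 : (x + Additive.ofMul (QuotientGroup.mk a : A ⧸ MulAction.stabilizer A v₀)).toMul =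
        a • x.toMul := by
      rw [toMul_add, toMul_ofMul]
      induction x.toMul using QuotientGroup.induction_on with
      | H z =>
        rw [← QuotientGroup.mk_mul, mul_comm, MulAction.Quotient.smul_mk, smul_eq_mul]
    show MulAction.ofQuotientStabilizer A v₀ _ = _
    rw [h1, MulAction.ofQuotientStabilizer_smul]
  have hG : ∀ x y g, G'.Adj (x + g) (y + g) ↔ G'.Adj x y := by
    intro x y g
    obtain ⟨a, ha⟩ : ∃ a : A, g = Additive.ofMul (QuotientGroup.mk a) := by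
      obtain ⟨a, ha⟩ := QuotientGroup.mk_surjective g.toMul
      exact ⟨a, by rw [ha]; rfl⟩
    rw [ha]
    simp only [G', SimpleGraph.comap_adj, hmk, hA]
  let N : Finset Γ := univ.filter (fun s => G'.Adj 0 s)
  have hNc : N.card ≤ d := by
    refine le_trans ?_ (hd (e 0))
    rw [← SimpleGraph.card_neighborFinset_eq_degree]
    refine Finset.card_le_card_of_injOn e ?_ he.injOn
    intro s hs
    rw [Finset.mem_coe, Finset.mem_filter] at hs
    rw [Finset.mem_coe, SimpleGraph.mem_neighborFinset]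
    exact hs.2
  obtain ⟨I, hIS, hI, hIc⟩ := hS (univ.map ⟨e, he⟩)
  let B : Finset Γ := univ.filter (fun x => e x ∈ I)
  have hBI : B.map ⟨e, he⟩ = I := by
    ext v
    rw [Finset.mem_map]
    constructor
    · rintro ⟨x, hx, rfl⟩
      exact (Finset.mem_filter.mp hx).2
    · intro hv
      obtain ⟨x, -, hx⟩ := Finset.mem_map.mp (hIS hv)
      refine ⟨x, Finset.mem_filter.mpr ⟨Finset.mem_univ _, ?_⟩, hx⟩
      have : e x = v := hx
      rw [this]; exact hv
  have hBc : Fintype.card Γ ≤ 3 * B.card := by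
    rw [Finset.card_map, Finset.card_univ] at hIc
    rw [← hBI, Finset.card_map] at hIc
    exact hIc
  have hBi : ∀ x ∈ B, ∀ y ∈ B, ¬ G'.Adj x y := by
    intro x hx y hy hxy
    exact hI (Finset.mem_coe.mpr (Finset.mem_filter.mp hx).2)
      (Finset.mem_coe.mpr (Finset.mem_filter.mp hy).2) (G.ne_of_adj hxy) hxy
  have hcol := core G' hG N (fun s => by simp [N]) B hBc hBi k (by
    refine le_trans ?_ hk
    have : (N.card : ℝ) ≤ d := by exact_mod_cast hNc
    gcongr)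
  obtain ⟨C⟩ := hcol
  have hne : Nonempty (Fin ((11 * k + 1) * 2 ^ k)) := ⟨⟨0, by positivity⟩⟩
  refine ⟨fun v => if h : ∃ x, e x = v then C h.choose else Classical.arbitrary _, ?_⟩
  intro v w hv hw hvw
  have hv' : ∃ x, e x = v := by
    obtain ⟨a, rfl⟩ := hv
    exact ⟨Additive.ofMul (QuotientGroup.mk a), rfl⟩
  have hw' : ∃ x, e x = w := by
    obtain ⟨a, rfl⟩ := hw
    exact ⟨Additive.ofMul (QuotientGroup.mk a), rfl⟩
  simp only [dif_pos hv', dif_pos hw']
  apply C.valid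
  show G.Adj (e hv'.choose) (e hw'.choose)
  rw [hv'.choose_spec, hw'.choose_spec]
  exact hvw

theorem main {V : Type*} [Fintype V] [DecidableEq V] (G : SimpleGraph V)
    [DecidableRel G.Adj] {A : Type*} [CommGroup A] [MulAction A V]
    (hA : ∀ (a : A) (v w : V), G.Adj (a • v) (a • w) ↔ G.Adj v w) (d : ℕ) (hd1 : 1 ≤ d)
    (hd : ∀ v, G.degree v ≤ d)
    (hS : ∀ S : Finset V, ∃ I ⊆ S, G.IsIndepSet (I : Set V) ∧ S.card ≤ 3 * I.card)
    (h : ℕ) (m : V → Fin h) (hm : ∀ v w, G.Adj v w → m v = m w → w ∈ MulAction.orbit A v) :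
    G.Colorable ⌊50000 * (h : ℝ) * (d : ℝ) ^ (7 / 10 : ℝ)⌋₊ := by
  classical
  obtain ⟨k, hk1, hk2⟩ := numeric d hd1
  have hc := fun v₀ => orbit_col G hA d hd hS k hk1 v₀
  choose c hc using hc
  let q : V → MulAction.orbitRel.Quotient A V := fun v => Quotient.mk _ v
  let col : V → Fin h × Fin ((11 * k + 1) * 2 ^ k) := fun v =>
    (m v, c (q v).out v)
  have hmem : ∀ v, v ∈ MulAction.orbit A (q v).out := by
    intro v
    have h1 : Quotient.mk (MulAction.orbitRel A V) (q v).out = Quotient.mk _ v :=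
      Quotient.out_eq (q v)
    have h2 : (MulAction.orbitRel A V) (q v).out v := Quotient.exact h1
    have h3 := (MulAction.orbitRel A V).symm h2
    exact MulAction.orbitRel_apply.mp h3
  have hcol : ∀ {v w : V}, G.Adj v w → col v ≠ col w := by
    intro v w hvw he
    have h0 : m v = m w := congrArg Prod.fst he
    have h1 : q v = q w := by
      apply Quotient.sound
      have h3 : w ∈ MulAction.orbit A v := hm v w hvw h0
      exact (MulAction.orbitRel A V).symm (MulAction.orbitRel_apply.mpr h3)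
    have h2 : c (q v).out v = c (q w).out w := congrArg Prod.snd he
    rw [← h1] at h2
    refine hc (q v).out v w (hmem v) ?_ hvw h2
    rw [h1]; exact hmem w
  have hcc := (SimpleGraph.Coloring.mk col hcol).colorable
  rw [Fintype.card_prod, Fintype.card_fin, Fintype.card_fin] at hcc
  refine hcc.mono ?_
  apply Nat.le_floor
  push_cast
  have h0 : (0 : ℝ) ≤ (h : ℝ) := Nat.cast_nonneg _
  push_cast at hk2
  have := mul_le_mul_of_nonneg_left hk2 h0
  calc _ ≤ _ := this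
    _ = _ := by ring

end Pool.Agent.Helper31.Ab
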