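import Pool.Agent.Helper31.KkReal

set_option autoImplicit false

namespace Pool.Agent.Helper31.Kk

open Finset Real

variable {ι : Type*} [Fintype ι] [DecidableEq ι]

/-- flip a coordinate -/
def fl (j : ι) (x : ι → Bool) : ι → Bool := Function.update x j (!(x j))

omit [Fintype ι] in
lemma fl_fl (j : ι) (x : ι → Bool) : fl j (fl j x) = x := by
  unfold fl; simp

omit [Fintype ι] in
lemma fl_ne {i j : ι} (h : i ≠ j) (x : ι → Bool) : fl j x i = x i := by
  unfold fl; simp [h]

omit [Fintype ι] in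
lemma fl_self (j : ι) (x : ι → Bool) : fl j x j = !(x j) := by
  unfold fl; simp

omit [Fintype ι] in
lemma fl_comm (i j : ι) (x : ι → Bool) : fl i (fl j x) = fl j (fl i x) := by
  by_cases h : i = j
  · subst h; rfl
  · funext k
    by_cases h1 : k = i
    · subst h1; rw [fl_self, fl_ne h, fl_ne h, fl_self]
    · by_cases h2 : k = j
      · subst h2; rw [fl_ne h1, fl_self, fl_self, fl_ne h1]
      · rw [fl_ne h1, fl_ne h2, fl_ne h2, fl_ne h1]

lemma sum_fl (j : ι) (f : (ι → Bool) → ℝ) : ∑ x, f (fl j x) = ∑ x, f x :=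
  Equiv.sum_comp (Function.Involutive.toPerm (fl j) (fl_fl j)) f

/-- total mass -/
noncomputable def Z (u : (ι → Bool) → ℝ) : ℝ := ∑ x, u x

/-- edge energy in one direction -/
noncomputable def Sj (θ : ℝ) (u : (ι → Bool) → ℝ) (j : ι) : ℝ := ∑ x, L θ (u x) (u (fl j x))

/-- total edge energy -/
noncomputable def S (θ : ℝ) (u : (ι → Bool) → ℝ) : ℝ := ∑ j, Sj θ u j

/-- quadratic energy in one direction -/
noncomputable def Gj (u : (ι → Bool) → ℝ) (j : ι) : ℝ := ∑ x, Gq (u x) (u (fl j x))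

/-- total quadratic energy -/
noncomputable def GG (u : (ι → Bool) → ℝ) : ℝ := ∑ j, Gj u j

/-- average over one coordinate -/
noncomputable def avg (j : ι) (u : (ι → Bool) → ℝ) : (ι → Bool) → ℝ :=
  fun x => (u x + u (fl j x)) / 2

/-- restriction of one coordinate -/
def restr (j : ι) (b : Bool) (u : (ι → Bool) → ℝ) : (ι → Bool) → ℝ :=
  fun x => u (Function.update x j b)

/-- overwrite the coordinates of `T` by those of `a` -/
def ovr (T : Finset ι) (a x : ι → Bool) : ι → Bool := fun i => if i ∈ T then a i else x i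

/-- all subcube averages are bounded by `exp (c + lam * codim)` -/
def Good (lam : ℝ) (u : (ι → Bool) → ℝ) (c : ℝ) : Prop :=
  ∀ (T : Finset ι) (a : ι → Bool),
    ∑ x, u (ovr T a x) ≤ exp (c + lam * (T.card : ℝ)) * 2 ^ (Fintype.card ι)

/-- `∑ u log u` -/
noncomputable def Ulog (u : (ι → Bool) → ℝ) : ℝ := ∑ x, u x * log (u x)

/-- entropy -/
noncomputable def Ent (u : (ι → Bool) → ℝ) : ℝ :=
  Ulog u - Z u * log (Z u / 2 ^ (Fintype.card ι))

lemma Z_avg (j : ι) (u : (ι → Bool) → ℝ) : Z (avg j u) = Z u := by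
  unfold Z avg
  rw [← Finset.sum_div, Finset.sum_add_distrib, sum_fl]; ring

omit [Fintype ι] in
lemma avg_nonneg {j : ι} {u : (ι → Bool) → ℝ} (hu : ∀ x, 0 ≤ u x) (x : ι → Bool) :
    0 ≤ avg j u x := by
  unfold avg; have := hu x; have := hu (fl j x); positivity

omit [Fintype ι] in
lemma avg_fl_self (j : ι) (u : (ι → Bool) → ℝ) (x : ι → Bool) :
    avg j u (fl j x) = avg j u x := by
  unfold avg; rw [fl_fl]; ring

lemma Sj_avg_self (θ : ℝ) (j : ι) (u : (ι → Bool) → ℝ) : Sj θ (avg j u) j = 0 := by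
  unfold Sj
  apply Finset.sum_eq_zero
  intro x _
  rw [avg_fl_self, L_of_le le_rfl]

lemma Gj_avg_self (j : ι) (u : (ι → Bool) → ℝ) : Gj (avg j u) j = 0 := by
  unfold Gj
  apply Finset.sum_eq_zero
  intro x _
  rw [avg_fl_self, Gq_of_le le_rfl]

lemma Sj_nonneg {θ : ℝ} (hθ : 0 < θ) {u : (ι → Bool) → ℝ} (hu : ∀ x, 0 ≤ u x) (j : ι) :
    0 ≤ Sj θ u j := Finset.sum_nonneg fun x _ => L_nonneg hθ (hu x)

lemma S_nonneg {θ : ℝ} (hθ : 0 < θ) {u : (ι → Bool) → ℝ} (hu : ∀ x, 0 ≤ u x) :
    0 ≤ S θ u := Finset.sum_nonneg fun j _ => Sj_nonneg hθ hu j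

lemma Gj_nonneg {u : (ι → Bool) → ℝ} (hu : ∀ x, 0 ≤ u x) (j : ι) :
    0 ≤ Gj u j := Finset.sum_nonneg fun x _ => Gq_nonneg (hu x)

lemma GG_nonneg {u : (ι → Bool) → ℝ} (hu : ∀ x, 0 ≤ u x) :
    0 ≤ GG u := Finset.sum_nonneg fun j _ => Gj_nonneg hu j

/-- the energy drop when averaging -/
lemma Sj_avg_gap {θ : ℝ} (hθ : 0 < θ) {u : (ι → Bool) → ℝ} (hu : ∀ x, 0 ≤ u x) {i j : ι} :
    Sj θ (avg j u) i + θ ^ 2 / (1 + θ) ^ 3 / 2 *
      ∑ x, u x * u (fl j x) / (u x + u (fl j x)) *
        (Gam (u x) (u (fl i x)) - Gam (u (fl j x)) (u (fl i (fl j x)))) ^ 2 ≤ Sj θ u i := by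
  have h1 : ∀ x, L θ (avg j u x) (avg j u (fl i x)) + θ ^ 2 / (1 + θ) ^ 3 / 2 *
      (u x * u (fl j x) / (u x + u (fl j x)) *
        (Gam (u x) (u (fl i x)) - Gam (u (fl j x)) (u (fl i (fl j x)))) ^ 2) ≤
      (L θ (u x) (u (fl i x)) + L θ (u (fl j x)) (u (fl i (fl j x)))) / 2 := by
    intro x
    have := L_gap hθ (hu x) (hu (fl j x)) (hu (fl i x)) (hu (fl i (fl j x)))
    unfold avg
    rw [fl_comm j i]
    exact this
  have h2 := Finset.sum_le_sum fun x (_ : x ∈ (Finset.univ : Finset (ι → Bool))) => h1 x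
  rw [Finset.sum_add_distrib, ← Finset.mul_sum, ← Finset.sum_div, Finset.sum_add_distrib,
    sum_fl j (fun y => L θ (u y) (u (fl i y)))] at h2
  unfold Sj
  linarith

lemma Sj_avg_le {θ : ℝ} (hθ : 0 < θ) {u : (ι → Bool) → ℝ} (hu : ∀ x, 0 ≤ u x) (i j : ι) :
    Sj θ (avg j u) i ≤ Sj θ u i := by
  have h := Sj_avg_gap (i := i) (j := j) hθ hu
  have h2 : 0 ≤ θ ^ 2 / (1 + θ) ^ 3 / 2 *
      ∑ x, u x * u (fl j x) / (u x + u (fl j x)) *
        (Gam (u x) (u (fl i x)) - Gam (u (fl j x)) (u (fl i (fl j x)))) ^ 2 := by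
    apply mul_nonneg (by positivity)
    apply Finset.sum_nonneg
    intro x _
    have := hu x; have := hu (fl j x)
    positivity
  linarith

lemma Gj_avg_le {u : (ι → Bool) → ℝ} (hu : ∀ x, 0 ≤ u x) (i j : ι) :
    Gj (avg j u) i ≤ Gj u i := by
  have h1 : ∀ x, Gq (avg j u x) (avg j u (fl i x)) ≤
      (Gq (u x) (u (fl i x)) + Gq (u (fl j x)) (u (fl i (fl j x)))) / 2 := by
    intro x
    have := Gq_convex (hu x) (hu (fl j x)) (hu (fl i x)) (hu (fl i (fl j x)))
    unfold avg
    rw [fl_comm j i]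
    exact this
  have h2 := Finset.sum_le_sum fun x (_ : x ∈ (Finset.univ : Finset (ι → Bool))) => h1 x
  rw [← Finset.sum_div, Finset.sum_add_distrib,
    sum_fl j (fun y => Gq (u y) (u (fl i y)))] at h2
  unfold Gj
  linarith

lemma Ulog_avg {u : (ι → Bool) → ℝ} (hu : ∀ x, 0 ≤ u x) (j : ι) :
    Ulog u ≤ Ulog (avg j u) + Gj u j := by
  have h1 : ∀ x, u x * log (u x) + u (fl j x) * log (u (fl j x)) ≤
      2 * (avg j u x * log (avg j u x)) + (Gq (u x) (u (fl j x)) + Gq (u (fl j x)) (u x)) := by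
    intro x
    have := ent_two (hu x) (hu (fl j x))
    unfold avg
    linarith
  have h2 := Finset.sum_le_sum fun x (_ : x ∈ (Finset.univ : Finset (ι → Bool))) => h1 x
  rw [Finset.sum_add_distrib, Finset.sum_add_distrib, Finset.sum_add_distrib,
    sum_fl j (fun y => u y * log (u y)), ← Finset.mul_sum] at h2
  have h3 : ∑ x, Gq (u (fl j x)) (u x) = ∑ x, Gq (u x) (u (fl j x)) := by
    rw [← sum_fl j (fun y => Gq (u y) (u (fl j y)))]
    apply Finset.sum_congr rfl
    intro x _; rw [fl_fl]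
  rw [h3] at h2
  unfold Ulog Gj
  linarith

/-! ### log-Sobolev inequality -/

/-- successive averages -/
noncomputable def avgs : List ι → ((ι → Bool) → ℝ) → ((ι → Bool) → ℝ)
  | [], u => u
  | j :: l, u => avgs l (avg j u)

lemma Ulog_avgs (l : List ι) : ∀ {u : (ι → Bool) → ℝ}, (∀ x, 0 ≤ u x) →
    Ulog u ≤ Ulog (avgs l u) + (l.map (Gj u)).sum := by
  induction l with
  | nil => intro u _; simp [avgs]
  | cons j l ih =>
    intro u hu
    have h1 := Ulog_avg hu j
    have h2 := ih (u := avg j u) (avg_nonneg hu)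
    have h3 : (l.map (Gj (avg j u))).sum ≤ (l.map (Gj u)).sum := by
      apply List.sum_le_sum
      intro i _
      exact Gj_avg_le hu i j
    simp only [avgs, List.map_cons, List.sum_cons]
    linarith

lemma Z_avgs (l : List ι) : ∀ (u : (ι → Bool) → ℝ), Z (avgs l u) = Z u := by
  induction l with
  | nil => intro u; rfl
  | cons j l ih => intro u; simp only [avgs]; rw [ih, Z_avg]

omit [Fintype ι] in
lemma avgs_inv_of (l : List ι) (i : ι) : ∀ (u : (ι → Bool) → ℝ), (∀ x, u (fl i x) = u x) →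
    ∀ x, avgs l u (fl i x) = avgs l u x := by
  induction l with
  | nil => intro u h x; exact h x
  | cons j l ih =>
    intro u h x
    simp only [avgs]
    apply ih
    intro y
    unfold avg
    rw [h, fl_comm j i, h]

omit [Fintype ι] in
lemma avgs_inv (l : List ι) : ∀ (u : (ι → Bool) → ℝ) (i : ι), i ∈ l →
    ∀ x, avgs l u (fl i x) = avgs l u x := by
  induction l with
  | nil => intro u i hi; simp at hi
  | cons j l ih =>
    intro u i hi x
    simp only [avgs]
    rcases List.mem_cons.1 hi with h | h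
    · subst h
      exact avgs_inv_of l i _ (avg_fl_self i u) x
    · exact ih _ i h x

omit [Fintype ι] in
lemma ovr_insert {T : Finset ι} {j : ι} (a x : ι → Bool) :
    ovr (insert j T) a x = Function.update (ovr T a x) j (a j) := by
  funext i
  unfold ovr
  by_cases h : i = j
  · subst h; simp
  · simp [h]

lemma const_of_inv {v : (ι → Bool) → ℝ} (h : ∀ i x, v (fl i x) = v x) (x a : ι → Bool) :
    v x = v a := by
  have h1 : ∀ T : Finset ι, v (ovr T a x) = v x := by
    intro T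
    induction T using Finset.induction_on with
    | empty => congr 1
    | insert j T hj ih =>
      rw [ovr_insert, ← ih]
      by_cases hc : ovr T a x j = a j
      · rw [← hc, Function.update_eq_self]
      · have : Function.update (ovr T a x) j (a j) = fl j (ovr T a x) := by
          unfold fl
          congr 1
          cases h1 : a j <;> cases h2 : ovr T a x j <;> simp_all
        rw [this, h]
  rw [← h1 Finset.univ]
  congr 1
  funext i; unfold ovr; simp

lemma lsi {u : (ι → Bool) → ℝ} (hu : ∀ x, 0 ≤ u x) : Ent u ≤ GG u := by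
  set l := (Finset.univ : Finset ι).toList with hl
  have h1 := Ulog_avgs l hu
  have h2 : (l.map (Gj u)).sum = GG u := by
    rw [hl]; unfold GG
    exact Finset.sum_map_toList _ _
  have h3 : ∀ i x, avgs l u (fl i x) = avgs l u x := by
    intro i x
    exact avgs_inv l u i (by rw [hl]; simp) x
  set v := avgs l u with hv
  have hZ : Z v = Z u := Z_avgs l u
  have hcard : (Fintype.card (ι → Bool) : ℝ) = 2 ^ (Fintype.card ι) := by
    rw [Fintype.card_fun]; simp
  set x0 : ι → Bool := fun _ => true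
  have hconst : ∀ x, v x = v x0 := fun x => const_of_inv h3 x x0
  have hZ2 : Z v = 2 ^ (Fintype.card ι) * v x0 := by
    unfold Z
    rw [Finset.sum_congr rfl (fun x _ => hconst x), Finset.sum_const, nsmul_eq_mul,
      Finset.card_univ, hcard]
  have hU : Ulog v = 2 ^ (Fintype.card ι) * (v x0 * log (v x0)) := by
    unfold Ulog
    rw [Finset.sum_congr rfl (fun x _ => by rw [hconst x]), Finset.sum_const, nsmul_eq_mul,
      Finset.card_univ, hcard]
  have hc : v x0 = Z u / 2 ^ (Fintype.card ι) := by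
    rw [← hZ, hZ2]; field_simp
  unfold Ent
  rw [← hc]
  have : Z u * log (v x0) = Ulog v := by
    rw [hU, ← hZ, hZ2]; ring
  rw [this]
  linarith

end Pool.Agent.Helper31.Kk
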