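import Pool.Agent.Helper31.KkStep

set_option autoImplicit false

namespace Pool.Agent.Helper31.Kk

open Finset Real

variable {ι : Type*} [Fintype ι] [DecidableEq ι]

/-- the gap in direction `i` when averaging over `j` -/
noncomputable def XX (u : (ι → Bool) → ℝ) (i j : ι) : ℝ :=
  ∑ x, u x * u (fl j x) / (u x + u (fl j x)) *
        (Gam (u x) (u (fl i x)) - Gam (u (fl j x)) (u (fl i (fl j x)))) ^ 2

lemma XX_nonneg {u : (ι → Bool) → ℝ} (hu : ∀ x, 0 ≤ u x) (i j : ι) : 0 ≤ XX u i j := by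
  unfold XX
  apply Finset.sum_nonneg
  intro x _
  have := hu x; have := hu (fl j x)
  positivity

lemma S_avg_le {θ : ℝ} (hθ : 0 < θ) {u : (ι → Bool) → ℝ} (hu : ∀ x, 0 ≤ u x) (j : ι) :
    S θ (avg j u) ≤ S θ u - Sj θ u j -
      θ ^ 2 / (1 + θ) ^ 3 / 2 * (∑ i, XX u i j - XX u j j) := by
  unfold S
  rw [← Finset.add_sum_erase _ _ (Finset.mem_univ j),
    ← Finset.add_sum_erase (Finset.univ : Finset ι) (fun i => Sj θ u i) (Finset.mem_univ j),
    ← Finset.add_sum_erase (Finset.univ : Finset ι) (fun i => XX u i j) (Finset.mem_univ j),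
    Sj_avg_self]
  have h : ∑ i ∈ Finset.univ.erase j, (Sj θ (avg j u) i + θ ^ 2 / (1 + θ) ^ 3 / 2 * XX u i j) ≤
      ∑ i ∈ Finset.univ.erase j, Sj θ u i :=
    Finset.sum_le_sum fun i _ => Sj_avg_gap hθ hu
  rw [Finset.sum_add_distrib, ← Finset.mul_sum] at h
  linarith

omit [Fintype ι] [DecidableEq ι] in
lemma min_le_harm {a b : ℝ} (ha : 0 ≤ a) (hb : 0 ≤ b) : min a b ≤ 2 * (a * b / (a + b)) := by
  rcases ha.eq_or_lt with h | h
  · subst h; simp [hb]
  · rcases hb.eq_or_lt with h' | h'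
    · subst h'; simp [h.le]
    · rw [mul_div_assoc', le_div_iff₀ (by positivity)]
      rcases le_total a b with h1 | h1
      · rw [min_eq_left h1]; nlinarith
      · rw [min_eq_right h1]; nlinarith

lemma FE_le_XX {u : (ι → Bool) → ℝ} (hu : ∀ x, 0 ≤ u x) :
    FE u (fun _ => 1) ≤ 2 * ∑ j, ∑ i, XX u i j := by
  unfold FE XX
  rw [Finset.mul_sum]
  apply Finset.sum_le_sum
  intro j _
  rw [Finset.sum_comm, Finset.mul_sum]
  apply Finset.sum_le_sum
  intro x _
  rw [← Finset.mul_sum]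
  simp only [mul_one]
  have h1 := min_le_harm (hu x) (hu (fl j x))
  have h2 := DD_nonneg (u := u) x (fl j x)
  have h3 := mul_le_mul_of_nonneg_right h1 h2
  refine h3.trans (le_of_eq ?_)
  unfold DD Ga
  ring

lemma step1 {lam θ γ ξ c : ℝ} {u : (ι → Bool) → ℝ} (hθ : 0 < θ) (hγ : 0 < γ)
    (hV : Valid ι lam θ γ) (hu : ∀ x, 0 ≤ u x) (hgood : Good lam u c)
    (hext : (1 - ξ) * γ * S θ u ≤ Ulog u - c * Z u) :
    (1 - Fintype.card ι * ξ) * γ * S θ u ≤ GG u ∧
      FE u (fun _ => 1) ≤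
        4 * (1 + θ) ^ 3 / θ ^ 2 * (GG u / γ + Fintype.card ι * ξ * S θ u) := by
  set c' : ℝ := θ ^ 2 / (1 + θ) ^ 3 / 2 with hc'
  have hc'pos : 0 < c' := by positivity
  have hj : ∀ j : ι, (1 - ξ) * γ * S θ u ≤
      Gj u j + γ * (S θ u - Sj θ u j - c' * (∑ i, XX u i j - XX u j j)) := by
    intro j
    have h1 := Ulog_avg hu j
    have h2 := hV (avg j u) c (avg_nonneg hu) (Good_avg hgood j)
    rw [Z_avg] at h2
    have h3 := mul_le_mul_of_nonneg_left (S_avg_le hθ hu j) hγ.le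
    rw [← hc'] at h3
    linarith
  have hs := Finset.sum_le_sum fun j (_ : j ∈ (Finset.univ : Finset ι)) => hj j
  rw [Finset.sum_const, nsmul_eq_mul, Finset.card_univ, Finset.sum_add_distrib,
    ← Finset.mul_sum, Finset.sum_sub_distrib, Finset.sum_sub_distrib, Finset.sum_const,
    nsmul_eq_mul, Finset.card_univ, ← Finset.mul_sum, Finset.sum_sub_distrib] at hs
  change _ ≤ GG u + γ * ((Fintype.card ι : ℝ) * S θ u - S θ u - _) at hs
  set n : ℝ := (Fintype.card ι : ℝ) with hn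
  set X := ∑ j, ∑ i, XX u i j with hX
  set Y := ∑ j, XX u j j with hY
  have hYX : Y ≤ X := by
    rw [hX, hY]
    apply Finset.sum_le_sum
    intro j _
    exact Finset.single_le_sum (f := fun i => XX u i j) (fun i _ => XX_nonneg hu i j)
      (Finset.mem_univ j)
  have hYS : c' * Y ≤ S θ u := by
    rw [hY, Finset.mul_sum]
    unfold S
    apply Finset.sum_le_sum
    intro j _
    have h1 := Sj_avg_gap (i := j) (j := j) hθ hu
    rw [Sj_avg_self] at h1
    unfold XX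
    rw [hc']
    linarith
  have hkey : (1 - n * ξ) * γ * S θ u + γ * (c' * (X - Y)) ≤ GG u := by nlinarith
  constructor
  · have : 0 ≤ γ * (c' * (X - Y)) := by
      apply mul_nonneg hγ.le
      exact mul_nonneg hc'pos.le (by linarith)
    linarith
  · refine (FE_le_XX hu).trans ?_
    rw [← hX]
    have h1 : c' * (X - Y) ≤ GG u / γ - (1 - n * ξ) * S θ u := by
      rw [le_sub_iff_add_le, le_div_iff₀ hγ]
      nlinarith
    have h2 : c' * X ≤ GG u / γ + n * ξ * S θ u := by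
      linarith
    have h3 : X ≤ (GG u / γ + n * ξ * S θ u) / c' := by
      rw [le_div_iff₀ hc'pos]; linarith
    have h4 : 4 * (1 + θ) ^ 3 / θ ^ 2 * (GG u / γ + n * ξ * S θ u) =
        2 * ((GG u / γ + n * ξ * S θ u) / c') := by
      rw [hc']
      field_simp
      ring
    rw [h4]
    linarith

lemma GG_le {θ : ℝ} (hθ : 0 < θ) {u : (ι → Bool) → ℝ} (hu : ∀ x, 0 ≤ u x) :
    GG u ≤ (1 + θ) * S θ u := by
  unfold GG S Gj Sj
  rw [Finset.mul_sum]
  apply Finset.sum_le_sum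
  intro j _
  rw [Finset.mul_sum]
  apply Finset.sum_le_sum
  intro x _
  exact Gq_le_L hθ (hu x) (hu _)

lemma sum_G2 {u : (ι → Bool) → ℝ} (hu : ∀ x, 0 ≤ u x) : ∑ x, u x * G2 u x = GG u := by
  unfold GG Gj G2 Ga
  rw [Finset.sum_comm]
  apply Finset.sum_congr rfl
  intro x _
  rw [Finset.mul_sum]
  apply Finset.sum_congr rfl
  intro i _
  rw [Gq_eq (hu x)]

lemma valid_triv {lam θ : ℝ} (hθ : 0 < θ) : Valid ι lam θ (1 + θ) := by
  intro u c hu hgood
  refine le_trans ?_ (GG_le hθ hu)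
  refine le_trans ?_ (lsi hu)
  have h1 := hgood ∅ (fun _ => true)
  have e : ∀ x, ovr (∅ : Finset ι) (fun _ => true) x = x := by
    intro x; funext i; simp [ovr]
  simp only [e, Finset.card_empty, Nat.cast_zero, mul_zero, add_zero] at h1
  change Z u ≤ _ at h1
  unfold Ent
  rcases (Z_nonneg hu).eq_or_lt with h | h
  · rw [← h]; simp
  · have h2 : log (Z u / 2 ^ (Fintype.card ι)) ≤ c := by
      rw [Real.log_le_iff_le_exp (by positivity), div_le_iff₀ (by positivity)]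
      exact h1
    have h3 : Z u * log (Z u / 2 ^ (Fintype.card ι)) ≤ Z u * c :=
      mul_le_mul_of_nonneg_left h2 h.le
    linarith

lemma Valid_mono {lam θ γ γ' : ℝ} (hθ : 0 < θ) (h : Valid ι lam θ γ) (hle : γ ≤ γ') :
    Valid ι lam θ γ' := by
  intro u c hu hgood
  exact (h u c hu hgood).trans (mul_le_mul_of_nonneg_right hle (S_nonneg hθ hu))

lemma valid_of_improve {lam θ γ₀ : ℝ} (hθ : 0 < θ) (hγ₀ : 0 < γ₀)
    (himp : ∀ γ, γ₀ ≤ γ → γ ≤ 1 + θ → Valid ι lam θ γ →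
      ∃ ξ, 0 < ξ ∧ ξ < 1 ∧ Valid ι lam θ ((1 - ξ) * γ)) :
    Valid ι lam θ γ₀ := by
  by_cases hbig : 1 + θ ≤ γ₀
  · exact Valid_mono hθ (valid_triv hθ) hbig
  push Not at hbig
  set A : Set ℝ := {γ | γ₀ ≤ γ ∧ Valid ι lam θ γ} with hA
  have hne : A.Nonempty := ⟨1 + θ, hbig.le, valid_triv hθ⟩
  have hbd : BddBelow A := ⟨γ₀, fun γ h => h.1⟩
  set g := sInf A with hg
  have hg0 : γ₀ ≤ g := le_csInf hne fun γ h => h.1
  have hg1 : g ≤ 1 + θ := csInf_le hbd ⟨hbig.le, valid_triv hθ⟩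
  have hgV : Valid ι lam θ g := by
    intro u c hu hgood
    have hS := S_nonneg hθ hu
    apply le_of_forall_pos_le_add
    intro ε hε
    obtain ⟨γ, hγA, hγ⟩ := exists_lt_of_csInf_lt hne
      (show sInf A < g + ε / (S θ u + 1) from by
        rw [← hg]; have : 0 < ε / (S θ u + 1) := by positivity
        linarith)
    have h1 := hγA.2 u c hu hgood
    have h2 : γ * S θ u ≤ (g + ε / (S θ u + 1)) * S θ u :=
      mul_le_mul_of_nonneg_right hγ.le hS
    have h3 : ε / (S θ u + 1) * S θ u ≤ ε := by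
      rw [div_mul_eq_mul_div, div_le_iff₀ (by positivity)]
      nlinarith
    nlinarith
  rcases hg0.eq_or_lt with h | h
  · rw [h]; exact hgV
  · exfalso
    obtain ⟨ξ, h1, h2, h3⟩ := himp g hg0 hg1 hgV
    have hgpos : 0 < g := by linarith
    have h4 : (1 - ξ) * g < g := by nlinarith
    have h5 : max γ₀ ((1 - ξ) * g) ∈ A :=
      ⟨le_max_left _ _, Valid_mono hθ h3 (le_max_right _ _)⟩
    have h6 := csInf_le hbd h5
    rw [← hg] at h6
    rcases le_max_iff.1 h6 with h7 | h7 <;> linarith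

end Pool.Agent.Helper31.Kk
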