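import Pool.Agent.Helper31.KkGood

set_option autoImplicit false

namespace Pool.Agent.Helper31.Kk

open Finset Real

variable {ι : Type*} [Fintype ι] [DecidableEq ι]

/-- summing over the cube after overwriting the coordinates of `T` -/
lemma sum_ovr (a : ι → Bool) (T : Finset ι) : ∀ f : (ι → Bool) → ℝ,
    ∑ x, f (ovr T a x) =
      2 ^ T.card * ∑ y ∈ univ.filter (fun y : ι → Bool => ∀ i ∈ T, y i = a i), f y := by
  induction T using Finset.induction_on with
  | empty =>
    intro f
    have h0 : ∀ x, ovr (∅ : Finset ι) a x = x := by intro x; funext i; unfold ovr; simp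
    simp [h0]
  | insert j T hj ih =>
    intro f
    have h1 : ∀ x, f (ovr (insert j T) a x) = f (Function.update (ovr T a x) j (a j)) := by
      intro x; rw [ovr_insert]
    rw [Finset.sum_congr rfl (fun x _ => h1 x),
      ih (fun y => f (Function.update y j (a j)))]
    rw [Finset.card_insert_of_notMem hj, pow_succ, mul_assoc]
    congr 1
    have h2 : (univ.filter (fun y : ι → Bool => ∀ i ∈ T, y i = a i)) =
        (univ.filter (fun y : ι → Bool => ∀ i ∈ insert j T, y i = a i)) ∪
        ((univ.filter (fun y : ι → Bool => ∀ i ∈ insert j T, y i = a i)).image (fl j)) := by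
      ext y
      simp only [Finset.mem_union, Finset.mem_filter, Finset.mem_univ, true_and,
        Finset.mem_image, Finset.forall_mem_insert]
      constructor
      · intro h
        by_cases hy : y j = a j
        · exact Or.inl ⟨hy, h⟩
        · refine Or.inr ⟨fl j y, ⟨?_, ?_⟩, fl_fl j y⟩
          · rw [fl_self]
            cases h1 : a j <;> cases h2 : y j <;> simp_all
          · intro i hi
            have : i ≠ j := by rintro rfl; exact hj hi
            rw [fl_ne this]; exact h i hi
      · rintro (⟨_, h⟩ | ⟨z, ⟨_, h⟩, rfl⟩)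
        · exact h
        · intro i hi
          have : i ≠ j := by rintro rfl; exact hj hi
          rw [fl_ne this]; exact h i hi
    have hdisj : Disjoint (univ.filter (fun y : ι → Bool => ∀ i ∈ insert j T, y i = a i))
        ((univ.filter (fun y : ι → Bool => ∀ i ∈ insert j T, y i = a i)).image (fl j)) := by
      rw [Finset.disjoint_left]
      intro y hy hy2
      simp only [Finset.mem_filter, Finset.mem_univ, true_and, Finset.mem_image,
        Finset.forall_mem_insert] at hy hy2
      obtain ⟨z, ⟨hz, _⟩, rfl⟩ := hy2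
      have := hy.1
      rw [fl_self, hz] at this
      cases h1 : a j <;> simp_all
    rw [h2, Finset.sum_union hdisj, Finset.sum_image]
    · have e1 : ∀ y ∈ univ.filter (fun y : ι → Bool => ∀ i ∈ insert j T, y i = a i),
          f (Function.update y j (a j)) = f y := by
        intro y hy
        simp only [Finset.mem_filter, Finset.mem_univ, true_and,
          Finset.forall_mem_insert] at hy
        rw [← hy.1, Function.update_eq_self]
      have e2 : ∀ y ∈ univ.filter (fun y : ι → Bool => ∀ i ∈ insert j T, y i = a i),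
          f (Function.update (fl j y) j (a j)) = f y := by
        intro y hy
        simp only [Finset.mem_filter, Finset.mem_univ, true_and,
          Finset.forall_mem_insert] at hy
        congr 1
        unfold fl
        rw [Function.update_idem, ← hy.1, Function.update_eq_self]
      rw [Finset.sum_congr rfl e1, Finset.sum_congr rfl e2]
      ring
    · intro x _ y _ hxy
      have := congrArg (fl j) hxy
      simpa only [fl_fl] using this

lemma card_sub (a : ι → Bool) (T : Finset ι) :
    (2 : ℝ) ^ (Fintype.card ι) = 2 ^ T.card *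
      ((univ.filter (fun y : ι → Bool => ∀ i ∈ T, y i = a i)).card : ℝ) := by
  have h := sum_ovr a T (fun _ => 1)
  simp only [Finset.sum_const, nsmul_eq_mul, mul_one] at h
  rw [← h, Finset.card_univ, Fintype.card_fun]
  simp

/-- the indicator function of a set of vertices -/
noncomputable def ind (A : Finset (ι → Bool)) : (ι → Bool) → ℝ := fun x => if x ∈ A then 1 else 0

omit [DecidableEq ι] in
lemma ind_nonneg (A : Finset (ι → Bool)) (x : ι → Bool) : 0 ≤ ind A x := by
  unfold ind; split_ifs <;> norm_num

omit [DecidableEq ι] in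
lemma sum_ind (A B : Finset (ι → Bool)) : ∑ y ∈ B, ind A y = ((B.filter (· ∈ A)).card : ℝ) := by
  unfold ind
  rw [Finset.sum_ite]
  simp

lemma Z_ind (A : Finset (ι → Bool)) : Z (ind A) = (A.card : ℝ) := by
  unfold Z
  rw [sum_ind]
  congr 2
  ext x; simp

lemma Ulog_ind (A : Finset (ι → Bool)) : Ulog (ind A) = 0 := by
  unfold Ulog
  apply Finset.sum_eq_zero
  intro x _
  unfold ind
  split_ifs <;> simp

omit [DecidableEq ι] in
lemma L_ind {θ : ℝ} (hθ : 0 < θ) (A : Finset (ι → Bool)) (x y : ι → Bool) :
    L θ (ind A x) (ind A y) ≤ if x ∈ A ∧ y ∉ A then 1 else 0 := by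
  unfold ind
  by_cases hx : x ∈ A
  · by_cases hy : y ∈ A
    · simp only [hx, hy, if_true]
      rw [L_of_le le_rfl]
      split_ifs <;> norm_num
    · simp only [hx, hy, if_true, if_false, not_false_eq_true, and_self]
      unfold L
      rw [pp_of_ge (by norm_num)]
      rw [div_le_one (by linarith)]
      linarith
  · have h0 : (if x ∈ A then (1 : ℝ) else 0) = 0 := if_neg hx
    rw [h0, L_of_le (by split_ifs <;> norm_num)]
    split_ifs <;> norm_num

lemma S_ind {θ : ℝ} (hθ : 0 < θ) (A : Finset (ι → Bool)) :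
    S θ (ind A) ≤ (((A ×ˢ (Finset.univ : Finset ι)).filter
            (fun p => Function.update p.1 p.2 (!(p.1 p.2)) ∉ A)).card : ℝ) := by
  unfold S Sj
  have h1 : ∑ j, ∑ x, L θ (ind A x) (ind A (fl j x)) ≤
      ∑ j, ∑ x, if x ∈ A ∧ fl j x ∉ A then (1 : ℝ) else 0 :=
    Finset.sum_le_sum fun j _ => Finset.sum_le_sum fun x _ => L_ind hθ A x (fl j x)
  refine h1.trans (le_of_eq ?_)
  rw [Finset.sum_comm, Finset.card_filter, Finset.sum_product]
  push_cast
  rw [← Finset.sum_subset (Finset.subset_univ A)]
  · apply Finset.sum_congr rfl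
    intro x hx
    apply Finset.sum_congr rfl
    intro j _
    unfold fl
    by_cases h : Function.update x j (!(x j)) ∈ A
    · simp [h]
    · simp [h, hx]
  · intro x _ hx
    apply Finset.sum_eq_zero
    intro j _
    simp [hx]

/-- the final bridge: an edge-isoperimetric functional inequality implies the theorem -/
theorem bridge (hmain : ∀ γ₀ : ℝ, 0 < γ₀ → γ₀ ≤ 1 →
      ∃ θ lam : ℝ, 0 < θ ∧ 0 < lam ∧ ∀ n : ℕ, Valid (Fin n) lam θ γ₀) :
    ∀ L : ℝ, 0 < L → ∃ L' : ℝ, 0 < L' ∧ ∃ δ : ℝ, 0 < δ ∧
      ∀ n : ℕ, ∀ A : Finset (Fin n → Bool), A.Nonempty →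
        (A.card : ℝ) / 2 ^ n ≤ 1 / 2 →
        (((A ×ˢ (Finset.univ : Finset (Fin n))).filter
            (fun p => Function.update p.1 p.2 (!(p.1 p.2)) ∉ A)).card : ℝ)
          ≤ L * (A.card : ℝ) * Real.logb 2 ((2 : ℝ) ^ n / (A.card : ℝ)) →
        ∃ S : Finset (Fin n), ∃ c : Fin n → Bool,
          ((A.card : ℝ) / 2 ^ n) ^ L' ≤ (1 / 2 : ℝ) ^ S.card ∧
          (1 + δ) * ((A.card : ℝ) / 2 ^ n) ≤
            ((A.filter (fun x => ∀ i ∈ S, x i = c i)).card : ℝ) /
              ((Finset.univ.filter (fun x : Fin n → Bool => ∀ i ∈ S, x i = c i)).card : ℝ) := by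
  intro L hL
  have hln2 : 0 < Real.log 2 := Real.log_pos (by norm_num)
  obtain ⟨θ, lam, hθ, hlam, hV⟩ := hmain (min 1 (Real.log 2 / (2 * L)))
    (lt_min one_pos (by positivity)) (min_le_left _ _)
  refine ⟨Real.log 2 / lam, by positivity, 1 / 4, by norm_num, ?_⟩
  intro n A hA hα hb
  by_contra hcon
  push Not at hcon
  have hAc : (0 : ℝ) < A.card := by exact_mod_cast hA.card_pos
  set α : ℝ := (A.card : ℝ) / 2 ^ n with hαdef
  have hαpos : 0 < α := by positivity
  set a : ℝ := -Real.log α with hadef
  have ha : Real.log 2 ≤ a := by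
    have h1 : Real.log α ≤ Real.log (1 / 2) := Real.log_le_log hαpos hα
    have h2 : Real.log (1 / 2) = -Real.log 2 := by rw [one_div, Real.log_inv]
    rw [hadef]; linarith
  have hexpa : Real.exp (-a) = α := by
    rw [hadef, neg_neg, Real.exp_log hαpos]
  set c0 : ℝ := Real.log (9 / 10) - a / 2 with hc0
  -- sqrt bounds
  have hE : Real.exp (-(a / 2)) ≤ 0.72 := by
    have h1 : Real.exp (-(a / 2)) ^ 2 = α := by
      rw [← Real.exp_nat_mul, ← hexpa]; congr 1; push_cast; ring
    have h2 : 0 < Real.exp (-(a / 2)) := Real.exp_pos _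
    nlinarith
  have hE2 : 1 / 0.72 ≤ Real.exp (a / 2) := by
    have h1 : Real.exp (a / 2) * Real.exp (-(a / 2)) = 1 := by
      rw [← Real.exp_add]; simp
    have h2 : 0 < Real.exp (a / 2) := Real.exp_pos _
    have h3 : 0 < Real.exp (-(a / 2)) := Real.exp_pos _
    rw [div_le_iff₀ (by norm_num)]
    nlinarith
  have hgood : Good lam (ind A) c0 := by
    intro T b
    obtain ⟨C, hC⟩ : ∃ C : Finset (Fin n → Bool),
        C = (univ.filter (fun y : Fin n → Bool => ∀ i ∈ T, y i = b i)) := ⟨_, rfl⟩
    have hCm : ∀ y, y ∈ C ↔ ∀ i ∈ T, y i = b i := by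
      intro y; rw [hC]; simp only [Finset.mem_filter, Finset.mem_univ, true_and]
    have hsum : ∑ x, ind A (ovr T b x) = 2 ^ T.card * ∑ y ∈ C, ind A y := by
      rw [sum_ovr b T (ind A)]
      congr 1
      apply Finset.sum_congr _ (fun _ _ => rfl)
      ext y
      rw [hCm]; simp only [Finset.mem_filter, Finset.mem_univ, true_and]
    have hcs : (2 : ℝ) ^ n = 2 ^ T.card * (C.card : ℝ) := by
      have h := card_sub b T
      rw [Fintype.card_fin] at h
      rw [h]
      congr 3
      ext y
      rw [hCm]; simp only [Finset.mem_filter, Finset.mem_univ, true_and]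
    rw [hsum, Fintype.card_fin]
    have hind : ∑ y ∈ C, ind A y =
        ((A.filter (fun x => ∀ i ∈ T, x i = b i)).card : ℝ) := by
      rw [sum_ind]
      congr 2
      ext x
      rw [Finset.mem_filter, Finset.mem_filter, hCm]
      tauto
    rw [hind]
    have hCpos : (0 : ℝ) < C.card := by
      have h0 : (0 : ℝ) < 2 ^ T.card * (C.card : ℝ) := by rw [← hcs]; positivity
      exact pos_of_mul_pos_right h0 (by positivity)
    set N : ℝ := ((A.filter (fun x => ∀ i ∈ T, x i = b i)).card : ℝ) with hN
    have hρ : 2 ^ T.card * N = N / C.card * 2 ^ n := by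
      rw [hcs]; field_simp
    rw [hρ]
    apply mul_le_mul_of_nonneg_right _ (by positivity)
    have hexpc : Real.exp (c0 + lam * T.card) =
        9 / 10 * Real.exp (-(a / 2)) * Real.exp (lam * T.card) := by
      rw [hc0, Real.exp_add, sub_eq_add_neg, Real.exp_add, Real.exp_log (by norm_num)]
    rw [hexpc]
    have hEpos : 0 < Real.exp (-(a / 2)) := Real.exp_pos _
    rcases le_or_gt (lam * T.card) a with hc | hc
    · have h1 : α ^ (Real.log 2 / lam) ≤ (1 / 2 : ℝ) ^ T.card := by
        rw [Real.rpow_def_of_pos hαpos]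
        have h2 : (1 / 2 : ℝ) ^ T.card = Real.exp (-(T.card * Real.log 2)) := by
          rw [one_div, inv_pow, Real.exp_neg, Real.exp_nat_mul, Real.exp_log (by norm_num)]
        rw [h2]
        apply Real.exp_le_exp.2
        have h3 : Real.log α = -a := by rw [hadef, neg_neg]
        rw [h3]
        have h4 : (T.card : ℝ) ≤ a / lam := by
          rw [le_div_iff₀ hlam]; linarith
        have h5 : (T.card : ℝ) * Real.log 2 ≤ a / lam * Real.log 2 :=
          mul_le_mul_of_nonneg_right h4 hln2.le
        have h6 : -a * (Real.log 2 / lam) = -(a / lam * Real.log 2) := by ring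
        rw [h6]; linarith
      have h2 := hcon T b h1
      rw [← hC] at h2
      have h3 : (1 : ℝ) ≤ Real.exp (lam * T.card) := Real.one_le_exp (by positivity)
      have h4 : α = Real.exp (-(a / 2)) * Real.exp (-(a / 2)) := by
        rw [← hexpa, ← Real.exp_add]; congr 1; ring
      have h5 : N / C.card < (1 + 1 / 4) * α := h2
      have h6 : (1 + 1 / 4) * α ≤ 9 / 10 * Real.exp (-(a / 2)) := by
        rw [h4]; nlinarith
      have h7 : 9 / 10 * Real.exp (-(a / 2)) ≤
          9 / 10 * Real.exp (-(a / 2)) * Real.exp (lam * T.card) := by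
        apply le_mul_of_one_le_right (by positivity) h3
      linarith
    · have h1 : N / C.card ≤ 1 := by
        rw [div_le_one hCpos, hN]
        exact_mod_cast Finset.card_le_card (fun x hx => by
          rw [Finset.mem_filter] at hx
          rw [hCm]
          exact hx.2)
      have h2 : Real.exp a ≤ Real.exp (lam * T.card) := Real.exp_le_exp.2 hc.le
      have h3 : Real.exp (-(a / 2)) * Real.exp a = Real.exp (a / 2) := by
        rw [← Real.exp_add]; congr 1; ring
      have h4 : Real.exp (-(a / 2)) * Real.exp a ≤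
          Real.exp (-(a / 2)) * Real.exp (lam * T.card) :=
        mul_le_mul_of_nonneg_left h2 hEpos.le
      rw [h3] at h4
      have h5 : (1 : ℝ) ≤ 9 / 10 * (1 / 0.72) := by norm_num
      rw [mul_assoc]
      linarith
  have hmain2 := hV n (ind A) c0 (ind_nonneg A) hgood
  rw [Ulog_ind, Z_ind] at hmain2
  have hS := S_ind hθ A
  have hlogb : Real.logb 2 ((2 : ℝ) ^ n / (A.card : ℝ)) = a / Real.log 2 := by
    unfold Real.logb
    congr 1
    rw [hadef, ← Real.log_inv, hαdef, inv_div]
  rw [hlogb] at hb
  have hγpos : 0 < min 1 (Real.log 2 / (2 * L)) := lt_min one_pos (by positivity)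
  have h1 : min 1 (Real.log 2 / (2 * L)) * S θ (ind A) ≤
      min 1 (Real.log 2 / (2 * L)) * (L * A.card * (a / Real.log 2)) :=
    mul_le_mul_of_nonneg_left (hS.trans hb) hγpos.le
  have hapos : 0 < a := by linarith
  have h2 : min 1 (Real.log 2 / (2 * L)) * (L * A.card * (a / Real.log 2)) ≤
      Real.log 2 / (2 * L) * (L * A.card * (a / Real.log 2)) :=
    mul_le_mul_of_nonneg_right (min_le_right _ _) (by positivity)
  have h3 : Real.log 2 / (2 * L) * (L * A.card * (a / Real.log 2)) = a / 2 * A.card := by
    field_simp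
  have h4 : Real.log (9 / 10) < 0 := Real.log_neg (by norm_num) (by norm_num)
  have h5 : 0 - c0 * A.card ≤ a / 2 * A.card := by linarith
  have h6 : 0 - c0 * A.card = a / 2 * A.card - Real.log (9 / 10) * A.card := by
    rw [hc0]; ring
  have h7 : 0 < -Real.log (9 / 10) * A.card := mul_pos (by linarith) hAc
  linarith

end Pool.Agent.Helper31.Kk
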