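import Pool.Agent.Helper31.KkCube

set_option autoImplicit false

namespace Pool.Agent.Helper31.Kk

open Finset Real

variable {ι : Type*} [Fintype ι] [DecidableEq ι]

lemma Good_avg {lam c : ℝ} {u : (ι → Bool) → ℝ} (h : Good lam u c) (j : ι) :
    Good lam (avg j u) c := by
  intro T a
  have h1 := h T a
  unfold avg
  rw [← Finset.sum_div, Finset.sum_add_distrib]
  by_cases hj : j ∈ T
  · have h2 := h T (fl j a)
    have e : ∀ x, fl j (ovr T a x) = ovr T (fl j a) x := by
      intro x; funext i
      by_cases hi : i = j
      · subst hi; rw [fl_self]; unfold ovr; simp only [hj, if_true]; rw [fl_self]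
      · rw [fl_ne hi]; unfold ovr
        by_cases hT : i ∈ T
        · simp only [hT, if_true]; rw [fl_ne hi]
        · simp only [hT, if_false]
    simp only [e]
    linarith
  · have e : ∀ x, fl j (ovr T a x) = ovr T a (fl j x) := by
      intro x; funext i
      by_cases hi : i = j
      · subst hi; rw [fl_self]; unfold ovr; simp only [hj, if_false]; rw [fl_self]
      · rw [fl_ne hi]; unfold ovr
        by_cases hT : i ∈ T
        · simp only [hT, if_true]
        · simp only [hT, if_false]; rw [fl_ne hi]
    simp only [e]
    rw [sum_fl j (fun y => u (ovr T a y))]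
    linarith

lemma Good_mono {lam c : ℝ} {u w : (ι → Bool) → ℝ} (h : Good lam u c) (hw : ∀ x, w x ≤ u x) :
    Good lam w c := fun T a => (Finset.sum_le_sum fun _ _ => hw _).trans (h T a)

lemma Good_restr {lam c : ℝ} (hlam : 0 ≤ lam) {u : (ι → Bool) → ℝ} (h : Good lam u c)
    (j : ι) (b : Bool) : Good lam (restr j b u) (c + lam) := by
  intro T a
  have h1 := h (insert j T) (Function.update a j b)
  have e : ∀ x, Function.update (ovr T a x) j b =
      ovr (insert j T) (Function.update a j b) x := by
    intro x; funext i
    unfold ovr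
    by_cases hi : i = j
    · subst hi; simp
    · simp [hi]
  unfold restr
  simp only [e]
  refine h1.trans ?_
  apply mul_le_mul_of_nonneg_right _ (by positivity)
  apply exp_le_exp.2
  have : ((insert j T).card : ℝ) ≤ T.card + 1 := by exact_mod_cast Finset.card_insert_le j T
  nlinarith

lemma sum_restr (j : ι) (f : (ι → Bool) → ℝ) :
    ∑ x, f (Function.update x j true) + ∑ x, f (Function.update x j false) = 2 * ∑ x, f x := by
  rw [← Finset.sum_add_distrib]
  have e : ∀ x : ι → Bool, f (Function.update x j true) + f (Function.update x j false) =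
      f x + f (fl j x) := by
    intro x
    unfold fl
    cases h : x j
    · have : Function.update x j false = x := by rw [← h, Function.update_eq_self]
      rw [this]; simp; ring
    · have : Function.update x j true = x := by rw [← h, Function.update_eq_self]
      rw [this]; simp
  rw [Finset.sum_congr rfl (fun x _ => e x), Finset.sum_add_distrib, sum_fl]
  ring

lemma Z_restr (j : ι) (u : (ι → Bool) → ℝ) :
    Z (restr j true u) + Z (restr j false u) = 2 * Z u := sum_restr j u

lemma Ulog_restr (j : ι) (u : (ι → Bool) → ℝ) :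
    Ulog (restr j true u) + Ulog (restr j false u) = 2 * Ulog u :=
  sum_restr j (fun x => u x * log (u x))

omit [Fintype ι] in
lemma update_fl {i j : ι} (h : i ≠ j) (x : ι → Bool) (b : Bool) :
    Function.update (fl i x) j b = fl i (Function.update x j b) := by
  unfold fl
  rw [Function.update_comm h, Function.update_of_ne h]

lemma Sj_restr {i j : ι} (h : i ≠ j) (θ : ℝ) (u : (ι → Bool) → ℝ) :
    Sj θ (restr j true u) i + Sj θ (restr j false u) i = 2 * Sj θ u i := by
  unfold Sj restr
  rw [← sum_restr j (fun x => L θ (u x) (u (fl i x)))]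
  simp only [update_fl h]

lemma Sj_restr_self (j : ι) (b : Bool) (θ : ℝ) (u : (ι → Bool) → ℝ) :
    Sj θ (restr j b u) j = 0 := by
  unfold Sj restr
  apply Finset.sum_eq_zero
  intro x _
  have : Function.update (fl j x) j b = Function.update x j b := by
    unfold fl; simp
  rw [this, L_of_le le_rfl]

omit [Fintype ι] in
lemma restr_nonneg {j : ι} {b : Bool} {u : (ι → Bool) → ℝ} (hu : ∀ x, 0 ≤ u x)
    (x : ι → Bool) : 0 ≤ restr j b u x := hu _

/-- validity of a constant -/
def Valid (ι : Type*) [Fintype ι] [DecidableEq ι] (lam θ γ : ℝ) : Prop :=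
  ∀ (u : (ι → Bool) → ℝ) (c : ℝ), (∀ x, 0 ≤ u x) → Good lam u c →
    Ulog u - c * Z u ≤ γ * S θ u

/-- fixing the coordinates of `T` -/
lemma restrict_main {lam θ γ : ℝ} (hlam : 0 ≤ lam) (hγ : Valid ι lam θ γ) (T : Finset ι) :
    ∀ (u : (ι → Bool) → ℝ) (c : ℝ), (∀ x, 0 ≤ u x) → Good lam u c →
      Ulog u - c * Z u ≤ lam * T.card * Z u + γ * (S θ u - ∑ j ∈ T, Sj θ u j) := by
  induction T using Finset.induction_on with
  | empty =>
    intro u c hu h
    have := hγ u c hu h
    simpa using this
  | insert j T hj ih =>
    intro u c hu h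
    have h1 := ih (restr j true u) (c + lam) (restr_nonneg hu) (Good_restr hlam h j true)
    have h2 := ih (restr j false u) (c + lam) (restr_nonneg hu) (Good_restr hlam h j false)
    have hZ := Z_restr j u
    have hU := Ulog_restr j u
    have key : (S θ (restr j true u) - ∑ i ∈ T, Sj θ (restr j true u) i) +
        (S θ (restr j false u) - ∑ i ∈ T, Sj θ (restr j false u) i) =
        2 * (S θ u - ∑ i ∈ insert j T, Sj θ u i) := by
      have e1 : ∀ w : (ι → Bool) → ℝ, S θ w - ∑ i ∈ T, Sj θ w i =
          Sj θ w j + ∑ i ∈ univ \ (insert j T), Sj θ w i := by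
        intro w
        unfold S
        rw [← Finset.sum_sdiff (Finset.subset_univ (insert j T)), Finset.sum_insert hj]
        ring
      have e2 : S θ u - ∑ i ∈ insert j T, Sj θ u i = ∑ i ∈ univ \ (insert j T), Sj θ u i := by
        unfold S
        rw [← Finset.sum_sdiff (Finset.subset_univ (insert j T))]
        ring
      rw [e1, e1, e2, Sj_restr_self, Sj_restr_self, Finset.mul_sum]
      have e3 : ∑ i ∈ univ \ (insert j T), 2 * Sj θ u i =
          ∑ i ∈ univ \ (insert j T), (Sj θ (restr j true u) i + Sj θ (restr j false u) i) := by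
        apply Finset.sum_congr rfl
        intro i hi
        rw [Sj_restr]
        intro hij
        subst hij
        simp at hi
      rw [e3, Finset.sum_add_distrib]
      ring
    rw [Finset.card_insert_of_notMem hj]
    push_cast
    have h3 : γ * (S θ (restr j true u) - ∑ i ∈ T, Sj θ (restr j true u) i) +
        γ * (S θ (restr j false u) - ∑ i ∈ T, Sj θ (restr j false u) i) =
        γ * (2 * (S θ u - ∑ i ∈ insert j T, Sj θ u i)) := by
      rw [← mul_add, key]
    have h4 : (Ulog (restr j true u) + Ulog (restr j false u)) -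
        (c + lam) * (Z (restr j true u) + Z (restr j false u)) ≤
        lam * T.card * (Z (restr j true u) + Z (restr j false u)) +
          γ * (2 * (S θ u - ∑ i ∈ insert j T, Sj θ u i)) := by
      rw [← h3]; linarith
    rw [hZ, hU] at h4
    linarith

end Pool.Agent.Helper31.Kk
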