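import Pool.Agent.Helper31.KkRound

set_option autoImplicit false

namespace Pool.Agent.Helper31.Kk

open Finset Real

lemma arith8 {γ₀ γ θ κ nξ Sv G ε : ℝ} (h0 : 0 < γ₀)
    (hε : ε = γ₀ ^ 2 / 64) (hθ : θ = γ₀ / 8) (hκ : κ = γ₀ / 16)
    (hγ0 : γ₀ ≤ γ) (hθ1 : θ ≤ 1 / 8)
    (hnξ : nξ ≤ 1 / 2) (hSv : 0 < Sv)
    (hG1 : (1 - nξ) * γ * Sv ≤ G) :
    8 * ε * Sv ≤ γ * (1 / (1 + θ) * (G - (2 * κ + θ) * Sv)) := by
  have hθpos : 0 < θ := by rw [hθ]; positivity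
  have hγpos : 0 < γ := by linarith
  have h2 : γ / 4 * Sv ≤ G - (2 * κ + θ) * Sv := by
    have h3 : γ / 2 * Sv ≤ G := by
      refine le_trans ?_ hG1
      apply mul_le_mul_of_nonneg_right _ hSv.le
      have := mul_le_mul_of_nonneg_right hnξ hγpos.le
      linarith
    have h4 : (2 * κ + θ) * Sv ≤ γ / 4 * Sv := by
      apply mul_le_mul_of_nonneg_right _ hSv.le
      rw [hκ, hθ]; linarith
    linarith
  have h5 : 1 / 2 ≤ 1 / (1 + θ) := by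
    apply one_div_le_one_div_of_le (by linarith) (by linarith)
  have h6 : 1 / 2 * (γ / 4 * Sv) ≤ 1 / (1 + θ) * (G - (2 * κ + θ) * Sv) :=
    mul_le_mul h5 h2 (by positivity) (by positivity)
  have h7 := mul_le_mul_of_nonneg_left h6 hγpos.le
  refine le_trans ?_ h7
  have h8 : 8 * ε * Sv = γ₀ * γ₀ / 8 * Sv := by rw [hε]; ring
  have h9 : γ * (1 / 2 * (γ / 4 * Sv)) = γ * γ / 8 * Sv := by ring
  rw [h8, h9]
  apply mul_le_mul_of_nonneg_right _ hSv.le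
  have : γ₀ * γ₀ ≤ γ * γ := mul_le_mul hγ0 hγ0 h0.le hγpos.le
  linarith

/-- final arithmetic -/
lemma arith {γ₀ γ s θ κ l c₂ Λ ξ nξ Sv G E E₀ W ε : ℝ} (h0 : 0 < γ₀) (h1 : γ₀ ≤ 1)
    (hε : ε = γ₀ ^ 2 / 64) (hθ : θ = γ₀ / 8) (hκ : κ = γ₀ / 16)
    (hγ0 : γ₀ ≤ γ) (hγ1 : γ ≤ 1 + θ) (hs : 0 < s) (hΛ : 0 < Λ) (hc₂ : 0 < c₂) (hl : 0 < l)
    (hξ : 0 < ξ) (hnξ : nξ ≤ 1 / 2) (hSv : 0 < Sv) (hE0 : 0 ≤ E)
    (ha : s ^ 2 / κ ^ 2 * 2 ≤ ε) (hb : l / c₂ * 2 ≤ ε) (hc : 2 * ξ ≤ ε)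
    (hd : 2 * (s ^ 2 * (8 / θ) * E₀) ≤ ε) (he : 8 / (Λ * s ^ 2) * 4 ≤ ε)
    (hf : 2 * (s * E₀) ≤ ε) (hg : 2 * (4 * s / θ) ≤ ε)
    (hW : (1 - ξ) * γ * Sv < W)
    (hG1 : (1 - nξ) * γ * Sv ≤ G) (hG2 : G ≤ (1 + θ) * Sv) (hE : E ≤ E₀ * Sv)
    (hstar : W ≤ s ^ 2 / κ ^ 2 * G + l / c₂ * G + γ * (Sv + s ^ 2 * (8 / θ) * E + s * E +
        4 * s / θ * Sv - 1 / (1 + θ) * (G - (2 * κ + θ) * Sv) +
        8 / (Λ * s ^ 2) * (Sv + s ^ 2 * (8 / θ) * E))) : False := by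
  have hθpos : 0 < θ := by rw [hθ]; positivity
  have hκpos : 0 < κ := by rw [hκ]; positivity
  have hθ1 : θ ≤ 1 / 8 := by rw [hθ]; linarith
  have hγpos : 0 < γ := by linarith
  have hγ2 : γ ≤ 2 := by linarith
  have hε1 : ε ≤ 1 := by rw [hε]; nlinarith
  have hεpos : 0 < ε := by rw [hε]; positivity
  have hG0 : 0 ≤ G := by
    refine le_trans ?_ hG1
    have : 0 ≤ (1 - nξ) := by linarith
    positivity
  have hG3 : G ≤ 2 * Sv := by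
    have := mul_le_mul_of_nonneg_right hθ1 hSv.le
    linarith
  -- terms
  have t1 : s ^ 2 / κ ^ 2 * G ≤ ε * Sv := by
    calc s ^ 2 / κ ^ 2 * G ≤ s ^ 2 / κ ^ 2 * (2 * Sv) :=
          mul_le_mul_of_nonneg_left hG3 (by positivity)
      _ = (s ^ 2 / κ ^ 2 * 2) * Sv := by ring
      _ ≤ ε * Sv := mul_le_mul_of_nonneg_right ha hSv.le
  have t2 : l / c₂ * G ≤ ε * Sv := by
    calc l / c₂ * G ≤ l / c₂ * (2 * Sv) :=
          mul_le_mul_of_nonneg_left hG3 (by positivity)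
      _ = (l / c₂ * 2) * Sv := by ring
      _ ≤ ε * Sv := mul_le_mul_of_nonneg_right hb hSv.le
  have t3' : s ^ 2 * (8 / θ) * E ≤ (s ^ 2 * (8 / θ) * E₀) * Sv := by
    calc s ^ 2 * (8 / θ) * E ≤ s ^ 2 * (8 / θ) * (E₀ * Sv) :=
          mul_le_mul_of_nonneg_left hE (by positivity)
      _ = _ := by ring
  have t3'' : 0 ≤ s ^ 2 * (8 / θ) * E := by positivity
  have t3 : γ * (s ^ 2 * (8 / θ) * E) ≤ ε * Sv := by
    calc γ * (s ^ 2 * (8 / θ) * E) ≤ 2 * (s ^ 2 * (8 / θ) * E) :=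
          mul_le_mul_of_nonneg_right hγ2 t3''
      _ ≤ 2 * ((s ^ 2 * (8 / θ) * E₀) * Sv) := by linarith
      _ = (2 * (s ^ 2 * (8 / θ) * E₀)) * Sv := by ring
      _ ≤ ε * Sv := mul_le_mul_of_nonneg_right hd hSv.le
  have t4 : γ * (s * E) ≤ ε * Sv := by
    calc γ * (s * E) ≤ 2 * (s * E) := mul_le_mul_of_nonneg_right hγ2 (by positivity)
      _ ≤ 2 * (s * (E₀ * Sv)) := by
          have := mul_le_mul_of_nonneg_left hE hs.le
          linarith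
      _ = (2 * (s * E₀)) * Sv := by ring
      _ ≤ ε * Sv := mul_le_mul_of_nonneg_right hf hSv.le
  have t5 : γ * (4 * s / θ * Sv) ≤ ε * Sv := by
    calc γ * (4 * s / θ * Sv) ≤ 2 * (4 * s / θ * Sv) :=
          mul_le_mul_of_nonneg_right hγ2 (by positivity)
      _ = (2 * (4 * s / θ)) * Sv := by ring
      _ ≤ ε * Sv := mul_le_mul_of_nonneg_right hg hSv.le
  have t6 : γ * (8 / (Λ * s ^ 2) * (Sv + s ^ 2 * (8 / θ) * E)) ≤ ε * Sv := by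
    have h2 : Sv + s ^ 2 * (8 / θ) * E ≤ 2 * Sv := by
      have h3 : (s ^ 2 * (8 / θ) * E₀) * Sv ≤ 1 * Sv :=
        mul_le_mul_of_nonneg_right (by linarith) hSv.le
      linarith
    calc γ * (8 / (Λ * s ^ 2) * (Sv + s ^ 2 * (8 / θ) * E))
        ≤ 2 * (8 / (Λ * s ^ 2) * (Sv + s ^ 2 * (8 / θ) * E)) :=
          mul_le_mul_of_nonneg_right hγ2 (by positivity)
      _ ≤ 2 * (8 / (Λ * s ^ 2) * (2 * Sv)) := by
          have := mul_le_mul_of_nonneg_left h2 (by positivity : 0 ≤ 8 / (Λ * s ^ 2))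
          linarith
      _ = (8 / (Λ * s ^ 2) * 4) * Sv := by ring
      _ ≤ ε * Sv := mul_le_mul_of_nonneg_right he hSv.le
  have t7 : ξ * γ * Sv ≤ ε * Sv := by
    apply mul_le_mul_of_nonneg_right _ hSv.le
    have := mul_le_mul_of_nonneg_left hγ2 hξ.le
    linarith
  have t8 : 8 * ε * Sv ≤ γ * (1 / (1 + θ) * (G - (2 * κ + θ) * Sv)) :=
    arith8 h0 hε hθ hκ hγ0 hθ1 hnξ hSv hG1
  have hpos : 0 < ε * Sv := by positivity
  have hexp : γ * (Sv + s ^ 2 * (8 / θ) * E + s * E +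
        4 * s / θ * Sv - 1 / (1 + θ) * (G - (2 * κ + θ) * Sv) +
        8 / (Λ * s ^ 2) * (Sv + s ^ 2 * (8 / θ) * E)) =
      γ * Sv + γ * (s ^ 2 * (8 / θ) * E) + γ * (s * E) + γ * (4 * s / θ * Sv)
        - γ * (1 / (1 + θ) * (G - (2 * κ + θ) * Sv))
        + γ * (8 / (Λ * s ^ 2) * (Sv + s ^ 2 * (8 / θ) * E)) := by ring
  rw [hexp] at hstar
  have hW' : (1 - ξ) * γ * Sv = γ * Sv - ξ * γ * Sv := by ring
  rw [hW'] at hW
  linarith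

/-- the main theorem in functional form -/
theorem main_valid (γ₀ : ℝ) (h0 : 0 < γ₀) (h1 : γ₀ ≤ 1) :
    ∃ θ lam : ℝ, 0 < θ ∧ 0 < lam ∧ ∀ n : ℕ, Valid (Fin n) lam θ γ₀ := by
  obtain ⟨θ, hθe⟩ : ∃ y : ℝ, y = γ₀ / 8 := ⟨_, rfl⟩
  obtain ⟨κ, hκe⟩ : ∃ y : ℝ, y = γ₀ / 16 := ⟨_, rfl⟩
  obtain ⟨ε, hεe⟩ : ∃ y : ℝ, y = γ₀ ^ 2 / 64 := ⟨_, rfl⟩
  have hθ : 0 < θ := by rw [hθe]; positivity
  have hκ : 0 < κ := by rw [hκe]; positivity
  have hε : 0 < ε := by rw [hεe]; positivity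
  have hε1 : ε ≤ 1 := by rw [hεe]; nlinarith
  obtain ⟨E₀, hE₀e⟩ : ∃ y : ℝ, y = 4 * (1 + θ) ^ 3 / θ ^ 2 * (2 / γ₀ + 1) := ⟨_, rfl⟩
  have hE₀ : 0 ≤ E₀ := by rw [hE₀e]; positivity
  obtain ⟨M, hM⟩ : ∃ y : ℝ, y = 2 / κ ^ 2 + 2 * (8 / θ) * E₀ + 2 * E₀ + 8 / θ + 1 := ⟨_, rfl⟩
  have hM1 : 1 ≤ M := by
    have : 0 ≤ 2 / κ ^ 2 + 2 * (8 / θ) * E₀ + 2 * E₀ + 8 / θ := by positivity
    linarith
  obtain ⟨s, hse⟩ : ∃ y : ℝ, y = ε / M := ⟨_, rfl⟩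
  have hs : 0 < s := by rw [hse]; positivity
  have hsε : s ≤ ε := by rw [hse]; exact div_le_self hε.le hM1
  have hs1 : s ≤ 1 := hsε.trans hε1
  have hsM : s * M = ε := by rw [hse]; field_simp
  have hss : s ^ 2 ≤ s := by nlinarith
  have bound : ∀ y, 0 ≤ y → y ≤ M → s * y ≤ ε := by
    intro y _ hy
    rw [← hsM]
    exact mul_le_mul_of_nonneg_left hy hs.le
  obtain ⟨Λ, hΛe⟩ : ∃ y : ℝ, y = 32 / (s ^ 2 * ε) := ⟨_, rfl⟩
  have hΛ : 0 < Λ := by rw [hΛe]; positivity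
  obtain ⟨c₂, hc₂e⟩ : ∃ y : ℝ, y = exp (log (κ ^ 2 / 2) - 1 - Λ) := ⟨_, rfl⟩
  have hc₂ : 0 < c₂ := by rw [hc₂e]; exact exp_pos _
  have hΛlog : Λ = log (κ ^ 2 / 2) - log c₂ - 1 := by
    rw [hc₂e, Real.log_exp]; ring
  obtain ⟨lam, hlame⟩ : ∃ y : ℝ, y = ε * c₂ / 2 := ⟨_, rfl⟩
  have hlam : 0 < lam := by rw [hlame]; positivity
  refine ⟨θ, lam, hθ, hlam, ?_⟩
  intro n
  apply valid_of_improve hθ h0
  intro γ hγ0 hγ1 hV
  have hγpos : 0 < γ := by linarith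
  obtain ⟨ξ, hξe⟩ : ∃ y : ℝ, y = ε / (2 * (n + 1)) := ⟨_, rfl⟩
  have hnn : (0 : ℝ) ≤ n := Nat.cast_nonneg n
  have hξ : 0 < ξ := by rw [hξe]; positivity
  have hξ2 : 2 * ξ ≤ ε := by
    have : 2 * ξ = ε / (n + 1) := by rw [hξe]; field_simp
    rw [this]
    exact div_le_self hε.le (by linarith)
  have hnξ : (n : ℝ) * ξ ≤ 1 / 2 := by
    have : (n : ℝ) * ξ = (n / (n + 1)) * (ε / 2) := by rw [hξe]; field_simp
    rw [this]
    have h2 : (n : ℝ) / (n + 1) ≤ 1 := div_le_one_of_le₀ (by linarith) (by linarith)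
    have h3 : (0:ℝ) ≤ n / (n + 1) := by positivity
    nlinarith
  refine ⟨ξ, hξ, by linarith, ?_⟩
  intro u c hu hgood
  by_contra hcon
  push Not at hcon
  have hS0 := S_nonneg hθ hu
  rcases hS0.eq_or_lt with hS | hS
  · have h2 := hV u c hu hgood
    rw [← hS] at h2 hcon
    simp at h2 hcon
    linarith
  · have hn : 0 < Fintype.card (Fin n) := by
      rw [Fintype.card_fin]
      rcases Nat.eq_zero_or_pos n with h | h
      · subst h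
        exfalso
        have : S θ u = 0 := by unfold S; simp
        linarith
      · exact h
    have hext : (1 - ξ) * γ * S θ u ≤ Ulog u - c * Z u := hcon.le
    obtain ⟨hG1, hFE⟩ := step1 hθ hγpos hV hu hgood hext
    have hG2 := GG_le hθ hu
    have hG0 := GG_nonneg hu
    rw [Fintype.card_fin] at hG1 hFE
    have hθ1 : θ ≤ 1 := by rw [hθe]; linarith
    have hE : FE u (fun _ => 1) ≤ E₀ * S θ u := by
      refine hFE.trans ?_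
      rw [hE₀e, mul_assoc (4 * (1 + θ) ^ 3 / θ ^ 2) (2 / γ₀ + 1) (S θ u)]
      apply mul_le_mul_of_nonneg_left _ (by positivity)
      have h3 : GG u / γ ≤ 2 / γ₀ * S θ u := by
        calc GG u / γ ≤ GG u / γ₀ := div_le_div_of_nonneg_left hG0 h0 hγ0
          _ ≤ (2 * S θ u) / γ₀ := by
              apply div_le_div_of_nonneg_right _ h0.le
              nlinarith
          _ = _ := by ring
      have h4 : (n : ℝ) * ξ * S θ u ≤ 1 * S θ u :=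
        mul_le_mul_of_nonneg_right (by linarith) hS.le
      linarith
    have hstar := star hn hlam.le hθ hγpos.le hV hκ hc₂ hΛlog hΛ hs hs1 hu hgood
    refine arith (l := lam) (c₂ := c₂) (Λ := Λ) (ξ := ξ) (nξ := n * ξ) (s := s) (κ := κ)
      (θ := θ) (ε := ε) (E₀ := E₀) h0 h1 hεe hθe hκe hγ0 hγ1 hs hΛ hc₂ hlam hξ hnξ hS
      (FE_one_nonneg hu) ?_ ?_ hξ2 ?_ ?_ ?_ ?_ hcon hG1 hG2 hE hstar
    · have := bound (2 / κ ^ 2) (by positivity) (by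
        rw [hM]
        have : 0 ≤ 2 * (8 / θ) * E₀ + 2 * E₀ + 8 / θ + 1 := by positivity
        linarith)
      calc s ^ 2 / κ ^ 2 * 2 = s ^ 2 * (2 / κ ^ 2) := by ring
        _ ≤ s * (2 / κ ^ 2) := mul_le_mul_of_nonneg_right hss (by positivity)
        _ ≤ ε := this
    · rw [hlame]; apply le_of_eq; field_simp
    · have := bound (2 * (8 / θ) * E₀) (by positivity) (by
        rw [hM]
        have : 0 ≤ 2 / κ ^ 2 + 2 * E₀ + 8 / θ + 1 := by positivity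
        linarith)
      calc 2 * (s ^ 2 * (8 / θ) * E₀) = s ^ 2 * (2 * (8 / θ) * E₀) := by ring
        _ ≤ s * (2 * (8 / θ) * E₀) := mul_le_mul_of_nonneg_right hss (by positivity)
        _ ≤ ε := this
    · rw [hΛe]; apply le_of_eq; field_simp; norm_num
    · have := bound (2 * E₀) (by positivity) (by
        rw [hM]
        have : 0 ≤ 2 / κ ^ 2 + 2 * (8 / θ) * E₀ + 8 / θ + 1 := by positivity
        linarith)
      linarith
    · have := bound (8 / θ) (by positivity) (by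
        rw [hM]
        have : 0 ≤ 2 / κ ^ 2 + 2 * (8 / θ) * E₀ + 2 * E₀ + 1 := by positivity
        linarith)
      calc 2 * (4 * s / θ) = s * (8 / θ) := by ring
        _ ≤ ε := this

end Pool.Agent.Helper31.Kk
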