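import Pool.Agent.Helper31.KkGood

set_option autoImplicit false

namespace Pool.Agent.Helper31.Kk

open Finset Real

variable {ι : Type*} [Fintype ι] [DecidableEq ι]

/-- functionals of a kernel -/
abbrev Fnl (ι : Type*) := ((ι → Bool) → ℝ) → ℝ

/-- one round of sampling, acting on functionals -/
noncomputable def TT (ζ : ℝ) (g : ι → (ι → Bool) → ℝ) : Module.End ℝ (Fnl ι) where
  toFun F := fun q => (1 - ζ) * F q + ζ / (Fintype.card ι) *
    ∑ i, (F (fun x => q x * g i x) + F (fun x => q x * (1 - g i x)))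
  map_add' F G := by
    funext q
    simp only [Pi.add_apply, Finset.sum_add_distrib]
    ring
  map_smul' c F := by
    funext q
    simp only [Pi.smul_apply, smul_eq_mul, RingHom.id_apply, ← mul_add, ← Finset.mul_sum]
    ring

omit [DecidableEq ι] in
lemma TT_apply (ζ : ℝ) (g : ι → (ι → Bool) → ℝ) (F : Fnl ι) (q : (ι → Bool) → ℝ) :
    TT ζ g F q = (1 - ζ) * F q + ζ / (Fintype.card ι) *
      ∑ i, (F (fun x => q x * g i x) + F (fun x => q x * (1 - g i x))) := rfl

/-- the set of kernels -/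
def QQ (ι : Type*) : Set ((ι → Bool) → ℝ) := {q | ∀ x, 0 ≤ q x ∧ q x ≤ 1}

/-- standing assumption on sampling rates -/
def Rate (g : ι → (ι → Bool) → ℝ) : Prop := ∀ i x, 0 ≤ g i x ∧ g i x ≤ 1

omit [Fintype ι] [DecidableEq ι] in
lemma QQ_one : (fun _ => 1) ∈ QQ ι := fun _ => ⟨zero_le_one, le_rfl⟩

omit [Fintype ι] [DecidableEq ι] in
lemma QQ_g {g : ι → (ι → Bool) → ℝ} (hg : Rate g) {q : (ι → Bool) → ℝ} (hq : q ∈ QQ ι) (i : ι) :
    (fun x => q x * g i x) ∈ QQ ι := fun x =>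
  ⟨mul_nonneg (hq x).1 (hg i x).1, mul_le_one₀ (hq x).2 (hg i x).1 (hg i x).2⟩

omit [Fintype ι] [DecidableEq ι] in
lemma QQ_g' {g : ι → (ι → Bool) → ℝ} (hg : Rate g) {q : (ι → Bool) → ℝ} (hq : q ∈ QQ ι) (i : ι) :
    (fun x => q x * (1 - g i x)) ∈ QQ ι := fun x => by
  have := hq x; have := hg i x
  exact ⟨mul_nonneg (hq x).1 (by linarith), mul_le_one₀ (hq x).2 (by linarith) (by linarith)⟩

variable {ζ : ℝ} {g : ι → (ι → Bool) → ℝ}

omit [DecidableEq ι] in
lemma TT_mono (hζ : 0 ≤ ζ) (hζ1 : ζ ≤ 1) (hg : Rate g) {F H : Fnl ι}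
    (h : ∀ q ∈ QQ ι, F q ≤ H q) : ∀ q ∈ QQ ι, TT ζ g F q ≤ TT ζ g H q := by
  intro q hq
  rw [TT_apply, TT_apply]
  have h1 : (1 - ζ) * F q ≤ (1 - ζ) * H q := mul_le_mul_of_nonneg_left (h q hq) (by linarith)
  have h2 : ∑ i, (F (fun x => q x * g i x) + F (fun x => q x * (1 - g i x))) ≤
      ∑ i, (H (fun x => q x * g i x) + H (fun x => q x * (1 - g i x))) :=
    Finset.sum_le_sum fun i _ => add_le_add (h _ (QQ_g hg hq i)) (h _ (QQ_g' hg hq i))
  have h3 : 0 ≤ ζ / (Fintype.card ι : ℝ) := by positivity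
  have := mul_le_mul_of_nonneg_left h2 h3
  linarith

omit [DecidableEq ι] in
lemma TTk_mono (hζ : 0 ≤ ζ) (hζ1 : ζ ≤ 1) (hg : Rate g) {F H : Fnl ι}
    (h : ∀ q ∈ QQ ι, F q ≤ H q) (k : ℕ) : ∀ q ∈ QQ ι, (TT ζ g ^ k) F q ≤ (TT ζ g ^ k) H q := by
  induction k with
  | zero => simpa using h
  | succ k ih =>
    intro q hq
    rw [pow_succ']
    exact TT_mono hζ hζ1 hg ih q hq

omit [DecidableEq ι] in
lemma TTk_incr (hζ : 0 ≤ ζ) (hζ1 : ζ ≤ 1) (hg : Rate g) {F H : Fnl ι} {c : ℝ} (hc : 0 ≤ c)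
    (hF : ∀ q ∈ QQ ι, TT ζ g F q ≤ F q + c * H q) (hH : ∀ q ∈ QQ ι, TT ζ g H q ≤ H q) (k : ℕ) :
    ∀ q ∈ QQ ι, (TT ζ g ^ k) F q ≤ F q + k * c * H q := by
  induction k with
  | zero => intro q _; simp
  | succ k ih =>
    intro q hq
    rw [pow_succ']
    have h1 : TT ζ g ((TT ζ g ^ k) F) q ≤ TT ζ g (F + (k * c) • H) q := by
      apply TT_mono hζ hζ1 hg _ q hq
      intro q' hq'
      have := ih q' hq'
      simpa [mul_comm] using this
    rw [map_add, map_smul] at h1
    have h2 := hF q hq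
    have h3 := hH q hq
    have h4 : (k * c) * TT ζ g H q ≤ (k * c) * H q :=
      mul_le_mul_of_nonneg_left h3 (by positivity)
    simp only [Pi.add_apply, Pi.smul_apply, smul_eq_mul] at h1
    push_cast
    show TT ζ g ((TT ζ g ^ k) F) q ≤ _
    linarith

omit [DecidableEq ι] in
lemma TT_le (hn : 0 < Fintype.card ι) (hζ : 0 ≤ ζ) {F : Fnl ι} {q : (ι → Bool) → ℝ} {R : ι → ℝ}
    (h : ∀ i, F (fun x => q x * g i x) + F (fun x => q x * (1 - g i x)) ≤ F q + R i) :
    TT ζ g F q ≤ F q + ζ / (Fintype.card ι) * ∑ i, R i := by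
  rw [TT_apply]
  have h2 : ∑ i, (F (fun x => q x * g i x) + F (fun x => q x * (1 - g i x))) ≤
      ∑ i, (F q + R i) := Finset.sum_le_sum fun i _ => h i
  have h2' : ∑ i, (F q + R i) = (Fintype.card ι : ℝ) * F q + ∑ i, R i := by
    rw [Finset.sum_add_distrib, Finset.sum_const, nsmul_eq_mul, Finset.card_univ]
  rw [h2'] at h2
  have h3 : 0 ≤ ζ / (Fintype.card ι : ℝ) := by positivity
  have h4 := mul_le_mul_of_nonneg_left h2 h3
  have h5 : ζ / (Fintype.card ι : ℝ) * ((Fintype.card ι : ℝ) * F q) = ζ * F q := by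
    have : (Fintype.card ι : ℝ) ≠ 0 := by positivity
    field_simp
  rw [mul_add, h5] at h4
  linarith

omit [DecidableEq ι] in
lemma TT_eq (hn : 0 < Fintype.card ι) {F : Fnl ι} {q : (ι → Bool) → ℝ} {R : ι → ℝ}
    (h : ∀ i, F (fun x => q x * g i x) + F (fun x => q x * (1 - g i x)) = F q + R i) :
    TT ζ g F q = F q + ζ / (Fintype.card ι) * ∑ i, R i := by
  rw [TT_apply]
  rw [Finset.sum_congr rfl (fun i _ => h i)]
  rw [Finset.sum_add_distrib, Finset.sum_const, nsmul_eq_mul, Finset.card_univ]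
  have : (Fintype.card ι : ℝ) ≠ 0 := by positivity
  field_simp
  ring

/-- linear functionals are fixed -/
lemma TTk_lin (hn : 0 < Fintype.card ι) (a : (ι → Bool) → ℝ) (k : ℕ) :
    (TT ζ g ^ k) (fun q => ∑ x, a x * q x) = fun q => ∑ x, a x * q x := by
  induction k with
  | zero => simp
  | succ k ih =>
    rw [pow_succ]
    have : TT ζ g (fun q => ∑ x, a x * q x) = fun q => ∑ x, a x * q x := by
      funext q
      rw [TT_eq hn (R := fun _ => 0)]
      · simp
      · intro i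
        rw [add_zero, ← Finset.sum_add_distrib]
        apply Finset.sum_congr rfl
        intro x _; ring
    show (TT ζ g ^ k) (TT ζ g (fun q => ∑ x, a x * q x)) = _
    rw [this, ih]

/-! ### entropy of a split -/

lemma term_nonneg {w g p : ℝ} (hw : 0 ≤ w) (hg : 0 ≤ g) (hp : 0 ≤ p) (h0 : p = 0 → w * g = 0) :
    0 ≤ w * (g * log g - g * log p - g + p) := by
  rcases hp.eq_or_lt with h | h
  · subst h
    have h1 := h0 rfl
    have : w * (g * log g - g * log 0 - g + 0) = (w * g) * (log g - log 0 - 1) := by ring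
    rw [this, h1]; simp
  · apply mul_nonneg hw
    have := mul_log_ge hg h
    linarith

lemma term_ge {w g p c₂ κ : ℝ} (hw : 0 ≤ w) (hκ : 0 < κ) (hg : κ ^ 2 / 2 ≤ g)
    (hp : 0 ≤ p) (hpc : p < c₂) (h0 : p = 0 → w * g = 0) :
    (log (κ ^ 2 / 2) - log c₂ - 1) * (w * g) ≤ w * (g * log g - g * log p - g + p) := by
  have hgpos : 0 < g := lt_of_lt_of_le (by positivity) hg
  rcases hp.eq_or_lt with h | h
  · subst h
    have h1 := h0 rfl
    have : w * (g * log g - g * log 0 - g + 0) = (w * g) * (log g - log 0 - 1) := by ring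
    rw [this, h1]; simp
  · have h1 : log (κ ^ 2 / 2) ≤ log g := Real.log_le_log (by positivity) hg
    have h2 : log p ≤ log c₂ := Real.log_le_log h hpc.le
    have h3 : (log (κ ^ 2 / 2) - log c₂ - 1) * g ≤ g * log g - g * log p - g + p := by
      nlinarith
    calc (log (κ ^ 2 / 2) - log c₂ - 1) * (w * g) = w * ((log (κ ^ 2 / 2) - log c₂ - 1) * g) := by
          ring
      _ ≤ _ := mul_le_mul_of_nonneg_left h3 hw

lemma Z_split (w g : (ι → Bool) → ℝ) :
    Z (fun x => w x * g x) + Z (fun x => w x * (1 - g x)) = Z w := by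
  unfold Z
  rw [← Finset.sum_add_distrib]
  apply Finset.sum_congr rfl
  intro x _; ring

lemma Z_nonneg {w : (ι → Bool) → ℝ} (hw : ∀ x, 0 ≤ w x) : 0 ≤ Z w :=
  Finset.sum_nonneg fun x _ => hw x

lemma eq_zero_of_Z {w : (ι → Bool) → ℝ} (hw : ∀ x, 0 ≤ w x) (h : Z w = 0) (x : ι → Bool) :
    w x = 0 := (Finset.sum_eq_zero_iff_of_nonneg fun x _ => hw x).1 h x (Finset.mem_univ x)

/-- the information gained by one bit -/
lemma ent_split {w g : (ι → Bool) → ℝ} (hw : ∀ x, 0 ≤ w x) (hg : ∀ x, 0 ≤ g x)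
    (hg1 : ∀ x, g x ≤ 1) (hZ : 0 < Z w) :
    ∑ x, w x * (g x * log (g x) - g x * log (Z (fun x => w x * g x) / Z w) - g x
        + Z (fun x => w x * g x) / Z w) ≤
      Ent (fun x => w x * g x) + Ent (fun x => w x * (1 - g x)) - Ent w := by
  set Z1 := Z (fun x => w x * g x) with hZ1
  set Z0 := Z (fun x => w x * (1 - g x)) with hZ0
  have hsum : Z1 + Z0 = Z w := Z_split w g
  have hZ1n : 0 ≤ Z1 := Z_nonneg fun x => mul_nonneg (hw x) (hg x)
  have hZ0n : 0 ≤ Z0 := Z_nonneg fun x => mul_nonneg (hw x) (by linarith [hg1 x])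
  set p := Z1 / Z w with hp
  have hp0 : 0 ≤ p := by positivity
  have hq : 1 - p = Z0 / Z w := by rw [hp, ← hsum]; rw [← hsum] at hZ; field_simp; ring
  set N : ℝ := 2 ^ (Fintype.card ι) with hN
  have hNpos : 0 < N := by positivity
  -- entropies of masses
  have aux : ∀ Y : ℝ, 0 ≤ Y → Y * log (Y / N) = Y * log (Y / Z w) + Y * log (Z w / N) := by
    intro Y hY
    rcases hY.eq_or_lt with h | h
    · subst h; simp
    · rw [← mul_add, ← Real.log_mul (by positivity) (by positivity)]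
      congr 2; field_simp
  have hE : Ent (fun x => w x * g x) + Ent (fun x => w x * (1 - g x)) - Ent w =
      (Ulog (fun x => w x * g x) + Ulog (fun x => w x * (1 - g x)) - Ulog w) -
        (Z1 * log p + Z0 * log (1 - p)) := by
    unfold Ent
    rw [← hZ1, ← hZ0, ← hN, aux Z1 hZ1n, aux Z0 hZ0n, hq, ← hp, ← hsum]
    ring
  have hU : Ulog (fun x => w x * g x) + Ulog (fun x => w x * (1 - g x)) - Ulog w =
      ∑ x, w x * (g x * log (g x) + (1 - g x) * log (1 - g x)) := by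
    unfold Ulog
    rw [← Finset.sum_add_distrib, ← Finset.sum_sub_distrib]
    apply Finset.sum_congr rfl
    intro x _
    have e : ∀ y : ℝ, w x * y * log (w x * y) = y * (w x * log (w x)) + w x * (y * log y) := by
      intro y
      by_cases h1 : w x = 0
      · rw [h1]; simp
      · by_cases h2 : y = 0
        · rw [h2]; simp
        · rw [Real.log_mul h1 h2]; ring
    rw [e, e]; ring
  have hZs : Z1 * log p + Z0 * log (1 - p) =
      ∑ x, w x * (g x * log p + (1 - g x) * log (1 - p)) := by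
    rw [hZ1, hZ0]
    unfold Z
    rw [Finset.sum_mul, Finset.sum_mul, ← Finset.sum_add_distrib]
    apply Finset.sum_congr rfl
    intro x _; ring
  rw [hE, hU, hZs, ← Finset.sum_sub_distrib]
  apply Finset.sum_le_sum
  intro x _
  have h3 : w x * (p - g x) ≤ w x * ((1 - g x) * log (1 - g x) - (1 - g x) * log (1 - p)) := by
    by_cases h4 : 0 < 1 - p
    · apply mul_le_mul_of_nonneg_left _ (hw x)
      have := mul_log_ge (y := 1 - g x) (z := 1 - p) (by linarith [hg1 x]) h4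
      linarith
    · have h5 : 1 - p = 0 := le_antisymm (not_lt.1 h4) (by rw [hq]; positivity)
      have h6 : Z0 = 0 := by
        rw [h5] at hq
        have := hq.symm
        rcases div_eq_zero_iff.1 this with h | h
        · exact h
        · exact absurd h hZ.ne'
      have h7 := eq_zero_of_Z (fun x => mul_nonneg (hw x) (by linarith [hg1 x])) h6 x
      have h7' : w x * (1 - g x) = 0 := h7
      have h8 : w x * (p - g x) = w x * (1 - g x) - w x * (1 - p) := by ring
      have h9 : w x * ((1 - g x) * log (1 - g x) - (1 - g x) * log (1 - p)) =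
          w x * (1 - g x) * (log (1 - g x) - log (1 - p)) := by ring
      rw [h8, h9, h7', h5]; simp
  linarith

lemma Ent_zero {w : (ι → Bool) → ℝ} (hw : ∀ x, w x = 0) : Ent w = 0 := by
  unfold Ent Ulog Z
  simp [hw]

lemma Ent_nonneg {w : (ι → Bool) → ℝ} (hw : ∀ x, 0 ≤ w x) : 0 ≤ Ent w := by
  rcases (Z_nonneg hw).eq_or_lt with h | h
  · rw [Ent_zero (eq_zero_of_Z hw h.symm)]
  · unfold Ent
    set N : ℝ := 2 ^ (Fintype.card ι) with hN
    have hNpos : 0 < N := by positivity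
    have h1 : ∀ x, w x - Z w / N ≤ w x * log (w x) - w x * log (Z w / N) := fun x =>
      mul_log_ge (hw x) (by positivity)
    have h2 := Finset.sum_le_sum fun x (_ : x ∈ (Finset.univ : Finset (ι → Bool))) => h1 x
    rw [Finset.sum_sub_distrib, Finset.sum_sub_distrib, Finset.sum_const, nsmul_eq_mul,
      Finset.card_univ, ← Finset.sum_mul] at h2
    have hcard : (Fintype.card (ι → Bool) : ℝ) = N := by
      rw [Fintype.card_fun]; simp [hN]
    rw [hcard] at h2
    have h3 : N * (Z w / N) = Z w := by field_simp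
    rw [h3] at h2
    unfold Ulog
    unfold Z at h2 ⊢
    linarith

lemma ent_split_nonneg {w g : (ι → Bool) → ℝ} (hw : ∀ x, 0 ≤ w x) (hg : ∀ x, 0 ≤ g x)
    (hg1 : ∀ x, g x ≤ 1) :
    0 ≤ Ent (fun x => w x * g x) + Ent (fun x => w x * (1 - g x)) - Ent w := by
  rcases (Z_nonneg hw).eq_or_lt with h | h
  · have h0 := eq_zero_of_Z hw h.symm
    rw [Ent_zero (w := fun x => w x * g x) (by intro x; simp [h0 x]),
      Ent_zero (w := fun x => w x * (1 - g x)) (by intro x; simp [h0 x]), Ent_zero h0]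
    simp
  · refine le_trans ?_ (ent_split hw hg hg1 h)
    apply Finset.sum_nonneg
    intro x _
    apply term_nonneg (hw x) (hg x)
    · have := Z_nonneg (w := fun x => w x * g x) fun x => mul_nonneg (hw x) (hg x)
      positivity
    · intro hp
      rcases div_eq_zero_iff.1 hp with h1 | h1
      · exact eq_zero_of_Z (fun x => mul_nonneg (hw x) (hg x)) h1 x
      · exact absurd h1 h.ne'

/-- the unpredicted hard mass is controlled by the information -/
lemma ent_split_hard {w g hard : (ι → Bool) → ℝ} {κ c₂ : ℝ} (hκ : 0 < κ) (hc₂ : 0 < c₂)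
    (hw : ∀ x, 0 ≤ w x) (hg : ∀ x, 0 ≤ g x) (hg1 : ∀ x, g x ≤ 1)
    (hard0 : ∀ x, hard x = 0 ∨ (κ ^ 2 / 2 ≤ g x ∧ hard x / 8 ≤ g x))
    (hΛ : 0 ≤ log (κ ^ 2 / 2) - log c₂ - 1)
    (hlt : Z (fun x => w x * g x) < c₂ * Z w) :
    (log (κ ^ 2 / 2) - log c₂ - 1) / 8 * ∑ x, w x * hard x ≤
      Ent (fun x => w x * g x) + Ent (fun x => w x * (1 - g x)) - Ent w := by
  have hZ1n : 0 ≤ Z (fun x => w x * g x) := Z_nonneg fun x => mul_nonneg (hw x) (hg x)
  have hZ : 0 < Z w := by
    by_contra h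
    push Not at h
    have : c₂ * Z w ≤ 0 := by nlinarith
    linarith
  refine le_trans ?_ (ent_split hw hg hg1 hZ)
  rw [Finset.mul_sum]
  apply Finset.sum_le_sum
  intro x _
  have hp0 : 0 ≤ Z (fun x => w x * g x) / Z w := by positivity
  have hpc : Z (fun x => w x * g x) / Z w < c₂ := by
    rw [div_lt_iff₀ hZ]; exact hlt
  have h0 : Z (fun x => w x * g x) / Z w = 0 → w x * g x = 0 := by
    intro hp
    rcases div_eq_zero_iff.1 hp with h1 | h1
    · exact eq_zero_of_Z (fun x => mul_nonneg (hw x) (hg x)) h1 x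
    · exact absurd h1 hZ.ne'
  rcases hard0 x with h | ⟨h1, h2⟩
  · rw [h]
    simp only [mul_zero]
    exact term_nonneg (hw x) (hg x) hp0 h0
  · refine le_trans ?_ (term_ge (hw x) hκ h1 hp0 hpc h0)
    have h3 : w x * (hard x / 8) ≤ w x * g x := mul_le_mul_of_nonneg_left h2 (hw x)
    have h4 := mul_le_mul_of_nonneg_left h3 hΛ
    linarith

end Pool.Agent.Helper31.Kk
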