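import Pool.Agent.Helper31.KkStep

set_option autoImplicit false

namespace Pool.Agent.Helper31.Kk

open Finset Real

variable {ι : Type*} [Fintype ι] [DecidableEq ι]

/-- total hard energy at a point -/
noncomputable def HH (κ : ℝ) (u : (ι → Bool) → ℝ) (x : ι → Bool) : ℝ := ∑ j, u x * hard κ u j x

/-- error functional -/
noncomputable def FErr (θ : ℝ) (u : (ι → Bool) → ℝ) : Fnl ι := fun q =>
  ∑ j, ∑ x, 2 * rr θ (u x) (u (fl j x)) * min (u x) (u (fl j x)) * |q (fl j x) - q x|

variable {u : (ι → Bool) → ℝ} {κ θ ζ : ℝ}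

omit [Fintype ι] in
lemma hard_nonneg (i : ι) (x : ι → Bool) : 0 ≤ hard κ u i x := by
  unfold hard; split_ifs
  · positivity
  · exact le_rfl

omit [Fintype ι] in
lemma hard_le (i : ι) (x : ι → Bool) : hard κ u i x ≤ Ga u i x ^ 2 := by
  unfold hard; split_ifs
  · exact le_rfl
  · positivity

omit [Fintype ι] in
lemma hard_gk (hκ : 0 ≤ κ) (i : ι) (x : ι → Bool) :
    hard κ u i x = 0 ∨ (κ ^ 2 / 2 ≤ gk κ u i x ∧ hard κ u i x / 8 ≤ gk κ u i x) := by
  unfold hard; split_ifs with h
  · right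
    refine ⟨?_, le_gg hκ h⟩
    unfold gk gg
    rw [max_eq_left (by linarith)]
    have : κ ≤ Ga u i x - κ := by linarith
    have := pow_le_pow_left₀ hκ this 2
    linarith
  · left; rfl

lemma Ulog_mul (q : (ι → Bool) → ℝ) :
    Ulog (fun x => u x * q x) = ∑ x, (u x * log (u x)) * q x - FN u q := by
  unfold Ulog FN
  rw [← Finset.sum_sub_distrib]
  apply Finset.sum_congr rfl
  intro x _
  show u x * q x * log (u x * q x) = u x * log (u x) * q x - u x * negMulLog (q x)
  unfold negMulLog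
  by_cases h1 : u x = 0
  · simp [h1]
  · by_cases h2 : q x = 0
    · simp [h2]
    · rw [Real.log_mul h1 h2]; ring

/-- edge energy of the tilted function -/
lemma Sj_tilt (hθ : 0 < θ) (hu : ∀ x, 0 ≤ u x) (q : (ι → Bool) → ℝ) (hq : q ∈ QQ ι) (j : ι) :
    1 / (1 + θ) * ∑ x, (u x * q x) * hard κ u j x -
      ∑ x, 2 * rr θ (u x) (u (fl j x)) * min (u x) (u (fl j x)) * |q (fl j x) - q x| ≤
      Sj θ (fun x => u x * q x) j := by
  unfold Sj
  rw [Finset.mul_sum, ← Finset.sum_sub_distrib]
  apply Finset.sum_le_sum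
  intro x _
  have h1 := L_lower hθ (hu x) (hu (fl j x)) (hq x).1 (hq (fl j x)).1
  refine le_trans ?_ h1
  have hr0 := rr_nonneg (θ := θ) (b := u (fl j x)) hθ (hu x)
  have hr1 := rr_le_one (θ := θ) (b := u (fl j x)) hθ (hu x)
  have h2 : (2 * rr θ (u x) (u (fl j x)) - rr θ (u x) (u (fl j x)) ^ 2) *
      (u (fl j x) * (q (fl j x) - q x)) ≤
      2 * rr θ (u x) (u (fl j x)) * min (u x) (u (fl j x)) * |q (fl j x) - q x| := by
    rcases le_or_gt (u x) (u (fl j x)) with h | h
    · rw [rr_of_le h]; simp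
    · rw [min_eq_right h.le]
      have h3 : u (fl j x) * (q (fl j x) - q x) ≤ u (fl j x) * |q (fl j x) - q x| :=
        mul_le_mul_of_nonneg_left (le_abs_self _) (hu _)
      have h4 : 0 ≤ 2 * rr θ (u x) (u (fl j x)) - rr θ (u x) (u (fl j x)) ^ 2 := by nlinarith
      have h5 : 0 ≤ u (fl j x) * |q (fl j x) - q x| := mul_nonneg (hu _) (abs_nonneg _)
      calc _ ≤ (2 * rr θ (u x) (u (fl j x)) - rr θ (u x) (u (fl j x)) ^ 2) *
            (u (fl j x) * |q (fl j x) - q x|) := mul_le_mul_of_nonneg_left h3 h4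
        _ ≤ 2 * rr θ (u x) (u (fl j x)) * (u (fl j x) * |q (fl j x) - q x|) := by
            apply mul_le_mul_of_nonneg_right _ h5
            nlinarith [sq_nonneg (rr θ (u x) (u (fl j x)))]
        _ = _ := by ring
  have h6 : 1 / (1 + θ) * ((u x * q x) * hard κ u j x) ≤ q x * L θ (u x) (u (fl j x)) := by
    have h7 := Gq_le_L hθ (hu x) (hu (fl j x))
    rw [Gq_eq (hu x)] at h7
    have h8 : u x * hard κ u j x ≤ (1 + θ) * L θ (u x) (u (fl j x)) :=
      (mul_le_mul_of_nonneg_left (hard_le j x) (hu x)).trans h7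
    have h9 := mul_le_mul_of_nonneg_left h8 (hq x).1
    rw [one_div, inv_mul_le_iff₀ (by positivity)]
    linarith
  linarith

/-- the per-kernel inequality -/
lemma per_q {lam γ c c₂ Λ : ℝ} (hlam : 0 ≤ lam) (hθ : 0 < θ) (hγ : 0 ≤ γ)
    (hV : Valid ι lam θ γ) (hκ : 0 < κ) (hc₂ : 0 < c₂)
    (hΛe : Λ = log (κ ^ 2 / 2) - log c₂ - 1) (hΛ : 0 < Λ) (hu : ∀ x, 0 ≤ u x)
    (hgood : Good lam u c) (q : (ι → Bool) → ℝ) (hq : q ∈ QQ ι) :
    ∑ x, (u x * log (u x) - c * u x) * q x - FN u q ≤
      lam / c₂ * ∑ x, (u x * G2 u x) * q x +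
      γ * (FS θ u q - 1 / (1 + θ) * (∑ x, HH κ u x * q x - 8 / Λ * FJ κ u q)
        + FErr θ u q) := by
  classical
  set w : (ι → Bool) → ℝ := fun x => u x * q x with hw
  have hw0 : ∀ x, 0 ≤ w x := fun x => mul_nonneg (hu x) (hq x).1
  have hwu : ∀ x, w x ≤ u x := fun x => mul_le_of_le_one_right (hu x) (hq x).2
  have hgw : Good lam w c := Good_mono hgood hwu
  set T : Finset ι := Finset.univ.filter (fun i => c₂ * Z w ≤ Z (fun x => w x * gk κ u i x))
    with hT
  have h1 := restrict_main hlam hV T w c hw0 hgw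
  rw [hw, Ulog_mul, ← hw] at h1
  -- left side
  have hl : ∑ x, (u x * log (u x) - c * u x) * q x - FN u q =
      ∑ x, (u x * log (u x)) * q x - FN u q - c * Z w := by
    have : c * Z w = ∑ x, (c * u x) * q x := by
      rw [hw]; unfold Z; rw [Finset.mul_sum]
      apply Finset.sum_congr rfl
      intro x _; ring
    rw [this]
    simp only [sub_mul, Finset.sum_sub_distrib]
    ring
  rw [hl]
  refine h1.trans ?_
  -- cardinality
  have hcard : lam * (T.card : ℝ) * Z w ≤ lam / c₂ * ∑ x, (u x * G2 u x) * q x := by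
    have h2 : (T.card : ℝ) * (c₂ * Z w) ≤ ∑ i ∈ T, Z (fun x => w x * gk κ u i x) := by
      rw [← nsmul_eq_mul]
      apply Finset.card_nsmul_le_sum
      intro i hi
      exact (Finset.mem_filter.1 hi).2
    have h3 : ∑ i ∈ T, Z (fun x => w x * gk κ u i x) ≤
        ∑ i, Z (fun x => w x * gk κ u i x) :=
      Finset.sum_le_sum_of_subset_of_nonneg (Finset.subset_univ _) fun i _ _ =>
        Z_nonneg fun x => mul_nonneg (hw0 x) (gk_rate hκ.le hu i x).1
    have h4 : ∑ i, Z (fun x => w x * gk κ u i x) ≤ ∑ x, (u x * G2 u x) * q x := by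
      unfold Z
      rw [Finset.sum_comm]
      apply Finset.sum_le_sum
      intro x _
      rw [← Finset.mul_sum]
      have h5 : ∑ i, gk κ u i x ≤ G2 u x := by
        unfold G2
        apply Finset.sum_le_sum
        intro i _
        exact gg_le_sq hκ.le (Ga_nonneg hu i x)
      have := mul_le_mul_of_nonneg_left h5 (hw0 x)
      calc _ ≤ w x * G2 u x := this
        _ = _ := by rw [hw]; ring
    have h6 : (T.card : ℝ) * Z w ≤ (∑ x, (u x * G2 u x) * q x) / c₂ := by
      rw [le_div_iff₀ hc₂]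
      calc (T.card : ℝ) * Z w * c₂ = (T.card : ℝ) * (c₂ * Z w) := by ring
        _ ≤ _ := h2.trans (h3.trans h4)
    calc lam * (T.card : ℝ) * Z w = lam * ((T.card : ℝ) * Z w) := by ring
      _ ≤ lam * ((∑ x, (u x * G2 u x) * q x) / c₂) := mul_le_mul_of_nonneg_left h6 hlam
      _ = _ := by ring
  -- energy
  have hen : 1 / (1 + θ) * (∑ x, HH κ u x * q x - 8 / Λ * FJ κ u q) - FErr θ u q ≤
      ∑ j ∈ T, Sj θ w j := by
    have h2 : ∑ j ∈ T, (1 / (1 + θ) * ∑ x, (u x * q x) * hard κ u j x -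
        ∑ x, 2 * rr θ (u x) (u (fl j x)) * min (u x) (u (fl j x)) * |q (fl j x) - q x|) ≤
        ∑ j ∈ T, Sj θ w j := Finset.sum_le_sum fun j _ => Sj_tilt hθ hu q hq j
    refine le_trans ?_ h2
    rw [Finset.sum_sub_distrib, ← Finset.mul_sum]
    have h3 : ∑ j ∈ T,
        ∑ x, 2 * rr θ (u x) (u (fl j x)) * min (u x) (u (fl j x)) * |q (fl j x) - q x| ≤
        FErr θ u q := by
      unfold FErr
      apply Finset.sum_le_sum_of_subset_of_nonneg (Finset.subset_univ _)
      intro j _ _
      apply Finset.sum_nonneg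
      intro x _
      have hr0 := rr_nonneg (θ := θ) (b := u (fl j x)) hθ (hu x)
      have := le_min (hu x) (hu (fl j x))
      positivity
    have h4 : ∑ x, HH κ u x * q x - 8 / Λ * FJ κ u q ≤
        ∑ j ∈ T, ∑ x, (u x * q x) * hard κ u j x := by
      have h5 : ∑ x, HH κ u x * q x = ∑ j, ∑ x, (u x * q x) * hard κ u j x := by
        rw [Finset.sum_comm]
        apply Finset.sum_congr rfl
        intro x _
        unfold HH
        rw [Finset.sum_mul]
        apply Finset.sum_congr rfl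
        intro j _; ring
      rw [h5, ← Finset.sum_sdiff (Finset.subset_univ T)]
      have h6 : Λ / 8 * ∑ j ∈ univ \ T, ∑ x, (u x * q x) * hard κ u j x ≤ FJ κ u q := by
        unfold FJ
        rw [← Finset.sum_sdiff (Finset.subset_univ T), Finset.mul_sum]
        have h7 : 0 ≤ ∑ i ∈ T, (Ent (fun x => u x * (q x * gk κ u i x)) +
            Ent (fun x => u x * (q x * (1 - gk κ u i x))) - Ent (fun x => u x * q x)) := by
          apply Finset.sum_nonneg
          intro i _
          have := ent_split_nonneg hw0 (fun x => (gk_rate hκ.le hu i x).1)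
            (fun x => (gk_rate hκ.le hu i x).2)
          simp only [hw, mul_assoc] at this
          exact this
        have h8 : ∑ j ∈ univ \ T, Λ / 8 * ∑ x, (u x * q x) * hard κ u j x ≤
            ∑ i ∈ univ \ T, (Ent (fun x => u x * (q x * gk κ u i x)) +
            Ent (fun x => u x * (q x * (1 - gk κ u i x))) - Ent (fun x => u x * q x)) := by
          apply Finset.sum_le_sum
          intro i hi
          have hlt : Z (fun x => w x * gk κ u i x) < c₂ * Z w := by
            by_contra hc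
            push Not at hc
            have : i ∈ T := Finset.mem_filter.2 ⟨Finset.mem_univ _, hc⟩
            exact (Finset.mem_sdiff.1 hi).2 this
          have := ent_split_hard (hard := hard κ u i) hκ hc₂ hw0
            (fun x => (gk_rate hκ.le hu i x).1) (fun x => (gk_rate hκ.le hu i x).2)
            (hard_gk hκ.le i) (by rw [← hΛe]; exact hΛ.le) hlt
          rw [← hΛe] at this
          simp only [hw, mul_assoc] at this ⊢
          exact this
        linarith
      have h9 : ∑ j ∈ univ \ T, ∑ x, (u x * q x) * hard κ u j x ≤ 8 / Λ * FJ κ u q := by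
        rw [div_mul_eq_mul_div, le_div_iff₀ hΛ]
        linarith
      linarith
    have h10 : 1 / (1 + θ) * (∑ x, HH κ u x * q x - 8 / Λ * FJ κ u q) ≤
        1 / (1 + θ) * ∑ j ∈ T, ∑ x, (u x * q x) * hard κ u j x :=
      mul_le_mul_of_nonneg_left h4 (by positivity)
    linarith
  have hfin : γ * (S θ w - ∑ j ∈ T, Sj θ w j) ≤ γ * (FS θ u q - 1 / (1 + θ) *
      (∑ x, HH κ u x * q x - 8 / Λ * FJ κ u q) + FErr θ u q) := by
    apply mul_le_mul_of_nonneg_left _ hγ
    have : FS θ u q = S θ w := rfl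
    rw [this]
    linarith
  linarith

end Pool.Agent.Helper31.Kk
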