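import Mathlib

set_option autoImplicit false

namespace Pool.Agent.Helper31.Kk

open Real

/-- positive part of a difference -/
noncomputable def pp (a b : ℝ) : ℝ := max (a - b) 0

/-- the Huber type edge energy -/
noncomputable def L (θ a b : ℝ) : ℝ := pp a b ^ 2 / (pp a b + θ * a)

/-- the quadratic edge energy -/
noncomputable def Gq (a b : ℝ) : ℝ := pp a b ^ 2 / a

/-- relative drop -/
noncomputable def Gam (a b : ℝ) : ℝ := pp a b / a

/-- slope -/
noncomputable def rr (θ a b : ℝ) : ℝ := Gam a b / (Gam a b + θ)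

lemma pp_nonneg (a b : ℝ) : 0 ≤ pp a b := le_max_right _ _

lemma pp_le {a b : ℝ} (ha : 0 ≤ a) (hb : 0 ≤ b) : pp a b ≤ a := by
  unfold pp; exact max_le (by linarith) ha

lemma pp_of_le {a b : ℝ} (h : a ≤ b) : pp a b = 0 := by
  unfold pp; exact max_eq_right (by linarith)

lemma pp_of_ge {a b : ℝ} (h : b ≤ a) : pp a b = a - b := by
  unfold pp; exact max_eq_left (by linarith)

lemma Gam_nonneg {a b : ℝ} (ha : 0 ≤ a) : 0 ≤ Gam a b := div_nonneg (pp_nonneg _ _) ha

lemma Gam_le_one {a b : ℝ} (ha : 0 ≤ a) (hb : 0 ≤ b) : Gam a b ≤ 1 :=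
  div_le_one_of_le₀ (pp_le ha hb) ha

lemma Gam_of_le {a b : ℝ} (h : a ≤ b) : Gam a b = 0 := by
  unfold Gam; rw [pp_of_le h]; simp

lemma rr_of_le {θ a b : ℝ} (h : a ≤ b) : rr θ a b = 0 := by
  unfold rr; rw [Gam_of_le h]; simp

lemma rr_nonneg {θ a b : ℝ} (hθ : 0 < θ) (ha : 0 ≤ a) : 0 ≤ rr θ a b := by
  have := Gam_nonneg (b := b) ha
  unfold rr; positivity

lemma rr_le_one {θ a b : ℝ} (hθ : 0 < θ) (ha : 0 ≤ a) : rr θ a b ≤ 1 := by
  have := Gam_nonneg (b := b) ha
  unfold rr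
  exact div_le_one_of_le₀ (by linarith) (by linarith)

lemma L_nonneg {θ a b : ℝ} (hθ : 0 < θ) (ha : 0 ≤ a) : 0 ≤ L θ a b := by
  have := pp_nonneg a b
  unfold L; positivity

lemma L_of_le {θ a b : ℝ} (h : a ≤ b) : L θ a b = 0 := by
  unfold L; rw [pp_of_le h]; simp

lemma Gq_nonneg {a b : ℝ} (ha : 0 ≤ a) : 0 ≤ Gq a b := by
  unfold Gq; positivity

lemma Gq_of_le {a b : ℝ} (h : a ≤ b) : Gq a b = 0 := by
  unfold Gq; rw [pp_of_le h]; simp

lemma Gq_eq {a b : ℝ} (ha : 0 ≤ a) : Gq a b = a * Gam a b ^ 2 := by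
  unfold Gq Gam
  rcases ha.eq_or_lt with h | h
  · subst h; simp
  · field_simp

lemma L_eq {θ a b : ℝ} (hθ : 0 < θ) (ha : 0 ≤ a) (hb : 0 ≤ b) :
    L θ a b = a * (Gam a b ^ 2 / (Gam a b + θ)) := by
  rcases ha.eq_or_lt with h | h
  · subst h
    rw [L_of_le hb]; simp
  · have h1 := pp_nonneg a b
    unfold L Gam
    have : pp a b + θ * a > 0 := by positivity
    have h2 : pp a b / a + θ > 0 := by positivity
    field_simp

/-- `G ≤ (1+θ) L` -/
lemma Gq_le_L {θ a b : ℝ} (hθ : 0 < θ) (ha : 0 ≤ a) (hb : 0 ≤ b) :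
    Gq a b ≤ (1 + θ) * L θ a b := by
  rw [Gq_eq ha, L_eq hθ ha hb]
  have h0 := Gam_nonneg (b := b) ha
  have h1 := Gam_le_one ha hb
  have h3 : Gam a b ^ 2 ≤ (1 + θ) * (Gam a b ^ 2 / (Gam a b + θ)) := by
    rw [mul_div_assoc', le_div_iff₀ (by linarith)]
    nlinarith [sq_nonneg (Gam a b)]
  nlinarith [mul_le_mul_of_nonneg_left h3 ha]

/-- `u Γ² ≤ (Γ + θ) L` -/
lemma Gam_sq_le {θ a b κ : ℝ} (hθ : 0 < θ) (ha : 0 ≤ a) (hb : 0 ≤ b) (hκ : Gam a b ≤ κ) :
    a * Gam a b ^ 2 ≤ (κ + θ) * L θ a b := by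
  rw [L_eq hθ ha hb]
  have h0 := Gam_nonneg (b := b) ha
  have h3 : Gam a b ^ 2 ≤ (κ + θ) * (Gam a b ^ 2 / (Gam a b + θ)) := by
    rw [mul_div_assoc', le_div_iff₀ (by linarith)]
    nlinarith [sq_nonneg (Gam a b)]
  nlinarith [mul_le_mul_of_nonneg_left h3 ha]

/-- `u r² ≤ L/θ` -/
lemma rr_sq_le {θ a b : ℝ} (hθ : 0 < θ) (ha : 0 ≤ a) (hb : 0 ≤ b) :
    a * rr θ a b ^ 2 ≤ L θ a b / θ := by
  rw [L_eq hθ ha hb]
  have h0 := Gam_nonneg (b := b) ha
  unfold rr
  have h3 : (Gam a b / (Gam a b + θ)) ^ 2 ≤ (Gam a b ^ 2 / (Gam a b + θ)) / θ := by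
    rw [div_pow, div_div]
    apply div_le_div_of_nonneg_left (sq_nonneg _) (by positivity)
    nlinarith
  calc a * (Gam a b / (Gam a b + θ)) ^ 2 ≤ a * ((Gam a b ^ 2 / (Gam a b + θ)) / θ) :=
        mul_le_mul_of_nonneg_left h3 ha
    _ = _ := by ring

lemma div_mono_aux {t s X Y : ℝ} (hs : 0 ≤ s) (hX : 0 ≤ X) (hXY : X ≤ Y) (ht : t = X) :
    t ^ 2 / (t + s) ≤ Y ^ 2 / (Y + s) := by
  subst ht
  rcases hX.eq_or_lt with h | h
  · subst h; simp; positivity
  · rw [div_le_div_iff₀ (by linarith) (by linarith)]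
    nlinarith [mul_nonneg (mul_nonneg hX (by linarith : 0 ≤ Y)) (sub_nonneg.2 hXY),
      mul_nonneg hs (mul_nonneg (sub_nonneg.2 hXY) (by linarith : 0 ≤ Y + t))]

lemma pp_half {a b a' b' : ℝ} :
    pp ((a + b) / 2) ((a' + b') / 2) ≤ (pp a a' + pp b b') / 2 := by
  unfold pp
  apply max_le
  · have h1 := le_max_left (a - a') 0
    have h2 := le_max_left (b - b') 0
    linarith
  · have h1 := le_max_right (a - a') 0
    have h2 := le_max_right (b - b') 0
    linarith

/-- quantitative convexity of `L` -/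
lemma L_gap {θ a b a' b' : ℝ} (hθ : 0 < θ) (ha : 0 ≤ a) (hb : 0 ≤ b) (ha' : 0 ≤ a')
    (hb' : 0 ≤ b') :
    L θ ((a + b) / 2) ((a' + b') / 2)
      + θ ^ 2 / (1 + θ) ^ 3 / 2 * (a * b / (a + b) * (Gam a a' - Gam b b') ^ 2)
      ≤ (L θ a a' + L θ b b') / 2 := by
  have hx1 := pp_nonneg a a'
  have hx2 := pp_nonneg b b'
  have hX := pp_nonneg ((a + b) / 2) ((a' + b') / 2)
  have key : L θ ((a + b) / 2) ((a' + b') / 2) ≤
      ((pp a a' + pp b b') / 2) ^ 2 / ((pp a a' + pp b b') / 2 + θ * ((a + b) / 2)) := by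
    unfold L
    exact div_mono_aux (by positivity) hX pp_half rfl
  rcases ha.eq_or_lt with h | h
  · subst h
    rcases hb.eq_or_lt with h' | h'
    · subst h'
      rw [pp_of_le ha', pp_of_le hb'] at key
      simp at key
      rw [L_of_le ha', L_of_le hb']
      simpa using key
    · rw [L_of_le ha']
      rw [pp_of_le ha'] at key
      refine le_trans (add_le_add_left key _) ?_
      simp only [zero_add, zero_mul, zero_div, mul_zero, add_zero]
      unfold L
      have : 0 < pp b b' + θ * b := by positivity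
      apply le_of_eq
      field_simp
  · rcases hb.eq_or_lt with h' | h'
    · subst h'
      rw [L_of_le hb']
      rw [pp_of_le hb'] at key
      refine le_trans (add_le_add_left key _) ?_
      simp only [zero_mul, zero_div, mul_zero, add_zero]
      unfold L
      have : 0 < pp a a' + θ * a := by positivity
      apply le_of_eq
      field_simp
    · -- both positive
      have hg1 := Gam_nonneg (b := a') ha
      have hg2 := Gam_nonneg (b := b') hb
      have hg1' := Gam_le_one ha ha'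
      have hg2' := Gam_le_one hb hb'
      have e1 : pp a a' = a * Gam a a' := by unfold Gam; field_simp
      have e2 : pp b b' = b * Gam b b' := by unfold Gam; field_simp
      have key2 : L θ a a' = a * Gam a a' ^ 2 / (Gam a a' + θ) := by
        rw [L_eq hθ ha ha']; ring
      have key3 : L θ b b' = b * Gam b b' ^ 2 / (Gam b b' + θ) := by
        rw [L_eq hθ hb hb']; ring
      rw [key2, key3]
      rw [e1, e2] at key
      refine le_trans (add_le_add_left key _) ?_
      set s := Gam a a'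
      set t := Gam b b'
      have hsθ : 0 < s + θ := by linarith
      have htθ : 0 < t + θ := by linarith
      have hW : 0 < a * (s + θ) + b * (t + θ) := by positivity
      have id1 : (a * s ^ 2 / (s + θ) + b * t ^ 2 / (t + θ)) / 2
          - ((a * s + b * t) / 2) ^ 2 / ((a * s + b * t) / 2 + θ * ((a + b) / 2))
          = a * b * θ ^ 2 * (s - t) ^ 2 /
            (2 * ((s + θ) * (t + θ) * (a * (s + θ) + b * (t + θ)))) := by
        have : (a * s + b * t) / 2 + θ * ((a + b) / 2) = (a * (s + θ) + b * (t + θ)) / 2 := by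
          ring
        rw [this]
        field_simp
        ring
      have hle : θ ^ 2 / (1 + θ) ^ 3 / 2 * (a * b / (a + b) * (s - t) ^ 2) ≤
          a * b * θ ^ 2 * (s - t) ^ 2 /
            (2 * ((s + θ) * (t + θ) * (a * (s + θ) + b * (t + θ)))) := by
        have : θ ^ 2 / (1 + θ) ^ 3 / 2 * (a * b / (a + b) * (s - t) ^ 2) =
            a * b * θ ^ 2 * (s - t) ^ 2 / (2 * ((1 + θ) ^ 3 * (a + b))) := by
          field_simp
        rw [this]
        apply div_le_div_of_nonneg_left (by positivity) (by positivity)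
        have h1 : (s + θ) * (t + θ) ≤ (1 + θ) * (1 + θ) :=
          mul_le_mul (by linarith) (by linarith) (by linarith) (by linarith)
        have h2 : a * (s + θ) + b * (t + θ) ≤ (1 + θ) * (a + b) := by nlinarith
        have h3 : (s + θ) * (t + θ) * (a * (s + θ) + b * (t + θ)) ≤
            (1 + θ) * (1 + θ) * ((1 + θ) * (a + b)) :=
          mul_le_mul h1 h2 (by positivity) (by positivity)
        nlinarith
      linarith

/-- joint convexity of `G` -/
lemma Gq_convex {a b a' b' : ℝ} (ha : 0 ≤ a) (hb : 0 ≤ b) (ha' : 0 ≤ a') (hb' : 0 ≤ b') :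
    Gq ((a + b) / 2) ((a' + b') / 2) ≤ (Gq a a' + Gq b b') / 2 := by
  have hx1 := pp_nonneg a a'
  have hx2 := pp_nonneg b b'
  have hX := pp_nonneg ((a + b) / 2) ((a' + b') / 2)
  have h0 : pp ((a + b) / 2) ((a' + b') / 2) ^ 2 ≤ ((pp a a' + pp b b') / 2) ^ 2 :=
    pow_le_pow_left₀ hX pp_half 2
  have key : Gq ((a + b) / 2) ((a' + b') / 2) ≤
      ((pp a a' + pp b b') / 2) ^ 2 / ((a + b) / 2) := by
    unfold Gq
    exact div_le_div_of_nonneg_right h0 (by positivity)
  refine key.trans ?_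
  rcases ha.eq_or_lt with h | h
  · subst h
    rcases hb.eq_or_lt with h' | h'
    · subst h'
      simp only [add_zero, zero_div, div_zero]
      have := Gq_nonneg (b := a') ha
      have := Gq_nonneg (b := b') ha
      positivity
    · rw [pp_of_le ha', Gq_of_le ha']
      unfold Gq
      apply le_of_eq
      simp only [zero_add]
      field_simp
  · rcases hb.eq_or_lt with h' | h'
    · subst h'
      rw [pp_of_le hb', Gq_of_le hb']
      unfold Gq
      apply le_of_eq
      simp only [add_zero]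
      field_simp
    · unfold Gq
      set x := pp a a'
      set y := pp b b'
      have : (x ^ 2 / a + y ^ 2 / b) / 2 - ((x + y) / 2) ^ 2 / ((a + b) / 2) =
          (x * b - y * a) ^ 2 / (2 * (a * b * (a + b))) := by
        field_simp
        ring
      have h5 : 0 ≤ (x * b - y * a) ^ 2 / (2 * (a * b * (a + b))) := by positivity
      linarith

/-- two point entropy inequality -/
lemma ent_two {a b : ℝ} (ha : 0 ≤ a) (hb : 0 ≤ b) :
    a * log a + b * log b - 2 * ((a + b) / 2 * log ((a + b) / 2)) ≤ Gq a b + Gq b a := by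
  have hG1 := Gq_nonneg (b := b) ha
  have hG2 := Gq_nonneg (b := a) hb
  rcases (add_nonneg ha hb).eq_or_lt with h | h
  · have : a = 0 := by linarith
    have : b = 0 := by linarith
    subst a; subst b
    simp
    linarith
  · set m := (a + b) / 2 with hm
    have hmpos : 0 < m := by positivity
    have aux : ∀ c : ℝ, 0 ≤ c → c * log c ≤ c * log m + c * (c / m - 1) := by
      intro c hc
      rcases hc.eq_or_lt with h1 | h1
      · subst h1; simp
      · have h2 : log (c / m) ≤ c / m - 1 := Real.log_le_sub_one_of_pos (by positivity)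
        rw [Real.log_div h1.ne' hmpos.ne'] at h2
        nlinarith
    have h1 := aux a ha
    have h2 := aux b hb
    have h3 : a * log a + b * log b - 2 * (m * log m) ≤ a * (a / m - 1) + b * (b / m - 1) := by
      have : a + b = 2 * m := by rw [hm]; ring
      have h6 : (a + b) * log m = 2 * (m * log m) := by rw [this]; ring
      linarith
    have h4 : a * (a / m - 1) + b * (b / m - 1) = (a - b) ^ 2 / (a + b) := by
      rw [hm]; field_simp; ring
    have h5 : (a - b) ^ 2 / (a + b) ≤ Gq a b + Gq b a := by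
      rcases le_total b a with hab | hab
      · have : 0 < a := by nlinarith
        have e : Gq a b = (a - b) ^ 2 / a := by unfold Gq; rw [pp_of_ge hab]
        have : (a - b) ^ 2 / (a + b) ≤ (a - b) ^ 2 / a :=
          div_le_div_of_nonneg_left (sq_nonneg _) this (by linarith)
        linarith
      · have : 0 < b := by nlinarith
        have e : Gq b a = (a - b) ^ 2 / b := by
          unfold Gq; rw [pp_of_ge hab]; ring
        have : (a - b) ^ 2 / (a + b) ≤ (a - b) ^ 2 / b :=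
          div_le_div_of_nonneg_left (sq_nonneg _) this (by linarith)
        linarith
    linarith

lemma rr_eq {θ a b : ℝ} (ha : 0 < a) : rr θ a b = pp a b / (pp a b + θ * a) := by
  unfold rr Gam
  rw [div_add' _ _ _ ha.ne', div_div_div_cancel_right₀ ha.ne']

/-- exact second order formula -/
lemma L_diff {θ a a' p p' : ℝ} (hθ : 0 < θ) (ha : 0 < a) (hp : 0 < p)
    (h1 : a' ≤ a) (h2 : a' * p' ≤ a * p) :
    L θ (a * p) (a' * p') =
      p * L θ a a' - (2 * rr θ a a' - rr θ a a' ^ 2) * (a' * (p' - p))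
        + (θ * a * (a' * (p - p'))) ^ 2 /
          ((a - a' + θ * a) ^ 2 * (a * p - a' * p' + θ * (a * p))) := by
  rw [rr_eq ha]
  unfold L
  rw [pp_of_ge h1, pp_of_ge h2]
  have hy0 : 0 < a - a' + θ * a := by
    have : 0 < θ * a := by positivity
    linarith
  have hY : 0 < a * p - a' * p' + θ * (a * p) := by
    have : 0 < θ * (a * p) := by positivity
    linarith
  obtain ⟨y, hy⟩ : ∃ y, y = a - a' + θ * a := ⟨_, rfl⟩
  obtain ⟨Y, hYe⟩ : ∃ Y, Y = a * p - a' * p' + θ * (a * p) := ⟨_, rfl⟩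
  have e1 : a' * (p' - p) = (a * p + θ * (a * p) - Y) - a' * p := by rw [hYe]; ring
  have e2 : a' * (p - p') = a' * p - (a * p + θ * (a * p) - Y) := by rw [hYe]; ring
  have e3 : a * p - a' * p' = Y - θ * (a * p) := by rw [hYe]; ring
  have e4 : a' = a + θ * a - y := by rw [hy]; ring
  rw [← hYe, ← hy, e1, e2, e3]
  rw [← hYe] at hY
  rw [← hy] at hy0
  clear e1 e2 e3
  rw [e4]
  clear e4 hYe hy h1 h2
  field_simp
  ring

/-- tangent lower bound -/
lemma L_lower {θ a a' p p' : ℝ} (hθ : 0 < θ) (ha : 0 ≤ a) (ha' : 0 ≤ a') (hp : 0 ≤ p)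
    (hp' : 0 ≤ p') :
    p * L θ a a' - (2 * rr θ a a' - rr θ a a' ^ 2) * (a' * (p' - p)) ≤
      L θ (a * p) (a' * p') := by
  rcases le_or_gt a a' with h | h
  · rw [L_of_le h, rr_of_le h]
    have := L_nonneg (θ := θ) (a := a * p) (b := a' * p') hθ (by positivity)
    simpa using this
  · have hapos : 0 < a := lt_of_le_of_lt ha' h
    have hr0 := rr_nonneg (θ := θ) (b := a') hθ ha
    have hr1 := rr_le_one (θ := θ) (b := a') hθ ha
    have hL0 : L θ a a' = rr θ a a' * (a - a') := by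
      rw [rr_eq hapos]; unfold L; rw [pp_of_ge h.le]
      ring
    rcases le_or_gt (a' * p') (a * p) with h2 | h2
    · rcases hp.eq_or_lt with h3 | h3
      · subst h3
        have e : a' * p' = 0 := le_antisymm (by simpa using h2) (by positivity)
        have : L θ (a * 0) (a' * p') = 0 := by
          rw [e]; exact L_of_le (by simp)
        rw [this]
        have : a' * (p' - 0) = 0 := by simpa using e
        rw [this]; simp
      · rw [L_diff hθ hapos h3 h.le h2]
        have : 0 ≤ (θ * a * (a' * (p - p'))) ^ 2 /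
          ((a - a' + θ * a) ^ 2 * (a * p - a' * p' + θ * (a * p))) := by
          apply div_nonneg (sq_nonneg _)
          have : 0 ≤ θ * (a * p) := by positivity
          apply mul_nonneg (sq_nonneg _)
          linarith
        linarith
    · rw [L_of_le h2.le, hL0]
      have h4 : (a - a') * p ≤ a' * (p' - p) := by nlinarith
      have h5 : 0 ≤ (a - a') * p := mul_nonneg (by linarith) hp
      have h6 : rr θ a a' ≤ 2 * rr θ a a' - rr θ a a' ^ 2 := by nlinarith
      have h7 : rr θ a a' * ((a - a') * p) ≤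
          (2 * rr θ a a' - rr θ a a' ^ 2) * (a' * (p' - p)) :=
        mul_le_mul h6 h4 h5 (by linarith)
      linarith

/-- tangent upper bound with Hellinger error -/
lemma L_upper {θ a a' α β : ℝ} (hθ : 0 < θ) (ha : 0 ≤ a) (ha' : 0 ≤ a') (hα : 0 ≤ α)
    (hβ : 0 ≤ β) :
    L θ (a * α ^ 2) (a' * β ^ 2) ≤
      α ^ 2 * L θ a a' - (2 * rr θ a a' - rr θ a a' ^ 2) * (a' * (β ^ 2 - α ^ 2))
        + 8 / θ * (min a a' * (α - β) ^ 2) := by
  rcases le_or_gt a a' with h | h
  · rw [L_of_le h, rr_of_le h, min_eq_left h]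
    simp only [mul_zero, ne_eq, OfNat.ofNat_ne_zero, not_false_eq_true, zero_pow,
      zero_mul, zero_add, sub_self]
    rcases le_or_gt (a * α ^ 2) (a' * β ^ 2) with h2 | h2
    · rw [L_of_le h2]; positivity
    · have hapos : 0 < a := by
        rcases ha.eq_or_lt with h3 | h3
        · subst h3
          have : 0 ≤ a' * β ^ 2 := by positivity
          simp at h2; linarith
        · exact h3
      have hαpos : 0 < α := by
        rcases hα.eq_or_lt with h3 | h3
        · subst h3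
          have : 0 ≤ a' * β ^ 2 := by positivity
          simp at h2; linarith
        · exact h3
      have hβα : β ≤ α := by
        by_contra hc
        push Not at hc
        have h3 : α ^ 2 < β ^ 2 := pow_lt_pow_left₀ hc hα two_ne_zero
        nlinarith
      unfold L
      rw [pp_of_ge h2.le]
      have hX0 : 0 ≤ a * α ^ 2 - a' * β ^ 2 := by linarith
      have hX1 : a * α ^ 2 - a' * β ^ 2 ≤ a * ((α - β) * (α + β)) := by
        nlinarith [mul_le_mul_of_nonneg_right h (sq_nonneg β)]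
      have hden : 0 < θ * (a * α ^ 2) := by positivity
      calc (a * α ^ 2 - a' * β ^ 2) ^ 2 / (a * α ^ 2 - a' * β ^ 2 + θ * (a * α ^ 2))
          ≤ (a * ((α - β) * (α + β))) ^ 2 / (θ * (a * α ^ 2)) := by
            apply div_le_div₀ (sq_nonneg _) (pow_le_pow_left₀ hX0 hX1 2) hden
            linarith
        _ ≤ 8 / θ * (a * (α - β) ^ 2) := by
            rw [div_mul_eq_mul_div, div_le_div_iff₀ hden hθ]
            have h5 : (α + β) ^ 2 ≤ 4 * α ^ 2 := by nlinarith
            have h6 : 0 ≤ a ^ 2 * (α - β) ^ 2 * θ := by positivity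
            nlinarith [mul_le_mul_of_nonneg_left h5 h6,
              mul_nonneg h6 (sq_nonneg α)]
  · have hapos : 0 < a := lt_of_le_of_lt ha' h
    rw [min_eq_right h.le]
    have hr0 := rr_nonneg (θ := θ) (b := a') hθ ha
    have hr1 := rr_le_one (θ := θ) (b := a') hθ ha
    rcases le_or_gt (a' * β ^ 2) (a * α ^ 2) with h2 | h2
    · rcases hα.eq_or_lt with h3 | h3
      · subst h3
        have e : a' * β ^ 2 = 0 := le_antisymm (by simpa using h2) (by positivity)
        have : L θ (a * 0 ^ 2) (a' * β ^ 2) = 0 := by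
          rw [e]; exact L_of_le (by simp)
        rw [this]
        have : a' * (β ^ 2 - 0 ^ 2) = 0 := by simpa using e
        rw [this]
        simp
        positivity
      · rw [L_diff hθ hapos (by positivity : 0 < α ^ 2) h.le h2]
        have hden : 0 < (θ * a) ^ 2 * (θ * (a * α ^ 2)) := by positivity
        have : (θ * a * (a' * (α ^ 2 - β ^ 2))) ^ 2 /
          ((a - a' + θ * a) ^ 2 * (a * α ^ 2 - a' * β ^ 2 + θ * (a * α ^ 2))) ≤
          8 / θ * (a' * (α - β) ^ 2) := by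
          calc _ ≤ (θ * a * (a' * (α ^ 2 - β ^ 2))) ^ 2 / ((θ * a) ^ 2 * (θ * (a * α ^ 2))) := by
                apply div_le_div_of_nonneg_left (sq_nonneg _) hden
                apply mul_le_mul _ (by linarith) (by positivity) (sq_nonneg _)
                apply pow_le_pow_left₀ (by positivity)
                linarith
            _ = (a' * (α ^ 2 - β ^ 2)) ^ 2 / (θ * (a * α ^ 2)) := by
                rw [mul_pow (θ * a) _ 2, mul_div_mul_left _ _ (by positivity)]
            _ ≤ 8 / θ * (a' * (α - β) ^ 2) := by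
                rw [div_mul_eq_mul_div, div_le_div_iff₀ (by positivity) hθ]
                have h5 : a' * (α + β) ^ 2 ≤ 4 * (a * α ^ 2) := by
                  nlinarith [mul_nonneg ha' (sq_nonneg (α - β)),
                    mul_le_mul_of_nonneg_right h.le (sq_nonneg α)]
                have h6 : 0 ≤ a' * (α - β) ^ 2 * θ := by positivity
                have h7 : 0 ≤ a' * (α - β) ^ 2 * θ * (a * α ^ 2) := by positivity
                nlinarith [mul_le_mul_of_nonneg_left h5 h6]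
        linarith
    · -- `L = 0`
      rw [L_of_le h2.le]
      have hβpos : 0 < β := by
        rcases hβ.eq_or_lt with h3 | h3
        · subst h3
          have : 0 ≤ a * α ^ 2 := by positivity
          simp at h2; linarith
        · exact h3
      set Γ := Gam a a' with hΓ
      have hΓ0 : 0 ≤ Γ := Gam_nonneg ha
      have hΓ1 : Γ ≤ 1 := Gam_le_one ha ha'
      have hΓa : a' = a * (1 - Γ) := by
        rw [hΓ]; unfold Gam; rw [pp_of_ge h.le]; field_simp; ring
      have hkey : Γ * β ≤ 2 * (β - α) := by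
        by_contra hc
        push Not at hc
        have h3 : β * (1 - Γ / 2) < α := by nlinarith
        have h4 : 0 ≤ β * (1 - Γ / 2) := mul_nonneg hβ (by linarith)
        have h5 : (β * (1 - Γ / 2)) ^ 2 < α ^ 2 := pow_lt_pow_left₀ h3 h4 two_ne_zero
        have h6 : a * (β * (1 - Γ / 2)) ^ 2 < a * α ^ 2 := by nlinarith
        have h7 : a' * β ^ 2 ≤ a * (β * (1 - Γ / 2)) ^ 2 := by
          rw [hΓa]
          nlinarith [mul_nonneg ha (mul_nonneg (sq_nonneg β) (sq_nonneg Γ))]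
        linarith
      have hβα : 0 ≤ β - α := by nlinarith [mul_nonneg hΓ0 hβ]
      have hrΓ : rr θ a a' ≤ Γ / θ := by
        unfold rr
        apply div_le_div_of_nonneg_left hΓ0 hθ (by linarith)
      have hL := L_nonneg (θ := θ) (b := a') hθ ha
      have h8 : (2 * rr θ a a' - rr θ a a' ^ 2) * (a' * (β ^ 2 - α ^ 2)) ≤
          8 / θ * (a' * (α - β) ^ 2) := by
        have h9 : 0 ≤ a' * (β ^ 2 - α ^ 2) := by
          apply mul_nonneg ha'
          nlinarith
        calc (2 * rr θ a a' - rr θ a a' ^ 2) * (a' * (β ^ 2 - α ^ 2))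
            ≤ (2 * (Γ / θ)) * (a' * (β ^ 2 - α ^ 2)) := by
              apply mul_le_mul_of_nonneg_right _ h9
              nlinarith [sq_nonneg (rr θ a a')]
          _ = 2 / θ * (a' * ((β - α) * (Γ * (β + α)))) := by ring
          _ ≤ 2 / θ * (a' * ((β - α) * (4 * (β - α)))) := by
              apply mul_le_mul_of_nonneg_left _ (by positivity)
              apply mul_le_mul_of_nonneg_left _ ha'
              apply mul_le_mul_of_nonneg_left _ hβα
              nlinarith [mul_nonneg hΓ0 hβα]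
          _ = 8 / θ * (a' * (α - β) ^ 2) := by ring
      have h10 : 0 ≤ α ^ 2 * L θ a a' := by positivity
      linarith

/-- the sampling rate -/
noncomputable def gg (κ Γ : ℝ) : ℝ := (max (Γ - κ) 0) ^ 2 / 2

lemma gg_nonneg (κ Γ : ℝ) : 0 ≤ gg κ Γ := by unfold gg; positivity

lemma gg_le_half {κ Γ : ℝ} (hκ : 0 ≤ κ) (h1 : Γ ≤ 1) : gg κ Γ ≤ 1 / 2 := by
  unfold gg
  have h2 : max (Γ - κ) 0 ≤ 1 := max_le (by linarith) zero_le_one
  have h3 : (0:ℝ) ≤ max (Γ - κ) 0 := le_max_right _ _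
  nlinarith

lemma gg_le_sq {κ Γ : ℝ} (hκ : 0 ≤ κ) (h0 : 0 ≤ Γ) : gg κ Γ ≤ Γ ^ 2 := by
  unfold gg
  have h2 : max (Γ - κ) 0 ≤ Γ := max_le (by linarith) h0
  have h3 : (0:ℝ) ≤ max (Γ - κ) 0 := le_max_right _ _
  nlinarith

lemma gg_eq_zero {κ Γ : ℝ} (h : Γ ≤ κ) : gg κ Γ = 0 := by
  unfold gg
  rw [max_eq_right (by linarith)]; simp

lemma le_gg {κ Γ : ℝ} (hκ : 0 ≤ κ) (h : 2 * κ ≤ Γ) : Γ ^ 2 / 8 ≤ gg κ Γ := by
  unfold gg
  rw [max_eq_left (by linarith)]
  nlinarith

/-- Hellinger distance of the sampled bit -/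
lemma hel_gg {κ Γ Γ' : ℝ} (hκ : 0 ≤ κ) (h1 : Γ ≤ 1) (h1' : Γ' ≤ 1) :
    (√(gg κ Γ) - √(gg κ Γ')) ^ 2 + (√(1 - gg κ Γ) - √(1 - gg κ Γ')) ^ 2 ≤ (Γ - Γ') ^ 2 := by
  set φ := max (Γ - κ) 0 with hφ
  set φ' := max (Γ' - κ) 0 with hφ'
  have hφ0 : 0 ≤ φ := le_max_right _ _
  have hφ'0 : 0 ≤ φ' := le_max_right _ _
  have hφ1 : φ ≤ 1 := max_le (by linarith) zero_le_one
  have hφ'1 : φ' ≤ 1 := max_le (by linarith) zero_le_one
  have hlip : (φ - φ') ^ 2 ≤ (Γ - Γ') ^ 2 := by
    have habs : |φ - φ'| ≤ |Γ - Γ'| := by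
      have := abs_max_sub_max_le_abs (Γ - κ) (Γ' - κ) 0
      simpa [hφ, hφ'] using this
    exact sq_le_sq.2 habs
  have g1 : gg κ Γ = φ ^ 2 / 2 := rfl
  have g2 : gg κ Γ' = φ' ^ 2 / 2 := rfl
  have s1 : (√(gg κ Γ) - √(gg κ Γ')) ^ 2 = (φ - φ') ^ 2 / 2 := by
    rw [g1, g2, Real.sqrt_div (sq_nonneg _), Real.sqrt_div (sq_nonneg _), Real.sqrt_sq hφ0,
      Real.sqrt_sq hφ'0, ← sub_div, div_pow, Real.sq_sqrt (by norm_num)]
  have hA : 1 / 2 ≤ 1 - gg κ Γ := by rw [g1]; nlinarith
  have hB : 1 / 2 ≤ 1 - gg κ Γ' := by rw [g2]; nlinarith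
  have s2 : (√(1 - gg κ Γ) - √(1 - gg κ Γ')) ^ 2 ≤ (φ - φ') ^ 2 / 2 := by
    set A := √(1 - gg κ Γ) with hAe
    set B := √(1 - gg κ Γ') with hBe
    have hA2 : A ^ 2 = 1 - gg κ Γ := Real.sq_sqrt (by linarith)
    have hB2 : B ^ 2 = 1 - gg κ Γ' := Real.sq_sqrt (by linarith)
    have hA0 : 0 ≤ A := Real.sqrt_nonneg _
    have hB0 : 0 ≤ B := Real.sqrt_nonneg _
    have hAB : 2 ≤ (A + B) ^ 2 := by
      have h3 : 1 / 2 ≤ A * B := by
        have : (1 / 2) ^ 2 ≤ (A * B) ^ 2 := by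
          rw [mul_pow, hA2, hB2]; nlinarith
        exact le_of_sq_le_sq this (by positivity)
      nlinarith
    have h5 : (A - B) ^ 2 * (A + B) ^ 2 = (φ - φ') ^ 2 * (φ + φ') ^ 2 / 4 := by
      have : (A - B) * (A + B) = (φ' - φ) * (φ' + φ) / 2 := by
        have : (A - B) * (A + B) = A ^ 2 - B ^ 2 := by ring
        rw [this, hA2, hB2, g1, g2]; ring
      rw [← mul_pow, this]; ring
    have h6 : (φ + φ') ^ 2 ≤ 4 := by nlinarith
    nlinarith [mul_le_mul_of_nonneg_left hAB (sq_nonneg (A - B)),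
      mul_le_mul_of_nonneg_left h6 (sq_nonneg (φ - φ'))]
  rw [s1]
  linarith

/-- one bit selection inequality -/
lemma L_split {θ a a' g g' D : ℝ} (hθ : 0 < θ) (ha : 0 ≤ a) (ha' : 0 ≤ a') (hg : 0 ≤ g)
    (hg1 : g ≤ 1) (hg' : 0 ≤ g') (hg1' : g' ≤ 1)
    (hD : (√g - √g') ^ 2 + (√(1 - g) - √(1 - g')) ^ 2 ≤ D) :
    L θ (a * g) (a' * g') + L θ (a * (1 - g)) (a' * (1 - g')) ≤
      L θ a a' + 8 / θ * (min a a' * D) := by
  have h1 := L_upper hθ ha ha' (Real.sqrt_nonneg g) (Real.sqrt_nonneg g')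
  have h2 := L_upper hθ ha ha' (Real.sqrt_nonneg (1 - g)) (Real.sqrt_nonneg (1 - g'))
  rw [Real.sq_sqrt hg, Real.sq_sqrt hg'] at h1
  rw [Real.sq_sqrt (by linarith), Real.sq_sqrt (by linarith)] at h2
  have h3 : 8 / θ * (min a a' * ((√g - √g') ^ 2 + (√(1 - g) - √(1 - g')) ^ 2)) ≤
      8 / θ * (min a a' * D) := by
    apply mul_le_mul_of_nonneg_left _ (by positivity)
    exact mul_le_mul_of_nonneg_left hD (le_min ha ha')
  nlinarith

lemma min_split {a a' g g' : ℝ} :
    min (a * g) (a' * g') + min (a * (1 - g)) (a' * (1 - g')) ≤ min a a' := by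
  apply le_min
  · have h1 := min_le_left (a * g) (a' * g')
    have h2 := min_le_left (a * (1 - g)) (a' * (1 - g'))
    linarith
  · have h1 := min_le_right (a * g) (a' * g')
    have h2 := min_le_right (a * (1 - g)) (a' * (1 - g'))
    linarith

lemma mul_log_ge {y z : ℝ} (hy : 0 ≤ y) (hz : 0 < z) :
    y - z ≤ y * log y - y * log z := by
  rcases hy.eq_or_lt with h | h
  · subst h; simp; exact hz.le
  · have h2 : log (z / y) ≤ z / y - 1 := Real.log_le_sub_one_of_pos (by positivity)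
    rw [Real.log_div hz.ne' h.ne'] at h2
    have h3 : y * (log z - log y) ≤ y * (z / y - 1) := mul_le_mul_of_nonneg_left h2 h.le
    have h4 : y * (z / y - 1) = z - y := by field_simp
    linarith

lemma negMulLog_le {t : ℝ} (h0 : 0 ≤ t) : negMulLog t ≤ 1 - t := by
  have := mul_log_ge h0 one_pos
  simp at this
  unfold negMulLog
  linarith

/-- evolution of the Hellinger distance under one sampled bit -/
lemma hel_step {Q Q' g g' D : ℝ} (hQ : 0 ≤ Q) (hQ' : 0 ≤ Q') (hg : 0 ≤ g) (hg1 : g ≤ 1)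
    (hg' : 0 ≤ g') (hg1' : g' ≤ 1)
    (hD : (√g - √g') ^ 2 + (√(1 - g) - √(1 - g')) ^ 2 ≤ D) :
    (√(Q * g) - √(Q' * g')) ^ 2 + (√(Q * (1 - g)) - √(Q' * (1 - g'))) ^ 2 ≤
      (√Q - √Q') ^ 2 + (Q + Q') * (D / 2) := by
  rw [Real.sqrt_mul hQ, Real.sqrt_mul hQ', Real.sqrt_mul hQ, Real.sqrt_mul hQ']
  have hA := Real.sq_sqrt hQ
  have hB := Real.sq_sqrt hQ'
  have h1 := Real.sq_sqrt hg
  have h2 := Real.sq_sqrt hg'
  have h3 := Real.sq_sqrt (by linarith : (0:ℝ) ≤ 1 - g)
  have h4 := Real.sq_sqrt (by linarith : (0:ℝ) ≤ 1 - g')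
  set A := √Q
  set B := √Q'
  set x := √g
  set y := √g'
  set z := √(1 - g)
  set w := √(1 - g')
  have hA0 : 0 ≤ A := Real.sqrt_nonneg _
  have hB0 : 0 ≤ B := Real.sqrt_nonneg _
  have e : (A * x - B * y) ^ 2 + (A * z - B * w) ^ 2 =
      (A - B) ^ 2 + A * B * ((x - y) ^ 2 + (z - w) ^ 2) := by
    have e1 : z ^ 2 = 1 - x ^ 2 := by rw [h3, h1]
    have e2 : w ^ 2 = 1 - y ^ 2 := by rw [h4, h2]
    linear_combination (A ^ 2 - A * B) * e1 + (B ^ 2 - A * B) * e2
  rw [e]
  have h5 : 0 ≤ A * B := mul_nonneg hA0 hB0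
  have h6 : A * B ≤ (Q + Q') / 2 := by rw [← hA, ← hB]; nlinarith [sq_nonneg (A - B)]
  have h7 : 0 ≤ (x - y) ^ 2 + (z - w) ^ 2 := by positivity
  have h8 : A * B * ((x - y) ^ 2 + (z - w) ^ 2) ≤ (Q + Q') / 2 * D :=
    mul_le_mul h6 hD h7 (by positivity)
  linarith

lemma amgm {q q' r s : ℝ} (hq : 0 ≤ q) (hq' : 0 ≤ q') (hs : 0 < s) :
    2 * r * |q' - q| ≤ 1 / s * (√q - √q') ^ 2 + 2 * s * r ^ 2 * (q + q') := by
  have hA := Real.sq_sqrt hq
  have hB := Real.sq_sqrt hq'
  set A := √q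
  set B := √q'
  have hA0 : 0 ≤ A := Real.sqrt_nonneg _
  have hB0 : 0 ≤ B := Real.sqrt_nonneg _
  have e : |q' - q| = |A - B| * (A + B) := by
    have : q' - q = -((A - B) * (A + B)) := by rw [← hA, ← hB]; ring
    rw [this, abs_neg, abs_mul, abs_of_nonneg (by positivity : 0 ≤ A + B)]
  rw [e]
  have h1 : 2 * r * (|A - B| * (A + B)) ≤ 1 / s * |A - B| ^ 2 + s * (r * (A + B)) ^ 2 := by
    have : 0 ≤ 1 / s * (|A - B| - s * (r * (A + B))) ^ 2 := by positivity
    have e2 : 1 / s * (|A - B| - s * (r * (A + B))) ^ 2 =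
        1 / s * |A - B| ^ 2 + s * (r * (A + B)) ^ 2 - 2 * r * (|A - B| * (A + B)) := by
      field_simp; ring
    linarith
  rw [sq_abs] at h1
  have h2 : (A + B) ^ 2 ≤ 2 * (q + q') := by rw [← hA, ← hB]; nlinarith [sq_nonneg (A - B)]
  have h3 : s * (r * (A + B)) ^ 2 ≤ 2 * s * r ^ 2 * (q + q') := by
    have : 0 ≤ s * r ^ 2 := by positivity
    nlinarith [mul_le_mul_of_nonneg_left h2 this]
  linarith

end Pool.Agent.Helper31.Kk
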