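import Pool.Agent.Helper31.KkPer
import Pool.Agent.Helper31.KkExt

set_option autoImplicit false

namespace Pool.Agent.Helper31.Kk

open Finset Real

variable {ι : Type*} [Fintype ι] [DecidableEq ι]
variable {u : (ι → Bool) → ℝ} {κ θ ζ : ℝ}

lemma FEnt_step (hn : 0 < Fintype.card ι) :
    TT ζ (gk κ u) (FEnt u) = FEnt u + (ζ / (Fintype.card ι : ℝ)) • FJ κ u := by
  funext q
  rw [TT_eq hn (R := fun i => Ent (fun x => u x * (q x * gk κ u i x)) +
    Ent (fun x => u x * (q x * (1 - gk κ u i x))) - Ent (fun x => u x * q x))]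
  · rfl
  · intro i
    unfold FEnt
    ring

lemma FEnt_tel (hn : 0 < Fintype.card ι) (k : ℕ) (q : (ι → Bool) → ℝ) :
    (TT ζ (gk κ u) ^ k) (FEnt u) q = FEnt u q + ζ / (Fintype.card ι : ℝ) *
      ∑ l ∈ Finset.range k, (TT ζ (gk κ u) ^ l) (FJ κ u) q := by
  induction k with
  | zero => simp
  | succ k ih =>
    have h1 : (TT ζ (gk κ u) ^ (k + 1)) (FEnt u) =
        (TT ζ (gk κ u) ^ k) (FEnt u) + (ζ / (Fintype.card ι : ℝ)) •
          (TT ζ (gk κ u) ^ k) (FJ κ u) := by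
      rw [pow_succ]
      show (TT ζ (gk κ u) ^ k) (TT ζ (gk κ u) (FEnt u)) = _
      rw [FEnt_step hn, map_add, map_smul]
    rw [h1, Pi.add_apply, ih, Finset.sum_range_succ, Pi.smul_apply, smul_eq_mul]
    ring

lemma FEnt_le (hθ : 0 < θ) (hu : ∀ x, 0 ≤ u x) (q : (ι → Bool) → ℝ) (hq : q ∈ QQ ι) :
    FEnt u q ≤ ((1 + θ) • FS θ u) q := by
  have hw0 : ∀ x, 0 ≤ u x * q x := fun x => mul_nonneg (hu x) (hq x).1
  exact (lsi hw0).trans (GG_le hθ hw0)

lemma FE_one_nonneg (hu : ∀ x, 0 ≤ u x) : 0 ≤ FE u (fun _ => 1) := by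
  unfold FE
  apply Finset.sum_nonneg; intro j _
  apply Finset.sum_nonneg; intro x _
  apply mul_nonneg _ (DD_nonneg _ _)
  simp only [mul_one]
  exact le_min (hu x) (hu _)

/-- choice of the round -/
lemma exists_round (hn : 0 < Fintype.card ι) (hζ : 0 < ζ) (hζ1 : ζ ≤ 1) (hθ : 0 < θ)
    (hκ : 0 < κ) (hu : ∀ x, 0 ≤ u x) :
    ∃ k : ℕ, k ≤ Fintype.card ι ∧ (TT ζ (gk κ u) ^ k) (FJ κ u) (fun _ => 1) ≤
      (1 + θ) / ζ * (S θ u + ζ * (8 / θ) * FE u (fun _ => 1)) := by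
  by_contra hcon
  push Not at hcon
  have h1 := FEnt_tel (ζ := ζ) (κ := κ) (u := u) hn (Fintype.card ι) (fun _ => 1)
  have h2 : 0 ≤ FEnt u (fun _ => 1) := by
    unfold FEnt; simp only [mul_one]; exact Ent_nonneg hu
  have h3 := TTk_mono hζ.le hζ1 (gk_rate hκ.le hu) (F := FEnt u) (H := (1 + θ) • FS θ u)
    (FEnt_le hθ hu) (Fintype.card ι) _ QQ_one
  rw [map_smul, Pi.smul_apply, smul_eq_mul] at h3
  have h4 := FS_k hn hζ.le hζ1 hθ hκ hu (le_refl (Fintype.card ι))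
  have h5 := mul_le_mul_of_nonneg_left h4 (by linarith : 0 ≤ 1 + θ)
  set B := S θ u + ζ * (8 / θ) * FE u (fun _ => 1) with hB
  have h6 : ∑ l ∈ Finset.range (Fintype.card ι), ((1 + θ) / ζ * B) <
      ∑ l ∈ Finset.range (Fintype.card ι), (TT ζ (gk κ u) ^ l) (FJ κ u) (fun _ => 1) := by
    apply Finset.sum_lt_sum_of_nonempty
    · exact Finset.nonempty_range_iff.2 hn.ne'
    · intro l hl
      exact hcon l (Finset.mem_range.1 hl).le
  rw [Finset.sum_const, nsmul_eq_mul, Finset.card_range] at h6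
  have hnR : (0 : ℝ) < Fintype.card ι := by exact_mod_cast hn
  have h7 := mul_lt_mul_of_pos_left h6 (div_pos hζ hnR)
  have h8 : ζ / (Fintype.card ι : ℝ) * ((Fintype.card ι : ℝ) * ((1 + θ) / ζ * B)) =
      (1 + θ) * B := by
    field_simp
  rw [h8] at h7
  linarith

/-- error bound after `k` rounds -/
lemma FErr_k {s : ℝ} (hn : 0 < Fintype.card ι) (hs : 0 < s) (hs1 : s ≤ 1) (hθ : 0 < θ)
    (hκ : 0 < κ) (hu : ∀ x, 0 ≤ u x) {k : ℕ} (hk : k ≤ Fintype.card ι) :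
    (TT (s ^ 2) (gk κ u) ^ k) (FErr θ u) (fun _ => 1) ≤
      s * FE u (fun _ => 1) + 4 * s / θ * S θ u := by
  have hζ : 0 ≤ s ^ 2 := by positivity
  have hζ1 : s ^ 2 ≤ 1 := by nlinarith
  set T := TT (s ^ 2) (gk κ u) with hT
  set m : ι → (ι → Bool) → ℝ := fun j x => min (u x) (u (fl j x)) with hm
  have hm0 : ∀ j x, 0 ≤ m j x := fun j x => le_min (hu x) (hu _)
  set r : ι → (ι → Bool) → ℝ := fun j x => rr θ (u x) (u (fl j x)) with hr
  -- dominating functional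
  set D : Fnl ι := ∑ j, ∑ x, ((m j x * (1 / s)) • FH x (fl j x) +
    (m j x * (2 * s * r j x ^ 2)) • (fun q : (ι → Bool) → ℝ => q x + q (fl j x))) with hD
  have h1 : ∀ q ∈ QQ ι, FErr θ u q ≤ D q := by
    intro q hq
    rw [hD]
    unfold FErr
    simp only [Finset.sum_apply, Pi.add_apply, Pi.smul_apply, smul_eq_mul]
    apply Finset.sum_le_sum
    intro j _
    apply Finset.sum_le_sum
    intro x _
    have h2 := amgm (r := r j x) (hq x).1 (hq (fl j x)).1 hs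
    have h3 := mul_le_mul_of_nonneg_left h2 (hm0 j x)
    unfold FH
    have e1 : 2 * rr θ (u x) (u (fl j x)) * min (u x) (u (fl j x)) * |q (fl j x) - q x| =
        m j x * (2 * r j x * |q (fl j x) - q x|) := by
      simp only [hm, hr]; ring
    rw [e1]
    refine h3.trans (le_of_eq ?_)
    ring
  have h2 := TTk_mono hζ hζ1 (gk_rate hκ.le hu) h1 k _ QQ_one
  refine h2.trans ?_
  rw [hD]
  simp only [map_sum, map_add, map_smul, Finset.sum_apply, Pi.add_apply, Pi.smul_apply,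
    smul_eq_mul]
  have h3 : ∀ x y : ι → Bool, (TT (s ^ 2) (gk κ u) ^ k)
      (fun q : (ι → Bool) → ℝ => q x + q y) (fun _ => 1) ≤ 2 := by
    intro x y
    have h := TTk_incr hζ hζ1 (gk_rate hκ.le hu) (F := fun q : (ι → Bool) → ℝ => q x + q y)
      (H := fun _ => 0) (c := 0) le_rfl
      (fun q _ => by
        have := TT_le (ζ := s ^ 2) (g := gk κ u) hn hζ (F := fun q => q x + q y) (q := q)
          (R := fun _ => 0) (fun i => le_of_eq (by ring))
        simpa using this)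
      (fun q _ => by
        rw [TT_apply]; simp) k _ QQ_one
    refine h.trans ?_
    norm_num
  have h4 : ∀ j x, m j x * (1 / s) * (TT (s ^ 2) (gk κ u) ^ k) (FH x (fl j x)) (fun _ => 1) +
      m j x * (2 * s * r j x ^ 2) * (TT (s ^ 2) (gk κ u) ^ k)
        (fun q : (ι → Bool) → ℝ => q x + q (fl j x)) (fun _ => 1) ≤
      s * (m j x * DD u x (fl j x)) + 4 * s / θ * L θ (u x) (u (fl j x)) := by
    intro j x
    have h5 := FH_k hn hζ hζ1 hκ hu hk x (fl j x)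
    have h6 : m j x * (1 / s) * (TT (s ^ 2) (gk κ u) ^ k) (FH x (fl j x)) (fun _ => 1) ≤
        m j x * (1 / s) * (s ^ 2 * DD u x (fl j x)) :=
      mul_le_mul_of_nonneg_left h5 (mul_nonneg (hm0 j x) (by positivity))
    have h7 : m j x * (2 * s * r j x ^ 2) * (TT (s ^ 2) (gk κ u) ^ k)
        (fun q : (ι → Bool) → ℝ => q x + q (fl j x)) (fun _ => 1) ≤
        m j x * (2 * s * r j x ^ 2) * 2 :=
      mul_le_mul_of_nonneg_left (h3 _ _) (mul_nonneg (hm0 j x) (by positivity))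
    have h8 : m j x * r j x ^ 2 ≤ L θ (u x) (u (fl j x)) / θ :=
      (mul_le_mul_of_nonneg_right (min_le_left _ _) (sq_nonneg _)).trans
        (rr_sq_le hθ (hu x) (hu _))
    have h9 : m j x * (1 / s) * (s ^ 2 * DD u x (fl j x)) = s * (m j x * DD u x (fl j x)) := by
      field_simp
    have h10 : m j x * (2 * s * r j x ^ 2) * 2 = 4 * s * (m j x * r j x ^ 2) := by ring
    have h11 : 4 * s * (m j x * r j x ^ 2) ≤ 4 * s * (L θ (u x) (u (fl j x)) / θ) :=
      mul_le_mul_of_nonneg_left h8 (by positivity)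
    have h12 : 4 * s * (L θ (u x) (u (fl j x)) / θ) = 4 * s / θ * L θ (u x) (u (fl j x)) := by
      ring
    linarith
  refine (Finset.sum_le_sum fun j _ => Finset.sum_le_sum fun x _ => h4 j x).trans
    (le_of_eq ?_)
  unfold FE S Sj
  simp only [Finset.sum_add_distrib, ← Finset.mul_sum, mul_one, hm]

lemma sum_HH (hκ : 0 < κ) (hθ : 0 < θ) (hu : ∀ x, 0 ≤ u x) :
    GG u - (2 * κ + θ) * S θ u ≤ ∑ x, HH κ u x := by
  have h1 : GG u ≤ ∑ x, HH κ u x + (2 * κ + θ) * S θ u := by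
    unfold GG Gj HH S Sj
    rw [Finset.sum_comm (γ := ι → Bool), Finset.mul_sum, ← Finset.sum_add_distrib]
    apply Finset.sum_le_sum
    intro j _
    rw [Finset.mul_sum, ← Finset.sum_add_distrib]
    apply Finset.sum_le_sum
    intro x _
    rw [Gq_eq (hu x)]
    unfold hard
    have h3 := L_nonneg (θ := θ) (b := u (fl j x)) hθ (hu x)
    split_ifs with h
    · have : 0 ≤ (2 * κ + θ) * L θ (u x) (u (fl j x)) := by positivity
      have e : Gam (u x) (u (fl j x)) = Ga u j x := rfl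
      rw [e]; linarith
    · push Not at h
      have := Gam_sq_le (κ := 2 * κ) hθ (hu x) (hu (fl j x)) h.le
      simpa using this
  linarith

/-- the main inequality for one function -/
lemma star {lam γ c c₂ Λ s : ℝ} (hn : 0 < Fintype.card ι) (hlam : 0 ≤ lam) (hθ : 0 < θ)
    (hγ : 0 ≤ γ) (hV : Valid ι lam θ γ) (hκ : 0 < κ) (hc₂ : 0 < c₂)
    (hΛe : Λ = log (κ ^ 2 / 2) - log c₂ - 1) (hΛ : 0 < Λ) (hs : 0 < s) (hs1 : s ≤ 1)
    (hu : ∀ x, 0 ≤ u x) (hgood : Good lam u c) :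
    Ulog u - c * Z u ≤ s ^ 2 / κ ^ 2 * GG u + lam / c₂ * GG u +
      γ * (S θ u + s ^ 2 * (8 / θ) * FE u (fun _ => 1) + s * FE u (fun _ => 1) +
        4 * s / θ * S θ u - 1 / (1 + θ) * (GG u - (2 * κ + θ) * S θ u) +
        8 / (Λ * s ^ 2) * (S θ u + s ^ 2 * (8 / θ) * FE u (fun _ => 1))) := by
  have hζ : 0 < s ^ 2 := by positivity
  have hζ1 : s ^ 2 ≤ 1 := by nlinarith
  obtain ⟨k, hk, hJ⟩ := exists_round (u := u) hn hζ hζ1 hθ hκ hu
  set T := TT (s ^ 2) (gk κ u) with hT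
  -- functionals
  set lin : ((ι → Bool) → ℝ) → Fnl ι := fun a q => ∑ x, a x * q x with hlin
  have hfix : ∀ a, (T ^ k) (lin a) (fun _ => 1) = ∑ x, a x := by
    intro a
    have := TTk_lin (ζ := s ^ 2) (g := gk κ u) hn a k
    rw [hT, hlin]
    simp only
    rw [this]
    simp
  have hmono := TTk_mono hζ.le hζ1 (gk_rate hκ.le hu)
    (F := lin (fun x => u x * log (u x) - c * u x) - FN u)
    (H := (lam / c₂) • lin (fun x => u x * G2 u x) + γ • (FS θ u - (1 / (1 + θ)) •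
      (lin (HH κ u) - (8 / Λ) • FJ κ u) + FErr θ u))
    (fun q hq => by
      have := per_q hlam hθ hγ hV hκ hc₂ hΛe hΛ hu hgood q hq
      simp only [hlin, Pi.sub_apply, Pi.add_apply, Pi.smul_apply, smul_eq_mul]
      exact this) k _ QQ_one
  rw [← hT] at hmono
  simp only [map_sub, map_add, map_smul, Pi.sub_apply, Pi.add_apply, Pi.smul_apply,
    smul_eq_mul, hfix] at hmono
  have h1 := FS_k hn hζ.le hζ1 hθ hκ hu hk
  have h2 := FN_k hn hζ.le hζ1 hκ hu hk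
  have h3 := FErr_k hn hs hs1 hθ hκ hu hk
  have h4 := sum_HH hκ hθ hu
  rw [← hT] at h1 h2 h3
  rw [sum_G2 hu] at h2
  have h5 : ∑ x, (u x * log (u x) - c * u x) = Ulog u - c * Z u := by
    unfold Ulog Z
    rw [Finset.sum_sub_distrib, Finset.mul_sum]
  rw [h5, sum_G2 hu] at hmono
  set E := FE u (fun _ => 1) with hE
  have h6 : (T ^ k) (FS θ u) (fun _ => 1) - 1 / (1 + θ) * (∑ x, HH κ u x -
      8 / Λ * (T ^ k) (FJ κ u) (fun _ => 1)) + (T ^ k) (FErr θ u) (fun _ => 1) ≤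
      S θ u + s ^ 2 * (8 / θ) * E + s * E +
        4 * s / θ * S θ u - 1 / (1 + θ) * (GG u - (2 * κ + θ) * S θ u) +
        8 / (Λ * s ^ 2) * (S θ u + s ^ 2 * (8 / θ) * E) := by
    have h7 : 1 / (1 + θ) * (GG u - (2 * κ + θ) * S θ u) ≤ 1 / (1 + θ) * ∑ x, HH κ u x :=
      mul_le_mul_of_nonneg_left h4 (by positivity)
    have h8 : 1 / (1 + θ) * (8 / Λ) * (T ^ k) (FJ κ u) (fun _ => 1) ≤
        1 / (1 + θ) * (8 / Λ) * ((1 + θ) / s ^ 2 * (S θ u + s ^ 2 * (8 / θ) * E)) :=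
      mul_le_mul_of_nonneg_left hJ (by positivity)
    have h9 : 1 / (1 + θ) * (8 / Λ) * ((1 + θ) / s ^ 2 * (S θ u + s ^ 2 * (8 / θ) * E)) =
        8 / (Λ * s ^ 2) * (S θ u + s ^ 2 * (8 / θ) * E) := by
      have : (1 + θ) ≠ 0 := by positivity
      field_simp
    linarith
  have h10 := mul_le_mul_of_nonneg_left h6 hγ
  linarith

end Pool.Agent.Helper31.Kk
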