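import Pool.Agent.Helper31.KkOp

set_option autoImplicit false

namespace Pool.Agent.Helper31.Kk

open Finset Real

variable {ι : Type*} [Fintype ι] [DecidableEq ι]

/-- relative drop of `u` at `x` in direction `i` -/
noncomputable def Ga (u : (ι → Bool) → ℝ) (i : ι) (x : ι → Bool) : ℝ := Gam (u x) (u (fl i x))

/-- sampling rates -/
noncomputable def gk (κ : ℝ) (u : (ι → Bool) → ℝ) (i : ι) (x : ι → Bool) : ℝ := gg κ (Ga u i x)

/-- squared variation of all drops along an edge -/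
noncomputable def DD (u : (ι → Bool) → ℝ) (x y : ι → Bool) : ℝ :=
  ∑ i, (Ga u i x - Ga u i y) ^ 2

/-- squared drops -/
noncomputable def G2 (u : (ι → Bool) → ℝ) (x : ι → Bool) : ℝ := ∑ i, Ga u i x ^ 2

/-- energy functional -/
noncomputable def FS (θ : ℝ) (u : (ι → Bool) → ℝ) : Fnl ι := fun q => S θ (fun x => u x * q x)

/-- second order energy functional -/
noncomputable def FE (u : (ι → Bool) → ℝ) : Fnl ι := fun q =>
  ∑ j, ∑ x, min (u x * q x) (u (fl j x) * q (fl j x)) * DD u x (fl j x)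

/-- selection entropy functional -/
noncomputable def FN (u : (ι → Bool) → ℝ) : Fnl ι := fun q => ∑ x, u x * negMulLog (q x)

/-- Hellinger functional -/
noncomputable def FH (x y : ι → Bool) : Fnl ι := fun q => (√(q x) - √(q y)) ^ 2

/-- entropy functional -/
noncomputable def FEnt (u : (ι → Bool) → ℝ) : Fnl ι := fun q => Ent (fun x => u x * q x)

/-- information functional -/
noncomputable def FJ (κ : ℝ) (u : (ι → Bool) → ℝ) : Fnl ι := fun q =>
  ∑ i, (Ent (fun x => u x * (q x * gk κ u i x)) + Ent (fun x => u x * (q x * (1 - gk κ u i x)))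
    - Ent (fun x => u x * q x))

/-- hard part of the squared drop -/
noncomputable def hard (κ : ℝ) (u : (ι → Bool) → ℝ) (i : ι) (x : ι → Bool) : ℝ :=
  if 2 * κ ≤ Ga u i x then Ga u i x ^ 2 else 0

variable {u : (ι → Bool) → ℝ} {κ θ ζ : ℝ}

omit [Fintype ι] in
lemma Ga_nonneg (hu : ∀ x, 0 ≤ u x) (i : ι) (x : ι → Bool) : 0 ≤ Ga u i x := Gam_nonneg (hu x)

omit [Fintype ι] in
lemma Ga_le_one (hu : ∀ x, 0 ≤ u x) (i : ι) (x : ι → Bool) : Ga u i x ≤ 1 :=
  Gam_le_one (hu x) (hu _)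

omit [Fintype ι] in
lemma gk_rate (hκ : 0 ≤ κ) (hu : ∀ x, 0 ≤ u x) : Rate (gk κ u) := fun i x =>
  ⟨gg_nonneg _ _, (gg_le_half hκ (Ga_le_one hu i x)).trans (by norm_num)⟩

lemma DD_nonneg (x y : ι → Bool) : 0 ≤ DD u x y := Finset.sum_nonneg fun _ _ => sq_nonneg _

lemma G2_nonneg (x : ι → Bool) : 0 ≤ G2 u x := Finset.sum_nonneg fun _ _ => sq_nonneg _

lemma FS_step (hn : 0 < Fintype.card ι) (hζ : 0 ≤ ζ) (hθ : 0 < θ) (hκ : 0 ≤ κ)
    (hu : ∀ x, 0 ≤ u x) (q : (ι → Bool) → ℝ) (hq : q ∈ QQ ι) :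
    TT ζ (gk κ u) (FS θ u) q ≤ FS θ u q + ζ / (Fintype.card ι) * (8 / θ) * FE u q := by
  have h := TT_le (ζ := ζ) (g := gk κ u) hn hζ (F := FS θ u) (q := q)
    (R := fun i => 8 / θ * ∑ j, ∑ x, min (u x * q x) (u (fl j x) * q (fl j x)) *
      (Ga u i x - Ga u i (fl j x)) ^ 2) ?_
  · refine h.trans (le_of_eq ?_)
    rw [← Finset.mul_sum, Finset.sum_comm]
    unfold FE DD
    rw [mul_assoc]
    congr 3
    apply Finset.sum_congr rfl
    intro j _
    rw [Finset.sum_comm]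
    apply Finset.sum_congr rfl
    intro x _
    rw [Finset.mul_sum]
  · intro i
    unfold FS S Sj
    rw [Finset.mul_sum, ← Finset.sum_add_distrib, ← Finset.sum_add_distrib]
    apply Finset.sum_le_sum
    intro j _
    rw [Finset.mul_sum, ← Finset.sum_add_distrib, ← Finset.sum_add_distrib]
    apply Finset.sum_le_sum
    intro x _
    have h1 := L_split (D := (Ga u i x - Ga u i (fl j x)) ^ 2) hθ
      (mul_nonneg (hu x) (hq x).1) (mul_nonneg (hu (fl j x)) (hq (fl j x)).1)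
      (gk_rate hκ hu i x).1 (gk_rate hκ hu i x).2 (gk_rate hκ hu i (fl j x)).1
      (gk_rate hκ hu i (fl j x)).2
      (hel_gg hκ (Ga_le_one hu i x) (Ga_le_one hu i (fl j x)))
    simp only [← mul_assoc] at h1 ⊢
    exact h1

lemma FE_step (hn : 0 < Fintype.card ι) (hζ : 0 ≤ ζ) (q : (ι → Bool) → ℝ) :
    TT ζ (gk κ u) (FE u) q ≤ FE u q := by
  have h := TT_le (ζ := ζ) (g := gk κ u) hn hζ (F := FE u) (q := q) (R := fun _ => 0) ?_
  · simpa using h
  · intro i
    rw [add_zero]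
    unfold FE
    rw [← Finset.sum_add_distrib]
    apply Finset.sum_le_sum
    intro j _
    rw [← Finset.sum_add_distrib]
    apply Finset.sum_le_sum
    intro x _
    rw [← add_mul]
    apply mul_le_mul_of_nonneg_right _ (DD_nonneg _ _)
    have := min_split (a := u x * q x) (a' := u (fl j x) * q (fl j x)) (g := gk κ u i x)
      (g' := gk κ u i (fl j x))
    simp only [← mul_assoc] at this ⊢
    exact this

omit [Fintype ι] in
lemma negMulLog_gg (hκ : 0 < κ) (i : ι) (hu : ∀ x, 0 ≤ u x) (x : ι → Bool) :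
    negMulLog (gk κ u i x) + negMulLog (1 - gk κ u i x) ≤ Ga u i x ^ 2 / κ ^ 2 := by
  by_cases h : Ga u i x ≤ κ
  · have : gk κ u i x = 0 := gg_eq_zero h
    rw [this]
    simp
    positivity
  · push Not at h
    have h1 := negMulLog_le (gk_rate hκ.le hu i x).1
    have h2 := negMulLog_le (t := 1 - gk κ u i x) (by linarith [(gk_rate hκ.le hu i x).2])
    have h3 : 1 ≤ Ga u i x ^ 2 / κ ^ 2 := by
      rw [le_div_iff₀ (by positivity)]
      nlinarith
    linarith

lemma FN_step (hn : 0 < Fintype.card ι) (hζ : 0 ≤ ζ) (hκ : 0 < κ)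
    (hu : ∀ x, 0 ≤ u x) (q : (ι → Bool) → ℝ) (hq : q ∈ QQ ι) :
    TT ζ (gk κ u) (FN u) q ≤ FN u q + ζ / (Fintype.card ι) / κ ^ 2 *
      ∑ x, (u x * G2 u x) * q x := by
  have h := TT_le (ζ := ζ) (g := gk κ u) hn hζ (F := FN u) (q := q)
    (R := fun i => ∑ x, u x * q x * (Ga u i x ^ 2 / κ ^ 2)) ?_
  · refine h.trans (le_of_eq ?_)
    have e : ∑ i, ∑ x, u x * q x * (Ga u i x ^ 2 / κ ^ 2) =
        (∑ x, (u x * G2 u x) * q x) / κ ^ 2 := by
      rw [Finset.sum_comm, Finset.sum_div]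
      apply Finset.sum_congr rfl
      intro x _
      unfold G2
      rw [Finset.mul_sum, Finset.sum_mul, Finset.sum_div]
      apply Finset.sum_congr rfl
      intro i _; ring
    rw [e]; ring
  · intro i
    unfold FN
    rw [← Finset.sum_add_distrib, ← Finset.sum_add_distrib]
    apply Finset.sum_le_sum
    intro x _
    rw [Real.negMulLog_mul, Real.negMulLog_mul]
    have h1 := negMulLog_gg hκ i hu x
    have h2 : u x * q x * (negMulLog (gk κ u i x) + negMulLog (1 - gk κ u i x)) ≤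
        u x * q x * (Ga u i x ^ 2 / κ ^ 2) :=
      mul_le_mul_of_nonneg_left h1 (mul_nonneg (hu x) (hq x).1)
    nlinarith

lemma FH_step (hn : 0 < Fintype.card ι) (hζ : 0 ≤ ζ) (hκ : 0 ≤ κ)
    (hu : ∀ x, 0 ≤ u x) (x y : ι → Bool) (q : (ι → Bool) → ℝ) (hq : q ∈ QQ ι) :
    TT ζ (gk κ u) (FH x y) q ≤ FH x y q + ζ / (Fintype.card ι) * (DD u x y / 2) *
      (q x + q y) := by
  have h := TT_le (ζ := ζ) (g := gk κ u) hn hζ (F := FH x y) (q := q)
    (R := fun i => (q x + q y) * ((Ga u i x - Ga u i y) ^ 2 / 2)) ?_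
  · refine h.trans (le_of_eq ?_)
    rw [← Finset.mul_sum, ← Finset.sum_div]
    unfold DD
    ring
  · intro i
    unfold FH
    exact hel_step (hq x).1 (hq y).1 (gk_rate hκ hu i x).1 (gk_rate hκ hu i x).2
      (gk_rate hκ hu i y).1 (gk_rate hκ hu i y).2
      (hel_gg hκ (Ga_le_one hu i x) (Ga_le_one hu i y))

/-! ### bounds after `k` rounds -/

section rounds

variable (hn : 0 < Fintype.card ι) (hζ : 0 ≤ ζ) (hζ1 : ζ ≤ 1) (hθ : 0 < θ) (hκ : 0 < κ)
  (hu : ∀ x, 0 ≤ u x) {k : ℕ} (hk : k ≤ Fintype.card ι)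

include hn hζ hk in
omit [DecidableEq ι] in
lemma kn_le : (k : ℝ) * (ζ / (Fintype.card ι)) ≤ ζ := by
  have h1 : (k : ℝ) ≤ Fintype.card ι := by exact_mod_cast hk
  have h2 : (0:ℝ) < Fintype.card ι := by exact_mod_cast hn
  rw [mul_div_assoc', div_le_iff₀ h2]
  nlinarith

include hn hζ hζ1 hθ hκ hu hk in
lemma FS_k : (TT ζ (gk κ u) ^ k) (FS θ u) (fun _ => 1) ≤
    S θ u + ζ * (8 / θ) * FE u (fun _ => 1) := by
  have h := TTk_incr hζ hζ1 (gk_rate hκ.le hu) (F := FS θ u) (H := FE u)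
    (c := ζ / (Fintype.card ι) * (8 / θ)) (by positivity)
    (fun q hq => FS_step hn hζ hθ hκ.le hu q hq) (fun q _ => FE_step hn hζ q) k _ QQ_one
  have h1 : FS θ u (fun _ => 1) = S θ u := by unfold FS; simp
  rw [h1] at h
  refine h.trans ?_
  have h2 : 0 ≤ FE u (fun _ => 1) := by
    unfold FE
    apply Finset.sum_nonneg; intro j _
    apply Finset.sum_nonneg; intro x _
    apply mul_nonneg _ (DD_nonneg _ _)
    simp only [mul_one]
    exact le_min (hu x) (hu _)
  have h3 := kn_le hn hζ hk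
  have h4 : (k : ℝ) * (ζ / (Fintype.card ι) * (8 / θ)) * FE u (fun _ => 1) =
      (k : ℝ) * (ζ / (Fintype.card ι)) * ((8 / θ) * FE u (fun _ => 1)) := by ring
  rw [h4]
  have h5 := mul_le_mul_of_nonneg_right h3 (by positivity : 0 ≤ (8 / θ) * FE u (fun _ => 1))
  linarith

include hn hζ hζ1 hκ hu hk in
lemma FN_k : (TT ζ (gk κ u) ^ k) (FN u) (fun _ => 1) ≤
    ζ / κ ^ 2 * ∑ x, u x * G2 u x := by
  have h := TTk_incr hζ hζ1 (gk_rate hκ.le hu) (F := FN u)
    (H := fun q => ∑ x, (u x * G2 u x) * q x)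
    (c := ζ / (Fintype.card ι) / κ ^ 2) (by positivity)
    (fun q hq => FN_step hn hζ hκ hu q hq)
    (fun q _ => by
      have := TTk_lin (ζ := ζ) (g := gk κ u) hn (fun x => u x * G2 u x) 1
      rw [pow_one] at this
      rw [this]) k _ QQ_one
  have h1 : FN u (fun _ => 1) = 0 := by unfold FN; simp
  rw [h1, zero_add] at h
  refine h.trans ?_
  simp only [mul_one]
  have h2 : 0 ≤ ∑ x, u x * G2 u x :=
    Finset.sum_nonneg fun x _ => mul_nonneg (hu x) (G2_nonneg x)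
  have h3 := kn_le hn hζ hk
  have h4 : (k : ℝ) * (ζ / (Fintype.card ι) / κ ^ 2) * ∑ x, u x * G2 u x =
      (k : ℝ) * (ζ / (Fintype.card ι)) * ((∑ x, u x * G2 u x) / κ ^ 2) := by ring
  have h6 : ζ / κ ^ 2 * ∑ x, u x * G2 u x = ζ * ((∑ x, u x * G2 u x) / κ ^ 2) := by ring
  rw [h4, h6]
  exact mul_le_mul_of_nonneg_right h3 (by positivity)

include hn hζ hζ1 hκ hu hk in
lemma FH_k (x y : ι → Bool) : (TT ζ (gk κ u) ^ k) (FH x y) (fun _ => 1) ≤
    ζ * DD u x y := by
  have h := TTk_incr hζ hζ1 (gk_rate hκ.le hu) (F := FH x y)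
    (H := fun q => q x + q y)
    (c := ζ / (Fintype.card ι) * (DD u x y / 2)) (by have := DD_nonneg (u := u) x y; positivity)
    (fun q hq => FH_step hn hζ hκ.le hu x y q hq)
    (fun q _ => by
      have := TT_le (ζ := ζ) (g := gk κ u) hn hζ (F := fun q => q x + q y) (q := q)
        (R := fun _ => 0) (fun i => le_of_eq (by ring))
      simpa using this) k _ QQ_one
  have h1 : FH x y (fun _ => (1:ℝ)) = 0 := by unfold FH; simp
  rw [h1, zero_add] at h
  refine h.trans ?_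
  have h2 := DD_nonneg (u := u) x y
  have h3 := kn_le hn hζ hk
  have h4 : (k : ℝ) * (ζ / (Fintype.card ι) * (DD u x y / 2)) * (1 + 1) =
      (k : ℝ) * (ζ / (Fintype.card ι)) * DD u x y := by ring
  rw [h4]
  exact mul_le_mul_of_nonneg_right h3 h2

end rounds

end Pool.Agent.Helper31.Kk
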