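import Mathlib

set_option autoImplicit false

namespace Pool.Agent.Helper31.Ls

open Finsupp

/-- mod 2 chains on lists. -/
abbrev Ch (P : Type*) := List P →₀ ZMod 2

variable {P Q : Type*}

theorem add_self' {M : Type*} [AddCommGroup M] [Module (ZMod 2) M] (x : M) : x + x = 0 := by
  have : (2 : ZMod 2) • x = 0 := by
    rw [show (2 : ZMod 2) = 0 from rfl, zero_smul]
  rwa [two_smul] at this

/-- linear extension. -/
noncomputable def ext (F : List P → Ch Q) : Ch P →ₗ[ZMod 2] Ch Q :=
  Finsupp.linearCombination (ZMod 2) F

@[simp] theorem ext_single (F : List P → Ch Q) (l : List P) : ext F (single l 1) = F l := by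
  simp [ext]

theorem lin_ext {M : Type*} [AddCommGroup M] [Module (ZMod 2) M] {φ ψ : Ch P →ₗ[ZMod 2] M}
    (h : ∀ l, φ (single l 1) = ψ (single l 1)) : φ = ψ := by
  apply Finsupp.lhom_ext'
  intro l
  apply LinearMap.ext_ring
  exact h l

/-- chains supported on the lists satisfying `p`. -/
noncomputable def Sup (p : List P → Prop) : Submodule (ZMod 2) (Ch P) :=
  Finsupp.supported (ZMod 2) (ZMod 2) {l | p l}

theorem mem_Sup {p : List P → Prop} {c : Ch P} : c ∈ Sup p ↔ ∀ l, c l ≠ 0 → p l := by
  unfold Sup
  rw [Finsupp.mem_supported]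
  constructor
  · intro h l hl
    exact h (Finsupp.mem_support_iff.mpr hl)
  · intro h l hl
    exact h l (Finsupp.mem_support_iff.mp hl)

theorem single_mem_Sup {p : List P → Prop} {l : List P} (h : p l) : single l 1 ∈ Sup p :=
  Finsupp.single_mem_supported _ _ h

theorem Sup_mono {p q : List P → Prop} (h : ∀ l, p l → q l) {c : Ch P} (hc : c ∈ Sup p) :
    c ∈ Sup q := mem_Sup.mpr fun l hl => h l (mem_Sup.mp hc l hl)

theorem map_Sup {M : Type*} [AddCommGroup M] [Module (ZMod 2) M] {p : List P → Prop}
    (φ : Ch P →ₗ[ZMod 2] M) (W : Submodule (ZMod 2) M)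
    (h : ∀ l, p l → φ (single l 1) ∈ W) {c : Ch P} (hc : c ∈ Sup p) : φ c ∈ W := by
  have h1 : c = ∑ l ∈ c.support, c l • single l 1 := by
    conv_lhs => rw [← Finsupp.sum_single c]
    unfold Finsupp.sum
    refine Finset.sum_congr rfl fun l _ => ?_
    rw [Finsupp.smul_single, smul_eq_mul, mul_one]
  rw [h1, map_sum]
  refine Submodule.sum_mem _ fun l hl => ?_
  rw [map_smul]
  exact Submodule.smul_mem _ _ (h l (mem_Sup.mp hc l (Finsupp.mem_support_iff.mp hl)))

/-- push-forward. -/
noncomputable def mp (f : P → Q) : Ch P →ₗ[ZMod 2] Ch Q := ext fun l => single (l.map f) 1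

@[simp] theorem mp_single (f : P → Q) (l : List P) : mp f (single l 1) = single (l.map f) 1 := by
  simp [mp]

/-- cone. -/
noncomputable def cn (x : P) : Ch P →ₗ[ZMod 2] Ch P := ext fun l => single (x :: l) 1

@[simp] theorem cn_single (x : P) (l : List P) : cn x (single l 1) = single (x :: l) 1 := by
  simp [cn]

/-- boundary of a list. -/
noncomputable def bdl : List P → Ch P
  | [] => 0
  | x :: l => single l 1 + cn x (bdl l)

noncomputable def bd : Ch P →ₗ[ZMod 2] Ch P := ext bdl

@[simp] theorem bd_nil : bd (single ([] : List P) 1) = 0 := by simp [bd, bdl]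

theorem bd_cons (x : P) (l : List P) :
    bd (single (x :: l) 1) = single l 1 + cn x (bd (single l 1)) := by
  simp [bd, bdl]

theorem bd_cn (x : P) (c : Ch P) : bd (cn x c) = c + cn x (bd c) := by
  have h : bd.comp (cn x) = LinearMap.id + (cn x).comp bd := by
    apply lin_ext
    intro l
    simp [bd_cons]
  exact LinearMap.congr_fun h c

theorem mp_cn (f : P → Q) (x : P) (c : Ch P) : mp f (cn x c) = cn (f x) (mp f c) := by
  have h : (mp f).comp (cn x) = (cn (f x)).comp (mp f) := by
    apply lin_ext
    intro l
    simp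
  exact LinearMap.congr_fun h c

theorem bd_mp (f : P → Q) (c : Ch P) : bd (mp f c) = mp f (bd c) := by
  have h : bd.comp (mp f) = (mp f).comp bd := by
    apply lin_ext
    intro l
    induction l with
    | nil => simp
    | cons x l ih =>
      simp only [LinearMap.comp_apply, mp_single, List.map_cons, bd_cons, map_add] at ih ⊢
      rw [ih, mp_cn]
  exact LinearMap.congr_fun h c

theorem bd_bd (c : Ch P) : bd (bd c) = 0 := by
  have h : bd.comp bd = (0 : Ch P →ₗ[ZMod 2] Ch P) := by
    apply lin_ext
    intro l
    induction l with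
    | nil => simp
    | cons x l ih =>
      simp only [LinearMap.comp_apply, LinearMap.zero_apply] at ih ⊢
      rw [bd_cons, map_add, bd_cn, ih, map_zero, add_zero, add_self']
  exact LinearMap.congr_fun h c

theorem mp_mp {R : Type*} (g : Q → R) (f : P → Q) (c : Ch P) : mp g (mp f c) = mp (g ∘ f) c := by
  have h : (mp g).comp (mp f) = mp (g ∘ f) := by
    apply lin_ext
    intro l
    simp
  exact LinearMap.congr_fun h c

theorem mp_id (c : Ch P) : mp (id : P → P) c = c := by
  have h : mp (id : P → P) = LinearMap.id := by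
    apply lin_ext
    intro l
    simp
  exact LinearMap.congr_fun h c

/-- prism of a list. -/
noncomputable def prl (f g : P → Q) : List P → Ch Q
  | [] => 0
  | x :: l => single (f x :: g x :: l.map g) 1 + cn (f x) (prl f g l)

noncomputable def pr (f g : P → Q) : Ch P →ₗ[ZMod 2] Ch Q := ext (prl f g)

@[simp] theorem pr_nil (f g : P → Q) : pr f g (single ([] : List P) 1) = 0 := by simp [pr, prl]

theorem pr_cons (f g : P → Q) (x : P) (l : List P) :
    pr f g (single (x :: l) 1) = single (f x :: g x :: l.map g) 1 + cn (f x) (pr f g (single l 1)) := by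
  simp [pr, prl]

theorem pr_cn (f g : P → Q) (x : P) (c : Ch P) :
    pr f g (cn x c) = cn (f x) (cn (g x) (mp g c)) + cn (f x) (pr f g c) := by
  have h : (pr f g).comp (cn x) =
      (cn (f x)).comp ((cn (g x)).comp (mp g)) + (cn (f x)).comp (pr f g) := by
    apply lin_ext
    intro l
    simp [pr_cons]
  exact LinearMap.congr_fun h c

/-- the prism identity. -/
theorem bd_pr (f g : P → Q) (c : Ch P) : bd (pr f g c) + pr f g (bd c) = mp f c + mp g c := by
  have h : bd.comp (pr f g) + (pr f g).comp bd = mp f + mp g := by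
    apply lin_ext
    intro l
    induction l with
    | nil => simp [add_self']
    | cons x l ih =>
      simp only [LinearMap.comp_apply, LinearMap.add_apply, mp_single, List.map_cons] at ih ⊢
      rw [pr_cons, bd_cons, map_add, map_add, bd_cn, bd_cons, bd_cons, pr_cn]
      rw [show (single (l.map g) (1 : ZMod 2)) = mp g (single l 1) from (mp_single g l).symm] at *
      rw [bd_mp]
      have e1 : (single (g x :: List.map g l) (1 : ZMod 2)) = cn (g x) (mp g (single l 1)) := by simp
      have e2 : (single (f x :: List.map f l) (1 : ZMod 2)) = cn (f x) (mp f (single l 1)) := by simp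
      rw [e1, e2]
      have ih' : bd (pr f g (single l 1)) + pr f g (bd (single l 1)) =
          mp f (single l 1) + mp g (single l 1) := by
        rw [ih]; simp
      have ih2 := congrArg (cn (f x)) ih'
      simp only [map_add] at ih2 ⊢
      have s1 := add_self' (cn (f x) (mp g (single l 1)))
      have s2 := add_self' (cn (f x) (cn (g x) (mp g (bd (single l 1)))))
      have s3 := add_self' (pr f g (single l 1))
      linear_combination (norm := module) ih2 + s1 + s2 + s3
  exact LinearMap.congr_fun h c

theorem mp_pr {R : Type*} (h : Q → R) (f g : P → Q) (c : Ch P) :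
    mp h (pr f g c) = pr (h ∘ f) (h ∘ g) c := by
  have e : (mp h).comp (pr f g) = pr (h ∘ f) (h ∘ g) := by
    apply lin_ext
    intro l
    induction l with
    | nil => simp
    | cons x l ih =>
      simp only [LinearMap.comp_apply] at ih ⊢
      rw [pr_cons, pr_cons, map_add, mp_cn, ih]
      simp
  exact LinearMap.congr_fun e c

theorem pr_mp {R : Type*} (h : R → P) (f g : P → Q) (c : Ch R) :
    pr f g (mp h c) = pr (f ∘ h) (g ∘ h) c := by
  have e : (pr f g).comp (mp h) = pr (f ∘ h) (g ∘ h) := by
    apply lin_ext
    intro l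
    induction l with
    | nil => simp
    | cons x l ih =>
      simp only [LinearMap.comp_apply, mp_single, List.map_cons] at ih ⊢
      rw [pr_cons, pr_cons, ih]
      simp
  exact LinearMap.congr_fun e c

end Pool.Agent.Helper31.Ls
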