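import Mathlib

set_option autoImplicit false

open Finset Real

namespace Pool.Agent.Helper31.Ls

/-- Hamming distance counted on the marked coordinates. -/
def dst {A : Type*} [DecidableEq A] {n : ℕ} (b : Fin n → Bool) (x y : Fin n → A) : ℝ :=
  ∑ j, if b j = true ∧ x j ≠ y j then 1 else 0

theorem dst_cons {A : Type*} [DecidableEq A] {n : ℕ} (b : Fin (n + 1) → Bool) (z w : A)
    (x y : Fin n → A) :
    dst b (Fin.cons z x) (Fin.cons w y) =
      (if b 0 = true ∧ z ≠ w then 1 else 0) + dst (fun j => b j.succ) x y := by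
  unfold dst
  rw [Fin.sum_univ_succ]
  simp

theorem two_step {a u g : ℝ} (ha : 1 ≤ a) (hg1 : g ≤ 1) (h1 : u ≤ a)
    (h2 : u * g ≤ 1) : u ≤ 1 + a - a * g := by
  rcases le_total 1 u with h | h
  · have hu : 0 < u := by linarith
    have h3 : g ≤ 1 / u := by rw [le_div_iff₀ hu]; linarith
    have h4 : a * g ≤ a / u := by
      calc a * g ≤ a * (1 / u) := by gcongr
        _ = a / u := by ring
    have h5 : a / u + u ≤ 1 + a := by
      rw [div_add' _ _ _ hu.ne', div_le_iff₀ hu]
      nlinarith
    linarith
  · nlinarith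

/-- Talagrand's concentration inequality for the Hamming distance to a set, finite form. -/
theorem conc {A : Type*} [DecidableEq A] [Fintype A] {t : ℝ} (ht : 0 ≤ t) (n : ℕ) :
    ∀ (b : Fin n → Bool) (X : Finset (Fin n → A)) (D : (Fin n → A) → ℝ),
      (∀ ω, ∀ x ∈ X, D ω ≤ dst b ω x) →
      (∑ ω, exp (t * D ω)) * X.card ≤
        ((Fintype.card A : ℝ) ^ n) ^ 2 *
          ((1 + exp t) ^ 2 / (4 * exp t)) ^ (univ.filter (fun j => b j = true)).card := by
  have hct : 1 ≤ (1 + exp t) ^ 2 / (4 * exp t) := by
    rw [le_div_iff₀ (by positivity)]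
    nlinarith [sq_nonneg (1 - exp t)]
  induction n with
  | zero =>
    intro b X D hD
    rw [Fintype.sum_unique]
    rcases X.eq_empty_or_nonempty with h | h
    · subst h; simp
    · obtain ⟨x, hx⟩ := h
      have h1 := hD default x hx
      have h2 : dst b default x = 0 := by unfold dst; simp
      rw [h2] at h1
      have h3 : exp (t * D default) ≤ 1 := by
        rw [← Real.exp_zero]
        exact Real.exp_le_exp.mpr (mul_nonpos_of_nonneg_of_nonpos ht h1)
      have h4 : (X.card : ℝ) ≤ 1 := by
        have : X.card ≤ Fintype.card (Fin 0 → A) := Finset.card_le_univ X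
        have h5 : Fintype.card (Fin 0 → A) = 1 := by simp
        rw [h5] at this
        exact_mod_cast this
      have h6 : (univ.filter (fun j => b j = true)).card = 0 := by simp
      rw [h6]
      simp only [pow_zero, one_pow, mul_one]
      have : (0 : ℝ) ≤ X.card := Nat.cast_nonneg _
      nlinarith [Real.exp_pos (t * D default)]
  | succ n ih =>
    intro b X D hD
    set b' : Fin n → Bool := fun j => b j.succ
    set Q : ℝ := (Fintype.card A : ℝ) ^ n
    set κ := (1 + exp t) ^ 2 / (4 * exp t)
    set c' : ℝ := κ ^ (univ.filter (fun j => b' j = true)).card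
    -- sections
    let Xz : A → Finset (Fin n → A) := fun z => univ.filter (fun x => Fin.cons z x ∈ X)
    let Xh : Finset (Fin n → A) := univ.filter (fun x => ∃ z : A, Fin.cons z x ∈ X)
    let S : A → ℝ := fun z => ∑ ω : Fin n → A, exp (t * D (Fin.cons z ω))
    have hsum : ∑ ω : Fin (n + 1) → A, exp (t * D ω) = ∑ z, S z := by
      rw [← (Fin.consEquiv (fun _ : Fin (n + 1) => A)).sum_comp, Fintype.sum_prod_type]
      rfl
    have hcard : (X.card : ℝ) = ∑ z, ((Xz z).card : ℝ) := by
      have h1 : X.card = ∑ z, (Xz z).card := by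
        rw [← Finset.card_sigma]
        symm
        apply Finset.card_bij (fun (p : Σ _ : A, (Fin n → A)) _ => (Fin.cons p.1 p.2 : Fin (n + 1) → A))
        · rintro ⟨z, x⟩ hp
          rw [Finset.mem_sigma] at hp
          exact (Finset.mem_filter.mp hp.2).2
        · rintro ⟨z, x⟩ _ ⟨z', x'⟩ _ h
          rw [Fin.cons_inj] at h
          obtain ⟨h1, h2⟩ := h
          subst h1; subst h2; rfl
        · intro x hx
          refine ⟨⟨x 0, Fin.tail x⟩, ?_, Fin.cons_self_tail x⟩
          rw [Finset.mem_sigma]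
          refine ⟨Finset.mem_univ _, Finset.mem_filter.mpr ⟨Finset.mem_univ _, ?_⟩⟩
          rw [Fin.cons_self_tail]; exact hx
      rw [h1]; push_cast; rfl
    have hκ : 0 ≤ κ := by positivity
    have hc' : 0 ≤ c' := by positivity
    have hQ : 0 ≤ Q := by positivity
    have hS0 : ∀ z, 0 ≤ S z := fun z => Finset.sum_nonneg fun _ _ => (Real.exp_pos _).le
    have h1 : ∀ z, S z * (Xz z).card ≤ Q ^ 2 * c' := by
      intro z
      refine ih b' (Xz z) (fun ω => D (Fin.cons z ω)) ?_
      intro ω x hx
      have := hD (Fin.cons z ω) (Fin.cons z x) (Finset.mem_filter.mp hx).2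
      rw [dst_cons] at this
      simpa using this
    rcases hb : b 0 with _ | _
    · -- unmarked coordinate
      have h2 : ∀ z, S z * Xh.card ≤ Q ^ 2 * c' := by
        intro z
        refine ih b' Xh (fun ω => D (Fin.cons z ω)) ?_
        intro ω x hx
        obtain ⟨w, hw⟩ := (Finset.mem_filter.mp hx).2
        have := hD (Fin.cons z ω) (Fin.cons w x) hw
        rw [dst_cons, hb] at this
        simpa using this
      have h3 : (univ.filter (fun j => b j = true)).card =
          (univ.filter (fun j => b' j = true)).card := by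
        rw [Fin.card_filter_univ_succ]
        simp [hb, b']
      rw [hsum, h3]
      have h4 : (X.card : ℝ) ≤ Fintype.card A * Xh.card := by
        rw [hcard]
        calc ∑ z, ((Xz z).card : ℝ) ≤ ∑ _z : A, (Xh.card : ℝ) := by
              refine Finset.sum_le_sum fun z _ => ?_
              have : (Xz z).card ≤ Xh.card := Finset.card_le_card fun x hx =>
                Finset.mem_filter.mpr ⟨Finset.mem_univ _, z, (Finset.mem_filter.mp hx).2⟩
              exact_mod_cast this
          _ = _ := by rw [Finset.sum_const, Finset.card_univ, nsmul_eq_mul]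
      calc (∑ z, S z) * (X.card : ℝ) ≤ (∑ z, S z) * (Fintype.card A * Xh.card) := by
            refine mul_le_mul_of_nonneg_left h4 (Finset.sum_nonneg fun z _ => hS0 z)
        _ = Fintype.card A * ∑ z, (S z * Xh.card) := by rw [← Finset.sum_mul]; ring
        _ ≤ Fintype.card A * ∑ _z : A, (Q ^ 2 * c') :=
            mul_le_mul_of_nonneg_left (Finset.sum_le_sum fun z _ => h2 z) (Nat.cast_nonneg _)
        _ = ((Fintype.card A : ℝ) ^ (n + 1)) ^ 2 * c' := by
            rw [Finset.sum_const, Finset.card_univ, nsmul_eq_mul]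
            simp only [Q]; ring
    · -- marked coordinate
      have h2 : ∀ z, S z * Xh.card ≤ exp t * (Q ^ 2 * c') := by
        intro z
        have h5 := ih b' Xh (fun ω => D (Fin.cons z ω) - 1) (by
          intro ω x hx
          obtain ⟨w, hw⟩ := (Finset.mem_filter.mp hx).2
          have := hD (Fin.cons z ω) (Fin.cons w x) hw
          rw [dst_cons, hb] at this
          have h6 : (if true = true ∧ z ≠ w then (1 : ℝ) else 0) ≤ 1 := by split_ifs <;> norm_num
          show D (Fin.cons z ω) - 1 ≤ dst b' ω x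
          linarith)
        have h6 : ∑ ω : Fin n → A, exp (t * (D (Fin.cons z ω) - 1)) = exp (-t) * S z := by
          rw [Finset.mul_sum]
          refine Finset.sum_congr rfl fun ω _ => ?_
          rw [← Real.exp_add]; congr 1; ring
        rw [h6] at h5
        have h7 : exp t * exp (-t) = 1 := by rw [← Real.exp_add]; simp
        calc S z * Xh.card = exp t * (exp (-t) * S z * Xh.card) := by
              rw [← mul_assoc, ← mul_assoc, h7, one_mul]
          _ ≤ exp t * (Q ^ 2 * c') := by gcongr
      have h3 : (univ.filter (fun j => b j = true)).card =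
          (univ.filter (fun j => b' j = true)).card + 1 := by
        rw [Fin.card_filter_univ_succ]
        simp [hb, b']
      rw [hsum, h3, pow_succ]
      rcases Xh.eq_empty_or_nonempty with hXh | hXh
      · have hX0 : X = ∅ := by
          rw [Finset.eq_empty_iff_forall_notMem]
          intro x hx
          have : Fin.tail x ∈ Xh := by
            refine Finset.mem_filter.mpr ⟨Finset.mem_univ _, x 0, ?_⟩
            rw [Fin.cons_self_tail]; exact hx
          rw [hXh] at this
          exact Finset.notMem_empty _ this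
        rw [hX0]
        simp only [Finset.card_empty, Nat.cast_zero, mul_zero]
        positivity
      have hXpos : 0 < (Xh.card : ℝ) := by exact_mod_cast hXh.card_pos
      have hApos : 0 < (Fintype.card A : ℝ) := by
        obtain ⟨x, hx⟩ := hXh
        obtain ⟨z, _⟩ := (Finset.mem_filter.mp hx).2
        exact_mod_cast Fintype.card_pos_iff.mpr ⟨z⟩
      have hQpos : 0 < Q := by positivity
      have hκpos : 0 < κ := by positivity
      have hW : 0 < Q ^ 2 * c' := by positivity
      set a := exp t with haDef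
      have ha : 1 ≤ a := Real.one_le_exp ht
      -- per section
      have h8 : ∀ z, S z * Xh.card ≤ (Q ^ 2 * c') * (1 + a - a * ((Xz z).card / Xh.card)) := by
        intro z
        have hg1 : ((Xz z).card : ℝ) / Xh.card ≤ 1 := by
          rw [div_le_one hXpos]
          have : (Xz z).card ≤ Xh.card := Finset.card_le_card fun x hx =>
            Finset.mem_filter.mpr ⟨Finset.mem_univ _, z, (Finset.mem_filter.mp hx).2⟩
          exact_mod_cast this
        have h9 := two_step (u := S z * Xh.card / (Q ^ 2 * c')) ha hg1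
          (by rw [div_le_iff₀ hW]; exact h2 z)
          (by
            rw [div_mul_div_comm, div_le_one (by positivity)]
            have := mul_le_mul_of_nonneg_right (h1 z) hXpos.le
            calc S z * Xh.card * (Xz z).card = S z * (Xz z).card * Xh.card := by ring
              _ ≤ _ := this)
        rw [div_le_iff₀ hW] at h9
        linarith
      have h10 : (∑ z, S z) * Xh.card ≤
          (Q ^ 2 * c') * (Fintype.card A * (1 + a) - a * (X.card / Xh.card)) := by
        rw [Finset.sum_mul]
        calc ∑ z, S z * Xh.card ≤ ∑ z, (Q ^ 2 * c') * (1 + a - a * ((Xz z).card / Xh.card)) :=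
              Finset.sum_le_sum fun z _ => h8 z
          _ = (Q ^ 2 * c') * ∑ z, (1 + a - a * ((Xz z).card / Xh.card)) := by
              rw [Finset.mul_sum]
          _ = _ := by
              congr 1
              rw [Finset.sum_sub_distrib, Finset.sum_const, Finset.card_univ, nsmul_eq_mul,
                ← Finset.mul_sum, ← Finset.sum_div, ← hcard]
      obtain ⟨y, hy⟩ : ∃ y : ℝ, y = X.card / Xh.card := ⟨_, rfl⟩
      rw [← hy] at h10
      have hXy : (X.card : ℝ) = y * Xh.card := by rw [hy, div_mul_cancel₀ _ hXpos.ne']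
      have hy0 : 0 ≤ y := by
        rw [hy]; exact div_nonneg (Nat.cast_nonneg _) (Nat.cast_nonneg _)
      have h11 : (∑ z, S z) * X.card ≤
          (Q ^ 2 * c') * ((Fintype.card A * (1 + a) - a * y) * y) := by
        rw [hXy]
        calc (∑ z, S z) * (y * Xh.card) = ((∑ z, S z) * Xh.card) * y := by ring
          _ ≤ ((Q ^ 2 * c') * (Fintype.card A * (1 + a) - a * y)) * y := by gcongr
          _ = _ := by ring
      have h12 : (Fintype.card A * (1 + a) - a * y) * y ≤ (Fintype.card A : ℝ) ^ 2 * κ := by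
        have h13 : κ = (1 + a) ^ 2 / (4 * a) := rfl
        have h14 : (0 : ℝ) < 4 * a := by linarith
        rw [h13, ← mul_div_assoc, le_div_iff₀ h14]
        nlinarith [sq_nonneg (Fintype.card A * (1 + a) - 2 * a * y)]
      calc (∑ z, S z) * (X.card : ℝ) ≤ _ := h11
        _ ≤ (Q ^ 2 * c') * ((Fintype.card A : ℝ) ^ 2 * κ) := by gcongr
        _ = _ := by simp only [Q]; ring

/-- two large sets are close. -/
theorem close {A : Type*} [DecidableEq A] [Fintype A] {n : ℕ} (b : Fin n → Bool)
    (M r : ℕ) (hM : 0 < M) (hb : (univ.filter (fun j => b j = true)).card ≤ M)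
    (X Y : Finset (Fin n → A)) {p : ℝ} (hp : 0 < p)
    (hX : p * (Fintype.card A : ℝ) ^ n ≤ X.card) (hY : p * (Fintype.card A : ℝ) ^ n ≤ Y.card)
    (hA : 0 < Fintype.card A)
    (hr : exp (-((r + 1 : ℝ) ^ 2 / M)) < p ^ 2) :
    ∃ x ∈ X, ∃ y ∈ Y, dst b y x ≤ r := by
  by_contra hno
  push Not at hno
  have hAr : 0 < (Fintype.card A : ℝ) := by exact_mod_cast hA
  have hMr : 0 < (M : ℝ) := by exact_mod_cast hM
  -- distances are integers
  have hint : ∀ x ∈ X, ∀ y ∈ Y, (r + 1 : ℝ) ≤ dst b y x := by
    intro x hx y hy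
    have h1 := hno x hx y hy
    have h2 : ∃ k : ℕ, dst b y x = k := by
      refine ⟨∑ j, if b j = true ∧ y j ≠ x j then 1 else 0, ?_⟩
      unfold dst
      push_cast
      rfl
    obtain ⟨k, hk⟩ := h2
    rw [hk] at h1 ⊢
    have : r < k := by exact_mod_cast h1
    exact_mod_cast this
  set t : ℝ := 2 * (r + 1) / M with ht
  have ht0 : 0 ≤ t := by positivity
  classical
  have hc := conc (A := A) ht0 n b X (fun ω => if ω ∈ Y then (r + 1 : ℝ) else 0) (by
    intro ω x hx
    show (if ω ∈ Y then (r + 1 : ℝ) else 0) ≤ dst b ω x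
    split_ifs with h
    · exact hint x hx ω h
    · unfold dst
      exact Finset.sum_nonneg fun j _ => by split_ifs <;> norm_num)
  have h1 : exp (t * (r + 1)) * Y.card ≤
      ∑ ω : Fin n → A, exp (t * (if ω ∈ Y then (r + 1 : ℝ) else 0)) := by
    calc exp (t * (r + 1)) * Y.card = ∑ ω ∈ Y, exp (t * (r + 1)) := by
          rw [Finset.sum_const, nsmul_eq_mul]; ring
      _ = ∑ ω ∈ Y, exp (t * (if ω ∈ Y then (r + 1 : ℝ) else 0)) :=
          Finset.sum_congr rfl fun ω hω => by rw [if_pos hω]
      _ ≤ _ := Finset.sum_le_univ_sum_of_nonneg fun ω => (Real.exp_pos _).le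
  set κ := (1 + exp t) ^ 2 / (4 * exp t) with hκ
  have hκ1 : 1 ≤ κ := by
    rw [hκ, le_div_iff₀ (by positivity)]
    nlinarith [sq_nonneg (1 - exp t)]
  have hκ2 : κ ≤ exp (t ^ 2 / 4) := by
    have h3 : κ = Real.cosh (t / 2) ^ 2 := by
      rw [hκ, Real.cosh_eq]
      have e1 : exp t = exp (t / 2) ^ 2 := by rw [← Real.exp_nat_mul]; congr 1; push_cast; ring
      have e2 : exp (-(t / 2)) = (exp (t / 2))⁻¹ := Real.exp_neg _
      rw [e1, e2]
      have h5 : 0 < exp (t / 2) := Real.exp_pos _
      field_simp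
      ring
    rw [h3]
    calc Real.cosh (t / 2) ^ 2 ≤ (exp ((t / 2) ^ 2 / 2)) ^ 2 :=
          pow_le_pow_left₀ (Real.cosh_pos _).le (Real.cosh_le_exp_half_sq _) 2
      _ = exp (t ^ 2 / 4) := by rw [← Real.exp_nat_mul]; congr 1; push_cast; ring
  have h4 : κ ^ (univ.filter (fun j => b j = true)).card ≤ exp (t ^ 2 / 4 * M) := by
    calc κ ^ (univ.filter (fun j => b j = true)).card ≤ κ ^ M := pow_le_pow_right₀ hκ1 hb
      _ ≤ (exp (t ^ 2 / 4)) ^ M := by gcongr
      _ = exp (t ^ 2 / 4 * M) := by rw [← Real.exp_nat_mul]; congr 1; ring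
  set W : ℝ := (Fintype.card A : ℝ) ^ n with hW
  have hWpos : 0 < W := by positivity
  have h5 : exp (t * (r + 1)) * (p * W) * (p * W) ≤ W ^ 2 * exp (t ^ 2 / 4 * M) := by
    calc exp (t * (r + 1)) * (p * W) * (p * W) ≤ exp (t * (r + 1)) * Y.card * X.card := by
          gcongr
      _ ≤ (∑ ω : Fin n → A, exp (t * (if ω ∈ Y then (r + 1 : ℝ) else 0))) * X.card := by
          gcongr
      _ ≤ W ^ 2 * κ ^ (univ.filter (fun j => b j = true)).card := hc
      _ ≤ W ^ 2 * exp (t ^ 2 / 4 * M) := by gcongr
  have h6 : exp (t * (r + 1)) * p ^ 2 ≤ exp (t ^ 2 / 4 * M) := by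
    have h7 : W ^ 2 * (exp (t * (r + 1)) * p ^ 2) ≤ W ^ 2 * exp (t ^ 2 / 4 * M) := by
      calc W ^ 2 * (exp (t * (r + 1)) * p ^ 2) = exp (t * (r + 1)) * (p * W) * (p * W) := by ring
        _ ≤ _ := h5
    exact le_of_mul_le_mul_left h7 (by positivity)
  have h8 : t * (r + 1) = 2 * ((r + 1) ^ 2 / M) := by rw [ht]; ring
  have h9 : t ^ 2 / 4 * M = (r + 1) ^ 2 / M := by rw [ht]; field_simp; ring
  rw [h8, h9] at h6
  set B : ℝ := (r + 1) ^ 2 / M
  have h10 : exp (2 * B) = exp B * exp B := by rw [← Real.exp_add]; congr 1; ring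
  have h11 : exp B * exp (-B) = 1 := by rw [← Real.exp_add]; simp
  have h12 : exp B * p ^ 2 ≤ 1 := by
    rw [h10] at h6
    have h13 : exp B * (exp B * p ^ 2) ≤ exp B * 1 := by
      calc _ = exp B * exp B * p ^ 2 := by ring
        _ ≤ exp B := h6
        _ = _ := by ring
    exact le_of_mul_le_mul_left h13 (Real.exp_pos _)
  have h14 : exp B * exp (-B) < exp B * p ^ 2 := by gcongr
  linarith

end Pool.Agent.Helper31.Ls
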