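import Mathlib
import Pool.Agent.Helper31.LsChain

set_option autoImplicit false

namespace Pool.Agent.Helper31.Ls

open Finsupp

variable {P : Type*}

/-- projection to the lists with property `p`. -/
noncomputable def Rl (p : List P → Prop) : Ch P →ₗ[ZMod 2] Ch P :=
  open Classical in ext fun l => if p l then single l 1 else 0

theorem Rl_pos {p : List P → Prop} {l : List P} (h : p l) : Rl p (single l 1) = single l 1 := by
  simp [Rl, h]

theorem Rl_neg {p : List P → Prop} {l : List P} (h : ¬ p l) : Rl p (single l 1) = 0 := by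
  simp [Rl, h]

theorem cn_Sup {p q : List P → Prop} {x : P} (h : ∀ l, p l → q (x :: l)) {c : Ch P}
    (hc : c ∈ Sup p) : cn x c ∈ Sup q :=
  map_Sup (cn x) (Sup q) (fun l hl => by rw [cn_single]; exact single_mem_Sup (h l hl)) hc

theorem bd_face (l : List P) :
    bd (single l 1) ∈ Sup (fun l' => l'.length + 1 = l.length ∧ ∀ x ∈ l', x ∈ l) := by
  induction l with
  | nil => rw [bd_nil]; exact Submodule.zero_mem _
  | cons x l ih =>
    rw [bd_cons]
    refine Submodule.add_mem _ (single_mem_Sup ⟨by simp, fun y hy => List.mem_cons_of_mem _ hy⟩) ?_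
    refine cn_Sup (fun l' hl' => ⟨by simp [hl'.1], ?_⟩) ih
    intro y hy
    rcases List.mem_cons.mp hy with h | h
    · rw [h]; exact List.mem_cons_self
    · exact List.mem_cons_of_mem _ (hl'.2 y h)

/-- a list is good when its colours and the colours of its antipode are disjoint. -/
def Good (τ : P → P) (κ : P → ℕ) (m : ℕ) (l : List P) : Prop :=
  (∀ x ∈ l, κ x < m ∧ κ (τ x) < m) ∧ ∀ x ∈ l, ∀ y ∈ l, κ x ≠ κ (τ y)

theorem ls_step (τ : P → P) (hτ : ∀ x, τ (τ x) = x) (κ : P → ℕ) (m : ℕ) (c : ℕ → Ch P)
    (hc : ∀ i < m + 1, c i ∈ Sup (fun l => l.length = i + 1 ∧ Good τ κ (m + 1) l))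
    (h0 : bd (c 0) = single [] 1)
    (h1 : ∀ i, i + 1 < m + 1 → bd (c (i + 1)) = c i + mp τ (c i)) :
    ∃ d : ℕ → Ch P, (∀ i < m, d i ∈ Sup (fun l => l.length = i + 1 ∧ Good τ κ m l)) ∧
      bd (d 0) = single [] 1 ∧ (∀ i, i + 1 < m → bd (d (i + 1)) = d i + mp τ (d i)) := by
  let has : List P → Prop := fun l => ∃ x ∈ l, κ x = m
  let R := Rl has
  have hττ : ∀ c : Ch P, mp τ (mp τ c) = c := by
    intro c
    rw [mp_mp]
    have : τ ∘ τ = id := funext hτ
    rw [this, mp_id]
  refine ⟨fun i => mp τ (c i) + mp τ (R (c i)) + R (c i) + bd (R (c (i + 1))), ?_, ?_, ?_⟩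
  · intro i hi
    set q : List P → Prop := fun l => l.length = i + 1 ∧ Good τ κ m l
    have e : mp τ (c i) + mp τ (R (c i)) + R (c i) + bd (R (c (i + 1))) =
        (mp τ + R.comp (mp τ) + (mp τ).comp R) (c i) + (bd.comp R + R.comp bd) (c (i + 1)) := by
      simp only [LinearMap.add_apply, LinearMap.comp_apply]
      rw [h1 i (by omega), map_add]
      have s := add_self' (R (mp τ (c i)))
      linear_combination (norm := module) - s
    show mp τ (c i) + mp τ (R (c i)) + R (c i) + bd (R (c (i + 1))) ∈ Sup q
    rw [e]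
    refine Submodule.add_mem _ ?_ ?_
    · refine map_Sup _ (Sup q) ?_ (hc i (by omega))
      rintro l ⟨hlen, hl1, hl2⟩
      simp only [LinearMap.add_apply, LinearMap.comp_apply, mp_single]
      by_cases ha : has l
      · have hb : ¬ has (l.map τ) := by
          rintro ⟨y, hy, hym⟩
          obtain ⟨x, hx, rfl⟩ := List.mem_map.mp hy
          obtain ⟨z, hz, hzm⟩ := ha
          exact hl2 z hz x hx (by rw [hzm, hym])
        rw [show R = Rl has from rfl, Rl_pos ha, Rl_neg hb, add_zero, mp_single, add_self']
        exact Submodule.zero_mem _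
      · by_cases hb : has (l.map τ)
        · rw [show R = Rl has from rfl, Rl_neg ha, Rl_pos hb, map_zero, add_zero, add_self']
          exact Submodule.zero_mem _
        · rw [show R = Rl has from rfl, Rl_neg ha, Rl_neg hb, map_zero, add_zero, add_zero]
          have ha' : ∀ x ∈ l, κ x ≠ m := fun x hx h => ha ⟨x, hx, h⟩
          have hb' : ∀ x ∈ l, κ (τ x) ≠ m := fun x hx h => hb ⟨τ x, List.mem_map_of_mem hx, h⟩
          refine single_mem_Sup ⟨by simpa using hlen, ?_, ?_⟩
          · intro y hy
            obtain ⟨x, hx, rfl⟩ := List.mem_map.mp hy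
            have h2 := hl1 x hx
            have h3 := ha' x hx
            have h4 := hb' x hx
            rw [hτ]
            omega
          · intro y hy y' hy'
            obtain ⟨x, hx, rfl⟩ := List.mem_map.mp hy
            obtain ⟨x', hx', rfl⟩ := List.mem_map.mp hy'
            rw [hτ]
            exact (hl2 x' hx' x hx).symm
    · refine map_Sup _ (Sup q) ?_ (hc (i + 1) (by omega))
      rintro l ⟨hlen, hl1, hl2⟩
      simp only [LinearMap.add_apply, LinearMap.comp_apply]
      by_cases ha : has l
      · rw [show R = Rl has from rfl, Rl_pos ha]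
        have hface := bd_face l
        have h5 : ∀ l' : List P, (l'.length + 1 = l.length ∧ ∀ x ∈ l', x ∈ l) →
            (LinearMap.id + Rl has : Ch P →ₗ[ZMod 2] Ch P) (single l' 1) ∈ Sup q := by
          rintro l' ⟨hl', hsub⟩
          simp only [LinearMap.add_apply, LinearMap.id_apply]
          by_cases ha2 : has l'
          · rw [Rl_pos ha2, add_self']; exact Submodule.zero_mem _
          · rw [Rl_neg ha2, add_zero]
            have ha' : ∀ x ∈ l', κ x ≠ m := fun x hx h => ha2 ⟨x, hx, h⟩
            refine single_mem_Sup ⟨by omega, ?_, ?_⟩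
            · intro x hx
              have h2 := hl1 x (hsub x hx)
              have h3 := ha' x hx
              have h4 : κ (τ x) ≠ m := by
                obtain ⟨z, hz, hzm⟩ := ha
                have := hl2 z hz x (hsub x hx)
                rw [hzm] at this
                exact this.symm
              omega
            · intro x hx y hy
              exact hl2 x (hsub x hx) y (hsub y hy)
        have := map_Sup (LinearMap.id + Rl has : Ch P →ₗ[ZMod 2] Ch P) (Sup q) h5 hface
        simpa only [LinearMap.add_apply, LinearMap.id_apply] using this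
      · rw [show R = Rl has from rfl, Rl_neg ha, map_zero, zero_add]
        have hface := bd_face l
        have h5 : ∀ l' : List P, (l'.length + 1 = l.length ∧ ∀ x ∈ l', x ∈ l) →
            (Rl has) (single l' 1) ∈ Sup q := by
          rintro l' ⟨hl', hsub⟩
          have ha2 : ¬ has l' := by
            rintro ⟨x, hx, hxm⟩
            exact ha ⟨x, hsub x hx, hxm⟩
          rw [Rl_neg ha2]; exact Submodule.zero_mem _
        exact map_Sup (Rl has) (Sup q) h5 hface
  · show bd (mp τ (c 0) + mp τ (R (c 0)) + R (c 0) + bd (R (c (0 + 1)))) = single [] 1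
    simp only [map_add, bd_bd, add_zero, bd_mp, h0, mp_single, List.map_nil]
    have h2 : ((mp τ).comp (bd.comp R) + bd.comp R) (c 0) ∈ (⊥ : Submodule (ZMod 2) (Ch P)) := by
      refine map_Sup _ _ ?_ (hc 0 (by omega))
      rintro l ⟨hlen, -⟩
      obtain ⟨x, rfl⟩ := List.length_eq_one_iff.mp hlen
      simp only [LinearMap.add_apply, LinearMap.comp_apply]
      by_cases ha : has [x]
      · rw [show R = Rl has from rfl, Rl_pos ha, bd_cons]
        simp [add_self']
      · rw [show R = Rl has from rfl, Rl_neg ha]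
        simp
    rw [Submodule.mem_bot] at h2
    simp only [LinearMap.add_apply, LinearMap.comp_apply] at h2
    rw [add_assoc, h2, add_zero]
  · intro i hi
    show bd (mp τ (c (i + 1)) + mp τ (R (c (i + 1))) + R (c (i + 1)) + bd (R (c (i + 1 + 1)))) =
      mp τ (c i) + mp τ (R (c i)) + R (c i) + bd (R (c (i + 1))) +
        mp τ (mp τ (c i) + mp τ (R (c i)) + R (c i) + bd (R (c (i + 1))))
    simp only [map_add, bd_bd, add_zero, bd_mp, h1 i (by omega), hττ]
    have s1 := add_self' (R (c i))
    have s2 := add_self' (mp τ (R (c i)))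
    linear_combination (norm := module) - s1 - s2

theorem ls (τ : P → P) (hτ : ∀ x, τ (τ x) = x) (κ : P → ℕ) (m : ℕ) : ∀ c : ℕ → Ch P,
    (∀ i < m + 1, c i ∈ Sup (fun l => l.length = i + 1 ∧ Good τ κ (m + 1) l)) →
    bd (c 0) = single [] 1 →
    (∀ i, i + 1 < m + 1 → bd (c (i + 1)) = c i + mp τ (c i)) → False := by
  induction m with
  | zero =>
    intro c hc h0 _
    have h2 : c 0 ∈ Sup (fun _ : List P => False) := by
      refine Sup_mono ?_ (hc 0 (by omega))
      rintro l ⟨hlen, hl1, hl2⟩
      obtain ⟨x, rfl⟩ := List.length_eq_one_iff.mp hlen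
      have h3 := hl1 x (by simp)
      have h4 := hl2 x (by simp) x (by simp)
      omega
    have h3 : c 0 = 0 := by
      ext l
      by_contra hne
      exact mem_Sup.mp h2 l hne
    rw [h3, map_zero] at h0
    have := DFunLike.congr_fun h0 []
    simp at this
  | succ m ih =>
    intro c hc h0 h1
    obtain ⟨d, hd, hd0, hd1⟩ := ls_step τ hτ κ (m + 1) c hc h0 h1
    exact ih d hd hd0 hd1

end Pool.Agent.Helper31.Ls
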