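import Mathlib
import Pool.Agent.Helper31.LsThm

set_option autoImplicit false

namespace Pool.Agent.Helper31.Ls

open Finsupp

/-- set coordinate `N` to `k`. -/
def io (N : ℕ) (k : ℤ) (x : ℕ → ℤ) : ℕ → ℤ := Function.update x N k

/-- antipode. -/
def tau (x : ℕ → ℤ) : ℕ → ℤ := fun j => - x j

theorem tau_tau (x : ℕ → ℤ) : tau (tau x) = x := by
  funext j; simp [tau]

theorem tau_io (N : ℕ) (k : ℤ) : tau ∘ io N k = io N (-k) ∘ tau := by
  funext x j
  simp only [Function.comp_apply, tau, io, Function.update_apply]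
  split_ifs <;> rfl

/-- product with a path in coordinate `N` from `L` to `-L`, symmetric under the antipode. -/
noncomputable def EE (N L : ℕ) : Ch (ℕ → ℤ) →ₗ[ZMod 2] Ch (ℕ → ℤ) :=
  ∑ k ∈ Finset.range L, (pr (io N k) (io N (k + 1)) + pr (io N (-k)) (io N (-(k + 1))))

theorem EE_apply (N L : ℕ) (c : Ch (ℕ → ℤ)) : EE N L c =
    ∑ k ∈ Finset.range L, (pr (io N k) (io N (k + 1)) c + pr (io N (-k)) (io N (-(k + 1))) c) := by
  simp [EE, LinearMap.sum_apply]

theorem bd_EE (N L : ℕ) (c : Ch (ℕ → ℤ)) :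
    bd (EE N L c) + EE N L (bd c) = mp (io N L) c + mp (io N (-L)) c := by
  rw [EE_apply, EE_apply, map_sum, ← Finset.sum_add_distrib]
  induction L with
  | zero => simp [add_self']
  | succ L ih =>
    rw [Finset.sum_range_succ, ih]
    have h1 := bd_pr (io N L) (io N (L + 1)) c
    have h2 := bd_pr (io N (-L)) (io N (-(L + 1))) c
    rw [map_add]
    push_cast
    have s1 := add_self' (mp (io N (L : ℤ)) c)
    have s2 := add_self' (mp (io N (-(L : ℤ))) c)
    linear_combination (norm := module) h1 + h2 + s1 + s2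

theorem mp_tau_EE (N L : ℕ) (c : Ch (ℕ → ℤ)) : mp tau (EE N L c) = EE N L (mp tau c) := by
  rw [EE_apply, EE_apply, map_sum]
  refine Finset.sum_congr rfl fun k _ => ?_
  rw [map_add, mp_pr, mp_pr, pr_mp, pr_mp, tau_io, tau_io, tau_io, tau_io, neg_neg, neg_neg,
    add_comm]

/-- the constant value of a coordinate behind `i` free ones. -/
def av (L : ℕ) (i : ℕ) : ℤ := (-1) ^ i * L

theorem av_succ (L i : ℕ) : av L (i + 1) = - av L i := by
  unfold av; ring

noncomputable def ch (L : ℕ) : ℕ → ℕ → Ch (ℕ → ℤ)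
  | 0, 0 => single [fun _ => 0] 1
  | 0, _ + 1 => 0
  | N + 1, 0 => mp (io N (av L 0)) (ch L N 0)
  | N + 1, i + 1 => mp (io N (av L (i + 1))) (ch L N (i + 1)) + EE N L (ch L N i)

theorem bd_ch_zero (L N : ℕ) : bd (ch L N 0) = single [] 1 := by
  induction N with
  | zero => simp [ch, bd_cons]
  | succ N ih => rw [ch, bd_mp, ih]; simp

theorem EE_nil (N L : ℕ) : EE N L (single [] 1) = 0 := by
  rw [EE_apply]
  apply Finset.sum_eq_zero
  intro k _
  simp

theorem av_cases (L i : ℕ) : av L i = L ∨ av L i = -L := by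
  unfold av
  rcases Nat.even_or_odd i with h | h
  · left; rw [h.neg_one_pow, one_mul]
  · right; rw [h.neg_one_pow]; ring

theorem mp_av (L N i : ℕ) (c : Ch (ℕ → ℤ)) :
    mp (io N L) c + mp (io N (-L)) c = mp (io N (av L i)) c + mp (io N (-av L i)) c := by
  rcases av_cases L i with h | h
  · rw [h]
  · rw [h, neg_neg, add_comm]

theorem mp_tau_io (N : ℕ) (k : ℤ) (c : Ch (ℕ → ℤ)) :
    mp tau (mp (io N k) c) = mp (io N (-k)) (mp tau c) := by
  rw [mp_mp, mp_mp, tau_io]

theorem bd_ch_succ (L N : ℕ) : ∀ i, bd (ch L N (i + 1)) = ch L N i + mp tau (ch L N i) := by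
  induction N with
  | zero =>
    intro i
    cases i with
    | zero =>
      have : tau (fun _ => 0) = fun _ => 0 := by funext j; simp [tau]
      simp [ch, this, add_self']
    | succ i => simp [ch]
  | succ N ih =>
    intro i
    rw [ch, map_add, bd_mp, ih i, map_add]
    have hE := bd_EE N L (ch L N i)
    rw [mp_av L N i] at hE
    have hb : bd (EE N L (ch L N i)) = mp (io N (av L i)) (ch L N i) +
        mp (io N (-av L i)) (ch L N i) + EE N L (bd (ch L N i)) := by
      have s := add_self' (EE N L (bd (ch L N i)))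
      linear_combination (norm := module) hE - s
    rw [hb, av_succ]
    have s1 := add_self' (mp (io N (-av L i)) (ch L N i))
    cases i with
    | zero =>
      rw [bd_ch_zero, EE_nil]
      simp only [ch]
      rw [mp_tau_io]
      linear_combination (norm := module) s1
    | succ i =>
      rw [ih i, map_add]
      simp only [ch]
      rw [map_add, mp_tau_io, mp_tau_EE]
      linear_combination (norm := module) s1

theorem pr_face {P Q : Type*} (f g : P → Q) (l : List P) :
    pr f g (single l 1) ∈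
      Sup (fun l' => l'.length = l.length + 1 ∧ ∀ y ∈ l', ∃ x ∈ l, y = f x ∨ y = g x) := by
  induction l with
  | nil => rw [pr_nil]; exact Submodule.zero_mem _
  | cons x l ih =>
    rw [pr_cons]
    refine Submodule.add_mem _ (single_mem_Sup ⟨by simp, ?_⟩) (cn_Sup ?_ ih)
    · intro y hy
      rcases List.mem_cons.mp hy with h | h
      · exact ⟨x, List.mem_cons_self, Or.inl h⟩
      rcases List.mem_cons.mp h with h | h
      · exact ⟨x, List.mem_cons_self, Or.inr h⟩
      obtain ⟨z, hz, rfl⟩ := List.mem_map.mp h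
      exact ⟨z, List.mem_cons_of_mem _ hz, Or.inr rfl⟩
    · rintro l' ⟨h1, h2⟩
      refine ⟨by simp [h1], ?_⟩
      intro y hy
      rcases List.mem_cons.mp hy with h | h
      · exact ⟨x, List.mem_cons_self, Or.inl h⟩
      · obtain ⟨z, hz, h3⟩ := h2 y h
        exact ⟨z, List.mem_cons_of_mem _ hz, h3⟩

/-- lists contained in a small cell of dimension at most `i`. -/
def Cell (L N i : ℕ) (l : List (ℕ → ℤ)) : Prop :=
  ∃ T : Finset ℕ, T.card ≤ i ∧ T ⊆ Finset.range N ∧
    (∀ j < N, j ∉ T → (∀ x ∈ l, x j = L) ∨ (∀ x ∈ l, x j = -L)) ∧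
    (∀ x ∈ l, ∀ y ∈ l, ∀ j, |x j - y j| ≤ 1) ∧ (∀ x ∈ l, ∀ j, |x j| ≤ L)

theorem Cell_io {L N i : ℕ} {l : List (ℕ → ℤ)} (h : Cell L N i l) {a : ℤ}
    (ha : a = L ∨ a = -L) : Cell L (N + 1) i (l.map (io N a)) := by
  obtain ⟨T, h1, h2, h3, h4, h5⟩ := h
  refine ⟨T, h1, h2.trans (Finset.range_subset_range.mpr (by omega)), ?_, ?_, ?_⟩
  · intro j hj hjT
    rcases Nat.lt_succ_iff_lt_or_eq.mp hj with h | h
    · rcases h3 j h hjT with h6 | h6
      · left
        intro y hy
        obtain ⟨x, hx, rfl⟩ := List.mem_map.mp hy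
        rw [io, Function.update_of_ne (by omega)]
        exact h6 x hx
      · right
        intro y hy
        obtain ⟨x, hx, rfl⟩ := List.mem_map.mp hy
        rw [io, Function.update_of_ne (by omega)]
        exact h6 x hx
    · subst h
      rcases ha with ha | ha
      · left
        intro y hy
        obtain ⟨x, hx, rfl⟩ := List.mem_map.mp hy
        rw [io, Function.update_self, ha]
      · right
        intro y hy
        obtain ⟨x, hx, rfl⟩ := List.mem_map.mp hy
        rw [io, Function.update_self, ha]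
  · intro y hy y' hy' j
    obtain ⟨x, hx, rfl⟩ := List.mem_map.mp hy
    obtain ⟨x', hx', rfl⟩ := List.mem_map.mp hy'
    simp only [io, Function.update_apply]
    split_ifs
    · simp
    · exact h4 x hx x' hx' j
  · intro y hy j
    obtain ⟨x, hx, rfl⟩ := List.mem_map.mp hy
    simp only [io, Function.update_apply]
    split_ifs
    · rcases ha with ha | ha <;> rw [ha] <;> simp
    · exact h5 x hx j

theorem Cell_pr {L N i : ℕ} {l : List (ℕ → ℤ)} (h : Cell L N i l) {a b : ℤ}
    (ha : |a| ≤ L) (hb : |b| ≤ L) (hab : |a - b| ≤ 1) {l' : List (ℕ → ℤ)}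
    (hl' : ∀ y ∈ l', ∃ x ∈ l, y = io N a x ∨ y = io N b x) : Cell L (N + 1) (i + 1) l' := by
  obtain ⟨T, h1, h2, h3, h4, h5⟩ := h
  refine ⟨insert N T, (Finset.card_insert_le _ _).trans (by omega), ?_, ?_, ?_, ?_⟩
  · intro j hj
    rcases Finset.mem_insert.mp hj with h | h
    · rw [h]; simp
    · have := Finset.mem_range.mp (h2 h)
      exact Finset.mem_range.mpr (by omega)
  · intro j hj hjT
    rw [Finset.mem_insert] at hjT
    push Not at hjT
    have hjN : j < N := by omega
    rcases h3 j hjN hjT.2 with h6 | h6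
    · left
      intro y hy
      obtain ⟨x, hx, rfl | rfl⟩ := hl' y hy <;>
      · rw [io, Function.update_of_ne hjT.1]
        exact h6 x hx
    · right
      intro y hy
      obtain ⟨x, hx, rfl | rfl⟩ := hl' y hy <;>
      · rw [io, Function.update_of_ne hjT.1]
        exact h6 x hx
  · intro y hy y' hy' j
    have hba : |b - a| ≤ 1 := by rw [abs_sub_comm]; exact hab
    obtain ⟨x, hx, rfl | rfl⟩ := hl' y hy <;> obtain ⟨x', hx', rfl | rfl⟩ := hl' y' hy' <;>
    · simp only [io, Function.update_apply]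
      split_ifs
      · first | assumption | simp
      · exact h4 x hx x' hx' j
  · intro y hy j
    obtain ⟨x, hx, rfl | rfl⟩ := hl' y hy <;>
    · simp only [io, Function.update_apply]
      split_ifs
      · assumption
      · exact h5 x hx j

theorem ch_cell (L N : ℕ) : ∀ i, ch L N i ∈ Sup (fun l => l.length = i + 1 ∧ Cell L N i l) := by
  induction N with
  | zero =>
    intro i
    cases i with
    | zero =>
      rw [ch]
      refine single_mem_Sup ⟨rfl, ∅, by simp, by simp, by simp, ?_, ?_⟩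
      · intro x hx y hy j
        rw [List.mem_singleton] at hx hy
        subst hx; subst hy; simp
      · intro x hx j
        rw [List.mem_singleton] at hx
        subst hx; simp
    | succ i => rw [ch]; exact Submodule.zero_mem _
  | succ N ih =>
    have h1 : ∀ i, mp (io N (av L i)) (ch L N i) ∈
        Sup (fun l => l.length = i + 1 ∧ Cell L (N + 1) i l) := by
      intro i
      refine map_Sup _ _ ?_ (ih i)
      rintro l ⟨hl, hc⟩
      rw [mp_single]
      exact single_mem_Sup ⟨by simpa using hl, Cell_io hc (av_cases L i)⟩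
    intro i
    cases i with
    | zero => exact h1 0
    | succ i =>
      rw [ch]
      refine Submodule.add_mem _ (h1 (i + 1)) ?_
      refine map_Sup _ _ ?_ (ih i)
      rintro l ⟨hl, hc⟩
      rw [EE_apply]
      refine Submodule.sum_mem _ fun k hk => ?_
      rw [Finset.mem_range] at hk
      refine Submodule.add_mem _ ?_ ?_
      · refine Sup_mono ?_ (pr_face _ _ l)
        rintro l' ⟨h2, h3⟩
        refine ⟨by omega, Cell_pr hc ?_ ?_ ?_ h3⟩
        · rw [abs_le]; omega
        · rw [abs_le]; omega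
        · rw [abs_le]; omega
      · refine Sup_mono ?_ (pr_face _ _ l)
        rintro l' ⟨h2, h3⟩
        refine ⟨by omega, Cell_pr hc ?_ ?_ ?_ h3⟩
        · rw [abs_le]; omega
        · rw [abs_le]; omega
        · rw [abs_le]; omega

/-- Lusternik-Schnirelmann theorem on the subdivided `m`-skeleton of the `N`-cube. -/
theorem grid_ls (L N m : ℕ) (κ : (ℕ → ℤ) → ℕ) (hκ : ∀ x, κ x < m + 1)
    (hcell : ∀ (T : Finset ℕ) (x y : ℕ → ℤ), T.card ≤ m → T ⊆ Finset.range N →
      (∀ j < N, j ∉ T → (x j = L ∧ y j = L) ∨ (x j = -L ∧ y j = -L)) →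
      (∀ j, |x j - y j| ≤ 1) → (∀ j, |x j| ≤ L) → (∀ j, |y j| ≤ L) → κ x ≠ κ (tau y)) :
    False := by
  refine ls tau tau_tau κ m (ch L N) ?_ (bd_ch_zero L N) (fun i _ => bd_ch_succ L N i)
  intro i hi
  refine Sup_mono ?_ (ch_cell L N i)
  rintro l ⟨hl, T, h1, h2, h3, h4, h5⟩
  refine ⟨hl, fun x _ => ⟨hκ x, hκ _⟩, ?_⟩
  intro x hx y hy
  refine hcell T x y (by omega) h2 ?_ (h4 x hx y hy) (h5 x hx) (h5 y hy)
  intro j hj hjT
  rcases h3 j hj hjT with h | h
  · left; exact ⟨h x hx, h y hy⟩
  · right; exact ⟨h x hx, h y hy⟩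

end Pool.Agent.Helper31.Ls
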