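import Mathlib
import Pool.Agent.Helper31.LsGrid
import Pool.Agent.Helper31.LsConc

set_option autoImplicit false

open Finset Real

namespace Pool.Agent.Helper31.Ls

/-- The graph on `{0,1}^N` joining two points that differ in at least `N - r` coordinates. -/
def H (N r : ℕ) : SimpleGraph (Fin N → Bool) where
  Adj v w := v ≠ w ∧ N ≤ hammingDist v w + r
  symm := ⟨fun v w h => ⟨h.1.symm, by rw [hammingDist_comm]; exact h.2⟩⟩
  loopless := ⟨fun v h => h.1 rfl⟩

/-- the threshold point of `{0,1}^N` attached to a grid point and a sample. -/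
def sg (N L : ℕ) (x : ℕ → ℤ) (ω : Fin N → Fin (2 * L)) : Fin N → Bool :=
  fun j => decide (((ω j : ℕ) : ℤ) < x j + L)

theorem sg_tau (N L : ℕ) (x : ℕ → ℤ) (ω : Fin N → Fin (2 * L)) :
    sg N L (tau x) (fun j => (ω j).rev) = fun j => !(sg N L x ω j) := by
  funext j
  unfold sg tau
  rw [← decide_not]
  congr 1
  rw [eq_iff_iff]
  have h1 := (ω j).isLt
  have h2 : (((ω j).rev : ℕ) : ℤ) = 2 * L - 1 - (ω j : ℕ) := by
    rw [Fin.val_rev]; omega
  rw [h2]
  omega

theorem card_slice (N K : ℕ) (j : Fin N) (a : Fin K) :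
    (univ.filter (fun ω : Fin N → Fin K => ω j = a)).card * K = K ^ N := by
  have h1 : (univ.filter (fun ω : Fin N → Fin K => ω j = a)) =
      Fintype.piFinset (fun k : Fin N => if k = j then ({a} : Finset (Fin K)) else univ) := by
    ext ω
    simp only [Finset.mem_filter, Finset.mem_univ, true_and, Fintype.mem_piFinset]
    constructor
    · intro h k
      split_ifs with hk
      · subst hk; simp [h]
      · simp
    · intro h
      have := h j
      simpa using this
  rw [h1, Fintype.card_piFinset]
  have h2 : ∀ k : Fin N, (if k = j then ({a} : Finset (Fin K)) else univ).card =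
      if k = j then 1 else K := by
    intro k; split_ifs <;> simp
  rw [Finset.prod_congr rfl (fun k _ => h2 k)]
  rw [← Finset.mul_prod_erase univ _ (Finset.mem_univ j)]
  rw [if_pos rfl, one_mul]
  rw [Finset.prod_congr rfl (g := fun _ => K) (fun k hk => by
    rw [if_neg (Finset.ne_of_mem_erase hk)])]
  rw [Finset.prod_const, Finset.card_erase_of_mem (Finset.mem_univ j), Finset.card_univ,
    Fintype.card_fin, ← pow_succ]
  congr 1
  have := j.pos
  omega

/-- few samples separate two neighbouring grid points. -/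
theorem card_diff (N L : ℕ) (T : Finset ℕ) (x y : ℕ → ℤ)
    (hT : ∀ j < N, j ∉ T → x j = y j) (hxy : ∀ j, |x j - y j| ≤ 1) :
    (univ.filter (fun ω : Fin N → Fin (2 * L) => sg N L x ω ≠ sg N L y ω)).card * (2 * L) ≤
      T.card * (2 * L) ^ N := by
  classical
  -- the critical value on coordinate `j`
  have hsub : univ.filter (fun ω : Fin N → Fin (2 * L) => sg N L x ω ≠ sg N L y ω) ⊆
      (univ.filter (fun j : Fin N => (j : ℕ) ∈ T)).biUnion (fun j =>
        univ.filter (fun ω : Fin N → Fin (2 * L) =>
          (((ω j : ℕ) : ℤ) = min (x j) (y j) + L))) := by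
    intro ω hω
    have h1 := (Finset.mem_filter.mp hω).2
    obtain ⟨j, hj⟩ := Function.ne_iff.mp h1
    rw [Finset.mem_biUnion]
    have hj2 : sg N L x ω j ≠ sg N L y ω j := hj
    have hne : x j ≠ y j := by
      intro h
      apply hj2
      unfold sg
      rw [h]
    refine ⟨j, Finset.mem_filter.mpr ⟨Finset.mem_univ _, ?_⟩,
      Finset.mem_filter.mpr ⟨Finset.mem_univ _, ?_⟩⟩
    · by_contra hjT
      exact hne (hT j j.isLt hjT)
    · have h2 := hxy j
      rw [abs_le] at h2
      unfold sg at hj2
      rcases lt_or_gt_of_ne hne with h | h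
      · rw [min_eq_left h.le]
        by_contra h3
        apply hj2
        rw [decide_eq_decide]
        omega
      · rw [min_eq_right h.le]
        by_contra h3
        apply hj2
        rw [decide_eq_decide]
        omega
  have hcard : ∀ j : Fin N, (univ.filter (fun ω : Fin N → Fin (2 * L) =>
      (((ω j : ℕ) : ℤ) = min (x j) (y j) + L))).card * (2 * L) ≤ (2 * L) ^ N := by
    intro j
    by_cases h : ∃ a : Fin (2 * L), ((a : ℕ) : ℤ) = min (x j) (y j) + L
    · obtain ⟨a, ha⟩ := h
      rw [← card_slice N (2 * L) j a]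
      refine Nat.mul_le_mul_right _ (Finset.card_le_card ?_)
      intro ω hω
      refine Finset.mem_filter.mpr ⟨Finset.mem_univ _, ?_⟩
      have := (Finset.mem_filter.mp hω).2
      rw [← ha] at this
      exact Fin.ext (by exact_mod_cast this)
    · have : (univ.filter (fun ω : Fin N → Fin (2 * L) =>
          (((ω j : ℕ) : ℤ) = min (x j) (y j) + L))) = ∅ := by
        rw [Finset.filter_eq_empty_iff]
        intro ω _ h2
        exact h ⟨ω j, h2⟩
      rw [this]; simp
  calc _ ≤ ((univ.filter (fun j : Fin N => (j : ℕ) ∈ T)).biUnion (fun j =>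
        univ.filter (fun ω : Fin N → Fin (2 * L) =>
          (((ω j : ℕ) : ℤ) = min (x j) (y j) + L)))).card * (2 * L) :=
        Nat.mul_le_mul_right _ (Finset.card_le_card hsub)
    _ ≤ (∑ j ∈ univ.filter (fun j : Fin N => (j : ℕ) ∈ T),
        (univ.filter (fun ω : Fin N → Fin (2 * L) =>
          (((ω j : ℕ) : ℤ) = min (x j) (y j) + L))).card) * (2 * L) :=
        Nat.mul_le_mul_right _ Finset.card_biUnion_le
    _ = ∑ j ∈ univ.filter (fun j : Fin N => (j : ℕ) ∈ T),
        (univ.filter (fun ω : Fin N → Fin (2 * L) =>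
          (((ω j : ℕ) : ℤ) = min (x j) (y j) + L))).card * (2 * L) := Finset.sum_mul _ _ _
    _ ≤ ∑ _j ∈ univ.filter (fun j : Fin N => (j : ℕ) ∈ T), (2 * L) ^ N :=
        Finset.sum_le_sum fun j _ => hcard j
    _ = (univ.filter (fun j : Fin N => (j : ℕ) ∈ T)).card * (2 * L) ^ N := by
        rw [Finset.sum_const, smul_eq_mul]
    _ ≤ T.card * (2 * L) ^ N := by
        refine Nat.mul_le_mul_right _ ?_
        refine Finset.card_le_card_of_injOn (fun j : Fin N => (j : ℕ)) ?_ ?_
        · intro j hj
          exact (Finset.mem_filter.mp (Finset.mem_coe.mp hj)).2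
        · intro a _ b _ h
          exact Fin.ext h

/-- **Key lower bound.** -/
theorem key (N r m : ℕ) (hr : r < N) (hm : 0 < m)
    (hlarge : exp (-((r + 1 : ℝ) ^ 2 / m)) < (1 / (2 * (m + 1 : ℝ))) ^ 2) :
    ¬ (H N r).Colorable (m + 1) := by
  rintro ⟨C⟩
  classical
  set L := (m + 1) * m with hLdef
  have hL : 0 < L := by positivity
  -- pigeonhole
  have hpig : ∀ x : ℕ → ℤ, ∃ i : Fin (m + 1),
      (2 * L) ^ N ≤ (univ.filter (fun ω => C (sg N L x ω) = i)).card * (m + 1) := by
    intro x
    by_contra hno
    push Not at hno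
    have h1 : ∑ i : Fin (m + 1), (univ.filter (fun ω => C (sg N L x ω) = i)).card =
        (2 * L) ^ N := by
      have := Finset.card_eq_sum_card_fiberwise (f := fun ω => C (sg N L x ω))
        (s := (univ : Finset (Fin N → Fin (2 * L)))) (t := univ)
        (fun _ _ => Finset.mem_coe.mpr (Finset.mem_univ _))
      rw [← this]
      simp
    have h2 : ∑ i : Fin (m + 1), (univ.filter (fun ω => C (sg N L x ω) = i)).card * (m + 1) <
        ∑ _i : Fin (m + 1), (2 * L) ^ N :=
      Finset.sum_lt_sum_of_nonempty ⟨0, Finset.mem_univ _⟩ fun i _ => hno i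
    rw [← Finset.sum_mul, h1, Finset.sum_const, Finset.card_univ, Fintype.card_fin,
      smul_eq_mul] at h2
    linarith
  choose κ hκ using hpig
  refine grid_ls L N m (fun x => (κ x : ℕ)) (fun x => (κ x).isLt) ?_
  intro T x y hTm hTN hTL hxy _ _ heq
  have heq' : κ x = κ (tau y) := Fin.ext heq
  set i := κ x with hi
  -- the two sample sets
  set X := univ.filter (fun ω : Fin N → Fin (2 * L) => C (sg N L x ω) = i) with hX
  set Y := univ.filter (fun ω : Fin N → Fin (2 * L) => C (fun j => !(sg N L x ω j)) = i) with hY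
  set D := univ.filter (fun ω : Fin N → Fin (2 * L) => sg N L x ω ≠ sg N L y ω) with hD
  have hXc : (2 * L) ^ N ≤ X.card * (m + 1) := hκ x
  have hxyT : ∀ j < N, j ∉ T → x j = y j := by
    intro j hj hjT
    rcases hTL j hj hjT with h | h <;> rw [h.1, h.2]
  have hDc : D.card * (2 * L) ≤ m * (2 * L) ^ N :=
    (card_diff N L T x y hxyT hxy).trans (Nat.mul_le_mul_right _ hTm)
  have hYc : (2 * L) ^ N ≤ (Y.card + D.card) * (m + 1) := by
    have h1 := hκ (tau y)
    rw [← heq'] at h1
    refine h1.trans (Nat.mul_le_mul_right _ ?_)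
    refine le_trans ?_ (Finset.card_union_le Y D)
    -- reflect
    refine Finset.card_le_card_of_injOn (fun ω j => (ω j).rev) ?_ ?_
    · intro ω hω
      have h2 := (Finset.mem_filter.mp (Finset.mem_coe.mp hω)).2
      have h3 := sg_tau N L y (fun j => (ω j).rev)
      simp only [Fin.rev_rev] at h3
      rw [Finset.mem_coe, Finset.mem_union]
      by_cases h4 : sg N L x (fun j => (ω j).rev) = sg N L y (fun j => (ω j).rev)
      · left
        rw [hY, Finset.mem_filter]
        refine ⟨Finset.mem_univ _, ?_⟩
        show C (fun j => !(sg N L x (fun j => (ω j).rev) j)) = i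
        rw [h4, ← h3]
        exact h2
      · right
        rw [hD, Finset.mem_filter]
        exact ⟨Finset.mem_univ _, h4⟩
    · intro ω _ ω' _ h
      funext j
      have := congrFun h j
      exact Fin.rev_injective this
  have hm1 : (0 : ℝ) < m + 1 := by positivity
  have hLr : (L : ℝ) = (m + 1) * m := by rw [hLdef]; push_cast; ring
  have hmr : (0 : ℝ) < m := by exact_mod_cast hm
  have hWr : (0 : ℝ) < (2 * L : ℝ) ^ N := by positivity
  have hXr : 1 / (2 * (m + 1 : ℝ)) * ((Fintype.card (Fin (2 * L)) : ℕ) : ℝ) ^ N ≤ X.card := by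
    rw [Fintype.card_fin]
    have h1 : ((2 * L : ℝ)) ^ N ≤ X.card * (m + 1) := by exact_mod_cast hXc
    push_cast
    rw [div_mul_eq_mul_div, one_mul, div_le_iff₀ (by positivity)]
    have : (0 : ℝ) ≤ X.card * (m + 1) := by positivity
    nlinarith
  have hYr : 1 / (2 * (m + 1 : ℝ)) * ((Fintype.card (Fin (2 * L)) : ℕ) : ℝ) ^ N ≤ Y.card := by
    rw [Fintype.card_fin]
    have h1 : ((2 * L : ℝ)) ^ N ≤ (Y.card + D.card) * (m + 1) := by exact_mod_cast hYc
    have h2 : (D.card : ℝ) * (2 * L) ≤ m * (2 * L : ℝ) ^ N := by exact_mod_cast hDc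
    have h3 : (D.card : ℝ) * (2 * (m + 1)) ≤ (2 * L : ℝ) ^ N := by
      have h4 : (m : ℝ) * ((D.card : ℝ) * (2 * (m + 1))) ≤ m * (2 * L : ℝ) ^ N := by
        calc (m : ℝ) * ((D.card : ℝ) * (2 * (m + 1))) = (D.card : ℝ) * (2 * L) := by
              rw [hLr]; ring
          _ ≤ _ := h2
      exact le_of_mul_le_mul_left h4 hmr
    push_cast
    rw [div_mul_eq_mul_div, one_mul, div_le_iff₀ (by positivity)]
    nlinarith
  obtain ⟨ω, hω, ω', hω', hd⟩ := close (fun j : Fin N => decide ((j : ℕ) ∈ T)) m r hm (by
      refine le_trans ?_ hTm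
      refine Finset.card_le_card_of_injOn (fun j : Fin N => (j : ℕ)) ?_ ?_
      · intro j hj
        have := (Finset.mem_filter.mp (Finset.mem_coe.mp hj)).2
        exact Finset.mem_coe.mpr (of_decide_eq_true this)
      · intro a _ b _ h
        exact Fin.ext h) X Y (p := 1 / (2 * (m + 1 : ℝ))) (by positivity) hXr hYr
      (by rw [Fintype.card_fin]; positivity) hlarge
  have hc1 : C (sg N L x ω) = i := (Finset.mem_filter.mp hω).2
  have hc2 : C (fun j => !(sg N L x ω' j)) = i := (Finset.mem_filter.mp hω').2
  -- agreements are rare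
  have hagree : (univ.filter (fun j : Fin N => sg N L x ω j ≠ sg N L x ω' j)).card ≤ r := by
    have h1 : ((univ.filter (fun j : Fin N => sg N L x ω j ≠ sg N L x ω' j)).card : ℝ) ≤
        dst (fun j : Fin N => decide ((j : ℕ) ∈ T)) ω' ω := by
      unfold dst
      rw [Finset.card_eq_sum_ones, Finset.sum_filter]
      push_cast
      refine Finset.sum_le_sum fun j _ => ?_
      by_cases h2 : sg N L x ω j ≠ sg N L x ω' j
      · rw [if_pos h2, if_pos]
        refine ⟨?_, ?_⟩
        · rw [decide_eq_true_eq]
          by_contra h3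
          apply h2
          unfold sg
          have h4 := (ω j).isLt
          have h5 := (ω' j).isLt
          rcases hTL j j.isLt h3 with h | h
          · rw [h.1, decide_eq_decide]
            omega
          · rw [h.1, decide_eq_decide]
            omega
        · intro h3
          apply h2
          unfold sg
          rw [h3]
      · rw [if_neg h2]
        split_ifs <;> norm_num
    exact_mod_cast h1.trans hd
  have hdist : N ≤ hammingDist (sg N L x ω) (fun j => !(sg N L x ω' j)) + r := by
    show N ≤ (univ.filter (fun j : Fin N => sg N L x ω j ≠ !(sg N L x ω' j))).card + r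
    have h1 := Finset.card_filter_add_card_filter_not (s := (univ : Finset (Fin N)))
      (fun j : Fin N => sg N L x ω j ≠ sg N L x ω' j)
    rw [Finset.card_univ, Fintype.card_fin] at h1
    have h2 : (univ.filter (fun j : Fin N => ¬ (sg N L x ω j ≠ sg N L x ω' j))).card ≤
        (univ.filter (fun j : Fin N => sg N L x ω j ≠ !(sg N L x ω' j))).card := by
      refine Finset.card_le_card fun j hj => ?_
      refine Finset.mem_filter.mpr ⟨Finset.mem_univ _, ?_⟩
      have := (Finset.mem_filter.mp hj).2
      push Not at this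
      rw [this]
      cases sg N L x ω' j <;> simp
    omega
  have hadj : (H N r).Adj (sg N L x ω) (fun j => !(sg N L x ω' j)) := by
    refine ⟨?_, hdist⟩
    intro h
    rw [← h, hammingDist_self] at hdist
    omega
  exact C.valid hadj (hc1.trans hc2.symm)

end Pool.Agent.Helper31.Ls
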