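import Mathlib
import Pool.Agent.Helper31.LsKey

set_option autoImplicit false

open Finset Real

namespace Pool.Agent.Helper31.Ls

/-- ball of radius `< (N - r) / 2` around `u`. -/
def IS (N r : ℕ) (u : Fin N → Bool) : Finset (Fin N → Bool) :=
  univ.filter (fun v => 2 * hammingDist u v + r < N)

theorem IS_indep {N r : ℕ} {u v w : Fin N → Bool} (hv : v ∈ IS N r u) (hw : w ∈ IS N r u) :
    ¬ (H N r).Adj v w := by
  rintro ⟨_, h⟩
  have h1 := (Finset.mem_filter.mp hv).2
  have h2 := (Finset.mem_filter.mp hw).2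
  have h3 : hammingDist v w ≤ hammingDist v u + hammingDist u w := hammingDist_triangle _ _ _
  rw [hammingDist_comm v u] at h3
  omega

theorem card_sphere (N k : ℕ) (u : Fin N → Bool) :
    (univ.filter (fun v : Fin N → Bool => hammingDist u v = k)).card = N.choose k := by
  classical
  rw [show N.choose k = (Finset.powersetCard k (univ : Finset (Fin N))).card by
    rw [Finset.card_powersetCard, Finset.card_univ, Fintype.card_fin]]
  refine Finset.card_bij (fun v _ => univ.filter (fun j => u j ≠ v j)) ?_ ?_ ?_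
  · intro v hv
    rw [Finset.mem_powersetCard]
    exact ⟨Finset.subset_univ _, (Finset.mem_filter.mp hv).2⟩
  · intro v _ w _ h
    funext j
    have h1 := Finset.ext_iff.mp h j
    simp only [Finset.mem_filter, Finset.mem_univ, true_and] at h1
    revert h1
    cases u j <;> cases v j <;> cases w j <;> simp
  · intro s hs
    rw [Finset.mem_powersetCard] at hs
    have key : univ.filter (fun j => u j ≠ (fun j => if j ∈ s then !(u j) else u j) j) = s := by
      ext j
      simp only [Finset.mem_filter, Finset.mem_univ, true_and]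
      by_cases h : j ∈ s <;> simp [h]
    refine ⟨fun j => if j ∈ s then !(u j) else u j, ?_, key⟩
    rw [Finset.mem_filter]
    refine ⟨Finset.mem_univ _, ?_⟩
    have : hammingDist u (fun j => if j ∈ s then !(u j) else u j) = s.card := by
      conv_rhs => rw [← key]
      rfl
    rw [this, hs.2]

theorem card_IS (N r : ℕ) (u : Fin N → Bool) :
    (IS N r u).card = ∑ k ∈ (range (N + 1)).filter (fun k => 2 * k + r < N), N.choose k := by
  classical
  have h1 := Finset.card_eq_sum_card_fiberwise (f := fun v => hammingDist u v)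
    (s := IS N r u) (t := (range (N + 1)).filter (fun k => 2 * k + r < N)) (by
      intro v hv
      have := (Finset.mem_filter.mp (Finset.mem_coe.mp hv)).2
      rw [Finset.mem_coe, Finset.mem_filter, Finset.mem_range]
      show hammingDist u v < N + 1 ∧ 2 * hammingDist u v + r < N
      omega)
  rw [h1]
  refine Finset.sum_congr rfl fun k hk => ?_
  rw [← card_sphere N k u]
  congr 1
  ext v
  unfold IS
  simp only [Finset.mem_filter, Finset.mem_univ, true_and]
  constructor
  · rintro ⟨_, h⟩; exact h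
  · intro h
    refine ⟨?_, h⟩
    have := (Finset.mem_filter.mp hk).2
    omega

theorem card_IS_ge (n r : ℕ) (u : Fin (2 * n) → Bool) :
    4 ^ n ≤ 2 * (IS (2 * n) r u).card + (r + 1) * n.centralBinom := by
  rw [card_IS]
  set A := (range (2 * n + 1)).filter (fun k => 2 * k + r < 2 * n) with hA
  set B := (range (2 * n + 1)).filter (fun k => 2 * n + r < 2 * k) with hB
  set M := (range (2 * n + 1)).filter (fun k => ¬ (2 * k + r < 2 * n) ∧ ¬ (2 * n + r < 2 * k))
    with hM
  have h1 : ∑ k ∈ range (2 * n + 1), (2 * n).choose k = 4 ^ n := by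
    rw [Nat.sum_range_choose, pow_mul]; norm_num
  have h2 : ∑ k ∈ range (2 * n + 1), (2 * n).choose k ≤
      ∑ k ∈ A, (2 * n).choose k + (∑ k ∈ B, (2 * n).choose k + ∑ k ∈ M, (2 * n).choose k) := by
    have h3 : range (2 * n + 1) ⊆ A ∪ (B ∪ M) := by
      intro k hk
      simp only [hA, hB, hM, Finset.mem_union, Finset.mem_filter, hk, true_and]
      omega
    calc _ ≤ ∑ k ∈ A ∪ (B ∪ M), (2 * n).choose k := Finset.sum_le_sum_of_subset h3
      _ ≤ ∑ k ∈ A, (2 * n).choose k + ∑ k ∈ B ∪ M, (2 * n).choose k := by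
          rw [← Finset.sum_union_inter]; exact Nat.le_add_right _ _
      _ ≤ _ := by
          refine Nat.add_le_add_left ?_ _
          rw [← Finset.sum_union_inter]; exact Nat.le_add_right _ _
  have h4 : ∑ k ∈ B, (2 * n).choose k = ∑ k ∈ A, (2 * n).choose k := by
    refine Finset.sum_bij' (fun k _ => 2 * n - k) (fun k _ => 2 * n - k) ?_ ?_ ?_ ?_ ?_
    · intro k hk
      simp only [hA, hB, Finset.mem_filter, Finset.mem_range] at hk ⊢
      omega
    · intro k hk
      simp only [hA, hB, Finset.mem_filter, Finset.mem_range] at hk ⊢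
      omega
    · intro k hk
      simp only [hB, Finset.mem_filter, Finset.mem_range] at hk
      omega
    · intro k hk
      simp only [hA, Finset.mem_filter, Finset.mem_range] at hk
      omega
    · intro k hk
      simp only [hB, Finset.mem_filter, Finset.mem_range] at hk
      exact (Nat.choose_symm (by omega)).symm
  have h5 : ∑ k ∈ M, (2 * n).choose k ≤ (r + 1) * n.centralBinom := by
    have h6 : M.card ≤ r + 1 := by
      have : M ⊆ Finset.Icc (n - r / 2) (n + r / 2) := by
        intro k hk
        simp only [hM, Finset.mem_filter, Finset.mem_range] at hk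
        rw [Finset.mem_Icc]
        omega
      refine (Finset.card_le_card this).trans ?_
      rw [Nat.card_Icc]
      omega
    calc ∑ k ∈ M, (2 * n).choose k ≤ ∑ _k ∈ M, n.centralBinom :=
          Finset.sum_le_sum fun k _ => Nat.choose_le_centralBinom k n
      _ = M.card * n.centralBinom := by rw [Finset.sum_const, smul_eq_mul]
      _ ≤ _ := Nat.mul_le_mul_right _ h6
  rw [h1] at h2
  omega

theorem centralBinom_sq (n : ℕ) : (2 * n + 1) * n.centralBinom ^ 2 ≤ 16 ^ n := by
  induction n with
  | zero => simp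
  | succ n ih =>
    have h1 := Nat.succ_mul_centralBinom_succ n
    -- (n+1) * cb (n+1) = 2 (2n+1) cb n
    have h2 : (n + 1) ^ 2 * ((2 * (n + 1) + 1) * (n + 1).centralBinom ^ 2) ≤
        (n + 1) ^ 2 * 16 ^ (n + 1) := by
      calc (n + 1) ^ 2 * ((2 * (n + 1) + 1) * (n + 1).centralBinom ^ 2)
          = (2 * (n + 1) + 1) * ((n + 1) * (n + 1).centralBinom) ^ 2 := by ring
        _ = (2 * (n + 1) + 1) * (2 * (2 * n + 1) * n.centralBinom) ^ 2 := by rw [h1]
        _ = (4 * (2 * n + 3) * (2 * n + 1)) * ((2 * n + 1) * n.centralBinom ^ 2) := by ring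
        _ ≤ (4 * (2 * n + 3) * (2 * n + 1)) * 16 ^ n := Nat.mul_le_mul_left _ ih
        _ ≤ ((n + 1) ^ 2 * 16) * 16 ^ n := Nat.mul_le_mul_right _ (by nlinarith)
        _ = _ := by ring
    exact Nat.le_of_mul_le_mul_left h2 (by positivity)

/-- the density of the balls. -/
theorem IS_density {β : ℝ} (hβ : β < 1 / 2) (n r : ℕ) (u : Fin (2 * n) → Bool)
    (hn : (r + 1 : ℝ) ^ 2 ≤ (1 - 2 * β) ^ 2 * (2 * n + 1)) :
    β * 4 ^ n ≤ (IS (2 * n) r u).card := by
  have h1 : ((4 ^ n : ℕ) : ℝ) ≤ ((2 * (IS (2 * n) r u).card + (r + 1) * n.centralBinom : ℕ) : ℝ) :=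
    by exact_mod_cast card_IS_ge n r u
  push_cast at h1
  have h2 : (((2 * n + 1) * n.centralBinom ^ 2 : ℕ) : ℝ) ≤ ((16 ^ n : ℕ) : ℝ) := by
    exact_mod_cast centralBinom_sq n
  push_cast at h2
  have h16 : (16 : ℝ) ^ n = (4 ^ n) ^ 2 := by rw [← pow_mul, mul_comm, pow_mul]; norm_num
  have h3 : ((r + 1 : ℝ) * n.centralBinom) ^ 2 ≤ ((1 - 2 * β) * 4 ^ n) ^ 2 := by
    calc ((r + 1 : ℝ) * n.centralBinom) ^ 2 = (r + 1 : ℝ) ^ 2 * n.centralBinom ^ 2 := by ring
      _ ≤ ((1 - 2 * β) ^ 2 * (2 * n + 1)) * n.centralBinom ^ 2 := by gcongr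
      _ = (1 - 2 * β) ^ 2 * ((2 * n + 1) * n.centralBinom ^ 2) := by ring
      _ ≤ (1 - 2 * β) ^ 2 * 16 ^ n := by gcongr
      _ = ((1 - 2 * β) * 4 ^ n) ^ 2 := by rw [h16]; ring
  have h4 : (r + 1 : ℝ) * n.centralBinom ≤ (1 - 2 * β) * 4 ^ n := by
    have h5 : 0 ≤ (1 - 2 * β) * 4 ^ n := mul_nonneg (by linarith) (by positivity)
    exact le_of_sq_le_sq h3 h5
  linarith

/-- every weight has a heavy independent set. -/
theorem weighted {β : ℝ} (hβ : β < 1 / 2) (n r : ℕ)
    (hn : (r + 1 : ℝ) ^ 2 ≤ (1 - 2 * β) ^ 2 * (2 * n + 1))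
    (w : (Fin (2 * n) → Bool) → ℝ) (hw : ∀ v, 0 ≤ w v) :
    ∃ u, β * ∑ v, w v ≤ ∑ v ∈ IS (2 * n) r u, w v := by
  by_contra hno
  push Not at hno
  have h1 : ∑ u : Fin (2 * n) → Bool, ∑ v ∈ IS (2 * n) r u, w v <
      ∑ _u : Fin (2 * n) → Bool, β * ∑ v, w v :=
    Finset.sum_lt_sum_of_nonempty ⟨fun _ => false, Finset.mem_univ _⟩ fun u _ => hno u
  have h2 : ∑ u : Fin (2 * n) → Bool, ∑ v ∈ IS (2 * n) r u, w v =
      ∑ v : Fin (2 * n) → Bool, ((IS (2 * n) r v).card : ℝ) * w v := by
    have h3 : ∀ u : Fin (2 * n) → Bool, ∑ v ∈ IS (2 * n) r u, w v =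
        ∑ v, if 2 * hammingDist u v + r < 2 * n then w v else 0 := by
      intro u
      unfold IS
      rw [Finset.sum_filter]
    rw [Finset.sum_congr rfl (fun u _ => h3 u), Finset.sum_comm]
    refine Finset.sum_congr rfl fun v _ => ?_
    rw [← Finset.sum_filter, Finset.sum_const, nsmul_eq_mul]
    congr 3
    unfold IS
    ext u
    simp only [Finset.mem_filter, Finset.mem_univ, true_and]
    rw [hammingDist_comm]
  rw [h2, Finset.sum_const, Finset.card_univ, nsmul_eq_mul] at h1
  have h4 : (Fintype.card (Fin (2 * n) → Bool) : ℝ) = 4 ^ n := by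
    rw [Fintype.card_fun, Fintype.card_bool, Fintype.card_fin]
    push_cast
    rw [pow_mul]; norm_num
  rw [h4] at h1
  have h5 : ∑ v : Fin (2 * n) → Bool, β * 4 ^ n * w v ≤
      ∑ v : Fin (2 * n) → Bool, ((IS (2 * n) r v).card : ℝ) * w v :=
    Finset.sum_le_sum fun v _ => mul_le_mul_of_nonneg_right (IS_density hβ n r v hn) (hw v)
  rw [← Finset.mul_sum] at h5
  have h6 : 4 ^ n * (β * ∑ v, w v) = β * 4 ^ n * ∑ v, w v := by ring
  rw [h6] at h1
  exact absurd h5 (not_le.mpr h1)

/-- hereditary form. -/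
theorem hereditary {β : ℝ} (hβ : β < 1 / 2) (n r : ℕ)
    (hn : (r + 1 : ℝ) ^ 2 ≤ (1 - 2 * β) ^ 2 * (2 * n + 1)) (S : Finset (Fin (2 * n) → Bool)) :
    ∃ I ⊆ S, (∀ v ∈ I, ∀ w ∈ I, ¬ (H (2 * n) r).Adj v w) ∧ β * S.card ≤ I.card := by
  classical
  obtain ⟨u, hu⟩ := weighted hβ n r hn (fun v => if v ∈ S then 1 else 0)
    (fun v => by split_ifs <;> norm_num)
  refine ⟨IS (2 * n) r u ∩ S, Finset.inter_subset_right, ?_, ?_⟩
  · intro v hv w hw
    exact IS_indep (Finset.mem_inter.mp hv).1 (Finset.mem_inter.mp hw).1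
  · have h1 : ∑ v : Fin (2 * n) → Bool, (if v ∈ S then (1 : ℝ) else 0) = S.card := by
      rw [← Finset.sum_filter, Finset.sum_const, nsmul_eq_mul, mul_one]
      congr 2
      ext v; simp
    have h2 : ∑ v ∈ IS (2 * n) r u, (if v ∈ S then (1 : ℝ) else 0) =
        (IS (2 * n) r u ∩ S).card := by
      rw [← Finset.sum_filter, Finset.sum_const, nsmul_eq_mul, mul_one, Finset.filter_mem_eq_inter]
    rw [h1, h2] at hu
    exact hu

/-- Hamming balls are small. -/
theorem card_ball (N : ℕ) (u : Fin N → Bool) (r : ℕ) :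
    (univ.filter (fun v : Fin N → Bool => hammingDist u v ≤ r)).card ≤ (N + 1) ^ r := by
  classical
  induction r with
  | zero =>
    rw [pow_zero]
    refine Finset.card_le_one.mpr ?_
    intro v hv w hw
    have h1 := (Finset.mem_filter.mp hv).2
    have h2 := (Finset.mem_filter.mp hw).2
    rw [Nat.le_zero, hammingDist_eq_zero] at h1 h2
    rw [← h1, ← h2]
  | succ r ih =>
    have hsub : univ.filter (fun v : Fin N → Bool => hammingDist u v ≤ r + 1) ⊆
        ((univ.filter (fun v : Fin N → Bool => hammingDist u v ≤ r)) ×ˢ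
          (univ : Finset (Option (Fin N)))).image
          (fun p => match p.2 with
            | none => p.1
            | some j => Function.update p.1 j (!(p.1 j))) := by
      intro v hv
      have hv1 := (Finset.mem_filter.mp hv).2
      rw [Finset.mem_image]
      by_cases h : hammingDist u v ≤ r
      · exact ⟨(v, none), Finset.mem_product.mpr
          ⟨Finset.mem_filter.mpr ⟨Finset.mem_univ _, h⟩, Finset.mem_univ _⟩, rfl⟩
      · have hpos : hammingDist u v = r + 1 := by omega
        have hne : u ≠ v := by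
          intro h; rw [h, hammingDist_self] at hpos; omega
        obtain ⟨j, hj⟩ := Function.ne_iff.mp hne
        refine ⟨(Function.update v j (u j), some j), Finset.mem_product.mpr
          ⟨Finset.mem_filter.mpr ⟨Finset.mem_univ _, ?_⟩, Finset.mem_univ _⟩, ?_⟩
        · have : univ.filter (fun i => u i ≠ Function.update v j (u j) i) =
              (univ.filter (fun i => u i ≠ v i)).erase j := by
            ext i
            simp only [Finset.mem_filter, Finset.mem_univ, true_and, Finset.mem_erase]
            by_cases hi : i = j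
            · subst hi; simp
            · rw [Function.update_of_ne hi]; simp [hi]
          show (univ.filter (fun i => u i ≠ Function.update v j (u j) i)).card ≤ r
          have h2 : (univ.filter (fun i => u i ≠ v i)).card = r + 1 := hpos
          have hj' : j ∈ univ.filter (fun i => u i ≠ v i) :=
            Finset.mem_filter.mpr ⟨Finset.mem_univ _, hj⟩
          rw [this, Finset.card_erase_of_mem hj']
          omega
        · funext i
          by_cases hi : i = j
          · subst hi
            simp only [Function.update_self]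
            revert hj
            cases u i <;> cases v i <;> simp
          · simp only [Function.update_of_ne hi]
    refine (Finset.card_le_card hsub).trans (Finset.card_image_le.trans ?_)
    rw [Finset.card_product, Finset.card_univ, Fintype.card_option, Fintype.card_fin, pow_succ]
    exact Nat.mul_le_mul_right _ ih

open Classical in
/-- degrees are small. -/
theorem degree_le (N r : ℕ) (v : Fin N → Bool) : (H N r).degree v ≤ (N + 1) ^ r := by
  rw [← SimpleGraph.card_neighborFinset_eq_degree]
  refine le_trans ?_ (card_ball N (fun j => !(v j)) r)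
  refine Finset.card_le_card fun w hw => ?_
  rw [SimpleGraph.mem_neighborFinset] at hw
  refine Finset.mem_filter.mpr ⟨Finset.mem_univ _, ?_⟩
  have h1 := hw.2
  have h2 := Finset.card_filter_add_card_filter_not (s := (univ : Finset (Fin N)))
    (fun j : Fin N => v j ≠ w j)
  rw [Finset.card_univ, Fintype.card_fin] at h2
  have h3 : (univ.filter (fun j : Fin N => (!(v j)) ≠ w j)).card ≤
      (univ.filter (fun j : Fin N => ¬ (v j ≠ w j))).card := by
    refine Finset.card_le_card fun j hj => ?_
    refine Finset.mem_filter.mpr ⟨Finset.mem_univ _, ?_⟩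
    have := (Finset.mem_filter.mp hj).2
    revert this
    cases v j <;> cases w j <;> simp
  have h4 : hammingDist v w = (univ.filter (fun j : Fin N => v j ≠ w j)).card := rfl
  show (univ.filter (fun j : Fin N => (!(v j)) ≠ w j)).card ≤ r
  omega

end Pool.Agent.Helper31.Ls
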