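import Mathlib
import Pool.Agent.Helper31.LsInd

set_option autoImplicit false

open Finset Real Filter

namespace Pool.Agent.Helper31.Ls

theorem params (K : ℝ) : ∀ᶠ d : ℕ in atTop,
    1 ≤ log (log d) ∧ K ≤ log (log d) ∧ 17 * log (log d) ^ 3 ≤ log d := by
  have h1 : Tendsto (fun d : ℕ => log (d : ℝ)) atTop atTop :=
    Real.tendsto_log_atTop.comp tendsto_natCast_atTop_atTop
  have h2 : Tendsto (fun d : ℕ => log (log (d : ℝ))) atTop atTop :=
    Real.tendsto_log_atTop.comp h1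
  have h3 : ∀ᶠ x : ℝ in atTop, 17 * log x ^ 3 ≤ x := by
    have h4 := (Real.isLittleO_pow_log_id_atTop (n := 3)).bound (c := 1 / 17) (by norm_num)
    filter_upwards [h4, eventually_ge_atTop (0 : ℝ)] with x hx hx0
    simp only [id, Real.norm_eq_abs] at hx
    rw [abs_of_nonneg hx0] at hx
    have := (le_abs_self (log x ^ 3)).trans hx
    linarith
  exact (h2.eventually_ge_atTop 1).and ((h2.eventually_ge_atTop K).and (h1.eventually h3))

/-- the choice of the parameters. -/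
theorem choice (β : ℝ) (hβ0 : 0 ≤ β) (hβ : β < 1 / 2) : ∀ᶠ d : ℕ in atTop,
    ∃ n r : ℕ, (r + 1 : ℝ) ^ 2 ≤ (1 - 2 * β) ^ 2 * (2 * n + 1) ∧ (2 * n + 1) ^ r ≤ d ∧
      ¬ (H (2 * n) r).Colorable (⌊log d ^ 2 / (17 * log (log d) ^ 3)⌋₊ + 1) := by
  set c : ℝ := (1 - 2 * β) ^ 2 with hc
  have hc0 : 0 < c := pow_pos (by linarith) 2
  have hc1 : c ≤ 1 := by rw [hc]; nlinarith
  set K : ℝ := 1 / c + 3 with hK
  have hK1 : 1 ≤ K := by
    have : 0 < 1 / c := by positivity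
    linarith
  filter_upwards [params (log K * (50 / 3)), eventually_ge_atTop 2] with d hd hd2
  obtain ⟨hℓ1, hℓK, hL⟩ := hd
  set L := log (d : ℝ) with hLdef
  set ℓ := log L with hℓ
  have hL17 : 17 ≤ L := by nlinarith [pow_le_pow_left₀ (by norm_num : (0:ℝ) ≤ 1) hℓ1 3]
  have hLpos : 0 < L := by linarith
  have hℓpos : 0 < ℓ := by linarith
  have hdpos : (0 : ℝ) < d := by exact_mod_cast (by omega : 0 < d)
  set m := ⌊L ^ 2 / (17 * ℓ ^ 3)⌋₊ with hm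
  have hm1 : 0 < m := by
    rw [hm, Nat.floor_pos, le_div_iff₀ (by positivity)]
    nlinarith
  have hmle : (m : ℝ) ≤ L ^ 2 / (17 * ℓ ^ 3) := Nat.floor_le (by positivity)
  have hℓ3 : 1 ≤ ℓ ^ 3 := one_le_pow₀ hℓ1
  have hmle2 : (m : ℝ) ≤ L ^ 2 / 17 := by
    refine hmle.trans ?_
    gcongr
    linarith
  have hmr : (0 : ℝ) < m := by exact_mod_cast hm1
  have hlog : log (2 * (m + 1)) ≤ 2 * ℓ := by
    have h1 : (2 * (m + 1) : ℝ) ≤ L ^ 2 := by nlinarith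
    calc log (2 * (m + 1)) ≤ log (L ^ 2) := Real.log_le_log (by positivity) h1
      _ = 2 * ℓ := by rw [Real.log_pow]; push_cast; rfl
  have hlog0 : 0 < log (2 * (m + 1)) := Real.log_pos (by linarith)
  set s := √(2 * m * log (2 * (m + 1))) with hs
  have hs2 : s ^ 2 = 2 * m * log (2 * (m + 1)) := Real.sq_sqrt (by positivity)
  have hs0 : 0 ≤ s := Real.sqrt_nonneg _
  set r := ⌊s⌋₊ with hr
  have hr1 : (r : ℝ) ≤ s := Nat.floor_le hs0
  have hr2 : s < r + 1 := Nat.lt_floor_add_one s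
  have hr0 : (0 : ℝ) ≤ r := Nat.cast_nonneg _
  have hrsq : (r : ℝ) ^ 2 * (17 * ℓ ^ 2) ≤ 4 * L ^ 2 := by
    have h1 : (r : ℝ) ^ 2 ≤ 2 * m * (2 * ℓ) := by
      calc (r : ℝ) ^ 2 ≤ s ^ 2 := by gcongr
        _ = 2 * m * log (2 * (m + 1)) := hs2
        _ ≤ _ := by gcongr
    have h2 : (m : ℝ) * (17 * ℓ ^ 3) ≤ L ^ 2 := (le_div_iff₀ (by positivity)).mp hmle
    have h3 : (r : ℝ) ^ 2 * (17 * ℓ ^ 2) ≤ 2 * m * (2 * ℓ) * (17 * ℓ ^ 2) := by gcongr
    calc _ ≤ _ := h3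
      _ = 4 * (m * (17 * ℓ ^ 3)) := by ring
      _ ≤ 4 * L ^ 2 := by gcongr
  have hrL : (r : ℝ) + 1 ≤ L := by
    have h1 : (r : ℝ) ^ 2 * 16 ≤ 4 * L ^ 2 := by
      refine le_trans ?_ hrsq
      have : 1 ≤ ℓ ^ 2 := one_le_pow₀ hℓ1
      gcongr
      linarith
    have h2 : (2 * (r : ℝ)) ^ 2 ≤ L ^ 2 := by nlinarith
    have h3 : 2 * (r : ℝ) ≤ L := le_of_sq_le_sq h2 hLpos.le
    linarith
  set n := ⌈((r : ℝ) + 1) ^ 2 / (2 * c)⌉₊ with hn
  have hn1 : ((r : ℝ) + 1) ^ 2 / (2 * c) ≤ n := Nat.le_ceil _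
  have hn2 : (n : ℝ) < ((r : ℝ) + 1) ^ 2 / (2 * c) + 1 := Nat.ceil_lt_add_one (by positivity)
  have hn3 : ((r : ℝ) + 1) ^ 2 ≤ c * (2 * n) := by
    rw [div_le_iff₀ (by positivity)] at hn1
    linarith
  refine ⟨n, r, ?_, ?_, ?_⟩
  · nlinarith
  · have h1 : (2 * (n : ℝ) + 1) ≤ K * L ^ 2 := by
      have h2 : (2 * (n : ℝ) + 1) ≤ ((r : ℝ) + 1) ^ 2 / c + 3 := by
        have : 2 * (((r : ℝ) + 1) ^ 2 / (2 * c)) = ((r : ℝ) + 1) ^ 2 / c := by
          field_simp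
        linarith
      have h3 : ((r : ℝ) + 1) ^ 2 / c ≤ L ^ 2 / c := by gcongr
      have h4 : (3 : ℝ) ≤ 3 * L ^ 2 := by nlinarith
      calc _ ≤ _ := h2
        _ ≤ L ^ 2 / c + 3 * L ^ 2 := by linarith
        _ = K * L ^ 2 := by rw [hK]; ring
    have h5 : log (2 * n + 1) ≤ 2.06 * ℓ := by
      calc log (2 * n + 1) ≤ log (K * L ^ 2) := Real.log_le_log (by positivity) h1
        _ = log K + 2 * ℓ := by
            rw [Real.log_mul (by positivity) (by positivity), Real.log_pow]; push_cast; rfl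
        _ ≤ _ := by linarith
    have h5' : 0 ≤ log (2 * (n : ℝ) + 1) := Real.log_nonneg (by linarith [(Nat.cast_nonneg n : (0:ℝ) ≤ n)])
    have h6 : (r : ℝ) * log (2 * n + 1) ≤ L := by
      have h7 : ((r : ℝ) * log (2 * n + 1)) ^ 2 ≤ L ^ 2 := by
        calc ((r : ℝ) * log (2 * n + 1)) ^ 2 ≤ ((r : ℝ) * (2.06 * ℓ)) ^ 2 := by gcongr
          _ = (2.06 ^ 2 / 17) * ((r : ℝ) ^ 2 * (17 * ℓ ^ 2)) := by ring
          _ ≤ (2.06 ^ 2 / 17) * (4 * L ^ 2) := by gcongr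
          _ ≤ L ^ 2 := by nlinarith [sq_nonneg L]
      exact le_of_sq_le_sq h7 hLpos.le
    have h8 : ((2 * (n : ℝ) + 1)) ^ r ≤ d := by
      have h9 : (0 : ℝ) < 2 * n + 1 := by positivity
      calc ((2 * (n : ℝ) + 1)) ^ r = exp (log (2 * n + 1)) ^ r := by rw [Real.exp_log h9]
        _ = exp (r * log (2 * n + 1)) := by rw [← Real.exp_nat_mul]
        _ ≤ exp L := Real.exp_le_exp.mpr h6
        _ = d := by rw [hLdef, Real.exp_log hdpos]
    exact_mod_cast h8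
  · refine key (2 * n) r m ?_ hm1 ?_
    · have h1 : ((r : ℝ) + 1) ^ 2 ≤ 2 * n := by nlinarith
      have h2 : (r : ℝ) < 2 * n := by nlinarith
      exact_mod_cast h2
    · have h1 : 2 * m * log (2 * (m + 1)) < (r + 1 : ℝ) ^ 2 := by
        rw [← hs2]; gcongr
      have h2 : 2 * log (2 * (m + 1)) < (r + 1 : ℝ) ^ 2 / m := by
        rw [lt_div_iff₀ hmr]; linarith
      have h3 : (1 / (2 * (m + 1 : ℝ))) ^ 2 = exp (-(2 * log (2 * (m + 1)))) := by
        rw [Real.exp_neg, two_mul (log _), Real.exp_add, Real.exp_log (by positivity)]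
        rw [one_div, inv_pow, sq]
      rw [h3]
      exact Real.exp_lt_exp.mpr (by linarith)

theorem main (β : ℝ) (hβ : β < 1 / 2) :
    ∃ d₀ : ℕ, ∀ d : ℕ, d₀ ≤ d →
      ∃ (V : Type) (_ : Fintype V) (G : SimpleGraph V) (_ : DecidableRel G.Adj),
        G.maxDegree ≤ d ∧
        (∀ S : Finset V, ∃ I : Finset V,
          I ⊆ S ∧ G.IsIndepSet (I : Set V) ∧ β * S.card ≤ I.card) ∧
        (∀ w : V → ℝ, (∀ v, 0 ≤ w v) → ∃ I : Finset V,
          G.IsIndepSet (I : Set V) ∧ β * ∑ v, w v ≤ ∑ v ∈ I, w v) ∧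
        ¬ G.Colorable ⌊(Real.log d) ^ 2 / (17 * (Real.log (Real.log d)) ^ 3)⌋₊ := by
  classical
  have hβ' : max β 0 < 1 / 2 := max_lt hβ (by norm_num)
  obtain ⟨d₀, h0⟩ := eventually_atTop.mp (choice (max β 0) (le_max_right _ _) hβ')
  refine ⟨d₀, fun d hd => ?_⟩
  obtain ⟨n, r, h1, h2, h3⟩ := h0 d hd
  refine ⟨Fin (2 * n) → Bool, inferInstance, H (2 * n) r, Classical.decRel _, ?_, ?_, ?_, ?_⟩
  · refine SimpleGraph.maxDegree_le_of_forall_degree_le _ _ fun v => ?_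
    refine le_trans ?_ h2
    convert degree_le (2 * n) r v
  · intro S
    obtain ⟨I, hIS, hI, hc⟩ := hereditary hβ' n r h1 S
    refine ⟨I, hIS, fun v hv w hw _ => hI v hv w hw, le_trans ?_ hc⟩
    gcongr
    exact le_max_left _ _
  · intro w hw
    obtain ⟨u, hu⟩ := weighted hβ' n r h1 w hw
    refine ⟨IS (2 * n) r u, fun v hv w hw _ => IS_indep hv hw, le_trans ?_ hu⟩
    have : 0 ≤ ∑ v, w v := Finset.sum_nonneg fun v _ => hw v
    gcongr
    exact le_max_left _ _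
  · intro h
    exact h3 (h.mono (Nat.le_succ _))

end Pool.Agent.Helper31.Ls
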