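import Pool.Agent.Helper5.N2.Stmts2

/-!
# Row ASMb: the case `k > 0`, `y > 0` with bounded derivatives
-/

set_option autoImplicit false

namespace N231
open N2

/-- a function of `Smb` with vanishing derivatives is a constant -/
lemma const_of (hCON : ST_CON) (f : Smb) (h : D f = 0) (h' : D' f = 0) : ∃ c : ℂ, f = Cst c := by
  obtain ⟨c, hc⟩ := hCON (toSm f) (by rw [← toSm_D, h, map_zero]) (by rw [← toSm_D', h', map_zero])
  exact ⟨c, toSm_inj (by rw [hc, toSm_Cst])⟩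

/-- a real element has a real value -/
lemma val_real {R : Type} [CommRing R] [DR R] (χ : Ev R) {f : R} (h : cj f = f) :
    χ f = ((χ f).re : ℂ) := by
  have h1 := χ.hcj f
  rw [h] at h1
  exact (Complex.conj_eq_iff_real.1 h1.symm).elim fun r hr => by rw [hr, Complex.ofReal_re]

/-- the values of the data at a character -/
lemma F_pos {R : Type} [CommRing R] [DR R] {m : ℕ} (N : Nt R m) (χ : Ev R) : 0 < (χ N.F).re := by
  have h1 : χ N.F = ((∑ i, ‖χ (N.A i)‖ ^ 2 : ℝ) : ℂ) := by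
    rw [← χ.dot_cjv, N.hAB]
  have h2 : (χ N.F).re = ∑ i, ‖χ (N.A i)‖ ^ 2 := by rw [h1, Complex.ofReal_re]
  have h3 : 0 ≤ (χ N.F).re := by rw [h2]; positivity
  have h4 : χ N.F ≠ 0 := by
    intro h0
    have h5 : χ.h (N.F * N.G) = 1 := by rw [N.hFG, map_one]
    rw [map_mul] at h5
    have h6 : χ.h N.F = 0 := h0
    rw [h6, zero_mul] at h5
    exact zero_ne_one h5
  rcases h3.lt_or_eq with h | h
  · exact h
  · exfalso
    apply h4
    rw [val_real χ N.hFr, ← h, Complex.ofReal_zero]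

lemma g_sum {R : Type} [CommRing R] [DR R] {m : ℕ} (N : Nt R m) (χ : Ev R) :
    χ N.g = ((∑ i, ‖χ (N.ps i)‖ ^ 2 : ℝ) : ℂ) := by
  rw [← χ.dot_cjv, N.hpr]; rfl

lemma g_nonneg {R : Type} [CommRing R] [DR R] {m : ℕ} (N : Nt R m) (χ : Ev R) : 0 ≤ (χ N.g).re := by
  rw [g_sum N χ, Complex.ofReal_re]; positivity

lemma V_sum {R : Type} [CommRing R] [DR R] {m : ℕ} (N : Nt R m) (χ : Ev R) :
    χ N.V = ((∑ i, ‖χ (N.ta i)‖ ^ 2 : ℝ) : ℂ) := χ.dot_cjv N.ta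

lemma ps_zero {R : Type} [CommRing R] [DR R] {m : ℕ} (N : Nt R m) (χ : Ev R) (h : χ N.g = 0) (i : Fin m) :
    χ (N.ps i) = 0 := by
  rw [g_sum N χ, Complex.ofReal_eq_zero] at h
  have h1 := (Finset.sum_eq_zero_iff_of_nonneg (fun i _ => by positivity)).1 h i (Finset.mem_univ i)
  exact norm_eq_zero.1 (pow_eq_zero_iff (two_ne_zero)|>.1 h1)

lemma y_val {R : Type} [CommRing R] [DR R] {m : ℕ} (N : Nt R m) (χ : Ev R) :
    (χ N.y).re = 1 - N.k * (χ N.g).re := by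
  have h : χ N.y = 1 - (N.k : ℂ) * χ N.g := by
    change χ.h (1 - N.K * N.g) = _
    rw [map_sub, map_mul, map_one]
    have h1 : χ.h N.K = (N.k : ℂ) := χ.hC _
    rw [h1]
  rw [h]
  simp

/-- the first integrals at a character -/
structure Cs (N : Nt Smb 4) (c a : ℝ) : Prop where
  hc : 0 < c
  ha : 0 ≤ a
  h1 : ∀ χ : Ev Smb, (χ N.F).re ^ 2 * (χ N.y).re ^ 3 = c
  h2 : ∀ χ : Ev Smb, χ (dot N.Ph N.Ph') = (a : ℂ)
  hy : ∀ χ : Ev Smb, 0 < (χ N.y).re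

lemma exists_cs (hG1 : ST_G1) (hI : ST_I) (hCON : ST_CON) (N : Nt Smb 4) (h5 : N.P5)
    (hy : ∀ p, 0 < (evb p N.y).re) : ∃ c a : ℝ, Cs N c a := by
  obtain ⟨i1, i2, i3, i4⟩ := hI Smb 4 N h5
  obtain ⟨c, hc⟩ := const_of hCON _ i1 i2
  obtain ⟨a, ha⟩ := const_of hCON _ i3 i4
  obtain ⟨-, -, -, hyr, -⟩ := hG1 Smb 4 N
  have hcv : ∀ χ : Ev Smb, (((χ N.F).re ^ 2 * (χ N.y).re ^ 3 : ℝ) : ℂ) = c := by
    intro χ
    have e1 : χ.h (N.F * N.F * N.y * N.y * N.y) = c := by rw [hc]; exact χ.hC c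
    simp only [map_mul] at e1
    have e2 : χ.h N.F = ((χ N.F).re : ℂ) := val_real χ N.hFr
    have e3 : χ.h N.y = ((χ N.y).re : ℂ) := val_real χ hyr
    rw [e2, e3] at e1
    rw [← e1]
    push_cast
    ring
  have hav : ∀ χ : Ev Smb, χ (dot N.Ph N.Ph') = a := by
    intro χ
    rw [ha]; exact χ.hC a
  have hcr : ∀ χ : Ev Smb, (χ N.F).re ^ 2 * (χ N.y).re ^ 3 = c.re := by
    intro χ
    rw [← hcv χ, Complex.ofReal_re]
  have hcpos : 0 < c.re := by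
    rw [← hcr (evb (0, 0))]
    have := hy (0, 0)
    have := F_pos N (evb (0, 0))
    positivity
  have haq : a = ((∑ i, ‖(evb (0, 0)) (N.Ph i)‖ ^ 2 : ℝ) : ℂ) := by
    rw [← hav (evb (0, 0))]
    exact (evb (0, 0)).dot_cjv N.Ph
  refine ⟨c.re, ∑ i, ‖(evb (0, 0)) (N.Ph i)‖ ^ 2, hcpos, by positivity, hcr, ?_, ?_⟩
  · intro χ
    rw [hav χ, haq]
  · intro χ
    have h1 := hcr χ
    have h2 := F_pos N χ
    by_contra hneg
    have h3 : (χ N.y).re ≤ 0 := not_lt.1 hneg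
    have h4 : (χ N.y).re ^ 3 ≤ 0 := by
      have : (χ N.y).re ^ 3 = (χ N.y).re * (χ N.y).re ^ 2 := by ring
      rw [this]
      exact mul_nonpos_of_nonpos_of_nonneg h3 (sq_nonneg _)
    have h6 : (χ N.F).re ^ 2 * (χ N.y).re ^ 3 ≤ 0 := mul_nonpos_of_nonneg_of_nonpos (sq_nonneg _) h4
    linarith

section
variable {N : Nt Smb 4} {c a : ℝ}

/-- the Laplacian of `g` at a character -/
lemma lap (hG1 : ST_G1) (hG4 : ST_G4) (hC : Cs N c a) (χ : Ev Smb) :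
    χ (D' (D N.g)) = ((2 * a - 2 * ((χ N.y).re * (χ N.F).re) : ℝ) : ℂ) := by
  obtain ⟨-, -, -, -, -, -, h1, -⟩ := hG4 Smb 4 N
  obtain ⟨-, -, -, hyr, -⟩ := hG1 Smb 4 N
  have e0 : χ.h (D' (D N.g)) = χ.h (2 * dot N.Ph N.Ph' - 2 * (N.y * N.F)) := by rw [h1]
  simp only [map_sub, map_mul, map_ofNat] at e0
  have e1 : χ.h (dot N.Ph N.Ph') = (a : ℂ) := hC.h2 χ
  have e2 : χ.h N.F = ((χ N.F).re : ℂ) := val_real χ N.hFr
  have e3 : χ.h N.y = ((χ N.y).re : ℂ) := val_real χ hyr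
  rw [e1, e2, e3] at e0
  change χ.h (D' (D N.g)) = _
  rw [e0]
  push_cast
  ring

/-- first conclusion: if `y F ≤ a` everywhere then `g` is constant -/
lemma concl1 (hG1 : ST_G1) (hG4 : ST_G4) (hLIO : ST_LIO) (hC : Cs N c a)
    (hb : ∃ C : ℝ, ∀ p, (evb p N.g).re ≤ C) (h : ∀ p, (evb p N.y).re * (evb p N.F).re ≤ a) :
    ∀ p p', evb p N.g = evb p' N.g := by
  obtain ⟨-, -, hgr, -⟩ := hG1 Smb 4 N
  obtain ⟨C, hb⟩ := hb
  refine hLIO (toSm N.g) (by rw [← toSm_cj, hgr]) (fun p => ?_) ⟨C, fun p => hb p⟩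
  have e := lap hG1 hG4 hC (evb p)
  have e' : ev p (D' (D (toSm N.g))) = ((2 * a - 2 * ((evb p N.y).re * (evb p N.F).re) : ℝ) : ℂ) := e
  rw [e', Complex.ofReal_re]
  have := h p
  linarith

/-- second conclusion: if `a ≤ y F` everywhere then `g` is constant -/
lemma concl2 (hG1 : ST_G1) (hG4 : ST_G4) (hLIO : ST_LIO) (hC : Cs N c a)
    (h : ∀ p, a ≤ (evb p N.y).re * (evb p N.F).re) :
    ∀ p p', evb p N.g = evb p' N.g := by
  obtain ⟨-, -, hgr, -⟩ := hG1 Smb 4 N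
  have key := hLIO (-(toSm N.g)) (by rw [map_neg, ← toSm_cj, hgr]) (fun p => ?_) ⟨0, fun p => ?_⟩
  · intro p p'
    have h1 := key p p'
    have h2 : (ev p).h (-(toSm N.g)) = (ev p').h (-(toSm N.g)) := h1
    rw [map_neg, map_neg, neg_inj] at h2
    exact h2
  · have e := lap hG1 hG4 hC (evb p)
    have e' : ev p (D' (D (toSm N.g))) = ((2 * a - 2 * ((evb p N.y).re * (evb p N.F).re) : ℝ) : ℂ) := e
    rw [D_neg, D'_neg]
    have e2 : ev p (-(D' (D (toSm N.g)))) = - ev p (D' (D (toSm N.g))) := map_neg (ev p).h _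
    rw [e2, e', Complex.neg_re, Complex.ofReal_re]
    have := h p
    linarith
  · have e2 : ev p (-(toSm N.g)) = - ev p (toSm N.g) := map_neg (ev p).h _
    rw [e2, Complex.neg_re]
    have : 0 ≤ (ev p (toSm N.g)).re := g_nonneg N (evb p)
    linarith

/-- derivatives of `g` in terms of `al` -/
lemma dal (hG2 : ST_G2) (χ : Ev Smb) : χ (D N.g) = 2 * χ N.al ∧ χ (D (D N.g)) = 2 * χ (D N.al) ∧
    χ (D' (D N.g)) = 2 * χ (D' N.al) := by
  obtain ⟨-, -, -, -, -, -, -, -, -, -, h, -⟩ := hG2 Smb 4 N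
  have d2 : D (2 : Smb) = 0 := D_ofNat 2
  have d2' : D' (2 : Smb) = 0 := D'_ofNat 2
  refine ⟨?_, ?_, ?_⟩
  · rw [h, map_mul, map_ofNat]
  · rw [h, D_mul, d2, zero_mul, zero_add, map_mul, map_ofNat]
  · rw [h, D'_mul, d2', zero_mul, zero_add, map_mul, map_ofNat]

/-- information at the supremum -/
lemma at_max (hG2 : ST_G2) (hCR : ST_CR) (hCR0 : ST_CR0) (hPMAX : ST_PMAX) (hPMAX0 : ST_PMAX0)
    (hC : Cs N c a) (h5 : N.P5) (hk : 0 < N.k) (χ : Ev Smb) (h0 : χ (D N.g) = 0)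
    (h1 : ‖χ (D (D N.g))‖ ≤ -(χ (D' (D N.g))).re) (hg : χ N.g ≠ 0) :
    ∃ t n : ℝ, 0 < t ∧ n ≤ 0 ∧ (χ N.y).re = 1 - t ∧ a = (χ N.F).re * ((1 - t) + n * t) ∧
      (5 / 8 ≤ t → n = 0) := by
  obtain ⟨e1, e2, e3⟩ := dal (N := N) hG2 χ
  have hal : χ N.al = 0 := by
    rw [h0] at e1
    have := e1.symm
    simpa using this
  have h1' : ‖χ (D N.al)‖ ≤ -(χ (D' N.al)).re := by
    rw [e2, e3, norm_mul] at h1
    have n2 : ‖(2 : ℂ)‖ = 2 := by simp
    rw [n2] at h1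
    have r2 : (2 * χ (D' N.al)).re = 2 * (χ (D' N.al)).re := by simp
    rw [r2] at h1
    linarith
  by_cases hV : χ N.V = 0
  · obtain ⟨t, n, s, β, c', ε, ht, ht0, ht1, hβ, hβc, hε, hn, hc, hs, hn1, hn2, ha, -⟩ :=
      hCR0 Smb N χ h5 hk hal hg hV (hC.hy χ)
    rw [hn1, hn2] at h1'
    have h2 : |1 - 2 * t| * β ≤ -n := by
      have : s * (|1 - 2 * t| * β) ≤ s * (-n) := by linarith
      exact le_of_mul_le_mul_left this hs
    have h3 : 0 ≤ |1 - 2 * t| * β := mul_nonneg (abs_nonneg _) hβ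
    refine ⟨t, n, ht0, by linarith, by rw [y_val, ht], ?_, fun h58 => ?_⟩
    · rw [← ha, hC.h2 χ, Complex.ofReal_re]
    · exact absurd h2 (hPMAX0 t n β c' h58 ht1 hβ hβc hn hc)
  · obtain ⟨t, w, n, s, b, ht, ht0, ht1, hw, hn, hb, hs, hn1, hn2, ha, hR1, hR2⟩ :=
      hCR Smb N χ h5 hk hal hg hV (hC.hy χ)
    rw [hn1, hn2] at h1'
    have h2 : ‖((1 - 2 * t : ℝ) : ℂ) * b + (w : ℂ)‖ ≤ -n := by
      have : s * ‖((1 - 2 * t : ℝ) : ℂ) * b + (w : ℂ)‖ ≤ s * (-n) := by linarith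
      exact le_of_mul_le_mul_left this hs
    have h3 := norm_nonneg (((1 - 2 * t : ℝ) : ℂ) * b + (w : ℂ))
    refine ⟨t, n, ht0, by linarith, by rw [y_val, ht], ?_, fun h58 => ?_⟩
    · rw [← ha, hC.h2 χ, Complex.ofReal_re]
    · exact hPMAX t w n b h58 ht1 hw hn hb hR1 hR2 h2

/-- information at the infimum -/
lemma at_min (hG2 : ST_G2) (hG4 : ST_G4) (hCR : ST_CR) (hCR0 : ST_CR0) (hZERO : ST_ZERO)
    (hPMIN : ST_PMIN) (hPMIN0 : ST_PMIN0)
    (hC : Cs N c a) (h5 : N.P5) (hk : 0 < N.k) (χ : Ev Smb) (h0 : χ (D N.g) = 0)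
    (h1 : ‖χ (D (D N.g))‖ ≤ (χ (D' (D N.g))).re) (hG1 : ST_G1) :
    a = (χ N.y).re * (χ N.F).re ∨ 8 * c ≤ 3 * a ^ 2 := by
  by_cases hg : χ N.g = 0
  · left
    obtain ⟨-, -, -, -, -, -, -, h8⟩ := hG4 Smb 4 N
    obtain ⟨-, -, -, hyr, -⟩ := hG1 Smb 4 N
    have hV := hZERO Smb N χ h5 hk hg
    have hq : χ N.q = 0 := by
      change χ (dot N.ps (Dv N.A)) = 0
      rw [χ.dot]
      refine Finset.sum_eq_zero fun i _ => ?_
      rw [ps_zero N χ hg i, zero_mul]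
    have hy1 : (χ N.y).re = 1 := by
      rw [y_val, hg]; simp
    have e0 : χ.h (dot N.Ph N.Ph') = χ.h (N.y * N.y * N.F + N.q * N.q' * N.G + N.V) := by rw [h8]
    simp only [map_add, map_mul] at e0
    have e1 : χ.h (dot N.Ph N.Ph') = (a : ℂ) := hC.h2 χ
    have e2 : χ.h N.F = ((χ N.F).re : ℂ) := val_real χ N.hFr
    have e3 : χ.h N.y = ((χ N.y).re : ℂ) := val_real χ hyr
    have e4 : χ.h N.q = 0 := hq
    have e5 : χ.h N.V = 0 := hV
    rw [e1, e2, e3, e4, e5, hy1] at e0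
    rw [hy1]
    have e6 : (a : ℂ) = ((1 * (χ N.F).re : ℝ) : ℂ) := by rw [e0]; push_cast; ring
    exact_mod_cast e6
  · obtain ⟨e1, e2, e3⟩ := dal (N := N) hG2 χ
    have hal : χ N.al = 0 := by
      rw [h0] at e1
      have := e1.symm
      simpa using this
    have h1' : ‖χ (D N.al)‖ ≤ (χ (D' N.al)).re := by
      rw [e2, e3, norm_mul] at h1
      have n2 : ‖(2 : ℂ)‖ = 2 := by simp
      rw [n2] at h1
      have r2 : (2 * χ (D' N.al)).re = 2 * (χ (D' N.al)).re := by simp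
      rw [r2] at h1
      linarith
    have fin : ∀ t n : ℝ, t = N.k * (χ N.g).re → a = (χ N.F).re * ((1 - t) + n * t) →
        (n = 0 ∨ 8 * (1 - t) ^ 3 ≤ 3 * ((1 - t) + n * t) ^ 2) →
        a = (χ N.y).re * (χ N.F).re ∨ 8 * c ≤ 3 * a ^ 2 := by
      intro t n ht ha hor
      have hyt : (χ N.y).re = 1 - t := by rw [y_val, ht]
      rcases hor with h | h
      · left
        rw [ha, h, hyt]; ring
      · right
        rw [← hC.h1 χ, hyt, ha]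
        have hF2 : 0 ≤ (χ N.F).re ^ 2 := sq_nonneg _
        have := mul_le_mul_of_nonneg_left h hF2
        linarith [this]
    by_cases hV : χ N.V = 0
    · obtain ⟨t, n, s, β, c', ε, ht, ht0, ht1, hβ, hβc, hε, hn, hc, hs, hn1, hn2, ha, hor⟩ :=
        hCR0 Smb N χ h5 hk hal hg hV (hC.hy χ)
      rw [hn1, hn2] at h1'
      have h2 : |1 - 2 * t| * β ≤ n := le_of_mul_le_mul_left h1' hs
      have ha' : a = (χ N.F).re * ((1 - t) + n * t) := by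
        rw [← ha, hC.h2 χ, Complex.ofReal_re]
      refine fin t n ht ha' ?_
      rcases hor with h | ⟨h3, h4, h6⟩
      · exfalso
        rw [h] at hn h2
        have : n < 0 := by rw [hn]; nlinarith
        rw [mul_zero] at h2
        linarith
      · exact hPMIN0 t n β c' ε ht0 ht1 hβ hβc hε hn hc h3 h4 h6 h2
    · obtain ⟨t, w, n, s, b, ht, ht0, ht1, hw, hn, hb, hs, hn1, hn2, ha, hR1, hR2⟩ :=
        hCR Smb N χ h5 hk hal hg hV (hC.hy χ)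
      rw [hn1, hn2] at h1'
      have h2 : ‖((1 - 2 * t : ℝ) : ℂ) * b + (w : ℂ)‖ ≤ n := le_of_mul_le_mul_left h1' hs
      have ha' : a = (χ N.F).re * ((1 - t) + n * t) := by
        rw [← ha, hC.h2 χ, Complex.ofReal_re]
      exact fin t n ht ha' (hPMIN t w n b ht0 ht1 hw hn hb hR1 h2)

end

/-- comparison of `y F` at two characters -/
lemma cmp {F y F1 y1 : ℝ} (_hF : 0 < F) (_hy : 0 < y) (hF1 : 0 < F1) (hy1 : 0 < y1)
    (h : F ^ 2 * y ^ 3 = F1 ^ 2 * y1 ^ 3) (hle : y1 ≤ y) : y * F ≤ y1 * F1 := by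
  by_contra hcon
  have h1 : y1 * F1 < y * F := not_le.1 hcon
  have h2 : (y1 * F1) ^ 2 < (y * F) ^ 2 := by
    apply pow_lt_pow_left₀ h1 (by positivity) two_ne_zero
  have h3 : (y1 * F1) ^ 2 * y1 < (y * F) ^ 2 * y := by
    calc (y1 * F1) ^ 2 * y1 < (y * F) ^ 2 * y1 := mul_lt_mul_of_pos_right h2 hy1
      _ ≤ (y * F) ^ 2 * y := mul_le_mul_of_nonneg_left hle (sq_nonneg _)
  nlinarith [h3, h]

theorem st_ASMb (hG1 : ST_G1) (hG2 : ST_G2) (hG4 : ST_G4) (hI : ST_I) (hCON : ST_CON) (hLIO : ST_LIO)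
    (hULT : ST_ULT) (hCR : ST_CR) (hCR0 : ST_CR0) (hZERO : ST_ZERO) (hPMIN : ST_PMIN)
    (hPMAX : ST_PMAX) (hPMIN0 : ST_PMIN0) (hPMAX0 : ST_PMAX0) : ST_ASMb := by
  intro N h5 hk hy
  obtain ⟨c, a, hC⟩ := exists_cs hG1 hI hCON N h5 hy
  obtain ⟨-, -, hgr, -⟩ := hG1 Smb 4 N
  obtain ⟨χ1, hs1, hd1, hl1⟩ := hULT N.g hgr
  by_cases hg1 : χ1 N.g = 0
  · have hz : ∀ p, evb p N.g = 0 := by
      intro p
      have h1 := hs1 p
      rw [hg1, Complex.zero_re] at h1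
      have h2 := g_nonneg N (evb p)
      rw [val_real (evb p) hgr, le_antisymm h1 h2, Complex.ofReal_zero]
    intro p p'
    rw [hz p, hz p']
  obtain ⟨t1, n1, ht1, hn1, hy1, ha1, h58⟩ := at_max hG2 hCR hCR0 hPMAX hPMAX0 hC h5 hk χ1 hd1 hl1 hg1
  -- the infimum
  obtain ⟨χ0, hs0, hd0, hl0⟩ := hULT (-N.g) (by rw [map_neg, hgr])
  have hs0' : ∀ p, (χ0 N.g).re ≤ (evb p N.g).re := by
    intro p
    have h1 := hs0 p
    have e1 : evb p (-N.g) = - evb p N.g := map_neg (evb p).h _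
    have e2 : χ0 (-N.g) = - χ0 N.g := map_neg χ0.h _
    rw [e1, e2, Complex.neg_re, Complex.neg_re] at h1
    linarith
  have hd0' : χ0 (D N.g) = 0 := by
    rw [D_neg] at hd0
    have e2 : χ0 (-(D N.g)) = - χ0 (D N.g) := map_neg χ0.h _
    rw [e2, neg_eq_zero] at hd0
    exact hd0
  have hl0' : ‖χ0 (D (D N.g))‖ ≤ (χ0 (D' (D N.g))).re := by
    rw [D_neg, D_neg, D'_neg] at hl0
    have e2 : χ0 (-(D (D N.g))) = - χ0 (D (D N.g)) := map_neg χ0.h _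
    have e3 : χ0 (-(D' (D N.g))) = - χ0 (D' (D N.g)) := map_neg χ0.h _
    rw [e2, e3, norm_neg, Complex.neg_re, neg_neg] at hl0
    exact hl0
  rcases at_min hG2 hG4 hCR hCR0 hZERO hPMIN hPMIN0 hC h5 hk χ0 hd0' hl0' hG1 with h | h
  · -- `a = y F` at the infimum
    refine concl2 hG1 hG4 hLIO hC fun p => ?_
    have hyp : (evb p N.y).re ≤ (χ0 N.y).re := by
      rw [y_val, y_val]
      have := mul_le_mul_of_nonneg_left (hs0' p) hk.le
      linarith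
    rw [h]
    exact cmp (F_pos N χ0) (hC.hy χ0) (F_pos N (evb p)) (hC.hy (evb p))
      (by rw [hC.h1, hC.h1]) hyp
  · have hF1 := F_pos N χ1
    have hyy := hC.hy χ1
    have hc1 := hC.h1 χ1
    have hcpos := hC.hc
    have ha0 := hC.ha
    have hle : a ≤ (χ1 N.F).re * (χ1 N.y).re := by
      rw [ha1, hy1]
      have : n1 * t1 ≤ 0 := mul_nonpos_of_nonpos_of_nonneg hn1 ht1.le
      have := mul_le_mul_of_nonneg_left (show (1 - t1) + n1 * t1 ≤ 1 - t1 by linarith) hF1.le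
      exact this
    have hsq : a ^ 2 ≤ ((χ1 N.F).re * (χ1 N.y).re) ^ 2 := pow_le_pow_left₀ ha0 hle 2
    have h2 : a ^ 2 * (χ1 N.y).re ≤ c := by
      rw [← hc1]
      calc a ^ 2 * (χ1 N.y).re ≤ ((χ1 N.F).re * (χ1 N.y).re) ^ 2 * (χ1 N.y).re :=
            mul_le_mul_of_nonneg_right hsq hyy.le
        _ = (χ1 N.F).re ^ 2 * (χ1 N.y).re ^ 3 := by ring
    have h3 : (χ1 N.y).re ≤ 3 / 8 := by
      by_contra hcon
      have h4 : 3 / 8 < (χ1 N.y).re := not_le.1 hcon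
      have h5' : 0 < a ^ 2 := by linarith
      have := mul_lt_mul_of_pos_left h4 h5'
      linarith
    have h4 : n1 = 0 := h58 (by linarith)
    have h6 : a = (χ1 N.y).re * (χ1 N.F).re := by
      rw [hy1]; rw [h4] at ha1; rw [ha1]; ring
    refine concl1 hG1 hG4 hLIO hC ⟨_, hs1⟩ fun p => ?_
    have hyp : (χ1 N.y).re ≤ (evb p N.y).re := by
      rw [y_val, y_val]
      have := mul_le_mul_of_nonneg_left (hs1 p) hk.le
      linarith
    rw [h6]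
    exact cmp (F_pos N (evb p)) (hC.hy (evb p)) hF1 hyy (by rw [hC.h1, hC.h1]) hyp

end N231
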