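import Mathlib

/-!
Coverings of complete geometric graphs by noncrossing paths: definitions.
Points of the plane are elements of `ℝ × ℝ`.
-/

namespace Pool.Agent.Helper31.PathCover

/-- The finite point set `A` is in general position: no three of its points are collinear. -/
def GeneralPosition (A : Finset (ℝ × ℝ)) : Prop :=
  ∀ a ∈ A, ∀ b ∈ A, ∀ c ∈ A, a ≠ b → a ≠ c → b ≠ c → ¬ Collinear ℝ ({a, b, c} : Set (ℝ × ℝ))

/-- A noncrossing path in the complete geometric graph on `A`: distinct points
`v 0, …, v len` of `A` (with `len ≥ 1` edges), such that two different edges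
`v i v (i+1)` and `v j v (j+1)` share no point other than a common endpoint. -/
structure NoncrossingPath (A : Finset (ℝ × ℝ)) where
  /-- number of edges -/
  len : ℕ
  len_pos : 1 ≤ len
  /-- vertices -/
  v : Fin (len + 1) → ℝ × ℝ
  mem : ∀ i, v i ∈ A
  inj : Function.Injective v
  noncrossing : ∀ i j : Fin len, i ≠ j →
    ∀ x ∈ segment ℝ (v i.castSucc) (v i.succ) ∩ segment ℝ (v j.castSucc) (v j.succ),
      (x = v i.castSucc ∨ x = v i.succ) ∧ (x = v j.castSucc ∨ x = v j.succ)

/-- The path `P` contains the edge `ab`. -/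
def NoncrossingPath.Uses {A : Finset (ℝ × ℝ)} (P : NoncrossingPath A) (a b : ℝ × ℝ) : Prop :=
  ∃ i : Fin P.len, (P.v i.castSucc = a ∧ P.v i.succ = b) ∨ (P.v i.castSucc = b ∧ P.v i.succ = a)

/-- The family `P 0, …, P (k - 1)` covers all edges of the complete geometric graph on `A`. -/
def IsCovering (A : Finset (ℝ × ℝ)) (k : ℕ) (P : Fin k → NoncrossingPath A) : Prop :=
  ∀ a ∈ A, ∀ b ∈ A, a ≠ b → ∃ j, (P j).Uses a b

/-- `p(A)`: the minimum number of noncrossing paths in a covering of the edges of the complete
geometric graph on `A`. -/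
noncomputable def pathCoverNumber (A : Finset (ℝ × ℝ)) : ℕ :=
  sInf {k : ℕ | ∃ P : Fin k → NoncrossingPath A, IsCovering A k P}

end Pool.Agent.Helper31.PathCover
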