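import Pool.Agent.Helper31.PathCoverDefs

open Finset

namespace Pool.Agent.Helper31.PathCover

def det (a b c : ℝ × ℝ) : ℝ := (b.1 - a.1) * (c.2 - a.2) - (b.2 - a.2) * (c.1 - a.1)

def Cross (a b c d : ℝ × ℝ) : Prop := det a b c * det a b d < 0 ∧ det c d a * det c d b < 0

lemma Cross.meet {a b c d : ℝ × ℝ} (h : Cross a b c d) :
    ∃ x, x ∈ segment ℝ a b ∩ segment ℝ c d := by
  obtain ⟨h1, h2⟩ := h
  set r := det a b c with hr
  set s := det a b d with hs
  set p := det c d a with hp
  set q := det c d b with hq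
  have hrs : r - s ≠ 0 := by
    intro h0
    have : r = s := by linarith
    rw [this] at h1
    nlinarith [mul_self_nonneg s]
  have hpq : p - q ≠ 0 := by
    intro h0
    have : p = q := by linarith
    rw [this] at h2
    nlinarith [mul_self_nonneg q]
  have key : p - q = s - r := by
    simp only [hr, hs, hp, hq, det]; ring
  -- parameter on ab : t = p / (p - q)
  have ht : 0 ≤ p / (p - q) ∧ p / (p - q) ≤ 1 := by
    rcases lt_or_gt_of_ne hpq with h | h
    · have hp0 : p ≤ 0 := by nlinarith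
      have hq0 : 0 ≤ q := by nlinarith
      constructor
      · exact div_nonneg_of_nonpos hp0 h.le
      · rw [div_le_one_of_neg h]; linarith
    · have hp0 : 0 ≤ p := by nlinarith
      have hq0 : q ≤ 0 := by nlinarith
      constructor
      · exact div_nonneg hp0 h.le
      · rw [div_le_one h]; linarith
  have hu : 0 ≤ r / (r - s) ∧ r / (r - s) ≤ 1 := by
    rcases lt_or_gt_of_ne hrs with h | h
    · have hp0 : r ≤ 0 := by nlinarith
      have hq0 : 0 ≤ s := by nlinarith
      constructor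
      · exact div_nonneg_of_nonpos hp0 h.le
      · rw [div_le_one_of_neg h]; linarith
    · have hp0 : 0 ≤ r := by nlinarith
      have hq0 : s ≤ 0 := by nlinarith
      constructor
      · exact div_nonneg hp0 h.le
      · rw [div_le_one h]; linarith
  refine ⟨a + (p / (p - q)) • (b - a), ?_, ?_⟩
  · rw [segment_eq_image']
    exact ⟨p / (p - q), ht, rfl⟩
  · rw [segment_eq_image']
    refine ⟨r / (r - s), hu, ?_⟩
    have hsr : s - r ≠ 0 := by rwa [← key]
    ext
    · simp only [Prod.fst_add, Prod.smul_fst, Prod.fst_sub, smul_eq_mul]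
      rw [key]
      have : r / (r - s) = - r / (s - r) := by
        rw [← neg_sub s r, div_neg, neg_div]
      rw [this]
      field_simp
      simp only [hr, hs, hp, det]; ring
    · simp only [Prod.snd_add, Prod.smul_snd, Prod.snd_sub, smul_eq_mul]
      rw [key]
      have : r / (r - s) = - r / (s - r) := by
        rw [← neg_sub s r, div_neg, neg_div]
      rw [this]
      field_simp
      simp only [hr, hs, hp, det]; ring

lemma Cross.ne {a b c d : ℝ × ℝ} (h : Cross a b c d) : a ≠ c ∧ a ≠ d ∧ b ≠ c ∧ b ≠ d := by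
  obtain ⟨h1, h2⟩ := h
  refine ⟨?_, ?_, ?_, ?_⟩
  · rintro rfl
    simp [det] at h1
  · rintro rfl
    simp [det] at h1
  · rintro rfl
    simp only [det] at h1
    ring_nf at h1
    simp at h1
  · rintro rfl
    simp only [det] at h1
    ring_nf at h1
    simp at h1

/-- index type: left points, right points `(j, z)`, extra points -/
abbrev Idx := ℕ ⊕ ((Σ _ : ℕ, ℕ) ⊕ ℕ)

noncomputable def base (q : ℝ) : Idx → ℝ × ℝ
  | .inl y => (0, -(y : ℝ))
  | .inr (.inl ⟨j, z⟩) => ((1 - q ^ (j + 1))⁻¹, (1 - q ^ (j + 1))⁻¹ * (q ^ j * z))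
  | .inr (.inr _) => (0, 0)

lemma base_cross (q : ℝ) (hq0 : 0 < q) (hq4 : 4 * q ≤ 1) (y j z y' j' z' : ℕ)
    (h1 : y' < y)
    (h2 : 0 < ((q ^ j * z - q ^ (j + 1) * y) - (q ^ j' * z' - q ^ (j' + 1) * y'))
      + q ^ (j + 1) * ((y : ℝ) - y'))
    (h3 : 0 < ((q ^ j * z - q ^ (j + 1) * y) - (q ^ j' * z' - q ^ (j' + 1) * y'))
      + q ^ (j' + 1) * ((y : ℝ) - y')) :
    Cross (base q (.inl y)) (base q (.inr (.inl ⟨j, z⟩))) (base q (.inl y'))
      (base q (.inr (.inl ⟨j', z'⟩))) := by
  have hr : ∀ k : ℕ, 0 < (1 - q ^ (k + 1))⁻¹ := by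
    intro k
    apply inv_pos.2
    have : q ^ (k + 1) ≤ q ^ 1 := pow_le_pow_of_le_one hq0.le (by linarith) (by omega)
    rw [pow_one] at this
    linarith
  have hX := hr j
  have hX' := hr j'
  have e1 : (1 - q ^ (j + 1)) * (1 - q ^ (j + 1))⁻¹ = 1 := by
    apply mul_inv_cancel₀
    intro h0
    rw [h0, inv_zero] at hX
    exact lt_irrefl _ hX
  have e2 : (1 - q ^ (j' + 1)) * (1 - q ^ (j' + 1))⁻¹ = 1 := by
    apply mul_inv_cancel₀
    intro h0
    rw [h0, inv_zero] at hX'
    exact lt_irrefl _ hX'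
  have hy : (0 : ℝ) < (y : ℝ) - y' := by
    have : (y' : ℝ) < y := by exact_mod_cast h1
    linarith
  simp only [Cross, det, base]
  set X := (1 - q ^ (j + 1))⁻¹ with hXd
  set X' := (1 - q ^ (j' + 1))⁻¹ with hXd'
  set r := q ^ (j + 1) with hrd
  set r' := q ^ (j' + 1) with hrd'
  have hXX : 0 < X * X' := mul_pos hX hX'
  constructor
  · apply mul_neg_of_pos_of_neg
    · nlinarith
    · have : (X - 0) * (X' * (q ^ j' * z') - -(y : ℝ)) - (X * (q ^ j * z) - -(y : ℝ)) * (X' - 0)
          = - (X * X' * (((q ^ j * z - r * y) - (q ^ j' * z' - r' * y')) + r' * ((y : ℝ) - y'))) := by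
        linear_combination (y : ℝ) * X' * e1 - (y : ℝ) * X * e2
      rw [this]
      have := mul_pos hXX h3
      linarith
  · apply mul_neg_of_neg_of_pos
    · nlinarith
    · have : (X' - 0) * (X * (q ^ j * z) - -(y' : ℝ)) - (X' * (q ^ j' * z') - -(y' : ℝ)) * (X - 0)
          = (X * X' * (((q ^ j * z - r * y) - (q ^ j' * z' - r' * y')) + r * ((y : ℝ) - y'))) := by
        linear_combination (y' : ℝ) * X * e2 - (y' : ℝ) * X' * e1
      rw [this]
      exact mul_pos hXX h2

/-- crossing is stable under small perturbations -/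
lemma cross_stable (a b c d : ℝ × ℝ) (h : Cross a b c d) :
    ∀ᶠ δ in nhdsWithin (0 : ℝ) (Set.Ioi 0), ∀ a' b' c' d' : ℝ × ℝ,
      dist a' a < δ → dist b' b < δ → dist c' c < δ → dist d' d < δ → Cross a' b' c' d' := by
  have hopen : IsOpen {p : (ℝ × ℝ) × (ℝ × ℝ) × (ℝ × ℝ) × (ℝ × ℝ) |
      Cross p.1 p.2.1 p.2.2.1 p.2.2.2} := by
    unfold Cross det
    apply IsOpen.and
    · apply isOpen_lt <;> fun_prop
    · apply isOpen_lt <;> fun_prop
  rw [Metric.isOpen_iff] at hopen
  obtain ⟨ε, hε, hb⟩ := hopen (a, b, c, d) h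
  have : Set.Ioo (0 : ℝ) ε ∈ nhdsWithin (0 : ℝ) (Set.Ioi 0) := Ioo_mem_nhdsGT hε
  filter_upwards [this] with δ hδ a' b' c' d' ha hb' hc hd
  have : (a', b', c', d') ∈ Metric.ball (a, b, c, d) ε := by
    simp only [Metric.mem_ball, Prod.dist_eq, max_lt_iff] at *
    refine ⟨⟨?_, ?_⟩, ⟨?_, ?_⟩, ⟨?_, ?_⟩, ?_, ?_⟩ <;> linarith [hδ.2, ha.1, ha.2, hb'.1, hb'.2, hc.1, hc.2, hd.1, hd.2]
  exact hb this

lemma line_ne_top (a b : ℝ × ℝ) : line[ℝ, a, b] ≠ ⊤ := by
  intro h
  have h1 : Module.finrank ℝ (vectorSpan ℝ ({a, b} : Set (ℝ × ℝ))) ≤ 1 :=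
    (collinear_pair ℝ a b).finrank_le_one
  have h2 : vectorSpan ℝ ({a, b} : Set (ℝ × ℝ)) = ⊤ := by
    rw [← direction_affineSpan, h, AffineSubspace.direction_top]
  rw [h2, finrank_top] at h1
  simp at h1

/-- In any ball there is a point avoiding finitely many points and lines through pairs of them -/
lemma exists_generic (S : Finset (ℝ × ℝ)) (z : ℝ × ℝ) (δ : ℝ) (hδ : 0 < δ) :
    ∃ x, dist x z < δ ∧ x ∉ S ∧ ∀ a ∈ S, ∀ b ∈ S, x ∉ line[ℝ, a, b] := by
  have h0 : MeasureTheory.volume (⋃ a ∈ S, ⋃ b ∈ S, (line[ℝ, a, b] : Set (ℝ × ℝ))) = 0 := by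
    refine (MeasureTheory.measure_biUnion_null_iff S.countable_toSet).2 fun a _ => ?_
    refine (MeasureTheory.measure_biUnion_null_iff S.countable_toSet).2 fun b _ => ?_
    exact MeasureTheory.Measure.addHaar_affineSubspace _ _ (line_ne_top a b)
  have h1 : 0 < MeasureTheory.volume (Metric.ball z δ) := Metric.measure_ball_pos _ _ hδ
  have h2 : ∃ x ∈ Metric.ball z δ, x ∉ ⋃ a ∈ S, ⋃ b ∈ S, (line[ℝ, a, b] : Set (ℝ × ℝ)) := by
    by_contra hcon
    push Not at hcon
    have : MeasureTheory.volume (Metric.ball z δ) ≤ 0 := by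
      rw [← h0]; exact MeasureTheory.measure_mono hcon
    exact absurd h1 (not_lt.mpr this)
  obtain ⟨x, hx, hx2⟩ := h2
  simp only [Set.mem_iUnion, not_exists, SetLike.mem_coe] at hx2
  refine ⟨x, hx, ?_, ?_⟩
  · intro hxS
    exact hx2 x hxS x hxS (left_mem_affineSpan_pair ℝ x x)
  · intro a ha b hb
    exact hx2 a ha b hb

lemma exists_config {τ : Type*} [DecidableEq τ] (z : τ → ℝ × ℝ) (δ : ℝ) (hδ : 0 < δ)
    (S : Finset τ) :
    ∃ f : τ → ℝ × ℝ, (∀ i ∈ S, dist (f i) (z i) < δ) ∧
      (∀ i ∈ S, ∀ j ∈ S, f i = f j → i = j) ∧ GeneralPosition (S.image f) := by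
  induction S using Finset.induction_on with
  | empty => exact ⟨fun _ => 0, by simp, by simp, by simp [GeneralPosition]⟩
  | insert n S hn ih =>
    obtain ⟨f, h1, h2, h3⟩ := ih
    obtain ⟨x, hx1, hx2, hx3⟩ := exists_generic (S.image f) (z n) δ hδ
    have hne : ∀ i ∈ S, i ≠ n := by
      rintro i hi rfl
      exact hn hi
    refine ⟨fun i => if i = n then x else f i, ?_, ?_, ?_⟩
    · intro i hi
      rcases mem_insert.1 hi with rfl | hi
      · simp [hx1]
      · simp only [hne i hi, if_false]; exact h1 i hi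
    · have hmem : ∀ i ∈ S, x ≠ f i := by
        intro i hi he
        exact hx2 (by rw [he]; exact mem_image_of_mem f hi)
      intro i hi j hj hij
      rcases mem_insert.1 hi with hi' | hi' <;> rcases mem_insert.1 hj with hj' | hj'
      · rw [hi', hj']
      · simp only [hi', hne j hj', if_true, if_false] at hij
        exact absurd hij (hmem j hj')
      · simp only [hj', hne i hi', if_true, if_false] at hij
        exact absurd hij.symm (hmem i hi')
      · simp only [hne i hi', hne j hj', if_false] at hij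
        exact h2 i hi' j hj' hij
    · have himg : (insert n S).image (fun i => if i = n then x else f i)
          = insert x (S.image f) := by
        rw [image_insert]
        simp only [if_true]
        congr 1
        apply image_congr
        intro i hi
        simp [hne i (mem_coe.1 hi)]
      rw [himg]
      intro a ha b hb c hc hab hac hbc hcol
      rw [mem_insert] at ha hb hc
      have hx3' : ∀ a ∈ S.image f, ∀ b ∈ S.image f, a ≠ b →
          ∀ T : Set (ℝ × ℝ), a ∈ T → b ∈ T → x ∈ T → ¬ Collinear ℝ T := by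
        intro a ha b hb hab T haT hbT hxT hT
        exact hx3 a ha b hb (hT.mem_affineSpan_of_mem_of_ne haT hbT hxT hab)
      rcases ha with rfl | ha
      · rcases hb with rfl | hb
        · exact hab rfl
        · rcases hc with rfl | hc
          · exact hac rfl
          · exact hx3' b hb c hc hbc _ (by simp) (by simp) (by simp) hcol
      · rcases hb with rfl | hb
        · rcases hc with rfl | hc
          · exact hbc rfl
          · exact hx3' a ha c hc hac _ (by simp) (by simp) (by simp) hcol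
        · rcases hc with rfl | hc
          · exact hx3' a ha b hb hab _ (by simp) (by simp) (by simp) hcol
          · exact h3 a ha b hb c hc hab hac hbc hcol

/-- weight bound: classes `≥ i` -/
lemma weight_bound {ι : Type*} [DecidableEq ι] (q : ℝ) (hq0 : 0 < q) (hq4 : 4 * q ≤ 1)
    (h : ι → ℤ) (c : ι → ℕ) (p : ι → ℝ) (L : ℕ) :
    ∀ (d i : ℕ), i + d = L → ∀ (S : Finset ι) (a b : ℝ), a ≤ b →
      (∀ s ∈ S, i ≤ c s ∧ c s < L) → (∀ s ∈ S, a ≤ p s ∧ p s ≤ b) →
      (∀ s ∈ S, ∀ t ∈ S, h s = h t → s = t) →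
      (∀ s ∈ S, ∀ t ∈ S, h s < h t → p s ≤ p t) →
      (∀ s ∈ S, ∀ t ∈ S, c s = c t → h s < h t →
        q ^ (c s) + q ^ (c s + 1) * ((h t : ℝ) - h s) ≤ p t - p s) →
      ∑ s ∈ S, q ^ (c s) ≤ b - a + 2 * q ^ i := by
  have hq1 : q ≤ 1 := by linarith
  intro d
  induction d with
  | zero =>
    intro i hi S a b hab hc _ _ _ _
    have hS : S = ∅ := by
      rw [Finset.eq_empty_iff_forall_notMem]
      intro s hs
      have := hc s hs
      omega
    subst hS
    simp only [sum_empty]
    have := pow_pos hq0 i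
    linarith
  | succ d ih =>
    intro i hi S a b hab hc hp hinj hmono hsame
    have ih' := ih (i + 1) (by omega)
    have hwi : 0 < q ^ i := pow_pos hq0 i
    have hwi1 : 0 < q ^ (i + 1) := pow_pos hq0 (i + 1)
    have hw4 : 4 * q ^ (i + 1) ≤ q ^ i := by
      rw [pow_succ]; nlinarith
    have hwle : ∀ j, i + 1 ≤ j → q ^ j ≤ q ^ (i + 1) := fun j hj =>
      pow_le_pow_of_le_one hq0.le hq1 hj
    -- claim for sets whose top element has class i
    have claim : ∀ (m : ℕ) (S' : Finset ι), S'.card ≤ m → S' ⊆ S → ∀ f ∈ S', c f = i →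
        (∀ s ∈ S', h s ≤ h f) → ∑ s ∈ S', q ^ (c s) ≤ p f - a + 2 * q ^ (i + 1) + q ^ i := by
      intro m
      induction m with
      | zero =>
        intro S' hcard hS' f hf
        have : S' = ∅ := by simpa using hcard
        subst this
        simp at hf
      | succ m ihm =>
        intro S' hcard hS' f hf hcf htop
        set S1 := S'.filter (fun s => h s < h f) with hS1
        have hsplit : S' = insert f S1 := by
          ext s
          simp only [hS1, mem_insert, mem_filter]
          constructor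
          · intro hs
            by_cases hsf : s = f
            · exact Or.inl hsf
            · right
              refine ⟨hs, lt_of_le_of_ne (htop s hs) ?_⟩
              intro he
              exact hsf (hinj s (hS' hs) f (hS' hf) he)
          · rintro (rfl | ⟨hs, _⟩)
            · exact hf
            · exact hs
        have hfS1 : f ∉ S1 := by simp [hS1]
        rw [hsplit, sum_insert hfS1, hcf]
        by_cases hF : ∃ s ∈ S1, c s = i
        · -- previous class-i element
          have hFne : (S1.filter (fun s => c s = i)).Nonempty := by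
            obtain ⟨s, hs, hcs⟩ := hF
            exact ⟨s, mem_filter.2 ⟨hs, hcs⟩⟩
          obtain ⟨g, hg, hgmax⟩ := exists_max_image _ h hFne
          rw [mem_filter] at hg
          obtain ⟨hgS1, hcg⟩ := hg
          have hgS' : g ∈ S' := (mem_filter.1 hgS1).1
          have hgf : h g < h f := (mem_filter.1 hgS1).2
          set S2 := S1.filter (fun s => h s ≤ h g) with hS2
          set B := S1.filter (fun s => h g < h s) with hB
          have hsplit2 : S1 = S2 ∪ B := by
            ext s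
            simp only [hS2, hB, mem_union, mem_filter]
            constructor
            · intro hs
              rcases le_or_gt (h s) (h g) with h1 | h1
              · exact Or.inl ⟨hs, h1⟩
              · exact Or.inr ⟨hs, h1⟩
            · rintro (⟨h1, _⟩ | ⟨h1, _⟩) <;> exact h1
          have hdisj : Disjoint S2 B := by
            rw [hS2, hB, disjoint_filter]
            intro s _ h1
            exact not_lt.2 h1
          have hsub2 : S2 ⊆ S' := fun s hs => (mem_filter.1 (mem_filter.1 hs).1).1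
          have hsubB : B ⊆ S' := fun s hs => (mem_filter.1 (mem_filter.1 hs).1).1
          have hcardS1 : S1.card + 1 ≤ m + 1 := by
            rw [hsplit, card_insert_of_notMem hfS1] at hcard
            exact hcard
          have hS2le : ∑ s ∈ S2, q ^ (c s) ≤ p g - a + 2 * q ^ (i + 1) + q ^ i := by
            apply ihm S2
            · have : S2.card ≤ S1.card := card_le_card (filter_subset _ _)
              omega
            · exact hsub2.trans hS'
            · exact mem_filter.2 ⟨hgS1, le_rfl⟩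
            · exact hcg
            · intro s hs
              exact (mem_filter.1 hs).2
          have hBc : ∀ s ∈ B, q ^ (c s) ≤ q ^ (i + 1) := by
            intro s hs
            apply hwle
            have h1 := (hc s (hS' (hsubB hs))).1
            rcases Nat.lt_or_ge i (c s) with h2 | h2
            · exact h2
            · exfalso
              have h3 : c s = i := le_antisymm h2 h1
              have h4 := hgmax s (mem_filter.2 ⟨(mem_filter.1 hs).1, h3⟩)
              have h5 := (mem_filter.1 hs).2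
              omega
          have hBcard : (B.card : ℝ) ≤ (h f : ℝ) - h g := by
            have h1 : B.card ≤ (Finset.Ioo (h g) (h f)).card := by
              apply card_le_card_of_injOn h
              · intro s hs
                have h5 := (mem_filter.1 (mem_coe.1 hs)).2
                have h6 := (mem_filter.1 (mem_filter.1 (mem_coe.1 hs)).1).2
                simp only [coe_Ioo, Set.mem_Ioo]
                exact ⟨h5, h6⟩
              · intro s hs t ht hst
                exact hinj s (hS' (hsubB (mem_coe.1 hs))) t (hS' (hsubB (mem_coe.1 ht))) hst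
            have h2 : ((Finset.Ioo (h g) (h f)).card : ℤ) ≤ h f - h g := by
              rw [Int.card_Ioo]; omega
            have h3 : (B.card : ℤ) ≤ h f - h g := le_trans (by exact_mod_cast h1) h2
            exact_mod_cast h3
          have hBle : ∑ s ∈ B, q ^ (c s) ≤ q ^ (i + 1) * ((h f : ℝ) - h g) := by
            calc ∑ s ∈ B, q ^ (c s) ≤ ∑ s ∈ B, q ^ (i + 1) := sum_le_sum hBc
              _ = B.card * q ^ (i + 1) := by rw [sum_const, nsmul_eq_mul]
              _ ≤ ((h f : ℝ) - h g) * q ^ (i + 1) := mul_le_mul_of_nonneg_right hBcard hwi1.le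
              _ = _ := mul_comm _ _
          have hstep := hsame g (hS' hgS') f (hS' hf) (by rw [hcg, hcf]) hgf
          rw [hcg] at hstep
          rw [hsplit2, sum_union hdisj]
          linarith
        · -- no other class-i element
          push Not at hF
          have hsub1 : S1 ⊆ S := (filter_subset _ _).trans hS'
          have h1 : ∑ s ∈ S1, q ^ (c s) ≤ p f - a + 2 * q ^ (i + 1) := by
            apply ih' S1 a (p f)
            · exact (hp f (hS' hf)).1
            · intro s hs
              refine ⟨?_, (hc s (hsub1 hs)).2⟩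
              have h1 := (hc s (hsub1 hs)).1
              have h2 := hF s hs
              omega
            · intro s hs
              exact ⟨(hp s (hsub1 hs)).1, hmono s (hsub1 hs) f (hS' hf) (mem_filter.1 hs).2⟩
            · exact fun s hs t ht => hinj s (hsub1 hs) t (hsub1 ht)
            · exact fun s hs t ht => hmono s (hsub1 hs) t (hsub1 ht)
            · exact fun s hs t ht => hsame s (hsub1 hs) t (hsub1 ht)
          linarith
    by_cases hF : ∃ s ∈ S, c s = i
    · have hFne : (S.filter (fun s => c s = i)).Nonempty := by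
        obtain ⟨s, hs, hcs⟩ := hF
        exact ⟨s, mem_filter.2 ⟨hs, hcs⟩⟩
      obtain ⟨f, hf, hfmax⟩ := exists_max_image _ h hFne
      rw [mem_filter] at hf
      obtain ⟨hfS, hcf⟩ := hf
      set S1 := S.filter (fun s => h s ≤ h f) with hS1
      set S2 := S.filter (fun s => h f < h s) with hS2
      have hsplit : S = S1 ∪ S2 := by
        ext s
        simp only [hS1, hS2, mem_union, mem_filter]
        constructor
        · intro hs
          rcases le_or_gt (h s) (h f) with h1 | h1
          · exact Or.inl ⟨hs, h1⟩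
          · exact Or.inr ⟨hs, h1⟩
        · rintro (⟨h1, _⟩ | ⟨h1, _⟩) <;> exact h1
      have hdisj : Disjoint S1 S2 := by
        rw [hS1, hS2, disjoint_filter]
        intro s _ h1
        exact not_lt.2 h1
      have hsub1 : S1 ⊆ S := filter_subset _ _
      have hsub2 : S2 ⊆ S := filter_subset _ _
      have h1 : ∑ s ∈ S1, q ^ (c s) ≤ p f - a + 2 * q ^ (i + 1) + q ^ i := by
        apply claim S1.card S1 le_rfl hsub1 f (mem_filter.2 ⟨hfS, le_rfl⟩) hcf
        intro s hs
        exact (mem_filter.1 hs).2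
      have h2 : ∑ s ∈ S2, q ^ (c s) ≤ b - p f + 2 * q ^ (i + 1) := by
        apply ih' S2 (p f) b
        · exact (hp f hfS).2
        · intro s hs
          refine ⟨?_, (hc s (hsub2 hs)).2⟩
          have h1 := (hc s (hsub2 hs)).1
          rcases Nat.lt_or_ge i (c s) with h2 | h2
          · exact h2
          · exfalso
            have h3 : c s = i := le_antisymm h2 h1
            have h4 := hfmax s (mem_filter.2 ⟨hsub2 hs, h3⟩)
            have h5 := (mem_filter.1 hs).2
            omega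
        · intro s hs
          exact ⟨hmono f hfS s (hsub2 hs) (mem_filter.1 hs).2, (hp s (hsub2 hs)).2⟩
        · exact fun s hs t ht => hinj s (hsub2 hs) t (hsub2 ht)
        · exact fun s hs t ht => hmono s (hsub2 hs) t (hsub2 ht)
        · exact fun s hs t ht => hsame s (hsub2 hs) t (hsub2 ht)
      rw [hsplit, sum_union hdisj]
      linarith
    · push Not at hF
      have h1 : ∑ s ∈ S, q ^ (c s) ≤ b - a + 2 * q ^ (i + 1) := by
        apply ih' S a b hab
        · intro s hs
          refine ⟨?_, (hc s hs).2⟩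
          have h1 := (hc s hs).1
          have h2 := hF s hs
          omega
        · exact hp
        · exact hinj
        · exact hmono
        · exact hsame
      linarith

/-- weights of ordered pairs of indices; `q = 1 / m` -/
noncomputable def wt (m : ℕ) : Idx → Idx → ℝ
  | .inl y, .inr (.inl ⟨j, z⟩) =>
      if y / m ≤ z ∧ z < y / m + 3 * m ^ j then ((m : ℝ)⁻¹) ^ j else 0
  | _, _ => 0

lemma wt_nonneg (m : ℕ) (u v : Idx) : 0 ≤ wt m u v := by
  unfold wt
  split
  · split_ifs
    · positivity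
    · exact le_rfl
  · exact le_rfl

lemma exists_of_wt_ne {m : ℕ} {u v : Idx} (h : wt m u v ≠ 0) :
    ∃ y j z, u = .inl y ∧ v = .inr (.inl ⟨j, z⟩) ∧ y / m ≤ z ∧ z < y / m + 3 * m ^ j ∧
      wt m u v = ((m : ℝ)⁻¹) ^ j := by
  unfold wt at h
  split at h
  · rename_i y j z
    split_ifs at h with h1
    · exact ⟨y, j, z, rfl, rfl, h1.1, h1.2, by simp [wt, h1]⟩
    · exact absurd rfl h
  · exact absurd rfl h

/-- a noncrossing matching has weight at most six -/
lemma matching_bound {m L len : ℕ} (hm : 4 ≤ m) (a b : Fin len → Idx)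
    (ha : Function.Injective a) (hb : Function.Injective b)
    (hL : ∀ s j z, b s = .inr (.inl ⟨j, z⟩) → j < L)
    (hnc : ∀ s t, s ≠ t → ¬ Cross (base (m : ℝ)⁻¹ (a s)) (base (m : ℝ)⁻¹ (b s))
      (base (m : ℝ)⁻¹ (a t)) (base (m : ℝ)⁻¹ (b t))) :
    ∑ s, wt m (a s) (b s) ≤ 6 := by
  set q : ℝ := (m : ℝ)⁻¹ with hq
  have hm0 : (0 : ℝ) < m := by
    have : (4 : ℝ) ≤ m := by exact_mod_cast hm
    linarith
  have hq0 : 0 < q := inv_pos.2 hm0
  have hqm : q * m = 1 := inv_mul_cancel₀ hm0.ne'
  have hq4 : 4 * q ≤ 1 := by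
    have : (4 : ℝ) ≤ m := by exact_mod_cast hm
    nlinarith
  set S : Finset (Fin len) := univ.filter (fun s => wt m (a s) (b s) ≠ 0) with hS
  have hsum : ∑ s, wt m (a s) (b s) = ∑ s ∈ S, wt m (a s) (b s) := by
    rw [hS, sum_filter_ne_zero]
  rw [hsum]
  have hdata : ∀ s : Fin len, ∃ y j z : ℕ, s ∈ S → (a s = .inl y ∧ b s = .inr (.inl ⟨j, z⟩) ∧
      y / m ≤ z ∧ z < y / m + 3 * m ^ j ∧ wt m (a s) (b s) = q ^ j) := by
    intro s
    by_cases hs : s ∈ S
    · obtain ⟨y, j, z, h⟩ := exists_of_wt_ne (mem_filter.1 hs).2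
      exact ⟨y, j, z, fun _ => h⟩
    · exact ⟨0, 0, 0, fun h => absurd h hs⟩
  choose y j z hyjz using hdata
  have hw : ∑ s ∈ S, wt m (a s) (b s) = ∑ s ∈ S, q ^ (j s) :=
    sum_congr rfl fun s hs => (hyjz s hs).2.2.2.2
  rw [hw]
  have key := weight_bound q hq0 hq4 (fun s => -(y s : ℤ)) j
    (fun s => q ^ (j s) * z s - q ^ (j s + 1) * y s) L L 0 (by omega) S (-1) 3 (by norm_num)
  refine le_trans (key ?_ ?_ ?_ ?_ ?_) (by norm_num)
  · intro s hs
    exact ⟨Nat.zero_le _, hL s _ _ (hyjz s hs).2.1⟩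
  · intro s hs
    obtain ⟨_, _, h1, h2, _⟩ := hyjz s hs
    have hqj : 0 < q ^ (j s) := pow_pos hq0 _
    have hqj1 : q ^ (j s) ≤ 1 := pow_le_one₀ hq0.le (by linarith)
    have hdm : (m : ℝ) * ((y s / m : ℕ) : ℝ) + ((y s % m : ℕ) : ℝ) = (y s : ℝ) := by
      exact_mod_cast Nat.div_add_mod (y s) m
    have hmod : ((y s % m : ℕ) : ℝ) < m := by
      exact_mod_cast Nat.mod_lt _ (by omega : 0 < m)
    have hmod0 : (0 : ℝ) ≤ ((y s % m : ℕ) : ℝ) := Nat.cast_nonneg _
    have h1' : ((y s / m : ℕ) : ℝ) ≤ z s := by exact_mod_cast h1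
    have h2' : (z s : ℝ) < ((y s / m : ℕ) : ℝ) + 3 * (m : ℝ) ^ (j s) := by exact_mod_cast h2
    have hqmj : q ^ (j s) * (m : ℝ) ^ (j s) = 1 := by rw [← mul_pow, hqm, one_pow]
    have hexp : q ^ (j s) * z s - q ^ (j s + 1) * y s =
        q ^ (j s) * (z s - ((y s / m : ℕ) : ℝ)) - q ^ (j s) * (q * ((y s % m : ℕ) : ℝ)) := by
      rw [← hdm, pow_succ]
      linear_combination (-(q ^ (j s)) * ((y s / m : ℕ) : ℝ)) * hqm
    have hqmod : q * ((y s % m : ℕ) : ℝ) ≤ 1 := by
      calc q * ((y s % m : ℕ) : ℝ) ≤ q * m := mul_le_mul_of_nonneg_left hmod.le hq0.le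
        _ = 1 := hqm
    have hqmod0 : 0 ≤ q * ((y s % m : ℕ) : ℝ) := mul_nonneg hq0.le hmod0
    rw [hexp]
    constructor
    · have t1 : 0 ≤ q ^ (j s) * (z s - ((y s / m : ℕ) : ℝ)) :=
        mul_nonneg hqj.le (by linarith)
      have t2 : q ^ (j s) * (q * ((y s % m : ℕ) : ℝ)) ≤ 1 * 1 :=
        mul_le_mul hqj1 hqmod hqmod0 (by norm_num)
      linarith
    · have t1 : q ^ (j s) * (z s - ((y s / m : ℕ) : ℝ)) ≤ q ^ (j s) * (3 * (m : ℝ) ^ (j s)) :=
        mul_le_mul_of_nonneg_left (by linarith) hqj.le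
      have t2 : 0 ≤ q ^ (j s) * (q * ((y s % m : ℕ) : ℝ)) := mul_nonneg hqj.le hqmod0
      have t3 : q ^ (j s) * (3 * (m : ℝ) ^ (j s)) = 3 := by
        linear_combination 3 * hqmj
      linarith
  · intro s hs t ht hst
    have h1 : y s = y t := by
      have : (-(y s : ℤ)) = -(y t : ℤ) := hst
      omega
    apply ha
    rw [(hyjz s hs).1, (hyjz t ht).1, h1]
  · intro s hs t ht hst
    have hne : s ≠ t := by
      rintro rfl
      exact lt_irrefl _ hst
    have hyy : y t < y s := by
      have : (-(y s : ℤ)) < -(y t : ℤ) := hst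
      omega
    have hyy' : (y t : ℝ) < y s := by exact_mod_cast hyy
    by_contra hcon
    push Not at hcon
    apply hnc s t hne
    rw [(hyjz s hs).1, (hyjz s hs).2.1, (hyjz t ht).1, (hyjz t ht).2.1]
    apply base_cross q hq0 hq4 _ _ _ _ _ _ hyy
    · have := mul_pos (pow_pos hq0 (j s + 1)) (sub_pos.2 hyy')
      linarith
    · have := mul_pos (pow_pos hq0 (j t + 1)) (sub_pos.2 hyy')
      linarith
  · intro s hs t ht hjj hst
    have hne : s ≠ t := by
      rintro rfl
      exact lt_irrefl _ hst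
    have hyy : y t < y s := by
      have : (-(y s : ℤ)) < -(y t : ℤ) := hst
      omega
    have hqj : 0 < q ^ (j s) := pow_pos hq0 _
    have hz : z s < z t := by
      rcases lt_trichotomy (z s) (z t) with h | h | h
      · exact h
      · exfalso
        apply hne
        apply hb
        rw [(hyjz s hs).2.1, (hyjz t ht).2.1, h, hjj]
      · exfalso
        apply hnc s t hne
        rw [(hyjz s hs).1, (hyjz s hs).2.1, (hyjz t ht).1, (hyjz t ht).2.1]
        have hzz : (z t : ℝ) < z s := by exact_mod_cast h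
        have hpos : 0 < q ^ (j s) * ((z s : ℝ) - z t) := mul_pos hqj (sub_pos.2 hzz)
        apply base_cross q hq0 hq4 _ _ _ _ _ _ hyy
        · rw [← hjj]; linarith
        · rw [← hjj]; linarith
    have hz' : (z s : ℝ) + 1 ≤ z t := by exact_mod_cast hz
    rw [← hjj]
    push_cast
    have hpos : 0 ≤ q ^ (j s) * ((z t : ℝ) - z s - 1) := mul_nonneg hqj.le (by linarith)
    linarith

/-- the index set of the construction -/
def idxSet (m L H e : ℕ) : Finset Idx :=
  (range H).disjSum (((range L).sigma (fun j => range (H / m + 3 * m ^ j))).disjSum (range e))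

lemma card_idxSet (m L H e : ℕ) :
    (idxSet m L H e).card = H + ((∑ j ∈ range L, (H / m + 3 * m ^ j)) + e) := by
  simp [idxSet, card_disjSum, card_sigma]

lemma exists_index {S : Finset Idx} {f : Idx → ℝ × ℝ} (P : NoncrossingPath (S.image f)) :
    ∃ g : Fin (P.len + 1) → Idx, (∀ s, g s ∈ S) ∧ (∀ s, f (g s) = P.v s) ∧
      Function.Injective g := by
  have h : ∀ s, ∃ t ∈ S, f t = P.v s := fun s => mem_image.1 (P.mem s)
  choose g hg1 hg2 using h
  refine ⟨g, hg1, hg2, ?_⟩
  intro a b hab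
  apply P.inj
  rw [← hg2 a, ← hg2 b, hab]

lemma cover_bound {m L H e K : ℕ} (hm : 4 ≤ m) (f : Idx → ℝ × ℝ)
    (hinj : ∀ i ∈ idxSet m L H e, ∀ j ∈ idxSet m L H e, f i = f j → i = j)
    (hcr : ∀ a ∈ idxSet m L H e, ∀ b ∈ idxSet m L H e, ∀ c ∈ idxSet m L H e,
      ∀ d ∈ idxSet m L H e,
      Cross (base (m : ℝ)⁻¹ a) (base (m : ℝ)⁻¹ b) (base (m : ℝ)⁻¹ c) (base (m : ℝ)⁻¹ d) →
      Cross (f a) (f b) (f c) (f d))
    (P : Fin K → NoncrossingPath ((idxSet m L H e).image f))
    (hP : IsCovering ((idxSet m L H e).image f) K P) : H * L ≤ 4 * K := by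
  have hm0 : (0 : ℝ) < m := by
    have : (4 : ℝ) ≤ m := by exact_mod_cast hm
    linarith
  choose g hgS hgf hginj using fun i => exists_index (P i)
  have hLt : ∀ x ∈ idxSet m L H e, ∀ j z, x = .inr (.inl ⟨j, z⟩) → j < L := by
    rintro x hx j z rfl
    simp only [idxSet, inr_mem_disjSum, inl_mem_disjSum, mem_sigma, mem_range] at hx
    exact hx.1
  set W : (Σ i : Fin K, Fin (P i).len) → ℝ := fun x =>
    wt m (g x.1 x.2.castSucc) (g x.1 x.2.succ) + wt m (g x.1 x.2.succ) (g x.1 x.2.castSucc)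
    with hW
  have hW0 : ∀ x, 0 ≤ W x := fun x => add_nonneg (wt_nonneg _ _ _) (wt_nonneg _ _ _)
  have hnc : ∀ i, ∀ s t : Fin (P i).len, s ≠ t →
      ¬ Cross (f (g i s.castSucc)) (f (g i s.succ)) (f (g i t.castSucc)) (f (g i t.succ)) := by
    intro i s t hst hc
    obtain ⟨x, hx⟩ := hc.meet
    obtain ⟨n1, n2, n3, n4⟩ := hc.ne
    rw [hgf, hgf, hgf, hgf] at hx
    rw [hgf, hgf] at n1 n2 n3 n4
    obtain ⟨hx1, hx2⟩ := (P i).noncrossing s t hst x hx
    rcases hx1 with h1 | h1 <;> rcases hx2 with h2 | h2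
    · exact n1 (h1.symm.trans h2)
    · exact n2 (h1.symm.trans h2)
    · exact n3 (h1.symm.trans h2)
    · exact n4 (h1.symm.trans h2)
  have hsw : ∀ a b c d : ℝ × ℝ, Cross b a d c → Cross a b c d := by
    intro a b c d h
    unfold Cross det at *
    constructor
    · have := h.1
      nlinarith [h.1]
    · nlinarith [h.2]
  have hup : ∑ x, W x ≤ 12 * K := by
    rw [hW, Fintype.sum_sigma]
    have : ∀ i : Fin K, ∑ s : Fin (P i).len,
        (wt m (g i s.castSucc) (g i s.succ) + wt m (g i s.succ) (g i s.castSucc)) ≤ 12 := by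
      intro i
      rw [sum_add_distrib]
      have h1 : ∑ s : Fin (P i).len, wt m (g i s.castSucc) (g i s.succ) ≤ 6 := by
        apply matching_bound (L := L) hm
        · exact (hginj i).comp (Fin.castSucc_injective _)
        · exact (hginj i).comp (Fin.succ_injective _)
        · exact fun s => hLt _ (hgS i _)
        · intro s t hst hc
          exact hnc i s t hst (hcr _ (hgS i _) _ (hgS i _) _ (hgS i _) _ (hgS i _) hc)
      have h2 : ∑ s : Fin (P i).len, wt m (g i s.succ) (g i s.castSucc) ≤ 6 := by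
        apply matching_bound (L := L) hm
        · exact (hginj i).comp (Fin.succ_injective _)
        · exact (hginj i).comp (Fin.castSucc_injective _)
        · exact fun s => hLt _ (hgS i _)
        · intro s t hst hc
          exact hnc i s t hst (hsw _ _ _ _
            (hcr _ (hgS i _) _ (hgS i _) _ (hgS i _) _ (hgS i _) hc))
      linarith
    calc ∑ i : Fin K, ∑ s : Fin (P i).len,
        (wt m (g i s.castSucc) (g i s.succ) + wt m (g i s.succ) (g i s.castSucc))
        ≤ ∑ _i : Fin K, (12 : ℝ) := sum_le_sum fun i _ => this i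
      _ = 12 * K := by simp [mul_comm]
  -- the edges of the weighted graph
  set G : Finset (ℕ × (Σ _ : ℕ, ℕ)) := (range H) ×ˢ ((range L).sigma fun j => range (3 * m ^ j))
    with hG
  have hcov : ∀ x : ℕ × (Σ _ : ℕ, ℕ), ∃ w : Option (Σ i : Fin K, Fin (P i).len), x ∈ G →
      ∃ w', w = some w' ∧
      ((g w'.1 w'.2.castSucc = .inl x.1 ∧ g w'.1 w'.2.succ = .inr (.inl ⟨x.2.1, x.1 / m + x.2.2⟩)) ∨
      (g w'.1 w'.2.castSucc = .inr (.inl ⟨x.2.1, x.1 / m + x.2.2⟩) ∧
        g w'.1 w'.2.succ = .inl x.1)) := by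
    intro x
    by_cases hx : x ∈ G
    · simp only [hG, mem_product, mem_range, mem_sigma] at hx
      obtain ⟨hx1, hx2, hx3⟩ := hx
      have hu : (.inl x.1 : Idx) ∈ idxSet m L H e := by
        simp only [idxSet, inl_mem_disjSum, mem_range]
        exact hx1
      have hv : (.inr (.inl ⟨x.2.1, x.1 / m + x.2.2⟩) : Idx) ∈ idxSet m L H e := by
        simp only [idxSet, inr_mem_disjSum, inl_mem_disjSum, mem_sigma, mem_range]
        refine ⟨hx2, ?_⟩
        have : x.1 / m ≤ H / m := Nat.div_le_div_right hx1.le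
        omega
      have hne : f (.inl x.1) ≠ f (.inr (.inl ⟨x.2.1, x.1 / m + x.2.2⟩)) := by
        intro h
        have := hinj _ hu _ hv h
        simp at this
      obtain ⟨i, s, hs⟩ := hP _ (mem_image_of_mem f hu) _ (mem_image_of_mem f hv) hne
      refine ⟨some ⟨i, s⟩, fun _ => ⟨⟨i, s⟩, rfl, ?_⟩⟩
      rcases hs with ⟨h1, h2⟩ | ⟨h1, h2⟩
      · left
        rw [← hgf] at h1 h2
        exact ⟨hinj _ (hgS _ _) _ hu h1, hinj _ (hgS _ _) _ hv h2⟩
      · right
        rw [← hgf] at h1 h2
        exact ⟨hinj _ (hgS _ _) _ hv h1, hinj _ (hgS _ _) _ hu h2⟩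
    · exact ⟨none, fun h => absurd h hx⟩
  choose φ hφ using hcov
  have hlow : (3 * (H : ℝ) * L) = ∑ x ∈ G, ((m : ℝ)⁻¹) ^ x.2.1 := by
    rw [hG, sum_product]
    simp only [sum_sigma, sum_const, card_range, nsmul_eq_mul]
    have : ∀ j ∈ range L, ((3 * m ^ j : ℕ) : ℝ) * ((m : ℝ)⁻¹) ^ j = 3 := by
      intro j _
      push_cast
      rw [mul_assoc, ← mul_pow, mul_inv_cancel₀ hm0.ne', one_pow, mul_one]
    rw [sum_congr rfl this]
    simp
    ring
  -- extend W to Option
  set W' : Option (Σ i : Fin K, Fin (P i).len) → ℝ := fun o => o.elim 0 W with hW'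
  have hle : ∑ x ∈ G, ((m : ℝ)⁻¹) ^ x.2.1 ≤ ∑ x ∈ G, W' (φ x) := by
    apply sum_le_sum
    intro x hx
    obtain ⟨w, hw, hw2⟩ := hφ x hx
    have hx' := hx
    simp only [hG, mem_product, mem_range, mem_sigma] at hx'
    rw [hw]
    simp only [hW', Option.elim]
    rcases hw2 with ⟨h1, h2⟩ | ⟨h1, h2⟩
    · have : wt m (g w.1 w.2.castSucc) (g w.1 w.2.succ) = ((m : ℝ)⁻¹) ^ x.2.1 := by
        rw [h1, h2]
        simp only [wt]
        rw [if_pos]
        constructor
        · omega
        · omega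
      rw [← this]
      simp only [hW]
      have := wt_nonneg m (g w.1 w.2.succ) (g w.1 w.2.castSucc)
      linarith
    · have : wt m (g w.1 w.2.succ) (g w.1 w.2.castSucc) = ((m : ℝ)⁻¹) ^ x.2.1 := by
        rw [h1, h2]
        simp only [wt]
        rw [if_pos]
        constructor
        · omega
        · omega
      rw [← this]
      simp only [hW]
      have := wt_nonneg m (g w.1 w.2.castSucc) (g w.1 w.2.succ)
      linarith
  have hφinj : Set.InjOn φ (G : Set (ℕ × (Σ _ : ℕ, ℕ))) := by
    intro x hx x' hx' hxx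
    obtain ⟨w, hw, hw2⟩ := hφ x hx
    obtain ⟨w', hw', hw2'⟩ := hφ x' hx'
    have hww : w = w' := by
      rw [hw, hw'] at hxx
      exact Option.some.inj hxx
    subst hww
    have key : x.1 = x'.1 ∧ x.2.1 = x'.2.1 ∧ x.1 / m + x.2.2 = x'.1 / m + x'.2.2 := by
      rcases hw2 with ⟨h1, h2⟩ | ⟨h1, h2⟩ <;> rcases hw2' with ⟨h3, h4⟩ | ⟨h3, h4⟩
      · rw [h1] at h3
        rw [h2] at h4
        simp only [Sum.inl.injEq, Sum.inr.injEq, Sigma.mk.injEq, heq_eq_eq] at h3 h4
        exact ⟨h3, h4.1, h4.2⟩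
      · rw [h1] at h3
        simp at h3
      · rw [h1] at h3
        simp at h3
      · rw [h1] at h3
        rw [h2] at h4
        simp only [Sum.inl.injEq, Sum.inr.injEq, Sigma.mk.injEq, heq_eq_eq] at h3 h4
        exact ⟨h4, h3.1, h3.2⟩
    obtain ⟨k1, k2, k3⟩ := key
    obtain ⟨a, ⟨b, c⟩⟩ := x
    obtain ⟨a', ⟨b', c'⟩⟩ := x'
    simp only at k1 k2 k3
    subst k1 k2
    have : c = c' := by omega
    subst this
    rfl
  have hsum : ∑ x ∈ G, W' (φ x) ≤ ∑ x, W x := by
    rw [← sum_image (s := G) (g := φ) (f := W') hφinj]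
    have h1 : ∑ x, W x = ∑ o : Option (Σ i : Fin K, Fin (P i).len), W' o := by
      rw [Fintype.sum_option]
      simp [hW']
    rw [h1]
    apply sum_le_sum_of_subset_of_nonneg (subset_univ _)
    intro o _ _
    cases o with
    | none => simp [hW']
    | some w => exact hW0 w
  have hfin : (3 * (H : ℝ) * L) ≤ 12 * K := by
    rw [hlow]
    exact hle.trans (hsum.trans hup)
  have : (H : ℝ) * L ≤ 4 * K := by linarith
  exact_mod_cast this

lemma exists_cover (A : Finset (ℝ × ℝ)) :
    ∃ k, ∃ P : Fin k → NoncrossingPath A, IsCovering A k P := by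
  classical
  set Q : Finset ((ℝ × ℝ) × (ℝ × ℝ)) := (A ×ˢ A).filter (fun x => x.1 ≠ x.2) with hQ
  have hmem : ∀ x ∈ Q, x.1 ∈ A ∧ x.2 ∈ A ∧ x.1 ≠ x.2 := by
    intro x hx
    rw [hQ, mem_filter, mem_product] at hx
    exact ⟨hx.1.1, hx.1.2, hx.2⟩
  let mk : (x : Q) → NoncrossingPath A := fun x =>
    { len := 1
      len_pos := le_rfl
      v := ![x.1.1, x.1.2]
      mem := by
        intro i
        fin_cases i
        · exact (hmem x.1 x.2).1
        · exact (hmem x.1 x.2).2.1
      inj := by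
        intro i j hij
        have h := (hmem x.1 x.2).2.2
        fin_cases i <;> fin_cases j
        · rfl
        · exact absurd hij h
        · exact absurd hij.symm h
        · rfl
      noncrossing := by
        intro i j hij
        exact absurd (Subsingleton.elim i j) hij }
  refine ⟨Q.card, fun i => mk (Q.equivFin.symm i), ?_⟩
  intro a ha b hb hab
  have hx : (a, b) ∈ Q := by
    rw [hQ, mem_filter, mem_product]
    exact ⟨⟨ha, hb⟩, hab⟩
  refine ⟨Q.equivFin ⟨(a, b), hx⟩, ?_⟩
  simp only [Equiv.symm_apply_apply]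
  exact ⟨0, Or.inl ⟨rfl, rfl⟩⟩

lemma three_sum_le (m : ℕ) (hm : 4 ≤ m) (L : ℕ) : ∑ j ∈ range L, 3 * m ^ j ≤ m ^ L := by
  induction L with
  | zero => simp
  | succ L ih =>
    rw [sum_range_succ, pow_succ]
    have : 4 * m ^ L ≤ m ^ L * m := by
      rw [mul_comm]; exact Nat.mul_le_mul_left _ hm
    omega

theorem parametric (L : ℕ) (hL : 1 ≤ L) (n : ℕ) (hn : 6 * (4 * L) ^ L ≤ n) :
    ∃ A : Finset (ℝ × ℝ), A.card = n ∧ GeneralPosition A ∧ L * n ≤ 8 * pathCoverNumber A := by
  set m := 4 * L with hmdef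
  have hm : 4 ≤ m := by omega
  set H := 2 * n / 3 with hH
  have hbound : H + ∑ j ∈ range L, (H / m + 3 * m ^ j) ≤ n := by
    rw [sum_add_distrib, sum_const, card_range, smul_eq_mul]
    have h1 := three_sum_le m hm L
    have h2 : 4 * (L * (H / m)) ≤ H := by
      have : m * (H / m) ≤ H := Nat.mul_div_le H m
      rw [hmdef] at this ⊢
      linarith
    have h3 : m ^ L ≤ n / 6 := by
      rw [Nat.le_div_iff_mul_le (by norm_num)]
      linarith
    omega
  obtain ⟨e, he⟩ := Nat.exists_eq_add_of_le hbound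
  set S := idxSet m L H e with hS
  have hcardS : S.card = n := by
    rw [hS, card_idxSet]; omega
  have hev : ∀ᶠ δ in nhdsWithin (0 : ℝ) (Set.Ioi 0), ∀ a ∈ S, ∀ b ∈ S, ∀ c ∈ S, ∀ d ∈ S,
      Cross (base (m : ℝ)⁻¹ a) (base (m : ℝ)⁻¹ b) (base (m : ℝ)⁻¹ c) (base (m : ℝ)⁻¹ d) →
      ∀ a' b' c' d' : ℝ × ℝ, dist a' (base (m : ℝ)⁻¹ a) < δ → dist b' (base (m : ℝ)⁻¹ b) < δ →
        dist c' (base (m : ℝ)⁻¹ c) < δ → dist d' (base (m : ℝ)⁻¹ d) < δ → Cross a' b' c' d' := by
    refine (Filter.eventually_all_finset S).2 fun a _ => ?_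
    refine (Filter.eventually_all_finset S).2 fun b _ => ?_
    refine (Filter.eventually_all_finset S).2 fun c _ => ?_
    refine (Filter.eventually_all_finset S).2 fun d _ => ?_
    by_cases hc : Cross (base (m : ℝ)⁻¹ a) (base (m : ℝ)⁻¹ b) (base (m : ℝ)⁻¹ c)
      (base (m : ℝ)⁻¹ d)
    · exact (cross_stable _ _ _ _ hc).mono fun δ h _ => h
    · exact Filter.Eventually.of_forall fun δ h => absurd h hc
  obtain ⟨δ, hδ, hδ0⟩ := (hev.and self_mem_nhdsWithin).exists
  obtain ⟨f, hf1, hf2, hf3⟩ := exists_config (base (m : ℝ)⁻¹) δ hδ0 S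
  refine ⟨S.image f, ?_, hf3, ?_⟩
  · rw [card_image_of_injOn, hcardS]
    intro i hi j hj hij
    exact hf2 i hi j hj hij
  · have hmem := Nat.sInf_mem (s := {k : ℕ | ∃ P : Fin k → NoncrossingPath (S.image f),
      IsCovering (S.image f) k P}) (exists_cover _)
    obtain ⟨P, hP⟩ := hmem
    have key := cover_bound (m := m) (L := L) (H := H) (e := e) hm f hf2
      (fun a ha b hb c hc d hd h => hδ a ha b hb c hc d hd h _ _ _ _ (hf1 a ha) (hf1 b hb)
        (hf1 c hc) (hf1 d hd)) P hP
    change H * L ≤ 4 * pathCoverNumber (S.image f) at key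
    have h4 : 24 ≤ n := by
      have : 4 ^ 1 ≤ m ^ L := by
        calc 4 ^ 1 ≤ 4 ^ L := Nat.pow_le_pow_right (by norm_num) hL
          _ ≤ m ^ L := Nat.pow_le_pow_left hm L
      omega
    have h5 : n ≤ 2 * H := by omega
    calc L * n ≤ L * (2 * H) := Nat.mul_le_mul_left L h5
      _ = 2 * (H * L) := by ring
      _ ≤ 2 * (4 * pathCoverNumber (S.image f)) := Nat.mul_le_mul_left 2 key
      _ = 8 * pathCoverNumber (S.image f) := by ring

/-- the main theorem -/
theorem main : ∃ n₀ : ℕ, ∀ n : ℕ, n₀ ≤ n →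
    ∃ A : Finset (ℝ × ℝ), A.card = n ∧ GeneralPosition A ∧
      (1 / 32 : ℝ) * n * Real.log n / Real.log (Real.log n) ≤ pathCoverNumber A := by
  refine ⟨⌈Real.exp (Real.exp 8)⌉₊, fun n hn => ?_⟩
  have hn1 : Real.exp (Real.exp 8) ≤ n := (Nat.le_ceil _).trans (by exact_mod_cast hn)
  have hn0 : (0 : ℝ) < n := (Real.exp_pos _).trans_le hn1
  set x := Real.log n with hx
  have hxn : Real.exp x = n := Real.exp_log hn0
  have hx1 : Real.exp 8 ≤ x := by
    rw [hx, Real.le_log_iff_exp_le hn0]; exact hn1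
  have hx0 : 0 < x := (Real.exp_pos _).trans_le hx1
  set l := Real.log x with hl
  have hlx : Real.exp l = x := Real.exp_log hx0
  have hl8 : 8 ≤ l := by
    rw [hl, Real.le_log_iff_exp_le hx0]; exact hx1
  have hxl : 4 * l ≤ x := by
    have := Real.quadratic_le_exp_of_nonneg (by linarith : 0 ≤ l)
    rw [hlx] at this
    nlinarith
  set L := ⌊x / (2 * l)⌋₊ with hLdef
  have hl2 : 0 < 2 * l := by linarith
  have hdiv : 2 ≤ x / (2 * l) := by
    rw [le_div_iff₀ hl2]; linarith
  have hL1 : 1 ≤ L := by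
    rw [hLdef, Nat.one_le_floor_iff]; linarith
  have hLle : (L : ℝ) ≤ x / (2 * l) := Nat.floor_le (by linarith)
  have hLge : x / (4 * l) ≤ L := by
    have h1 : x / (2 * l) < L + 1 := Nat.lt_floor_add_one _
    have h2 : x / (4 * l) = (x / (2 * l)) / 2 := by
      rw [div_div]; ring_nf
    rw [h2]; linarith
  have hL0 : (0 : ℝ) < L := by exact_mod_cast hL1
  have h4L : 4 * (L : ℝ) ≤ x := by
    have : x / (2 * l) ≤ x / 16 := div_le_div_of_nonneg_left hx0.le (by norm_num) (by linarith)
    linarith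
  have hlog4L : Real.log (4 * L) ≤ l := Real.log_le_log (by linarith) h4L
  have hpow : ((4 * L : ℝ)) ^ L ≤ Real.exp (x / 2) := by
    rw [← Real.exp_log (show (0 : ℝ) < 4 * L by linarith), ← Real.exp_nat_mul]
    apply Real.exp_le_exp.2
    calc (L : ℝ) * Real.log (4 * L) ≤ (x / (2 * l)) * l := by
          apply mul_le_mul hLle hlog4L
          · apply Real.log_nonneg
            have : (1 : ℝ) ≤ L := by exact_mod_cast hL1
            linarith
          · positivity
      _ = x / 2 := by field_simp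
  have h6 : (6 : ℝ) ≤ Real.exp (x / 2) := by
    have h1 : x / 2 + 1 ≤ Real.exp (x / 2) := Real.add_one_le_exp _
    have h2 : 32 ≤ x := by linarith
    linarith
  have hcond : 6 * (4 * L) ^ L ≤ n := by
    have : (6 : ℝ) * (4 * L) ^ L ≤ n := by
      calc (6 : ℝ) * (4 * L) ^ L ≤ Real.exp (x / 2) * Real.exp (x / 2) :=
            mul_le_mul h6 hpow (by positivity) (Real.exp_pos _).le
        _ = n := by rw [← Real.exp_add, add_halves, hxn]
    exact_mod_cast this
  obtain ⟨A, hA1, hA2, hA3⟩ := parametric L hL1 n hcond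
  refine ⟨A, hA1, hA2, ?_⟩
  have hA3' : (L : ℝ) * n ≤ 8 * pathCoverNumber A := by exact_mod_cast hA3
  have hstep : (1 / 32 : ℝ) * n * x / l = (x / (4 * l)) * n / 8 := by
    field_simp
    ring
  rw [hstep]
  have : x / (4 * l) * n ≤ L * n := mul_le_mul_of_nonneg_right hLge hn0.le
  linarith

end Pool.Agent.Helper31.PathCover
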