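import Mathlib

set_option autoImplicit false

open Finset

namespace Pool.Agent.Helper31.Rpc

variable {V C : Type*}

/-- The two elements (a vertex and a colour) met when going from `v` to `y`. -/
def rest (col : Sym2 V → C) (v y : V) : List (V ⊕ C) := [Sum.inl y, Sum.inr (col s(v, y))]

/-- The elements (vertices and colours) of a walk. -/
def elems {G : SimpleGraph V} (col : Sym2 V → C) : ∀ {a b : V}, G.Walk a b → List (V ⊕ C)
  | a, _, SimpleGraph.Walk.nil => [Sum.inl a]
  | a, _, SimpleGraph.Walk.cons (v := x) _ p =>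
      Sum.inl a :: Sum.inr (col s(a, x)) :: elems col p

/-- A proper edge-colouring. -/
def Proper (G : SimpleGraph V) (col : Sym2 V → C) : Prop :=
  ∀ x y z, G.Adj x y → G.Adj x z → y ≠ z → col s(x, y) ≠ col s(x, z)

lemma mem_elems_start {G : SimpleGraph V} (col : Sym2 V → C) {a b : V} (p : G.Walk a b) :
    Sum.inl a ∈ elems col p := by
  cases p <;> simp [elems]

lemma support_sublist {G : SimpleGraph V} (col : Sym2 V → C) {a b : V} (p : G.Walk a b) :
    (p.support.map (Sum.inl : V → V ⊕ C)).Sublist (elems col p) := by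
  induction p with
  | nil => simp [elems]
  | cons h p ih =>
    simp only [SimpleGraph.Walk.support_cons, List.map_cons, elems]
    exact List.Sublist.cons_cons _ (List.Sublist.cons _ ih)

lemma edges_sublist {G : SimpleGraph V} (col : Sym2 V → C) {a b : V} (p : G.Walk a b) :
    (p.edges.map (fun e => (Sum.inr (col e) : V ⊕ C))).Sublist (elems col p) := by
  induction p with
  | nil => simp [elems]
  | cons h p ih =>
    simp only [SimpleGraph.Walk.edges_cons, List.map_cons, elems]
    exact List.Sublist.cons _ (List.Sublist.cons_cons _ ih)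

lemma good_isPath {G : SimpleGraph V} (col : Sym2 V → C) {a b : V} (p : G.Walk a b)
    (h : (elems col p).Nodup) : p.IsPath := by
  rw [SimpleGraph.Walk.isPath_def]
  exact (h.sublist (support_sublist col p)).of_map _

lemma good_colors {G : SimpleGraph V} (col : Sym2 V → C) {a b : V} (p : G.Walk a b)
    (h : (elems col p).Nodup) : (p.edges.map col).Nodup := by
  have h1 := h.sublist (edges_sublist col p)
  have h2 : p.edges.map (fun e => (Sum.inr (col e) : V ⊕ C)) =
      (p.edges.map col).map (Sum.inr : C → V ⊕ C) := by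
    simp [List.map_map, Function.comp_def]
  rw [h2] at h1
  exact h1.of_map _

/-- A rainbow path starting at `z`. -/
structure GPath (G : SimpleGraph V) (col : Sym2 V → C) (z : V) where
  /-- the other end -/
  b : V
  /-- the walk -/
  p : G.Walk z b
  good : (elems col p).Nodup

namespace GPath

variable {G : SimpleGraph V} {col : Sym2 V → C} {z : V}

/-- the elements of the path -/
def els (P : GPath G col z) : List (V ⊕ C) := elems col P.p

/-- the weight of the path -/
noncomputable def wt (w : Sym2 V → ℝ) (P : GPath G col z) : ℝ := (P.p.edges.map w).sum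

/-- the trivial path -/
def triv (G : SimpleGraph V) (col : Sym2 V → C) (z : V) : GPath G col z :=
  ⟨z, SimpleGraph.Walk.nil, by simp [elems]⟩

lemma triv_els : (triv G col z).els.length = 1 := by
  simp [triv, els, elems]

lemma triv_wt (w : Sym2 V → ℝ) : (triv G col z).wt w = 0 := by
  simp [triv, wt]

lemma start_mem (P : GPath G col z) : Sum.inl z ∈ P.els := mem_elems_start col P.p

/-- the one-edge path -/
lemma exists_single {x : V} (h : G.Adj z x) (w : Sym2 V → ℝ) :
    ∃ P : GPath G col z, P.wt w = w s(z, x) ∧ s(z, x) ∈ P.p.edges := by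
  refine ⟨⟨x, SimpleGraph.Walk.cons h SimpleGraph.Walk.nil, ?_⟩, ?_, ?_⟩
  · have := h.ne
    simp [elems, this]
  · simp [wt]
  · simp

lemma extend (hcol : Proper G col) (P : GPath G col z) {x y w : V} (hzx : G.Adj z x)
    (hxy : G.Adj x y) (hyw : G.Adj y w)
    (h1 : ∀ u ∈ P.els, u ∉ rest col z x ∧ u ∉ rest col x y ∧ u ∉ rest col y w)
    (hwx : w ≠ x) (hc : col s(z, x) ≠ col s(y, w)) (wt' : Sym2 V → ℝ) :
    ∃ P' : GPath G col w, P'.els.length = P.els.length + 6 ∧
      P'.wt wt' = wt' s(y, w) + wt' s(x, y) + wt' s(z, x) + P.wt wt' := by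
  have hz := h1 _ P.start_mem
  simp only [rest, List.mem_cons, List.not_mem_nil, or_false, Sum.inl.injEq,
    reduceCtorEq] at hz
  obtain ⟨hzx', hzy, hzw⟩ := hz
  have e1 : s(w, y) = s(y, w) := Sym2.eq_swap
  have e2 : s(y, x) = s(x, y) := Sym2.eq_swap
  have e3 : s(x, z) = s(z, x) := Sym2.eq_swap
  have hA : Sum.inl x ∉ P.els := fun h => (h1 _ h).1 (by simp [rest])
  have hB : Sum.inl y ∉ P.els := fun h => (h1 _ h).2.1 (by simp [rest])
  have hC : Sum.inl w ∉ P.els := fun h => (h1 _ h).2.2 (by simp [rest])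
  have hA' : Sum.inr (col s(z, x)) ∉ P.els := fun h => (h1 _ h).1 (by simp [rest])
  have hB' : Sum.inr (col s(x, y)) ∉ P.els := fun h => (h1 _ h).2.1 (by simp [rest])
  have hC' : Sum.inr (col s(y, w)) ∉ P.els := fun h => (h1 _ h).2.2 (by simp [rest])
  have c1 : col s(x, y) ≠ col s(z, x) := by
    have := hcol x y z hxy hzx.symm (Ne.symm hzy)
    rwa [e3] at this
  have c2 : col s(y, w) ≠ col s(x, y) := by
    have := hcol y w x hyw hxy.symm hwx
    rwa [e2] at this
  refine ⟨⟨P.b, SimpleGraph.Walk.cons hyw.symm (SimpleGraph.Walk.cons hxy.symm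
    (SimpleGraph.Walk.cons hzx.symm P.p)), ?_⟩, ?_, ?_⟩
  · have hP : (elems col P.p).Nodup := P.good
    simp only [els] at hA hB hC hA' hB' hC'
    simp only [elems, e1, e2, e3, List.nodup_cons, List.mem_cons, not_or, Sum.inl.injEq,
      Sum.inr.injEq, reduceCtorEq, not_false_eq_true, true_and]
    refine ⟨⟨hyw.symm.ne, hwx, hC⟩, ⟨c2, fun h => hc h.symm, hC'⟩, ⟨hxy.symm.ne, hB⟩,
      ⟨c1, hB'⟩, hA, hA', hP⟩
  · simp [els, elems]
  · simp [wt, e1, e2, e3]
    ring

end GPath

/-- `v` touches the element `u`. -/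
def Tch (G : SimpleGraph V) (col : Sym2 V → C) (v : V) (u : V ⊕ C) : Prop :=
  ∃ w, G.Adj v w ∧ u ∈ rest col v w

lemma rest_unique {G : SimpleGraph V} {col : Sym2 V → C} (hcol : Proper G col) {v x y : V}
    {u : V ⊕ C} (hx : G.Adj v x) (hy : G.Adj v y) (h1 : u ∈ rest col v x)
    (h2 : u ∈ rest col v y) : x = y := by
  by_contra hne
  have := hcol v x y hx hy hne
  simp only [rest, List.mem_cons, List.not_mem_nil, or_false] at h1 h2
  rcases h1 with h1 | h1 <;> rcases h2 with h2 | h2
  · rw [h1] at h2
    exact hne (by simpa using h2)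
  · rw [h1] at h2
    simp at h2
  · rw [h1] at h2
    simp at h2
  · rw [h1] at h2
    exact this (by simpa using h2)

end Pool.Agent.Helper31.Rpc
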