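import Mathlib
import Pool.Agent.Helper31.RpcBasic

set_option autoImplicit false
set_option linter.unusedSectionVars false

open Finset

namespace Pool.Agent.Helper31.Rpc

variable {V C : Type*} [Fintype V]

open Classical in
/-- indicator of a proposition as a real number -/
noncomputable def ind (p : Prop) : ℝ := if p then 1 else 0

lemma ind_nonneg (p : Prop) : 0 ≤ ind p := by
  unfold ind; split_ifs <;> norm_num

lemma ind_le_one (p : Prop) : ind p ≤ 1 := by
  unfold ind; split_ifs <;> norm_num

lemma ind_true {p : Prop} (h : p) : ind p = 1 := by simp [ind, h]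

lemma ind_false {p : Prop} (h : ¬ p) : ind p = 0 := by simp [ind, h]

lemma ind_mono {p q : Prop} (h : p → q) : ind p ≤ ind q := by
  by_cases hp : p
  · rw [ind_true hp, ind_true (h hp)]
  · rw [ind_false hp]; exact ind_nonneg q

/-- adjacency indicator -/
noncomputable def adj (G : SimpleGraph V) (x y : V) : ℝ := ind (G.Adj x y)

lemma adj_comm (G : SimpleGraph V) (x y : V) : adj G x y = adj G y x := by
  unfold adj
  rw [show G.Adj x y = G.Adj y x from propext ⟨fun h => h.symm, fun h => h.symm⟩]

lemma adj_nonneg (G : SimpleGraph V) (x y : V) : 0 ≤ adj G x y := ind_nonneg _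

/-- real degree -/
noncomputable def deg (G : SimpleGraph V) (x : V) : ℝ := ∑ y, adj G x y

lemma deg_nonneg (G : SimpleGraph V) (x : V) : 0 ≤ deg G x :=
  Finset.sum_nonneg fun _ _ => adj_nonneg G _ _

/-- inverse degree -/
noncomputable def inv (G : SimpleGraph V) (x : V) : ℝ := (deg G x)⁻¹

lemma inv_nonneg' (G : SimpleGraph V) (x : V) : 0 ≤ inv G x := inv_nonneg.mpr (deg_nonneg G x)

lemma deg_mul_inv (G : SimpleGraph V) (x : V) : deg G x * inv G x ≤ 1 := by
  unfold inv
  by_cases h : deg G x = 0
  · rw [h]; simp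
  · rw [mul_inv_cancel₀ h]

/-- first column sum -/
noncomputable def cA (G : SimpleGraph V) (z : V) : ℝ := ∑ x, adj G z x * inv G x

/-- second column sum -/
noncomputable def cB (G : SimpleGraph V) (z : V) : ℝ := ∑ x, adj G z x * inv G x * cA G x

lemma cA_nonneg (G : SimpleGraph V) (z : V) : 0 ≤ cA G z :=
  Finset.sum_nonneg fun _ _ => mul_nonneg (adj_nonneg G _ _) (inv_nonneg' G _)

lemma cB_nonneg (G : SimpleGraph V) (z : V) : 0 ≤ cB G z :=
  Finset.sum_nonneg fun _ _ =>
    mul_nonneg (mul_nonneg (adj_nonneg G _ _) (inv_nonneg' G _)) (cA_nonneg G _)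

lemma sum_cA (G : SimpleGraph V) : ∑ z, cA G z ≤ Fintype.card V := by
  unfold cA
  rw [Finset.sum_comm]
  calc ∑ x, ∑ z, adj G z x * inv G x = ∑ x, deg G x * inv G x := by
        refine Finset.sum_congr rfl fun x _ => ?_
        rw [← Finset.sum_mul]
        congr 1
        unfold deg
        exact Finset.sum_congr rfl fun z _ => adj_comm G z x
    _ ≤ ∑ _x : V, (1 : ℝ) := Finset.sum_le_sum fun x _ => deg_mul_inv G x
    _ = Fintype.card V := by simp

lemma sum_cB (G : SimpleGraph V) : ∑ z, cB G z ≤ Fintype.card V := by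
  refine le_trans ?_ (sum_cA G)
  unfold cB
  rw [Finset.sum_comm]
  refine Finset.sum_le_sum fun x _ => ?_
  rw [← Finset.sum_mul, ← Finset.sum_mul]
  have : ∑ z, adj G z x = deg G x := by
    unfold deg
    exact Finset.sum_congr rfl fun z _ => adj_comm G z x
  rw [this]
  calc deg G x * inv G x * cA G x ≤ 1 * cA G x :=
        mul_le_mul_of_nonneg_right (deg_mul_inv G x) (cA_nonneg G x)
    _ = cA G x := one_mul _

/-- number of slots at a vertex -/
noncomputable def slots (G : SimpleGraph V) (z : V) : ℕ := ⌈1 + cA G z + cB G z⌉₊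

lemma slots_ge (G : SimpleGraph V) (z : V) : 1 + cA G z + cB G z ≤ slots G z := Nat.le_ceil _

lemma slots_pos (G : SimpleGraph V) (z : V) : (1 : ℝ) ≤ slots G z := by
  have := slots_ge G z
  have := cA_nonneg G z
  have := cB_nonneg G z
  linarith

lemma sum_slots (G : SimpleGraph V) : ∑ z, (slots G z : ℝ) ≤ 4 * Fintype.card V := by
  have h : ∀ z, (slots G z : ℝ) ≤ 2 + cA G z + cB G z := by
    intro z
    have h1 : (0 : ℝ) ≤ 1 + cA G z + cB G z := by
      have := cA_nonneg G z
      have := cB_nonneg G z
      linarith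
    have := Nat.ceil_lt_add_one h1
    unfold slots
    linarith
  calc ∑ z, (slots G z : ℝ) ≤ ∑ z, (2 + cA G z + cB G z) := Finset.sum_le_sum fun z _ => h z
    _ = 2 * Fintype.card V + ∑ z, cA G z + ∑ z, cB G z := by
        rw [Finset.sum_add_distrib, Finset.sum_add_distrib]
        simp [mul_comm]
    _ ≤ _ := by
        have := sum_cA G
        have := sum_cB G
        linarith

/-- membership indicator of an edge in `F` -/
noncomputable def hF (F : Finset (Sym2 V)) (x y : V) : ℝ := ind (s(x, y) ∈ F)

lemma hF_comm (F : Finset (Sym2 V)) (x y : V) : hF F x y = hF F y x := by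
  unfold hF; rw [Sym2.eq_swap]

lemma hF_nonneg (F : Finset (Sym2 V)) (x y : V) : 0 ≤ hF F x y := ind_nonneg _

lemma hF_mono {F F' : Finset (Sym2 V)} (h : F' ⊆ F) (x y : V) : hF F' x y ≤ hF F x y :=
  ind_mono fun hx => h hx

/-- The spreadness hypotheses. -/
structure Cong (G : SimpleGraph V) (col : Sym2 V → C) (f : ℝ) (F : Finset (Sym2 V)) : Prop where
  edge : ∀ e ∈ F, e ∈ G.edgeSet
  two : ∀ x y, s(x, y) ∈ F → 2 ≤ deg G x
  c1 : ∀ x, inv G x * ∑ y, hF F x y ≤ f
  c2 : ∀ z u, ∑ x, adj G z x * inv G x * ∑ y, hF F x y * ind (u ∈ rest col x y) ≤ f * (cA G z + 1)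
  c3 : ∀ x u, ∑ y, hF F x y * inv G y * ind (Tch G col y u) ≤ f * (cA G x + 1)

variable {G : SimpleGraph V} {col : Sym2 V → C} {f : ℝ} {F F' : Finset (Sym2 V)}

lemma Cong.mono (h : Cong G col f F) (hs : F' ⊆ F) : Cong G col f F' where
  edge := fun e he => h.edge e (hs he)
  two := fun x y hxy => h.two x y (hs hxy)
  c1 := fun x => le_trans (mul_le_mul_of_nonneg_left
    (Finset.sum_le_sum fun y _ => hF_mono hs x y) (inv_nonneg' G x)) (h.c1 x)
  c2 := fun z u => le_trans (Finset.sum_le_sum fun x _ => mul_le_mul_of_nonneg_left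
    (Finset.sum_le_sum fun y _ => mul_le_mul_of_nonneg_right (hF_mono hs x y) (ind_nonneg _))
    (mul_nonneg (adj_nonneg G _ _) (inv_nonneg' G _))) (h.c2 z u)
  c3 := fun x u => le_trans (Finset.sum_le_sum fun y _ => mul_le_mul_of_nonneg_right
    (mul_le_mul_of_nonneg_right (hF_mono hs x y) (inv_nonneg' G _)) (ind_nonneg _)) (h.c3 x u)

/-- The congestion of an element `u` seen from `z`. -/
noncomputable def cong (G : SimpleGraph V) (col : Sym2 V → C) (F : Finset (Sym2 V)) (z : V)
    (u : V ⊕ C) : ℝ :=
  ∑ x, ∑ y, ∑ w, adj G z x * inv G x * hF F x y * (adj G y w * inv G y) *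
    (ind (u ∈ rest col z x) + ind (u ∈ rest col x y) + ind (u ∈ rest col y w))

lemma sum_adj_unique (hcol : Proper G col) (v : V) (u : V ⊕ C) :
    ∑ w, adj G v w * ind (u ∈ rest col v w) ≤ ind (Tch G col v u) := by
  by_cases h : Tch G col v u
  · obtain ⟨w0, hw0, hu0⟩ := h
    rw [ind_true ⟨w0, hw0, hu0⟩]
    rw [Finset.sum_eq_single w0]
    · exact mul_le_one₀ (ind_le_one _) (ind_nonneg _) (ind_le_one _)
    · intro b _ hb
      by_cases hb1 : G.Adj v b
      · by_cases hb2 : u ∈ rest col v b
        · exact absurd (rest_unique hcol hb1 hw0 hb2 hu0) hb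
        · rw [ind_false hb2, mul_zero]
      · unfold adj
        rw [ind_false hb1, zero_mul]
    · intro h; exact absurd (Finset.mem_univ _) h
  · rw [ind_false h]
    refine le_of_eq (Finset.sum_eq_zero fun w _ => ?_)
    by_cases hb1 : G.Adj v w
    · by_cases hb2 : u ∈ rest col v w
      · exact absurd ⟨w, hb1, hb2⟩ h
      · rw [ind_false hb2, mul_zero]
    · unfold adj
      rw [ind_false hb1, zero_mul]

lemma cong_le (hcol : Proper G col) (hf : 0 ≤ f) (h : Cong G col f F) (z : V) (u : V ⊕ C) :
    cong G col F z u ≤ 3 * f * slots G z := by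
  have hs := slots_ge G z
  have hA := cA_nonneg G z
  have hB := cB_nonneg G z
  have hs1 := slots_pos G z
  have hw : ∀ y, ∑ w, adj G y w * inv G y ≤ 1 := by
    intro y
    rw [← Finset.sum_mul]
    exact deg_mul_inv G y
  have k1 : ∑ x, ∑ y, ∑ w, adj G z x * inv G x * hF F x y * (adj G y w * inv G y) *
      ind (u ∈ rest col z x) ≤ f * slots G z := by
    calc _ = ∑ x, (adj G z x * ind (u ∈ rest col z x)) *
          (inv G x * ∑ y, hF F x y * ∑ w, adj G y w * inv G y) := by
          refine Finset.sum_congr rfl fun x _ => ?_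
          rw [Finset.mul_sum, Finset.mul_sum]
          refine Finset.sum_congr rfl fun y _ => ?_
          rw [Finset.mul_sum, Finset.mul_sum, Finset.mul_sum]
          refine Finset.sum_congr rfl fun w _ => ?_
          ring
      _ ≤ ∑ x, (adj G z x * ind (u ∈ rest col z x)) * f := by
          refine Finset.sum_le_sum fun x _ => ?_
          refine mul_le_mul_of_nonneg_left ?_ (mul_nonneg (adj_nonneg G _ _) (ind_nonneg _))
          refine le_trans (mul_le_mul_of_nonneg_left ?_ (inv_nonneg' G x)) (h.c1 x)
          refine Finset.sum_le_sum fun y _ => ?_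
          calc hF F x y * ∑ w, adj G y w * inv G y ≤ hF F x y * 1 :=
                mul_le_mul_of_nonneg_left (hw y) (hF_nonneg F x y)
            _ = hF F x y := mul_one _
      _ = (∑ x, adj G z x * ind (u ∈ rest col z x)) * f := by rw [Finset.sum_mul]
      _ ≤ 1 * f := by
          refine mul_le_mul_of_nonneg_right ?_ hf
          exact le_trans (sum_adj_unique hcol z u) (ind_le_one _)
      _ ≤ f * slots G z := by nlinarith
  have k2 : ∑ x, ∑ y, ∑ w, adj G z x * inv G x * hF F x y * (adj G y w * inv G y) *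
      ind (u ∈ rest col x y) ≤ f * slots G z := by
    calc _ = ∑ x, (adj G z x * inv G x) *
          (∑ y, (hF F x y * ind (u ∈ rest col x y)) * ∑ w, adj G y w * inv G y) := by
          refine Finset.sum_congr rfl fun x _ => ?_
          rw [Finset.mul_sum]
          refine Finset.sum_congr rfl fun y _ => ?_
          rw [Finset.mul_sum, Finset.mul_sum]
          refine Finset.sum_congr rfl fun w _ => ?_
          ring
      _ ≤ ∑ x, (adj G z x * inv G x) * (∑ y, hF F x y * ind (u ∈ rest col x y)) := by
          refine Finset.sum_le_sum fun x _ => ?_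
          refine mul_le_mul_of_nonneg_left ?_ (mul_nonneg (adj_nonneg G _ _) (inv_nonneg' G _))
          refine Finset.sum_le_sum fun y _ => ?_
          calc _ ≤ hF F x y * ind (u ∈ rest col x y) * 1 :=
                mul_le_mul_of_nonneg_left (hw y) (mul_nonneg (hF_nonneg F x y) (ind_nonneg _))
            _ = _ := mul_one _
      _ ≤ f * (cA G z + 1) := h.c2 z u
      _ ≤ f * slots G z := mul_le_mul_of_nonneg_left (by linarith) hf
  have k3 : ∑ x, ∑ y, ∑ w, adj G z x * inv G x * hF F x y * (adj G y w * inv G y) *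
      ind (u ∈ rest col y w) ≤ f * slots G z := by
    calc _ = ∑ x, (adj G z x * inv G x) *
          (∑ y, (hF F x y * inv G y) * ∑ w, adj G y w * ind (u ∈ rest col y w)) := by
          refine Finset.sum_congr rfl fun x _ => ?_
          rw [Finset.mul_sum]
          refine Finset.sum_congr rfl fun y _ => ?_
          rw [Finset.mul_sum, Finset.mul_sum]
          refine Finset.sum_congr rfl fun w _ => ?_
          ring
      _ ≤ ∑ x, (adj G z x * inv G x) * (f * (cA G x + 1)) := by
          refine Finset.sum_le_sum fun x _ => ?_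
          refine mul_le_mul_of_nonneg_left ?_ (mul_nonneg (adj_nonneg G _ _) (inv_nonneg' G _))
          refine le_trans ?_ (h.c3 x u)
          refine Finset.sum_le_sum fun y _ => ?_
          exact mul_le_mul_of_nonneg_left (sum_adj_unique hcol y u)
            (mul_nonneg (hF_nonneg F x y) (inv_nonneg' G _))
      _ = f * (cB G z + cA G z) := by
          have e1 : cB G z + cA G z = ∑ x, (adj G z x * inv G x) * (cA G x + 1) := by
            rw [cB]
            conv_lhs => rw [show cA G z = ∑ x, adj G z x * inv G x from rfl]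
            rw [← Finset.sum_add_distrib]
            refine Finset.sum_congr rfl fun x _ => ?_
            ring
          rw [e1, Finset.mul_sum]
          refine Finset.sum_congr rfl fun x _ => ?_
          ring
      _ ≤ f * slots G z := mul_le_mul_of_nonneg_left (by linarith) hf
  unfold cong
  have : ∑ x, ∑ y, ∑ w, adj G z x * inv G x * hF F x y * (adj G y w * inv G y) *
    (ind (u ∈ rest col z x) + ind (u ∈ rest col x y) + ind (u ∈ rest col y w)) =
    (∑ x, ∑ y, ∑ w, adj G z x * inv G x * hF F x y * (adj G y w * inv G y) *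
      ind (u ∈ rest col z x)) +
    (∑ x, ∑ y, ∑ w, adj G z x * inv G x * hF F x y * (adj G y w * inv G y) *
      ind (u ∈ rest col x y)) +
    (∑ x, ∑ y, ∑ w, adj G z x * inv G x * hF F x y * (adj G y w * inv G y) *
      ind (u ∈ rest col y w)) := by
    simp only [← Finset.sum_add_distrib]
    refine Finset.sum_congr rfl fun x _ => Finset.sum_congr rfl fun y _ =>
      Finset.sum_congr rfl fun w _ => ?_
    ring
  rw [this]
  linarith

end Pool.Agent.Helper31.Rpc
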