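import Mathlib
import Pool.Agent.Helper31.RpcCong

set_option autoImplicit false
set_option linter.unusedSectionVars false

open Finset

namespace Pool.Agent.Helper31.Rpc

variable {V C : Type*} [Fintype V]
variable {G : SimpleGraph V} {col : Sym2 V → C} {f : ℝ} {F F' : Finset (Sym2 V)}

/-- slots -/
abbrev Slot (G : SimpleGraph V) : Type _ := Σ z : V, Fin (slots G z)

/-- a path for every slot -/
abbrev State (G : SimpleGraph V) (col : Sym2 V → C) : Type _ := ∀ σ : Slot G, GPath G col σ.1

/-- total number of elements -/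
noncomputable def totU (Q : State G col) : ℕ := ∑ σ, (Q σ).els.length

/-- total weight -/
noncomputable def totW (w : Sym2 V → ℝ) (Q : State G col) : ℝ := ∑ σ, (Q σ).wt w

/-- amount of blocking -/
noncomputable def bl {z : V} (P : GPath G col z) (x y w : V) : ℝ :=
  (P.els.map (fun u => ind (u ∈ rest col z x) + ind (u ∈ rest col x y) +
    ind (u ∈ rest col y w))).sum

lemma bl_nonneg {z : V} (P : GPath G col z) (x y w : V) : 0 ≤ bl P x y w := by
  refine List.sum_nonneg fun a ha => ?_
  obtain ⟨u, -, rfl⟩ := List.mem_map.1 ha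
  have := ind_nonneg (u ∈ rest col z x)
  have := ind_nonneg (u ∈ rest col x y)
  have := ind_nonneg (u ∈ rest col y w)
  linarith

lemma one_le_bl {z : V} (P : GPath G col z) (x y w : V)
    (h : ¬ ∀ u ∈ P.els, u ∉ rest col z x ∧ u ∉ rest col x y ∧ u ∉ rest col y w) :
    1 ≤ bl P x y w := by
  push Not at h
  obtain ⟨u, hu, h2⟩ := h
  unfold bl
  have hm : (ind (u ∈ rest col z x) + ind (u ∈ rest col x y) + ind (u ∈ rest col y w)) ∈
      P.els.map (fun u => ind (u ∈ rest col z x) + ind (u ∈ rest col x y) +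
    ind (u ∈ rest col y w)) := List.mem_map.2 ⟨u, hu, rfl⟩
  refine le_trans ?_ (List.single_le_sum ?_ _ hm)
  · have a1 := ind_nonneg (u ∈ rest col z x)
    have a2 := ind_nonneg (u ∈ rest col x y)
    have a3 := ind_nonneg (u ∈ rest col y w)
    by_cases h3 : u ∈ rest col z x
    · rw [ind_true h3]; linarith
    · by_cases h4 : u ∈ rest col x y
      · rw [ind_true h4]; linarith
      · have h5 := h2 h3 h4
        rw [ind_true h5]; linarith
  · intro a ha
    obtain ⟨u, -, rfl⟩ := List.mem_map.1 ha
    have := ind_nonneg (u ∈ rest col z x)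
    have := ind_nonneg (u ∈ rest col x y)
    have := ind_nonneg (u ∈ rest col y w)
    linarith

lemma listsum_comm {α β : Type*} (s : Finset α) (L : List β) (h : α → β → ℝ) :
    ∑ a ∈ s, (L.map (h a)).sum = (L.map (fun u => ∑ a ∈ s, h a u)).sum := by
  induction L with
  | nil => simp
  | cons b L ih => simp [Finset.sum_add_distrib, ih]

lemma list_mul_sum {β : Type*} (L : List β) (c : ℝ) (h : β → ℝ) :
    c * (L.map h).sum = (L.map (fun u => c * h u)).sum := by
  induction L with
  | nil => simp
  | cons b L ih => simp [mul_add, ih]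

lemma list_sum_le {β : Type*} (L : List β) (h : β → ℝ) (c : ℝ) (hc : ∀ u, h u ≤ c) :
    (L.map h).sum ≤ L.length * c := by
  induction L with
  | nil => simp
  | cons b L ih =>
    simp only [List.map_cons, List.sum_cons, List.length_cons, Nat.cast_add, Nat.cast_one]
    have := hc b
    linarith

lemma sum_hF (hF' : ∀ e ∈ F, e ∈ G.edgeSet) : ∑ x, ∑ y, hF F x y = 2 * F.card := by
  classical
  have h1 : ∑ x, ∑ y, hF F x y = ∑ p : V × V, hF F p.1 p.2 := by
    rw [Fintype.sum_prod_type]
  rw [h1]
  have h2 : ∀ p : V × V, hF F p.1 p.2 = ∑ e ∈ F, if s(p.1, p.2) = e then (1 : ℝ) else 0 := by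
    intro p
    rw [Finset.sum_ite_eq]
    unfold hF ind
    split_ifs <;> rfl
  simp_rw [h2]
  rw [Finset.sum_comm]
  have h3 : ∀ e ∈ F, ∑ p : V × V, (if s(p.1, p.2) = e then (1 : ℝ) else 0) = 2 := by
    intro e he
    have hE := hF' e he
    induction e using Sym2.ind with
    | _ a b =>
      have hab : a ≠ b := (show G.Adj a b from hE).ne
      rw [Finset.sum_ite, Finset.sum_const_zero, add_zero, Finset.sum_const, nsmul_eq_mul,
        mul_one]
      have : (Finset.univ.filter fun p : V × V => s(p.1, p.2) = s(a, b)) = {(a, b), (b, a)} := by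
        ext ⟨p, q⟩
        simp only [Finset.mem_filter, Finset.mem_univ, true_and, Finset.mem_insert,
          Finset.mem_singleton, Sym2.eq_iff, Prod.mk.injEq]
      rw [this, Finset.card_pair]
      · norm_num
      · intro h
        exact hab (Prod.mk.inj h).1
  rw [Finset.sum_congr rfl h3]
  simp [mul_comm]

lemma deg_mul_inv_eq {x : V} (h : 2 ≤ deg G x) : deg G x * inv G x = 1 := by
  unfold inv
  rw [mul_inv_cancel₀ (by linarith)]

lemma exists_route (hcol : Proper G col) (hf : 0 ≤ f) (h : Cong G col f F) (Q : State G col)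
    (hlt : 6 * f * totU Q < F.card) :
    ∃ (x y z w : V) (i : Fin (slots G z)) (j : Fin (slots G w)), s(x, y) ∈ F ∧ G.Adj z x ∧
      G.Adj x y ∧ G.Adj y w ∧
      (∀ u ∈ (Q ⟨z, i⟩).els, u ∉ rest col z x ∧ u ∉ rest col x y ∧ u ∉ rest col y w) ∧
      (∀ u ∈ (Q ⟨w, j⟩).els, u ∉ rest col w y ∧ u ∉ rest col y x ∧ u ∉ rest col x z) ∧
      col s(z, x) ≠ col s(y, w) := by
  by_contra hcon
  set av : V → V → V → V → ℝ := fun z x y w =>
    (slots G z : ℝ)⁻¹ * ∑ i : Fin (slots G z), bl (Q ⟨z, i⟩) x y w with hav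
  set cc : V → V → V → V → ℝ := fun z x y w => ind (col s(z, x) = col s(y, w)) with hcc
  have av_nonneg : ∀ z x y w, 0 ≤ av z x y w := fun z x y w =>
    mul_nonneg (inv_nonneg.mpr (Nat.cast_nonneg _)) (Finset.sum_nonneg fun i _ => bl_nonneg _ _ _ _)
  -- the key inequality
  have key : ∀ z x y w, s(x, y) ∈ F → G.Adj z x → G.Adj y w →
      1 ≤ cc z x y w + av z x y w + av w y x z := by
    intro z x y w hxy hzx hyw
    have hadj : G.Adj x y := h.edge _ hxy
    have k1 : ∀ (i : Fin (slots G z)) (j : Fin (slots G w)),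
        1 ≤ cc z x y w + bl (Q ⟨z, i⟩) x y w + bl (Q ⟨w, j⟩) y x z := by
      intro i j
      have b1 := bl_nonneg (Q ⟨z, i⟩) x y w
      have b2 := bl_nonneg (Q ⟨w, j⟩) y x z
      have b3 : 0 ≤ cc z x y w := ind_nonneg _
      by_cases hc : col s(z, x) = col s(y, w)
      · have : cc z x y w = 1 := ind_true hc
        linarith
      · by_cases h1 : ∀ u ∈ (Q ⟨z, i⟩).els,
          u ∉ rest col z x ∧ u ∉ rest col x y ∧ u ∉ rest col y w
        · have h2 : ¬ ∀ u ∈ (Q ⟨w, j⟩).els,
              u ∉ rest col w y ∧ u ∉ rest col y x ∧ u ∉ rest col x z := fun h2 =>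
            hcon ⟨x, y, z, w, i, j, hxy, hzx, hadj, hyw, h1, h2, hc⟩
          have := one_le_bl (Q ⟨w, j⟩) y x z h2
          linarith
        · have := one_le_bl (Q ⟨z, i⟩) x y w h1
          linarith
    have hz := slots_pos G z
    have hw := slots_pos G w
    have k2 : ∑ i : Fin (slots G z), ∑ j : Fin (slots G w), (1 : ℝ) ≤
        ∑ i : Fin (slots G z), ∑ j : Fin (slots G w),
          (cc z x y w + bl (Q ⟨z, i⟩) x y w + bl (Q ⟨w, j⟩) y x z) :=
      Finset.sum_le_sum fun i _ => Finset.sum_le_sum fun j _ => k1 i j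
    simp only [Finset.sum_add_distrib, Finset.sum_const, Finset.card_univ, Fintype.card_fin,
      nsmul_eq_mul, mul_one, ← Finset.mul_sum] at k2
    simp only [hav]
    have hz0 : (slots G z : ℝ) ≠ 0 := by linarith
    have hw0 : (slots G w : ℝ) ≠ 0 := by linarith
    set S1 := ∑ i : Fin (slots G z), bl (Q ⟨z, i⟩) x y w with hS1
    set S2 := ∑ j : Fin (slots G w), bl (Q ⟨w, j⟩) y x z with hS2
    have k3 : (slots G z : ℝ) * slots G w * 1 ≤ (slots G z : ℝ) * slots G w *
        (cc z x y w + (slots G z : ℝ)⁻¹ * S1 + (slots G w : ℝ)⁻¹ * S2) := by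
      have e : (slots G z : ℝ) * slots G w *
        (cc z x y w + (slots G z : ℝ)⁻¹ * S1 + (slots G w : ℝ)⁻¹ * S2) =
        (slots G z : ℝ) * (slots G w * cc z x y w) + slots G w * S1 + slots G z * S2 := by
        field_simp
      rw [e]
      linarith
    exact le_of_mul_le_mul_left k3 (by positivity)
  -- weights
  set W : V → V → V → V → ℝ := fun z x y w =>
    adj G z x * inv G x * hF F x y * (adj G y w * inv G y) with hW
  have W_nonneg : ∀ z x y w, 0 ≤ W z x y w := fun z x y w =>
    mul_nonneg (mul_nonneg (mul_nonneg (adj_nonneg G _ _) (inv_nonneg' G _)) (hF_nonneg F _ _))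
      (mul_nonneg (adj_nonneg G _ _) (inv_nonneg' G _))
  have hsum : ∑ z, ∑ x, ∑ y, ∑ w, W z x y w ≤
      ∑ z, ∑ x, ∑ y, ∑ w, (W z x y w * cc z x y w + W z x y w * av z x y w +
        W z x y w * av w y x z) := by
    refine Finset.sum_le_sum fun z _ => Finset.sum_le_sum fun x _ =>
      Finset.sum_le_sum fun y _ => Finset.sum_le_sum fun w _ => ?_
    by_cases h1 : s(x, y) ∈ F ∧ G.Adj z x ∧ G.Adj y w
    · have := key z x y w h1.1 h1.2.1 h1.2.2
      have hW' := W_nonneg z x y w
      nlinarith
    · have : W z x y w = 0 := by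
        simp only [hW]
        by_cases h2 : s(x, y) ∈ F
        · by_cases h3 : G.Adj z x
          · have h4 : ¬ G.Adj y w := fun h4 => h1 ⟨h2, h3, h4⟩
            simp [adj, ind_false h4]
          · simp [adj, ind_false h3]
        · simp [hF, ind_false h2]
      rw [this]; simp
  have hadjsum : ∀ x, ∑ z, adj G z x = deg G x := fun x => by
    unfold deg
    exact Finset.sum_congr rfl fun z _ => adj_comm G z x
  -- left hand side
  have hL : ∑ z, ∑ x, ∑ y, ∑ w, W z x y w = 2 * F.card := by
    rw [← sum_hF h.edge, Finset.sum_comm]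
    refine Finset.sum_congr rfl fun x _ => ?_
    rw [Finset.sum_comm]
    refine Finset.sum_congr rfl fun y _ => ?_
    have e1 : ∀ z, ∑ w, W z x y w = adj G z x * (inv G x * hF F x y * (deg G y * inv G y)) := by
      intro z
      simp only [hW]
      rw [← Finset.mul_sum, ← Finset.sum_mul]
      unfold deg
      ring
    simp_rw [e1]
    rw [← Finset.sum_mul, hadjsum]
    by_cases hxy : s(x, y) ∈ F
    · have d1 := deg_mul_inv_eq (h.two x y hxy)
      have d2 := deg_mul_inv_eq (h.two y x (by rw [Sym2.eq_swap]; exact hxy))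
      rw [d2, mul_one]
      calc deg G x * (inv G x * hF F x y) = (deg G x * inv G x) * hF F x y := by ring
        _ = hF F x y := by rw [d1, one_mul]
    · simp [hF, ind_false hxy]
  -- degenerate part
  have hD : ∑ z, ∑ x, ∑ y, ∑ w, W z x y w * cc z x y w ≤ F.card := by
    have e0 : (F.card : ℝ) = ∑ x, ∑ y, hF F x y * (1 / 2) := by
      simp_rw [← Finset.sum_mul]
      rw [sum_hF h.edge]; ring
    rw [e0, Finset.sum_comm]
    refine Finset.sum_le_sum fun x _ => ?_
    rw [Finset.sum_comm]
    refine Finset.sum_le_sum fun y _ => ?_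
    by_cases hxy : s(x, y) ∈ F
    · have d1 := h.two x y hxy
      have d2 := h.two y x (by rw [Sym2.eq_swap]; exact hxy)
      have d3 : inv G y ≤ 1 / 2 := by
        unfold inv
        rw [one_div]
        exact inv_anti₀ (by norm_num) d2
      have e1 : ∀ z, ∑ w, W z x y w * cc z x y w ≤
          adj G z x * (inv G x * hF F x y * (1 / 2)) := by
        intro z
        have : ∑ w, W z x y w * cc z x y w = (adj G z x * inv G x * hF F x y * inv G y) *
            ∑ w, adj G y w * ind ((Sum.inr (col s(z, x)) : V ⊕ C) ∈ rest col y w) := by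
          rw [Finset.mul_sum]
          refine Finset.sum_congr rfl fun w _ => ?_
          simp only [hW, hcc]
          have : ((Sum.inr (col s(z, x)) : V ⊕ C) ∈ rest col y w) =
              (col s(z, x) = col s(y, w)) := by
            simp [rest]
          rw [this]
          ring
        rw [this]
        have u1 := le_trans (sum_adj_unique hcol y (Sum.inr (col s(z, x)))) (ind_le_one _)
        have n1 : 0 ≤ adj G z x * inv G x * hF F x y :=
          mul_nonneg (mul_nonneg (adj_nonneg G _ _) (inv_nonneg' G _)) (hF_nonneg F _ _)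
        calc _ ≤ (adj G z x * inv G x * hF F x y * inv G y) * 1 :=
              mul_le_mul_of_nonneg_left u1 (mul_nonneg n1 (inv_nonneg' G _))
          _ ≤ adj G z x * inv G x * hF F x y * (1 / 2) := by
              rw [mul_one]
              exact mul_le_mul_of_nonneg_left d3 n1
          _ = _ := by ring
      calc _ ≤ ∑ z, adj G z x * (inv G x * hF F x y * (1 / 2)) :=
            Finset.sum_le_sum fun z _ => e1 z
        _ = deg G x * (inv G x * hF F x y * (1 / 2)) := by rw [← Finset.sum_mul, hadjsum]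
        _ = (deg G x * inv G x) * (hF F x y * (1 / 2)) := by ring
        _ = hF F x y * (1 / 2) := by rw [deg_mul_inv_eq d1, one_mul]
    · have : ∀ z w, W z x y w = 0 := fun z w => by simp [hW, hF, ind_false hxy]
      simp [this, hF, ind_false hxy]
  -- blocked part
  have hS : ∑ z, ∑ x, ∑ y, ∑ w, W z x y w * av z x y w ≤ 3 * f * totU Q := by
    have e1 : ∀ z, ∑ x, ∑ y, ∑ w, W z x y w * av z x y w ≤
        ∑ i : Fin (slots G z), 3 * f * ((Q ⟨z, i⟩).els.length : ℝ) := by
      intro z
      have hz := slots_pos G z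
      have hz0 : (slots G z : ℝ) ≠ 0 := by linarith
      have e2 : ∑ x, ∑ y, ∑ w, W z x y w * av z x y w = (slots G z : ℝ)⁻¹ *
          ∑ i : Fin (slots G z), ((Q ⟨z, i⟩).els.map (fun u => cong G col F z u)).sum := by
        have e3 : ∀ i : Fin (slots G z), ((Q ⟨z, i⟩).els.map (fun u => cong G col F z u)).sum =
            ∑ x, ∑ y, ∑ w, W z x y w * bl (Q ⟨z, i⟩) x y w := by
          intro i
          have e5 : ∀ x y w, W z x y w * bl (Q ⟨z, i⟩) x y w = ((Q ⟨z, i⟩).els.map
              (fun u => W z x y w * (ind (u ∈ rest col z x) + ind (u ∈ rest col x y) +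
                ind (u ∈ rest col y w)))).sum := fun x y w => list_mul_sum _ _ _
          simp_rw [e5, listsum_comm]
          rfl
        have e6 : ∀ g : Fin (slots G z) → V → V → V → ℝ,
            ∑ i, ∑ x, ∑ y, ∑ w, g i x y w = ∑ x, ∑ y, ∑ w, ∑ i, g i x y w := by
          intro g
          rw [Finset.sum_comm]
          refine Finset.sum_congr rfl fun x _ => ?_
          rw [Finset.sum_comm]
          refine Finset.sum_congr rfl fun y _ => ?_
          rw [Finset.sum_comm]
        simp_rw [e3]
        rw [e6, Finset.mul_sum]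
        refine Finset.sum_congr rfl fun x _ => ?_
        rw [Finset.mul_sum]
        refine Finset.sum_congr rfl fun y _ => ?_
        rw [Finset.mul_sum]
        refine Finset.sum_congr rfl fun w _ => ?_
        simp only [hav]
        rw [← Finset.mul_sum]
        ring
      rw [e2]
      have e4 : ∑ i : Fin (slots G z), ((Q ⟨z, i⟩).els.map (fun u => cong G col F z u)).sum ≤
          ∑ i : Fin (slots G z), (slots G z : ℝ) * (3 * f * ((Q ⟨z, i⟩).els.length : ℝ)) := by
        refine Finset.sum_le_sum fun i _ => ?_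
        refine le_trans (list_sum_le _ _ _ fun u => cong_le hcol hf h z u) (le_of_eq ?_)
        ring
      calc _ ≤ (slots G z : ℝ)⁻¹ * ∑ i : Fin (slots G z), (slots G z : ℝ) *
            (3 * f * ((Q ⟨z, i⟩).els.length : ℝ)) :=
            mul_le_mul_of_nonneg_left e4 (inv_nonneg.mpr (Nat.cast_nonneg _))
        _ = _ := by
            rw [← Finset.mul_sum, ← mul_assoc, inv_mul_cancel₀ hz0, one_mul]
    calc _ ≤ ∑ z, ∑ i : Fin (slots G z), 3 * f * ((Q ⟨z, i⟩).els.length : ℝ) :=
          Finset.sum_le_sum fun z _ => e1 z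
      _ = 3 * f * totU Q := by
          unfold totU
          rw [Fintype.sum_sigma]
          push_cast
          rw [Finset.mul_sum]
          refine Finset.sum_congr rfl fun z _ => ?_
          rw [Finset.mul_sum]
  have hS' : ∑ z, ∑ x, ∑ y, ∑ w, W z x y w * av w y x z =
      ∑ z, ∑ x, ∑ y, ∑ w, W z x y w * av z x y w := by
    have e1 : ∀ z x y w, W z x y w = W w y x z := by
      intro z x y w
      simp only [hW]
      rw [hF_comm F x y, adj_comm G z x, adj_comm G y w]
      ring
    have e3 : ∀ g : V → V → V → V → ℝ, ∑ z, ∑ x, ∑ y, ∑ w, g w y x z =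
        ∑ w, ∑ y, ∑ x, ∑ z, g w y x z := by
      intro g
      calc ∑ z, ∑ x, ∑ y, ∑ w, g w y x z = ∑ z, ∑ x, ∑ w, ∑ y, g w y x z := by
            refine Finset.sum_congr rfl fun z _ => Finset.sum_congr rfl fun x _ => ?_
            rw [Finset.sum_comm]
        _ = ∑ z, ∑ w, ∑ x, ∑ y, g w y x z := by
            refine Finset.sum_congr rfl fun z _ => ?_
            rw [Finset.sum_comm]
        _ = ∑ w, ∑ z, ∑ x, ∑ y, g w y x z := by rw [Finset.sum_comm]
        _ = ∑ w, ∑ z, ∑ y, ∑ x, g w y x z := by
            refine Finset.sum_congr rfl fun w _ => Finset.sum_congr rfl fun z _ => ?_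
            rw [Finset.sum_comm]
        _ = ∑ w, ∑ y, ∑ z, ∑ x, g w y x z := by
            refine Finset.sum_congr rfl fun w _ => ?_
            rw [Finset.sum_comm]
        _ = ∑ w, ∑ y, ∑ x, ∑ z, g w y x z := by
            refine Finset.sum_congr rfl fun w _ => Finset.sum_congr rfl fun y _ => ?_
            rw [Finset.sum_comm]
    rw [← e3 fun a b c d => W a b c d * av a b c d]
    refine Finset.sum_congr rfl fun z _ => Finset.sum_congr rfl fun x _ =>
      Finset.sum_congr rfl fun y _ => Finset.sum_congr rfl fun w _ => ?_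
    rw [e1]
  have hfin : ∑ z, ∑ x, ∑ y, ∑ w, (W z x y w * cc z x y w + W z x y w * av z x y w +
        W z x y w * av w y x z) = (∑ z, ∑ x, ∑ y, ∑ w, W z x y w * cc z x y w) +
        (∑ z, ∑ x, ∑ y, ∑ w, W z x y w * av z x y w) +
        ∑ z, ∑ x, ∑ y, ∑ w, W z x y w * av w y x z := by
    simp only [Finset.sum_add_distrib]
  rw [hL, hfin, hS'] at hsum
  linarith

end Pool.Agent.Helper31.Rpc
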