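import Mathlib
import Pool.Agent.Helper31.RpcRoute

set_option autoImplicit false
set_option linter.unusedSectionVars false

open Finset

namespace Pool.Agent.Helper31.Rpc

variable {V C : Type*} [Fintype V]
variable {G : SimpleGraph V} {col : Sym2 V → C} {f : ℝ} {F F' : Finset (Sym2 V)}

lemma sum_update' {ι : Type*} [Fintype ι] [DecidableEq ι] {β : ι → Type*} (Q : ∀ i, β i)
    (i0 : ι) (b : β i0) (g : ∀ i, β i → ℝ) :
    ∑ i, g i (Function.update Q i0 b i) = ∑ i, g i (Q i) + (g i0 b - g i0 (Q i0)) := by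
  have h : ∀ i, g i (Function.update Q i0 b i) =
      g i (Q i) + if i = i0 then (g i0 b - g i0 (Q i0)) else 0 := by
    intro i
    by_cases h : i = i0
    · subst h
      simp
    · simp [h]
  rw [Finset.sum_congr rfl fun i _ => h i, Finset.sum_add_distrib]
  simp

lemma step (hcol : Proper G col) (hf : 0 ≤ f) (h : Cong G col f F) (w : Sym2 V → ℝ)
    (hw : ∀ e, 0 ≤ w e) (Q : State G col) (hlt : 6 * f * totU Q < F.card) (t : ℝ)
    (ht : ∀ e ∈ F, t ≤ w e) :
    ∃ Q' : State G col, totU Q' = totU Q + 12 ∧ totW w Q + 2 * t ≤ totW w Q' := by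
  classical
  obtain ⟨x, y, z, v, i, j, hxy, hzx, hxy', hyv, h1, h2, hc⟩ := exists_route hcol hf h Q hlt
  have hzv : z ≠ v := by
    intro hzv
    have := (h1 _ (Q ⟨z, i⟩).start_mem).2.2
    apply this
    simp [rest, hzv]
  have hvx : v ≠ x := by
    intro hvx
    have := (h2 _ (Q ⟨v, j⟩).start_mem).2.1
    apply this
    simp [rest, hvx]
  have hzy : z ≠ y := by
    intro hzy
    have := (h1 _ (Q ⟨z, i⟩).start_mem).2.1
    apply this
    simp [rest, hzy]
  obtain ⟨P1, hP1, hP1'⟩ := (Q ⟨z, i⟩).extend hcol hzx hxy' hyv h1 hvx hc w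
  have hc' : col s(v, y) ≠ col s(x, z) := by
    rw [Sym2.eq_swap (a := v), Sym2.eq_swap (a := x)]
    exact hc.symm
  obtain ⟨P2, hP2, hP2'⟩ := (Q ⟨v, j⟩).extend hcol hyv.symm hxy'.symm hzx.symm h2 hzy hc' w
  have hne : (⟨z, i⟩ : Slot G) ≠ ⟨v, j⟩ := fun hh => hzv (congrArg Sigma.fst hh)
  set Q1 : State G col := Function.update Q ⟨v, j⟩ P1 with hQ1
  set Q2 : State G col := Function.update Q1 ⟨z, i⟩ P2 with hQ2
  have hQ1z : Q1 ⟨z, i⟩ = Q ⟨z, i⟩ := by
    rw [hQ1, Function.update_of_ne hne]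
  refine ⟨Q2, ?_, ?_⟩
  · have e1 := sum_update' Q1 ⟨z, i⟩ P2 (fun σ P => (P.els.length : ℝ))
    have e2 := sum_update' Q ⟨v, j⟩ P1 (fun σ P => (P.els.length : ℝ))
    simp only at e1 e2
    rw [← hQ2, hQ1z] at e1
    rw [← hQ1] at e2
    rw [e2, hP1, hP2] at e1
    have e3 : (totU Q2 : ℝ) = totU Q + 12 := by
      unfold totU
      push_cast at e1 ⊢
      rw [e1]
      ring
    exact_mod_cast e3
  · have e1 := sum_update' Q1 ⟨z, i⟩ P2 (fun σ P => P.wt w)
    have e2 := sum_update' Q ⟨v, j⟩ P1 (fun σ P => P.wt w)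
    simp only at e1 e2
    rw [← hQ2, hQ1z] at e1
    rw [← hQ1] at e2
    rw [e2, hP1', hP2'] at e1
    unfold totW
    rw [e1]
    have a1 := ht _ hxy
    have a2 : w s(y, x) = w s(x, y) := by rw [Sym2.eq_swap]
    have a3 := hw s(y, v)
    have a4 := hw s(z, x)
    have a5 := hw s(x, z)
    have a6 := hw s(v, y)
    linarith

lemma loop (hcol : Proper G col) (hf : 0 < f) (h : Cong G col f F) (w : Sym2 V → ℝ)
    (hw : ∀ e, 0 ≤ w e) (t : ℝ) (ht : ∀ e ∈ F, t ≤ w e) (X : ℝ) :
    ∀ (n : ℕ) (Q : State G col), ⌈(F.card : ℝ) / (6 * f)⌉₊ - totU Q = n →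
      X + 1 / 6 * t * (totU Q - F.card / (6 * f)) ≤ totW w Q →
      ∃ Q' : State G col, (F.card : ℝ) ≤ 6 * f * totU Q' ∧
        X + 1 / 6 * t * (totU Q' - F.card / (6 * f)) ≤ totW w Q' := by
  intro n
  induction n using Nat.strong_induction_on with
  | _ n ih =>
    intro Q hn hQ
    by_cases hlt : 6 * f * totU Q < F.card
    · obtain ⟨Q', hU, hW⟩ := step hcol hf.le h w hw Q hlt t ht
      have hlt2 : totU Q < ⌈(F.card : ℝ) / (6 * f)⌉₊ := by
        rw [Nat.lt_ceil, lt_div_iff₀ (by positivity)]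
        linarith
      refine ih (⌈(F.card : ℝ) / (6 * f)⌉₊ - totU Q') (by omega) Q' rfl ?_
      rw [hU]
      push_cast
      linarith
    · exact ⟨Q, not_lt.1 hlt, hQ⟩

/-- the trivial state -/
def triv (G : SimpleGraph V) (col : Sym2 V → C) : State G col := fun σ => GPath.triv G col σ.1

lemma triv_totU : totU (triv G col) = Fintype.card (Slot G) := by
  unfold totU triv
  simp [GPath.triv_els]

lemma triv_totW (w : Sym2 V → ℝ) : totW w (triv G col) = 0 := by
  unfold totW triv
  simp [GPath.triv_wt]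

lemma greedyState (hcol : Proper G col) (hf : 0 < f) (h : Cong G col f F) (w : Sym2 V → ℝ)
    (hw : ∀ e, 0 ≤ w e) (w0 : ℝ) (hw0 : ∀ e ∈ F, w e ≤ w0) :
    ∀ s : Finset (Sym2 V), s ⊆ F → ∃ Q : State G col, (s.card : ℝ) ≤ 6 * f * totU Q ∧
      ∀ t : ℝ, 0 ≤ t → (∀ e ∈ s, t ≤ w e) → t ≤ w0 →
        1 / 6 * ((∑ e ∈ s, w e) / (6 * f) - Fintype.card (Slot G) * w0) +
          1 / 6 * t * (totU Q - s.card / (6 * f)) ≤ totW w Q := by
  classical
  intro s
  induction s using Finset.induction_on_min_value w with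
  | empty =>
    intro _
    refine ⟨triv G col, ?_, ?_⟩
    · simp only [Finset.card_empty, Nat.cast_zero]
      positivity
    · intro t ht0 _ htw
      rw [triv_totW, triv_totU]
      simp only [Finset.sum_empty, zero_div, Finset.card_empty, Nat.cast_zero, sub_zero, zero_sub]
      have : (0 : ℝ) ≤ Fintype.card (Slot G) := Nat.cast_nonneg _
      nlinarith
  | insert a s ha hmin ih =>
    intro hs
    have hsF : s ⊆ F := fun e he => hs (Finset.mem_insert_of_mem he)
    obtain ⟨Q, hQ1, hQ2⟩ := ih hsF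
    have hQ3 := hQ2 (w a) (hw a) (fun e he => hmin e he)
      (hw0 a (hs (Finset.mem_insert_self a s)))
    have hcong : Cong G col f (insert a s) := h.mono hs
    have hcard : ((insert a s).card : ℝ) = s.card + 1 := by
      rw [Finset.card_insert_of_notMem ha]; push_cast; ring
    have ht : ∀ e ∈ insert a s, w a ≤ w e := by
      intro e he
      rcases Finset.mem_insert.1 he with rfl | he
      · exact le_rfl
      · exact hmin e he
    set X : ℝ := 1 / 6 * ((∑ e ∈ insert a s, w e) / (6 * f) - Fintype.card (Slot G) * w0) with hX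
    have hX2 : X + 1 / 6 * w a * (totU Q - (insert a s).card / (6 * f)) ≤ totW w Q := by
      refine le_trans (le_of_eq ?_) hQ3
      rw [hX, hcard, Finset.sum_insert ha]
      ring
    obtain ⟨Q', hQ'1, hQ'2⟩ := loop hcol hf hcong w hw (w a) ht X _ Q rfl hX2
    refine ⟨Q', hQ'1, ?_⟩
    intro t ht0 hte _
    have hta := hte a (Finset.mem_insert_self a s)
    refine le_trans ?_ hQ'2
    have hpos : 0 ≤ (totU Q' : ℝ) - (insert a s).card / (6 * f) := by
      rw [sub_nonneg, div_le_iff₀ (by positivity)]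
      linarith
    have := mul_le_mul_of_nonneg_right hta hpos
    linarith

lemma card_slot_le : (Fintype.card (Slot G) : ℝ) ≤ 4 * Fintype.card V := by
  rw [Fintype.card_sigma]
  push_cast
  simp only [Fintype.card_fin]
  exact sum_slots G

theorem boost [Nonempty V] (hcol : Proper G col) (hf : 0 < f) (h : Cong G col f F)
    (w : Sym2 V → ℝ) (hw : ∀ e, 0 ≤ w e) :
    ∃ (z : V) (P : GPath G col z),
      ∑ e ∈ F, w e ≤ 168 * f * Fintype.card V * P.wt w := by
  classical
  rcases F.eq_empty_or_nonempty with hF | hF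
  · refine ⟨Classical.arbitrary V, GPath.triv G col _, ?_⟩
    rw [hF, GPath.triv_wt]
    simp
  · obtain ⟨e0, he0, hmax⟩ := Finset.exists_max_image F w hF
    obtain ⟨Q, hQ1, hQ2⟩ := greedyState hcol hf h w hw (w e0) hmax F subset_rfl
    have hQ3 := hQ2 0 le_rfl (fun e _ => hw e) (hw e0)
    have hne : (Finset.univ : Finset (Slot G)).Nonempty := by
      have z := Classical.arbitrary V
      have : 0 < slots G z := by
        have := slots_pos G z
        have h2 : (0 : ℝ) < slots G z := by linarith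
        exact_mod_cast h2
      exact ⟨⟨z, ⟨0, this⟩⟩, Finset.mem_univ _⟩
    obtain ⟨σ, -, hσ⟩ := Finset.exists_max_image Finset.univ (fun σ : Slot G => (Q σ).wt w) hne
    have htot : totW w Q ≤ Fintype.card (Slot G) * (Q σ).wt w := by
      unfold totW
      calc ∑ τ, (Q τ).wt w ≤ ∑ _τ : Slot G, (Q σ).wt w := Finset.sum_le_sum hσ
        _ = _ := by simp
    have hE := h.edge e0 he0
    have hN := card_slot_le (G := G)
    have hN0 : (0 : ℝ) ≤ Fintype.card (Slot G) := Nat.cast_nonneg _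
    have main : ∀ μ : ℝ, 0 ≤ μ → w e0 ≤ μ → (Q σ).wt w ≤ μ →
        ∑ e ∈ F, w e ≤ 168 * f * Fintype.card V * μ := by
      intro μ hμ0 h1 h2
      have h3 : (∑ e ∈ F, w e) / (6 * f) ≤ 7 * (Fintype.card (Slot G) * μ) := by
        have a1 := mul_le_mul_of_nonneg_left h1 hN0
        have a2 := mul_le_mul_of_nonneg_left h2 hN0
        simp only [mul_zero, zero_mul, add_zero] at hQ3
        linarith
      rw [div_le_iff₀ (by positivity)] at h3
      have h4 : (Fintype.card (Slot G) : ℝ) * μ ≤ 4 * Fintype.card V * μ :=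
        mul_le_mul_of_nonneg_right hN hμ0
      calc ∑ e ∈ F, w e ≤ 7 * (Fintype.card (Slot G) * μ) * (6 * f) := h3
        _ ≤ 7 * (4 * Fintype.card V * μ) * (6 * f) := by
            refine mul_le_mul_of_nonneg_right ?_ (by positivity)
            linarith
        _ = _ := by ring
    induction e0 using Sym2.ind with
    | _ a b =>
      obtain ⟨P2, hP2, -⟩ := GPath.exists_single (col := col) (show G.Adj a b from hE) w
      rcases le_total (w s(a, b)) ((Q σ).wt w) with hle | hle
      · exact ⟨σ.1, Q σ, main _ (le_trans (hw _) hle) hle le_rfl⟩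
      · refine ⟨a, P2, ?_⟩
        rw [hP2]
        exact main _ (hw _) le_rfl hle

end Pool.Agent.Helper31.Rpc
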