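import Mathlib

set_option autoImplicit false
set_option linter.unusedSectionVars false

open Finset

namespace Pool.Agent.Helper31.Rpc

variable {α : Type*} [DecidableEq α] {F F' : Finset α} {M : ℝ}

/-- For every weighting of `F` some member of `S` carries a `1/M` fraction of the weight. -/
def Boost (S : Set (Finset α)) (F : Finset α) (M : ℝ) : Prop :=
  ∀ w : α → ℝ, (∀ a, 0 ≤ w a) → ∃ P ∈ S, ∑ a ∈ F, w a ≤ M * ∑ a ∈ F ∩ P, w a

variable {S : Set (Finset α)}

lemma Boost.mono (h : Boost S F M) (hs : F' ⊆ F) : Boost S F' M := by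
  intro w hw
  obtain ⟨P, hP, h1⟩ := h (fun a => if a ∈ F' then w a else 0)
    (fun a => by split_ifs; exacts [hw a, le_rfl])
  refine ⟨P, hP, ?_⟩
  rw [Finset.sum_ite_mem, Finset.sum_ite_mem, Finset.inter_eq_right.2 hs] at h1
  have e : F ∩ P ∩ F' = F' ∩ P := by
    ext a
    simp only [Finset.mem_inter]
    constructor
    · rintro ⟨⟨-, h2⟩, h3⟩; exact ⟨h3, h2⟩
    · rintro ⟨h3, h2⟩; exact ⟨⟨hs h3, h2⟩, h3⟩
  rwa [e] at h1

/-- the part of `F` not covered by the list -/
def unc (F : Finset α) (l : List (Finset α)) : Finset α := F.filter fun a => ∀ P ∈ l, a ∉ P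

lemma unc_subset (F : Finset α) (l : List (Finset α)) : unc F l ⊆ F := Finset.filter_subset _ _

lemma unc_nil : unc F [] = F := by simp [unc]

lemma unc_cons (P : Finset α) (l : List (Finset α)) : unc F (P :: l) = unc F l \ P := by
  ext a
  simp only [unc, List.mem_cons, forall_eq_or_imp, Finset.mem_filter, Finset.mem_sdiff]
  tauto

lemma mem_unc {a : α} {l : List (Finset α)} (h : a ∈ F) (h2 : a ∉ unc F l) : ∃ P ∈ l, a ∈ P := by
  by_contra hcon
  push Not at hcon
  exact h2 (Finset.mem_filter.2 ⟨h, hcon⟩)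

theorem greedyCover (hM : 1 ≤ M) (hB : Boost S F M) (N : ℕ) :
    ∃ l : List (Finset α), (∀ P ∈ l, P ∈ S) ∧ l.length = N ∧
      ((unc F l).card : ℝ) ≤ F.card * (1 - 1 / M) ^ N := by
  have hM0 : 0 < M := by linarith
  have hM1 : 1 / M ≤ 1 := by rw [div_le_one hM0]; exact hM
  induction N with
  | zero => exact ⟨[], by simp, rfl, by simp [unc_nil]⟩
  | succ N ih =>
    obtain ⟨l, hl, hN, hc⟩ := ih
    obtain ⟨P, hP, h1⟩ := hB.mono (unc_subset F l) (fun _ => 1) (fun _ => zero_le_one)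
    refine ⟨P :: l, ?_, by simp [hN], ?_⟩
    · intro Q hQ
      rcases List.mem_cons.1 hQ with rfl | hQ
      · exact hP
      · exact hl Q hQ
    · rw [unc_cons]
      simp only [Finset.sum_const, nsmul_eq_mul, mul_one] at h1
      have h2 : ((unc F l \ P).card : ℝ) = (unc F l).card - (unc F l ∩ P).card := by
        have := Finset.card_sdiff_add_card_inter (unc F l) P
        have h3 : (((unc F l \ P).card + (unc F l ∩ P).card : ℕ) : ℝ) = ((unc F l).card : ℕ) := by
          exact_mod_cast this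
        push_cast at h3
        linarith
      have h4 : ((unc F l).card : ℝ) / M ≤ (unc F l ∩ P).card := by
        rw [div_le_iff₀ hM0]
        linarith
      calc ((unc F l \ P).card : ℝ) ≤ (unc F l).card * (1 - 1 / M) := by
            rw [h2]
            have : ((unc F l).card : ℝ) * (1 - 1 / M) = (unc F l).card - (unc F l).card / M := by
              ring
            linarith
        _ ≤ (F.card * (1 - 1 / M) ^ N) * (1 - 1 / M) :=
            mul_le_mul_of_nonneg_right hc (by linarith)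
        _ = _ := by ring

lemma exp_step {β η g δ : ℝ} (hβ : 0 ≤ β) (hη : 0 ≤ η) (hη1 : η ≤ 1 / 2) (hg : 0 ≤ g)
    (hδ : 0 ≤ δ) (hA : β * η * g ≤ 1 / 4) (hB : β * δ ≤ 1 / 16) :
    Real.exp (β * (1 + η) * (g - δ)) ≤
      Real.exp (β * g) * (1 + 5 / 4 * (η * (β * g)) - 7 / 8 * (β * δ)) := by
  set A := β * η * g with hAdef
  set B := β * (1 + η) * δ with hBdef
  have hA0 : 0 ≤ A := by positivity
  have hB0 : 0 ≤ B := by positivity
  have hBle : β * δ ≤ B := by
    have : 0 ≤ β * δ * η := by positivity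
    have e : B = β * δ + β * δ * η := by rw [hBdef]; ring
    linarith
  have hB1 : B ≤ 1 / 8 := by
    have e : B = β * δ * (1 + η) := by rw [hBdef]; ring
    have : 0 ≤ β * δ := by positivity
    nlinarith
  have e1 : β * (1 + η) * (g - δ) = β * g + (A - B) := by rw [hAdef, hBdef]; ring
  rw [e1, Real.exp_add]
  refine mul_le_mul_of_nonneg_left ?_ (Real.exp_pos _).le
  have habs : |A - B| ≤ 1 := by
    rw [abs_le]; constructor <;> linarith
  have h1 := Real.abs_exp_sub_one_sub_id_le habs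
  have h2 := (abs_le.1 h1).2
  have h3 : (A - B) ^ 2 ≤ A / 4 + B / 8 := by
    have : 0 ≤ A * B := by positivity
    nlinarith
  have h4 : η * (β * g) = A := by rw [hAdef]; ring
  rw [h4]
  linarith

theorem mwu {ι : Type*} [Fintype ι] (hM : 1 ≤ M) (hB : Boost S F M) (ψ : ι → α → ℝ)
    (hψ : ∀ T a, 0 ≤ ψ T a) (h1 : ∀ T, ∑ a ∈ F, ψ T a ≤ 1) (lam : ι → ℝ) (hl0 : ∀ T, 0 ≤ lam T)
    (hlM : ∀ T, lam T ≤ M / 8) (hinf : ∀ T, ∀ P ∈ S, lam T * ∑ a ∈ F ∩ P, ψ T a ≤ 1 / 64)
    (ω : ι → ℝ) (hω : ∀ T, 0 ≤ ω T) :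
    ∃ l : List (Finset α), (∀ P ∈ l, P ∈ S) ∧ (l.length : ℝ) ≤ 6 * M + 1 ∧
      ∑ T, ω T * Real.exp (4 * lam T * ∑ a ∈ unc F l, ψ T a) ≤ ∑ T, ω T * Real.exp (lam T) := by
  have hM0 : 0 < M := by linarith
  set η : ℝ := 1 / (2 * M) with hη
  have hη0 : 0 < η := by positivity
  have hη1 : η ≤ 1 / 2 := by
    rw [hη, div_le_div_iff₀ (by positivity) (by norm_num)]
    linarith
  have main : ∀ t : ℕ, (∀ s < t, (1 + η) ^ s < 4) →
      ∃ l : List (Finset α), (∀ P ∈ l, P ∈ S) ∧ l.length = t ∧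
      ∑ T, ω T * Real.exp (lam T * (1 + η) ^ t * ∑ a ∈ unc F l, ψ T a) ≤
        ∑ T, ω T * Real.exp (lam T) := by
    intro t
    induction t with
    | zero =>
      intro _
      refine ⟨[], by simp, rfl, ?_⟩
      refine Finset.sum_le_sum fun T _ => mul_le_mul_of_nonneg_left ?_ (hω T)
      rw [Real.exp_le_exp, unc_nil, pow_zero, mul_one]
      calc lam T * ∑ a ∈ F, ψ T a ≤ lam T * 1 := mul_le_mul_of_nonneg_left (h1 T) (hl0 T)
        _ = lam T := mul_one _
    | succ t ih =>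
      intro hs
      obtain ⟨l, hl, ht, hΦ⟩ := ih fun s hst => hs s (by omega)
      have h4 : (1 + η) ^ t < 4 := hs t (by omega)
      have h4' : 0 < (1 + η) ^ t := by positivity
      set β : ι → ℝ := fun T => lam T * (1 + η) ^ t with hβ
      set g : ι → ℝ := fun T => ∑ a ∈ unc F l, ψ T a with hg
      have hβ0 : ∀ T, 0 ≤ β T := fun T => mul_nonneg (hl0 T) h4'.le
      have hg0 : ∀ T, 0 ≤ g T := fun T => Finset.sum_nonneg fun a _ => hψ T a
      have hg1 : ∀ T, g T ≤ 1 := fun T =>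
        le_trans (Finset.sum_le_sum_of_subset_of_nonneg (unc_subset F l) fun a _ _ => hψ T a) (h1 T)
      obtain ⟨P, hP, hPw⟩ := hB.mono (unc_subset F l)
        (fun a => ∑ T, ω T * Real.exp (β T * g T) * (β T * ψ T a))
        (fun a => Finset.sum_nonneg fun T _ => mul_nonneg (mul_nonneg (hω T) (Real.exp_pos _).le)
          (mul_nonneg (hβ0 T) (hψ T a)))
      set δ : ι → ℝ := fun T => ∑ a ∈ unc F l ∩ P, ψ T a with hδ
      have hδ0 : ∀ T, 0 ≤ δ T := fun T => Finset.sum_nonneg fun a _ => hψ T a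
      have hδ1 : ∀ T, lam T * δ T ≤ 1 / 64 := fun T => by
        refine le_trans (mul_le_mul_of_nonneg_left ?_ (hl0 T)) (hinf T P hP)
        exact Finset.sum_le_sum_of_subset_of_nonneg
          (Finset.inter_subset_inter_right (unc_subset F l)) fun a _ _ => hψ T a
      have hex : ∀ s : Finset α, ∑ a ∈ s, ∑ T, ω T * Real.exp (β T * g T) * (β T * ψ T a) =
          ∑ T, ω T * Real.exp (β T * g T) * (β T * ∑ a ∈ s, ψ T a) := by
        intro s
        rw [Finset.sum_comm]
        refine Finset.sum_congr rfl fun T _ => ?_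
        rw [Finset.mul_sum s, Finset.mul_sum s]
      rw [hex, hex] at hPw
      refine ⟨P :: l, ?_, by simp [ht], ?_⟩
      · intro Q hQ
        rcases List.mem_cons.1 hQ with rfl | hQ
        · exact hP
        · exact hl Q hQ
      refine le_trans ?_ hΦ
      have hnew : ∀ T, ∑ a ∈ unc F (P :: l), ψ T a = g T - δ T := by
        intro T
        rw [unc_cons, hg, hδ]
        have := Finset.sum_inter_add_sum_sdiff (unc F l) P (ψ T)
        simp only
        linarith
      have hpt : ∀ T, ω T * Real.exp (lam T * (1 + η) ^ (t + 1) * ∑ a ∈ unc F (P :: l), ψ T a) ≤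
          ω T * Real.exp (β T * g T) + (5 / 4 * η * (ω T * Real.exp (β T * g T) * (β T * g T)) -
            7 / 8 * (ω T * Real.exp (β T * g T) * (β T * δ T))) := by
        intro T
        rw [hnew]
        have e1 : lam T * (1 + η) ^ (t + 1) * (g T - δ T) = β T * (1 + η) * (g T - δ T) := by
          simp only [hβ]; ring
        rw [e1]
        have hβ4 : β T ≤ 4 * lam T := by
          simp only [hβ]
          have := mul_le_mul_of_nonneg_left h4.le (hl0 T)
          linarith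
        have hA : β T * η * g T ≤ 1 / 4 := by
          have a1 : β T * η ≤ 1 / 4 := by
            have a2 : β T ≤ M / 2 := by
              have := hlM T
              linarith
            calc β T * η ≤ M / 2 * η := mul_le_mul_of_nonneg_right a2 hη0.le
              _ = 1 / 4 := by rw [hη]; field_simp; norm_num
          calc β T * η * g T ≤ 1 / 4 * 1 :=
                mul_le_mul a1 (hg1 T) (hg0 T) (by norm_num)
            _ = 1 / 4 := by norm_num
        have hBd : β T * δ T ≤ 1 / 16 := by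
          calc β T * δ T ≤ 4 * lam T * δ T := mul_le_mul_of_nonneg_right hβ4 (hδ0 T)
            _ = 4 * (lam T * δ T) := by ring
            _ ≤ 4 * (1 / 64) := mul_le_mul_of_nonneg_left (hδ1 T) (by norm_num)
            _ = 1 / 16 := by norm_num
        have := exp_step (hβ0 T) hη0.le hη1 (hg0 T) (hδ0 T) hA hBd
        calc _ ≤ ω T * (Real.exp (β T * g T) *
              (1 + 5 / 4 * (η * (β T * g T)) - 7 / 8 * (β T * δ T))) :=
              mul_le_mul_of_nonneg_left this (hω T)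
          _ = _ := by ring
      refine le_trans (Finset.sum_le_sum fun T _ => hpt T) ?_
      rw [Finset.sum_add_distrib, Finset.sum_sub_distrib, ← Finset.mul_sum, ← Finset.mul_sum]
      set S1 := ∑ T, ω T * Real.exp (β T * g T) * (β T * g T) with hS1
      set S2 := ∑ T, ω T * Real.exp (β T * g T) * (β T * δ T) with hS2
      have hS1' : 0 ≤ S1 := Finset.sum_nonneg fun T _ =>
        mul_nonneg (mul_nonneg (hω T) (Real.exp_pos _).le) (mul_nonneg (hβ0 T) (hg0 T))
      have hfin : 5 / 4 * η * S1 - 7 / 8 * S2 ≤ 0 := by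
        have a1 : S1 / M ≤ S2 := by
          rw [div_le_iff₀ hM0, mul_comm]
          exact hPw
        have a2 : 5 / 4 * η * S1 = 5 / 8 * (S1 / M) := by
          rw [hη]; field_simp; ring
        have a3 : 0 ≤ S1 / M := div_nonneg hS1' hM0.le
        rw [a2]
        linarith
      simp only [hβ, hg] at hfin hS1 hS2 ⊢
      linarith
  have hbern : ∀ s : ℕ, 1 + s * η ≤ (1 + η) ^ s := fun s =>
    one_add_mul_le_pow (by linarith) s
  have hex4 : ∃ N : ℕ, 4 ≤ (1 + η) ^ N := by
    obtain ⟨N, hN⟩ := exists_nat_ge (3 / η)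
    refine ⟨N, le_trans ?_ (hbern N)⟩
    rw [div_le_iff₀ hη0] at hN
    linarith
  classical
  set N := Nat.find hex4 with hNdef
  have hN4 : 4 ≤ (1 + η) ^ N := Nat.find_spec hex4
  have hNlt : ∀ s < N, (1 + η) ^ s < 4 := fun s hs => not_le.1 (Nat.find_min hex4 hs)
  obtain ⟨l, hl, hlen, hΦ⟩ := main N hNlt
  refine ⟨l, hl, ?_, le_trans ?_ hΦ⟩
  · rw [hlen]
    rcases Nat.eq_zero_or_pos N with h0 | h0
    · rw [h0]; push_cast; linarith
    · have a1 := hNlt (N - 1) (by omega)
      have a2 := hbern (N - 1)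
      have a3 : ((N - 1 : ℕ) : ℝ) = N - 1 := by
        rw [Nat.cast_sub h0]; simp
      rw [a3] at a2
      have a4 : ((N : ℝ) - 1) * η < 3 := by linarith
      have a5 : ((N : ℝ) - 1) < 3 / η := by rwa [lt_div_iff₀ hη0]
      have a6 : 3 / η = 6 * M := by rw [hη]; field_simp; norm_num
      rw [a6] at a5
      linarith
  · refine Finset.sum_le_sum fun T _ => mul_le_mul_of_nonneg_left ?_ (hω T)
    rw [Real.exp_le_exp]
    refine mul_le_mul_of_nonneg_right ?_ (Finset.sum_nonneg fun a _ => hψ T a)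
    have := mul_le_mul_of_nonneg_left hN4 (hl0 T)
    linarith

theorem mwu' {ι : Type*} [Fintype ι] (hM : 1 ≤ M) (hB : Boost S F M) (ψ : ι → α → ℝ)
    (hψ : ∀ T a, 0 ≤ ψ T a) (h1 : ∀ T, ∑ a ∈ F, ψ T a ≤ 1) (lam : ι → ℝ) (hl0 : ∀ T, 0 ≤ lam T)
    (hlM : ∀ T, lam T ≤ M / 8) (hinf : ∀ T, ∀ P ∈ S, lam T * ∑ a ∈ F ∩ P, ψ T a ≤ 1 / 64)
    (cost : ι → ℝ) (hcost : ∀ T, 0 ≤ cost T) :
    ∃ l : List (Finset α), (∀ P ∈ l, P ∈ S) ∧ (l.length : ℝ) ≤ 6 * M + 1 ∧
      ∑ T, (if 1 / 2 < ∑ a ∈ unc F l, ψ T a then cost T else 0) ≤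
        ∑ T, cost T * Real.exp (-lam T) := by
  obtain ⟨l, hl, hlen, hΦ⟩ := mwu hM hB ψ hψ h1 lam hl0 hlM hinf
    (fun T => cost T * Real.exp (-(2 * lam T)))
    (fun T => mul_nonneg (hcost T) (Real.exp_pos _).le)
  refine ⟨l, hl, hlen, ?_⟩
  have e1 : ∀ T, cost T * Real.exp (-(2 * lam T)) * Real.exp (lam T) =
      cost T * Real.exp (-lam T) := by
    intro T
    rw [mul_assoc, ← Real.exp_add]
    congr 2
    ring
  simp only [e1] at hΦ
  refine le_trans (Finset.sum_le_sum fun T _ => ?_) hΦ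
  split_ifs with h
  · rw [mul_assoc, ← Real.exp_add]
    have : 1 ≤ Real.exp (-(2 * lam T) + 4 * lam T * ∑ a ∈ unc F l, ψ T a) := by
      refine Real.one_le_exp ?_
      have := mul_le_mul_of_nonneg_left h.le (hl0 T)
      linarith
    calc cost T = cost T * 1 := (mul_one _).symm
      _ ≤ _ := mul_le_mul_of_nonneg_left this (hcost T)
  · exact mul_nonneg (mul_nonneg (hcost T) (Real.exp_pos _).le) (Real.exp_pos _).le

/-- `F` can be covered by at most `N` members of `S`. -/
def Cov (S : Set (Finset α)) (F : Finset α) (N : ℝ) : Prop :=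
  ∃ l : List (Finset α), (∀ P ∈ l, P ∈ S) ∧ (l.length : ℝ) ≤ N ∧ ∀ a ∈ F, ∃ P ∈ l, a ∈ P

lemma Cov.mono {N N' : ℝ} (h : Cov S F N) (hN : N ≤ N') (hs : F' ⊆ F) : Cov S F' N' := by
  obtain ⟨l, h1, h2, h3⟩ := h
  exact ⟨l, h1, le_trans h2 hN, fun a ha => h3 a (hs ha)⟩

lemma Cov.union {N N' : ℝ} (h : Cov S F N) (h' : Cov S F' N') : Cov S (F ∪ F') (N + N') := by
  obtain ⟨l, h1, h2, h3⟩ := h
  obtain ⟨l', h1', h2', h3'⟩ := h'
  refine ⟨l ++ l', ?_, ?_, ?_⟩
  · intro P hP
    rcases List.mem_append.1 hP with hP | hP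
    · exact h1 P hP
    · exact h1' P hP
  · rw [List.length_append]
    push_cast
    linarith
  · intro a ha
    rcases Finset.mem_union.1 ha with ha | ha
    · obtain ⟨P, hP, hP'⟩ := h3 a ha
      exact ⟨P, List.mem_append.2 (Or.inl hP), hP'⟩
    · obtain ⟨P, hP, hP'⟩ := h3' a ha
      exact ⟨P, List.mem_append.2 (Or.inr hP), hP'⟩

lemma Cov.empty : Cov S ∅ 0 := ⟨[], by simp, by simp, by simp⟩

lemma Cov.single (h : ∀ a ∈ F, ∃ P ∈ S, a ∈ P) : Cov S F F.card := by
  induction F using Finset.induction_on with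
  | empty => simpa using (Cov.empty (S := S))
  | insert a s ha ih =>
    obtain ⟨P, hP, haP⟩ := h a (Finset.mem_insert_self a s)
    have h1 : Cov S {a} 1 := ⟨[P], by simpa using hP, by simp, by simpa using haP⟩
    have h2 := h1.union (ih fun b hb => h b (Finset.mem_insert_of_mem hb))
    rw [Finset.card_insert_of_notMem ha]
    push_cast
    rw [Finset.insert_eq]
    exact h2.mono (by linarith) subset_rfl

lemma Cov.of_list {l : List (Finset α)} (hl : ∀ P ∈ l, P ∈ S) {N : ℝ}
    (h : Cov S (unc F l) N) : Cov S F (l.length + N) := by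
  have h1 : Cov S (F.filter fun a => a ∉ unc F l) l.length := by
    refine ⟨l, hl, le_rfl, fun a ha => ?_⟩
    obtain ⟨h2, h3⟩ := Finset.mem_filter.1 ha
    exact mem_unc h2 h3
  refine (h1.union h).mono le_rfl ?_
  intro a ha
  by_cases h2 : a ∈ unc F l
  · exact Finset.mem_union.2 (Or.inr h2)
  · exact Finset.mem_union.2 (Or.inl (Finset.mem_filter.2 ⟨ha, h2⟩))

end Pool.Agent.Helper31.Rpc
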