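import Mathlib
import Pool.Agent.Helper31.RpcBoost
import Pool.Agent.Helper31.RpcMwu

set_option autoImplicit false
set_option linter.unusedSectionVars false

open Finset

namespace Pool.Agent.Helper31.Rpc

variable {V C : Type*} [Fintype V] [DecidableEq V]
variable {G : SimpleGraph V} {col : Sym2 V → C} {f : ℝ} {F F' : Finset (Sym2 V)}

open Classical in
/-- natural degree -/
noncomputable def dN (G : SimpleGraph V) (x : V) : ℕ := (Finset.univ.filter fun y => G.Adj x y).card

lemma deg_eq (x : V) : deg G x = dN G x := by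
  classical
  unfold deg dN adj ind
  rw [Finset.sum_ite, Finset.sum_const_zero, add_zero, Finset.sum_const, nsmul_eq_mul, mul_one]

lemma dN_le (x : V) : dN G x ≤ Fintype.card V := by
  classical
  unfold dN
  exact Finset.card_le_univ _

/-- the level of a vertex -/
noncomputable def lev (G : SimpleGraph V) (x : V) : ℕ := Nat.log 4 (dN G x)

lemma lev_lt (x : V) : lev G x < Nat.log 4 (Fintype.card V) + 1 :=
  Nat.lt_succ_of_le (Nat.log_mono_right (dN_le x))

lemma dN_lt_lev (x : V) : dN G x < 4 ^ (lev G x + 1) := Nat.lt_pow_succ_log_self (by norm_num) _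

lemma pow_lev_le {x : V} (h : dN G x ≠ 0) : 4 ^ lev G x ≤ dN G x := Nat.pow_log_le_self 4 h

lemma inv_le_lev {x : V} (h : dN G x ≠ 0) : inv G x ≤ 1 / 4 ^ lev G x := by
  unfold inv
  rw [deg_eq, ← one_div]
  have h1 : ((4 : ℝ) ^ lev G x) ≤ dN G x := by exact_mod_cast pow_lev_le h
  exact one_div_le_one_div_of_le (by positivity) h1

/-- sum of a dart weight over `F` -/
noncomputable def dsum (F : Finset (Sym2 V)) (ρ : V → V → ℝ) : ℝ := ∑ v, ∑ y, hF F v y * ρ v y

/-- the corresponding edge weight -/
noncomputable def eW (ρ : V → V → ℝ) (e : Sym2 V) : ℝ :=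
  ∑ v, ∑ y, (if s(v, y) = e then ρ v y else 0)

lemma eW_nonneg {ρ : V → V → ℝ} (hρ : ∀ v y, 0 ≤ ρ v y) (e : Sym2 V) : 0 ≤ eW ρ e :=
  Finset.sum_nonneg fun v _ => Finset.sum_nonneg fun y _ => by
    split_ifs
    · exact hρ v y
    · exact le_rfl

lemma sum_eW (F : Finset (Sym2 V)) (ρ : V → V → ℝ) : ∑ e ∈ F, eW ρ e = dsum F ρ := by
  unfold eW dsum
  rw [Finset.sum_comm]
  refine Finset.sum_congr rfl fun v _ => ?_
  rw [Finset.sum_comm]
  refine Finset.sum_congr rfl fun y _ => ?_
  rw [Finset.sum_ite_eq]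
  unfold hF ind
  split_ifs <;> simp

lemma eW_mk (ρ : V → V → ℝ) {a b : V} (h : a ≠ b) : eW ρ s(a, b) = ρ a b + ρ b a := by
  unfold eW
  have h1 : ∀ v y, (if s(v, y) = s(a, b) then ρ v y else 0) =
      (if v = a then (if y = b then ρ a b else 0) else 0) +
      (if v = b then (if y = a then ρ b a else 0) else 0) := by
    intro v y
    by_cases h2 : v = a
    · subst h2
      by_cases h3 : y = b
      · subst h3
        simp [h]
      · have : ¬ s(v, y) = s(v, b) := by
          intro hh
          rw [Sym2.eq_iff] at hh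
          rcases hh with ⟨-, hh⟩ | ⟨hh, -⟩
          · exact h3 hh
          · exact h hh
        simp [this, h3, h]
    · by_cases h3 : v = b
      · subst h3
        by_cases h4 : y = a
        · subst h4
          have : s(v, y) = s(y, v) := Sym2.eq_swap
          simp [this, h2]
        · have : ¬ s(v, y) = s(a, v) := by
            intro hh
            rw [Sym2.eq_iff] at hh
            rcases hh with ⟨hh, -⟩ | ⟨-, hh⟩
            · exact h2 hh
            · exact h4 hh
          simp [this, h4, h2]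
      · have : ¬ s(v, y) = s(a, b) := by
          intro hh
          rw [Sym2.eq_iff] at hh
          rcases hh with ⟨hh, -⟩ | ⟨hh, -⟩
          · exact h2 hh
          · exact h3 hh
        simp [this, h2, h3]
  simp_rw [h1, Finset.sum_add_distrib]
  simp [Finset.sum_ite_eq']

/-- test weight, first kind -/
noncomputable def r1 (G : SimpleGraph V) (x : V) : V → V → ℝ := fun v _ => ind (v = x) * inv G v

/-- test weight, second kind -/
noncomputable def r2 (G : SimpleGraph V) (col : Sym2 V → C) (u u' : V ⊕ C) (j : ℕ) :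
    V → V → ℝ := fun v y =>
  ind (lev G v = j) * ind (Tch G col v u) * ind (u' ∈ rest col v y) * inv G v

/-- threshold, second kind -/
noncomputable def b2 (G : SimpleGraph V) (col : Sym2 V → C) (u u' : V ⊕ C) (j : ℕ) : ℝ :=
  ∑ v, ∑ y, adj G v y * r2 G col u u' j v y + (1 / 2) ^ (j + 1)

lemma r1_nonneg (x v y : V) : 0 ≤ r1 G x v y := mul_nonneg (ind_nonneg _) (inv_nonneg' G _)

lemma r2_nonneg (u u' : V ⊕ C) (j : ℕ) (v y : V) : 0 ≤ r2 G col u u' j v y :=
  mul_nonneg (mul_nonneg (mul_nonneg (ind_nonneg _) (ind_nonneg _)) (ind_nonneg _))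
    (inv_nonneg' G _)

lemma b2_ge (u u' : V ⊕ C) (j : ℕ) : (1 / 2 : ℝ) ^ (j + 1) ≤ b2 G col u u' j := by
  unfold b2
  have : 0 ≤ ∑ v, ∑ y, adj G v y * r2 G col u u' j v y :=
    Finset.sum_nonneg fun v _ => Finset.sum_nonneg fun y _ =>
      mul_nonneg (adj_nonneg G _ _) (r2_nonneg _ _ _ _ _)
  linarith

/-- tightness of `F` with parameter `f` -/
structure Tight (G : SimpleGraph V) (col : Sym2 V → C) (f : ℝ) (F : Finset (Sym2 V)) : Prop where
  edge : ∀ e ∈ F, e ∈ G.edgeSet
  t1 : ∀ x, dsum F (r1 G x) ≤ f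
  t2 : ∀ u u' j, j < Nat.log 4 (Fintype.card V) + 1 →
    dsum F (r2 G col u u' j) ≤ f * b2 G col u u' j

lemma dsum_mono {ρ : V → V → ℝ} (hρ : ∀ v y, 0 ≤ ρ v y) (hs : F' ⊆ F) :
    dsum F' ρ ≤ dsum F ρ :=
  Finset.sum_le_sum fun v _ => Finset.sum_le_sum fun y _ =>
    mul_le_mul_of_nonneg_right (hF_mono hs v y) (hρ v y)

lemma dsum_nonneg {ρ : V → V → ℝ} (hρ : ∀ v y, 0 ≤ ρ v y) : 0 ≤ dsum F ρ :=
  Finset.sum_nonneg fun v _ => Finset.sum_nonneg fun y _ => mul_nonneg (hF_nonneg F v y) (hρ v y)

lemma Tight.mono (h : Tight G col f F) (hs : F' ⊆ F) : Tight G col f F' where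
  edge := fun e he => h.edge e (hs he)
  t1 := fun x => le_trans (dsum_mono (r1_nonneg x) hs) (h.t1 x)
  t2 := fun u u' j hj => le_trans (dsum_mono (r2_nonneg u u' j) hs) (h.t2 u u' j hj)

lemma hF_le_adj (hE : ∀ e ∈ F, e ∈ G.edgeSet) (x y : V) : hF F x y ≤ adj G x y :=
  ind_mono fun h => hE _ h

lemma sum_lev (v : V) (L : ℕ) (h : lev G v < L) :
    ∑ j ∈ Finset.range L, ind (lev G v = j) = 1 := by
  rw [Finset.sum_eq_single (lev G v)]
  · exact ind_true rfl
  · intro b _ hb
    exact ind_false fun h => hb h.symm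
  · intro h2
    exact absurd (Finset.mem_range.2 h) h2

lemma sum_half (L : ℕ) : ∑ j ∈ Finset.range L, (1 / 2 : ℝ) ^ (j + 1) ≤ 1 := by
  have h : ∀ L : ℕ, ∑ j ∈ Finset.range L, (1 / 2 : ℝ) ^ (j + 1) = 1 - (1 / 2) ^ L := by
    intro L
    induction L with
    | zero => simp
    | succ L ih => rw [Finset.sum_range_succ, ih]; ring
  rw [h]
  have : (0 : ℝ) ≤ (1 / 2) ^ L := by positivity
  linarith

lemma tch_inl {v z : V} : Tch G col v (Sum.inl z) ↔ G.Adj v z := by
  constructor
  · rintro ⟨w, hw, hz⟩
    simp only [rest, List.mem_cons, Sum.inl.injEq, reduceCtorEq, List.not_mem_nil, or_self,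
      or_false] at hz
    rw [hz]; exact hw
  · intro h
    exact ⟨z, h, by simp [rest]⟩

/-- pooled weight over all levels -/
lemma sum_levels (hf : 0 ≤ f) (h : Tight G col f F) (u u' : V ⊕ C) :
    ∑ v, ∑ y, hF F v y * (ind (Tch G col v u) * ind (u' ∈ rest col v y) * inv G v) ≤
      f * (∑ v, ∑ y, adj G v y * (ind (Tch G col v u) * ind (u' ∈ rest col v y) * inv G v) + 1) := by
  set L := Nat.log 4 (Fintype.card V) + 1 with hL
  have e : ∀ g : V → V → ℝ,
      ∑ v, ∑ y, g v y * (ind (Tch G col v u) * ind (u' ∈ rest col v y) * inv G v) =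
      ∑ j ∈ Finset.range L, ∑ v, ∑ y, g v y * r2 G col u u' j v y := by
    intro g
    symm
    rw [Finset.sum_comm]
    refine Finset.sum_congr rfl fun v _ => ?_
    rw [Finset.sum_comm]
    refine Finset.sum_congr rfl fun y _ => ?_
    have : ∀ j, g v y * r2 G col u u' j v y =
        (g v y * (ind (Tch G col v u) * ind (u' ∈ rest col v y) * inv G v)) *
          ind (lev G v = j) := by
      intro j; unfold r2; ring
    simp_rw [this]
    rw [← Finset.mul_sum, sum_lev v L (lev_lt v), mul_one]
  rw [e, e]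
  calc ∑ j ∈ Finset.range L, ∑ v, ∑ y, hF F v y * r2 G col u u' j v y ≤
        ∑ j ∈ Finset.range L, f * b2 G col u u' j :=
        Finset.sum_le_sum fun j hj => h.t2 u u' j (Finset.mem_range.1 hj)
    _ = f * (∑ j ∈ Finset.range L, ∑ v, ∑ y, adj G v y * r2 G col u u' j v y +
          ∑ j ∈ Finset.range L, (1 / 2 : ℝ) ^ (j + 1)) := by
        rw [← Finset.mul_sum, ← Finset.sum_add_distrib]
        rfl
    _ ≤ _ := by
        refine mul_le_mul_of_nonneg_left ?_ hf
        have := sum_half L
        linarith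

lemma Tight.cong (hcol : Proper G col) (hf : 0 ≤ f) (h : Tight G col f F)
    (h2 : ∀ x y, s(x, y) ∈ F → 2 ≤ deg G x) : Cong G col f F where
  edge := h.edge
  two := h2
  c1 := by
    intro x
    refine le_trans (le_of_eq ?_) (h.t1 x)
    symm
    unfold dsum r1
    rw [Finset.sum_eq_single x]
    · rw [ind_true rfl, Finset.mul_sum]
      refine Finset.sum_congr rfl fun y _ => ?_
      ring
    · intro b _ hb
      refine Finset.sum_eq_zero fun y _ => ?_
      rw [ind_false hb]; ring
    · intro hx; exact absurd (Finset.mem_univ _) hx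
  c2 := by
    intro z u
    have k := sum_levels hf h (Sum.inl z) u
    refine le_trans (le_of_eq ?_) (le_trans k (mul_le_mul_of_nonneg_left ?_ hf))
    · refine Finset.sum_congr rfl fun x _ => ?_
      rw [Finset.mul_sum]
      refine Finset.sum_congr rfl fun y _ => ?_
      have : adj G z x = ind (Tch G col x (Sum.inl z)) := by
        rw [adj_comm]
        unfold adj
        rw [show G.Adj x z = Tch G col x (Sum.inl z) from propext tch_inl.symm]
      rw [this]
      ring
    · refine add_le_add ?_ le_rfl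
      unfold cA
      refine Finset.sum_le_sum fun v _ => ?_
      have e1 : ∑ y, adj G v y * (ind (Tch G col v (Sum.inl z)) * ind (u ∈ rest col v y) *
          inv G v) = (ind (Tch G col v (Sum.inl z)) * inv G v) *
          ∑ y, adj G v y * ind (u ∈ rest col v y) := by
        rw [Finset.mul_sum]
        refine Finset.sum_congr rfl fun y _ => ?_
        ring
      have e2 : adj G z v = ind (Tch G col v (Sum.inl z)) := by
        rw [adj_comm]
        unfold adj
        rw [show G.Adj v z = Tch G col v (Sum.inl z) from propext tch_inl.symm]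
      rw [e1, e2]
      calc _ ≤ (ind (Tch G col v (Sum.inl z)) * inv G v) * 1 :=
            mul_le_mul_of_nonneg_left (le_trans (sum_adj_unique hcol v u) (ind_le_one _))
              (mul_nonneg (ind_nonneg _) (inv_nonneg' G _))
        _ = _ := mul_one _
  c3 := by
    intro x u
    have k := sum_levels hf h u (Sum.inl x)
    have hin : ∀ v y, ((Sum.inl x : V ⊕ C) ∈ rest col v y) = (y = x) := by
      intro v y
      simp [rest, eq_comm]
    simp only [hin] at k
    have e : ∀ g : V → V → ℝ, ∑ v, ∑ y, g v y * (ind (Tch G col v u) * ind (y = x) * inv G v) =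
        ∑ v, g v x * (ind (Tch G col v u) * inv G v) := by
      intro g
      refine Finset.sum_congr rfl fun v _ => ?_
      rw [Finset.sum_eq_single x]
      · rw [ind_true rfl]; ring
      · intro b _ hb
        rw [ind_false hb]; ring
      · intro hx; exact absurd (Finset.mem_univ _) hx
    rw [e, e] at k
    refine le_trans (le_of_eq ?_) (le_trans k (mul_le_mul_of_nonneg_left ?_ hf))
    · refine Finset.sum_congr rfl fun y _ => ?_
      rw [hF_comm]; ring
    · refine add_le_add ?_ le_rfl
      unfold cA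
      refine Finset.sum_le_sum fun v _ => ?_
      rw [adj_comm G v x]
      refine mul_le_mul_of_nonneg_left ?_ (adj_nonneg G _ _)
      calc _ ≤ 1 * inv G v := mul_le_mul_of_nonneg_right (ind_le_one _) (inv_nonneg' G _)
        _ = inv G v := one_mul _

/-- count of darts of a walk meeting an element -/
noncomputable def dcount (col : Sym2 V → C) (u : V ⊕ C) (e : Sym2 V) : ℝ :=
  eW (fun v y => ind (u ∈ rest col v y)) e

lemma dcount_mk (u : V ⊕ C) {a x : V} (h : a ≠ x) :
    dcount col u s(a, x) = ind (u = Sum.inl x) + ind (u = Sum.inl a) +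
      2 * ind (u = Sum.inr (col s(a, x))) := by
  unfold dcount
  rw [eW_mk _ h]
  have e1 : s(x, a) = s(a, x) := Sym2.eq_swap
  have k : ∀ v y c, ind (u ∈ [Sum.inl y, (Sum.inr c : V ⊕ C)]) =
      ind (u = Sum.inl y) + ind (u = Sum.inr c) + 0 * ind (v = y) := by
    intro v y c
    by_cases h1 : u = Sum.inl y
    · rw [ind_true h1, ind_true (by simp [h1]), ind_false (by simp [h1])]; ring
    · by_cases h2 : u = Sum.inr c
      · rw [ind_false h1, ind_true (by simp [h2]), ind_true h2]; ring
      · rw [ind_false h1, ind_false h2, ind_false (by simp [h1, h2])]; ring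
  unfold rest
  rw [k a x, k x a, e1]
  ring

/-- number of occurrences in a list -/
noncomputable def occ {β : Type*} (u : β) (l : List β) : ℝ := (l.map fun c => ind (u = c)).sum

lemma occ_cons {β : Type*} (u c : β) (l : List β) : occ u (c :: l) = ind (u = c) + occ u l := by
  simp [occ]

lemma occ_le {β : Type*} (u : β) (l : List β) (h : l.Nodup) : occ u l ≤ 1 := by
  have key : ∀ l : List β, l.Nodup → occ u l ≤ ind (u ∈ l) := by
    intro l
    induction l with
    | nil => intro _; simp [occ, ind_nonneg]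
    | cons c l ih =>
      intro h
      rw [List.nodup_cons] at h
      rw [occ_cons]
      have := ih h.2
      by_cases h1 : u = c
      · rw [ind_true h1, ind_true (by simp [h1])]
        have h2 : ind (u ∈ l) = 0 := ind_false (by rw [h1]; exact h.1)
        linarith
      · rw [ind_false h1]
        have h2 : ind (u ∈ c :: l) = ind (u ∈ l) := by
          rw [show (u ∈ c :: l) = (u ∈ l) by simp [h1]]
        linarith
  exact le_trans (key l h) (ind_le_one _)

lemma dcount_walk (u : V ⊕ C) {a b : V} (p : G.Walk a b) :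
    (p.edges.map (dcount col u)).sum ≤ 2 * occ u (elems col p) - ind (u = Sum.inl a) := by
  induction p with
  | nil =>
    rename_i a
    simp only [SimpleGraph.Walk.edges_nil, List.map_nil, List.sum_nil, elems]
    rw [occ_cons]
    have := ind_nonneg (u = (Sum.inl a : V ⊕ C))
    simp only [occ, List.map_nil, List.sum_nil]
    linarith
  | cons h p ih =>
    rename_i a x b
    simp only [SimpleGraph.Walk.edges_cons, List.map_cons, List.sum_cons, elems]
    rw [dcount_mk u h.ne, occ_cons, occ_cons]
    linarith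

lemma dcount_le {z : V} (P : GPath G col z) (u : V ⊕ C) :
    (P.p.edges.map (dcount col u)).sum ≤ 2 := by
  have h1 := dcount_walk (col := col) u P.p
  have h3 := occ_le u (elems col P.p) P.good
  have h4 := ind_nonneg (u = Sum.inl z)
  linarith

/-- the family of edge sets of rainbow paths -/
def RP (G : SimpleGraph V) (col : Sym2 V → C) : Set (Finset (Sym2 V)) :=
  {P | ∃ (z : V) (Q : GPath G col z), P = Q.p.edges.toFinset}

lemma GPath.nodup_edges {z : V} (Q : GPath G col z) : Q.p.edges.Nodup :=
  (good_colors col Q.p Q.good).of_map _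

lemma influence {P : Finset (Sym2 V)} (hP : P ∈ RP G col) (ρ : V → V → ℝ) (hρ : ∀ v y, 0 ≤ ρ v y) (κ : ℝ) (hκ : 0 ≤ κ) (u : V ⊕ C)
    (h : ∀ a b, G.Adj a b → ρ a b + ρ b a ≤ κ * dcount col u s(a, b)) :
    ∑ e ∈ F ∩ P, eW ρ e ≤ 2 * κ := by
  obtain ⟨z, Q, rfl⟩ := hP
  have h1 : ∀ e ∈ Q.p.edges, eW ρ e ≤ κ * dcount col u e := by
    intro e he
    have hadj := Q.p.edges_subset_edgeSet he
    induction e using Sym2.ind with
    | _ a b =>
      have hab : G.Adj a b := hadj
      rw [eW_mk ρ hab.ne]
      exact h a b hab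
  calc ∑ e ∈ F ∩ Q.p.edges.toFinset, eW ρ e ≤ ∑ e ∈ Q.p.edges.toFinset, eW ρ e :=
        Finset.sum_le_sum_of_subset_of_nonneg Finset.inter_subset_right
          fun e _ _ => eW_nonneg hρ e
    _ ≤ ∑ e ∈ Q.p.edges.toFinset, κ * dcount col u e :=
        Finset.sum_le_sum fun e he => h1 e (List.mem_toFinset.1 he)
    _ = κ * (Q.p.edges.map (dcount col u)).sum := by
        rw [← Finset.mul_sum, List.sum_toFinset _ Q.nodup_edges]
    _ ≤ κ * 2 := mul_le_mul_of_nonneg_left (dcount_le Q u) hκ
    _ = 2 * κ := by ring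

lemma influence1 {P : Finset (Sym2 V)} (hP : P ∈ RP G col) (x : V) : ∑ e ∈ F ∩ P, eW (r1 G x) e ≤ 2 * inv G x := by
  refine influence hP _ (r1_nonneg x) _ (inv_nonneg' G x) (Sum.inl x) ?_
  intro a b hab
  rw [dcount_mk _ hab.ne]
  unfold r1
  have e0 : ind ((Sum.inl x : V ⊕ C) = Sum.inr (col s(a, b))) = 0 := ind_false (by simp)
  rw [e0]
  have e1 : ind ((Sum.inl x : V ⊕ C) = Sum.inl a) = ind (a = x) := by
    congr 1; simp [eq_comm]
  have e2 : ind ((Sum.inl x : V ⊕ C) = Sum.inl b) = ind (b = x) := by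
    congr 1; simp [eq_comm]
  rw [e1, e2]
  have k : ∀ v, ind (v = x) * inv G v = ind (v = x) * inv G x := by
    intro v
    by_cases h : v = x
    · rw [h]
    · rw [ind_false h]; ring
  rw [k a, k b]
  linarith

lemma influence2 {P : Finset (Sym2 V)} (hP : P ∈ RP G col) (u u' : V ⊕ C) (j : ℕ) : ∑ e ∈ F ∩ P, eW (r2 G col u u' j) e ≤ 2 * (1 / 4 ^ j) := by
  refine influence hP _ (r2_nonneg u u' j) _ (by positivity) u' ?_
  intro a b hab
  unfold dcount
  rw [eW_mk _ hab.ne]
  have k : ∀ v y, G.Adj v y → r2 G col u u' j v y ≤ 1 / 4 ^ j * ind (u' ∈ rest col v y) := by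
    intro v y hvy
    unfold r2
    by_cases h1 : lev G v = j
    · have h0 : dN G v ≠ 0 := by
        classical
        unfold dN
        rw [← Nat.pos_iff_ne_zero, Finset.card_pos]
        exact ⟨y, by simp [hvy]⟩
      have h2 := inv_le_lev h0
      rw [h1] at h2
      have i1 := ind_nonneg (lev G v = j)
      have i2 := ind_le_one (lev G v = j)
      have i3 := ind_nonneg (Tch G col v u)
      have i4 := ind_le_one (Tch G col v u)
      have i5 := ind_nonneg (u' ∈ rest col v y)
      have i6 := inv_nonneg' G v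
      calc ind (lev G v = j) * ind (Tch G col v u) * ind (u' ∈ rest col v y) * inv G v
          ≤ 1 * ind (u' ∈ rest col v y) * inv G v := by
            refine mul_le_mul_of_nonneg_right (mul_le_mul_of_nonneg_right ?_ i5) i6
            exact mul_le_one₀ i2 i3 i4
        _ ≤ 1 * ind (u' ∈ rest col v y) * (1 / 4 ^ j) :=
            mul_le_mul_of_nonneg_left h2 (by linarith)
        _ = _ := by ring
    · rw [ind_false h1]
      have : 0 ≤ 1 / (4 : ℝ) ^ j * ind (u' ∈ rest col v y) :=
        mul_nonneg (by positivity) (ind_nonneg _)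
      linarith
  have := k a b hab
  have := k b a hab.symm
  linarith

end Pool.Agent.Helper31.Rpc
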