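import Mathlib
import Pool.Agent.Helper31.RpcTests

set_option autoImplicit false
set_option linter.unusedSectionVars false

open Finset

namespace Pool.Agent.Helper31.Rpc

lemma exp_neg_nat_le (m : ℕ) : Real.exp (-(m : ℝ)) ≤ (1 / 2) ^ m := by
  have h1 : Real.exp (-1) ≤ 1 / 2 := by
    rw [Real.exp_neg, ← one_div]
    refine one_div_le_one_div_of_le (by norm_num) ?_
    have := Real.add_one_le_exp 1
    linarith
  have h2 : Real.exp (-(m : ℝ)) = Real.exp (-1) ^ m := by
    rw [← Real.exp_nat_mul]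
    congr 1
    ring
  rw [h2]
  exact pow_le_pow_left₀ (Real.exp_pos _).le h1 m

lemma two_pow_ge (s : ℕ) (hs : 7 ≤ s) : 7 * s + 63 ≤ 2 ^ s := by
  induction s, hs using Nat.le_induction with
  | base => norm_num
  | succ s hs ih =>
    rw [pow_succ]
    omega

lemma numeric (k d : ℕ) (hd : 4 ^ (15 + 3 * k) ≤ d) :
    (d : ℝ) * (1 + 4 * d) * Real.exp (-((1 / 2) ^ k * 2 ^ (Nat.log 4 d) / 256)) ≤ (1 / 2) ^ k := by
  have hd0 : d ≠ 0 := by
    have : 0 < 4 ^ (15 + 3 * k) := by positivity
    omega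
  set j := Nat.log 4 d with hj
  have hj1 : 15 + 3 * k ≤ j := Nat.le_log_of_pow_le (by norm_num) hd
  have hdj : d < 4 ^ (j + 1) := Nat.lt_pow_succ_log_self (by norm_num) _
  obtain ⟨s, hs⟩ : ∃ s, j = s + 8 + k := ⟨j - 8 - k, by omega⟩
  have hs7 : 7 + 2 * k ≤ s := by omega
  have e1 : (1 / 2 : ℝ) ^ k * 2 ^ j / 256 = ((2 ^ s : ℕ) : ℝ) := by
    rw [hs, pow_add, pow_add]
    push_cast
    have : (1 / 2 : ℝ) ^ k * (2 ^ s * 2 ^ 8 * 2 ^ k) / 256 =
        ((1 / 2 : ℝ) * 2) ^ k * 2 ^ s := by
      rw [mul_pow]; ring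
    rw [this]; norm_num
  rw [e1]
  have h1 := exp_neg_nat_le (2 ^ s)
  have h2 := two_pow_ge s (by omega)
  have h3 : (1 / 2 : ℝ) ^ (2 ^ s) ≤ (1 / 2) ^ (7 * s + 63) :=
    pow_le_pow_of_le_one (by norm_num) (by norm_num) h2
  have hd1 : (1 : ℝ) ≤ d := by exact_mod_cast Nat.one_le_iff_ne_zero.2 hd0
  have h4 : (d : ℝ) * (1 + 4 * d) ≤ 2 ^ (7 + 6 * (s + 8)) := by
    have a1 : (d : ℝ) ≤ 4 ^ (j + 1) := by exact_mod_cast hdj.le
    have a2 : (d : ℝ) * (1 + 4 * d) ≤ 5 * (4 ^ (j + 1)) ^ 2 := by nlinarith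
    refine le_trans a2 ?_
    have a3 : (5 : ℝ) * (4 ^ (j + 1)) ^ 2 = 80 * 2 ^ (4 * j) := by
      rw [show (4 : ℝ) = 2 ^ 2 by norm_num, ← pow_mul, ← pow_mul]
      rw [show 2 * ((j + 1) * 2) = 4 * j + 4 by ring, pow_add]
      norm_num
      ring
    rw [a3]
    have a4 : (2 : ℝ) ^ (4 * j) ≤ 2 ^ (6 * (s + 8)) := by
      refine pow_le_pow_right₀ (by norm_num) ?_
      omega
    calc (80 : ℝ) * 2 ^ (4 * j) ≤ 2 ^ 7 * 2 ^ (6 * (s + 8)) :=
          mul_le_mul (by norm_num) a4 (by positivity) (by positivity)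
      _ = _ := by rw [pow_add]
  calc (d : ℝ) * (1 + 4 * d) * Real.exp (-((2 ^ s : ℕ) : ℝ)) ≤
        2 ^ (7 + 6 * (s + 8)) * (1 / 2) ^ (7 * s + 63) :=
        mul_le_mul h4 (le_trans h1 h3) (Real.exp_pos _).le (by positivity)
    _ = (1 / 2) ^ (s + 8) := by
        have : 7 * s + 63 = (7 + 6 * (s + 8)) + (s + 8) := by ring
        rw [this, pow_add (1 / 2 : ℝ), ← mul_assoc, ← mul_pow]
        norm_num
    _ ≤ (1 / 2) ^ k := pow_le_pow_of_le_one (by norm_num) (by norm_num) (by omega)

variable {V C : Type*} [Fintype V] [DecidableEq V]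
variable {G : SimpleGraph V} {col : Sym2 V → C} {f : ℝ} {F F' : Finset (Sym2 V)}

open Classical in
/-- number of edges of `F` seen by the test weight -/
noncomputable def cst (F : Finset (Sym2 V)) (ρ : V → V → ℝ) : ℝ :=
  ((F.filter fun e => 0 < eW ρ e).card : ℝ)

lemma cst_nonneg (F : Finset (Sym2 V)) (ρ : V → V → ℝ) : 0 ≤ cst F ρ := Nat.cast_nonneg _

lemma cst_le (ρ ρ' : V → V → ℝ) (hρ' : ∀ v y, 0 ≤ ρ' v y) (h : ∀ v y, 0 < ρ v y → 1 ≤ ρ' v y) :
    cst F ρ ≤ dsum F ρ' := by
  classical
  rw [← sum_eW]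
  unfold cst
  have h1 : ∀ e ∈ F.filter fun e => 0 < eW ρ e, (1 : ℝ) ≤ eW ρ' e := by
    intro e he
    have he2 := (Finset.mem_filter.1 he).2
    unfold eW at he2
    obtain ⟨v, -, hv⟩ := Finset.exists_lt_of_sum_lt
      (show ∑ _v : V, (0 : ℝ) < ∑ v, ∑ y, (if s(v, y) = e then ρ v y else 0) by simpa using he2)
    obtain ⟨y, -, hy⟩ := Finset.exists_lt_of_sum_lt
      (show ∑ _y : V, (0 : ℝ) < ∑ y, (if s(v, y) = e then ρ v y else 0) by simpa using hv)
    have hs : s(v, y) = e := by
      by_contra hcon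
      rw [if_neg hcon] at hy
      exact lt_irrefl _ hy
    rw [if_pos hs] at hy
    have h2 := h v y hy
    have hn : ∀ a b, 0 ≤ (if s(a, b) = e then ρ' a b else 0) := by
      intro a b
      split_ifs
      · exact hρ' a b
      · exact le_rfl
    unfold eW
    calc (1 : ℝ) ≤ (if s(v, y) = e then ρ' v y else 0) := by rw [if_pos hs]; exact h2
      _ ≤ ∑ y, (if s(v, y) = e then ρ' v y else 0) :=
          Finset.single_le_sum (f := fun y => if s(v, y) = e then ρ' v y else 0)
            (fun b _ => hn v b) (Finset.mem_univ y)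
      _ ≤ _ := Finset.single_le_sum (f := fun v => ∑ y, if s(v, y) = e then ρ' v y else 0)
            (fun a _ => Finset.sum_nonneg fun b _ => hn a b) (Finset.mem_univ v)
  calc ((F.filter fun e => 0 < eW ρ e).card : ℝ) = ∑ e ∈ F.filter fun e => 0 < eW ρ e, (1 : ℝ) := by
        simp
    _ ≤ ∑ e ∈ F.filter fun e => 0 < eW ρ e, eW ρ' e := Finset.sum_le_sum h1
    _ ≤ ∑ e ∈ F, eW ρ' e := Finset.sum_le_sum_of_subset_of_nonneg (Finset.filter_subset _ _)
        fun e _ _ => eW_nonneg hρ' e

lemma cst1_le (x : V) : cst F (r1 G x) ≤ dsum F (fun v _ => ind (v = x)) := by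
  refine cst_le _ _ (fun _ _ => ind_nonneg _) fun v y h => ?_
  unfold r1 at h
  by_cases h1 : v = x
  · rw [ind_true h1]
  · rw [ind_false h1, zero_mul] at h
    exact absurd h (lt_irrefl _)

lemma cst2_le (u u' : V ⊕ C) (j : ℕ) : cst F (r2 G col u u' j) ≤
    dsum F (fun v y => ind (lev G v = j) * ind (Tch G col v u) * ind (u' ∈ rest col v y)) := by
  refine cst_le _ _ (fun _ _ => mul_nonneg (mul_nonneg (ind_nonneg _) (ind_nonneg _))
    (ind_nonneg _)) fun v y h => ?_
  unfold r2 at h
  by_cases h1 : lev G v = j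
  · by_cases h2 : Tch G col v u
    · by_cases h3 : u' ∈ rest col v y
      · simp only [ind_true h1, ind_true h2, ind_true h3]; norm_num
      · rw [ind_false h3] at h; simp at h
    · rw [ind_false h2] at h; simp at h
  · rw [ind_false h1] at h; simp at h

variable [Fintype C]

lemma sum_rest_le (v y : V) : ∑ u : V ⊕ C, ind (u ∈ rest col v y) ≤ 2 := by
  classical
  have h : ∀ u : V ⊕ C, ind (u ∈ rest col v y) ≤
      (if u = Sum.inl y then 1 else 0) + (if u = Sum.inr (col s(v, y)) then 1 else 0) := by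
    intro u
    by_cases h1 : u ∈ rest col v y
    · rw [ind_true h1]
      simp only [rest, List.mem_cons, List.not_mem_nil, or_false] at h1
      rcases h1 with h1 | h1 <;> simp [h1]
    · rw [ind_false h1]
      positivity
  refine le_trans (Finset.sum_le_sum fun u _ => h u) ?_
  rw [Finset.sum_add_distrib]
  simp only [Finset.sum_ite_eq', Finset.mem_univ, if_true]
  norm_num

lemma sum_tch_le (v : V) : ∑ u : V ⊕ C, ind (Tch G col v u) ≤ 2 * dN G v := by
  have h : ∀ u : V ⊕ C, ind (Tch G col v u) ≤ ∑ w, adj G v w * ind (u ∈ rest col v w) := by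
    intro u
    have hn : ∀ w, 0 ≤ adj G v w * ind (u ∈ rest col v w) := fun w =>
      mul_nonneg (adj_nonneg G _ _) (ind_nonneg _)
    by_cases h1 : Tch G col v u
    · obtain ⟨w, hw, hu⟩ := h1
      rw [ind_true ⟨w, hw, hu⟩]
      refine le_trans (le_of_eq ?_) (Finset.single_le_sum (fun w _ => hn w) (Finset.mem_univ w))
      unfold adj
      rw [ind_true hw, ind_true hu, one_mul]
    · rw [ind_false h1]
      exact Finset.sum_nonneg fun w _ => hn w
  refine le_trans (Finset.sum_le_sum fun u _ => h u) ?_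
  rw [Finset.sum_comm]
  calc ∑ w, ∑ u : V ⊕ C, adj G v w * ind (u ∈ rest col v w) ≤ ∑ w, adj G v w * 2 := by
        refine Finset.sum_le_sum fun w _ => ?_
        rw [← Finset.mul_sum]
        exact mul_le_mul_of_nonneg_left (sum_rest_le v w) (adj_nonneg G _ _)
    _ = 2 * dN G v := by
        rw [← Finset.sum_mul, ← deg_eq]
        unfold deg
        ring

/-- index type of the tests -/
abbrev Tst (V C : Type*) [Fintype V] : Type _ :=
  V ⊕ ((V ⊕ C) × (V ⊕ C) × Fin (Nat.log 4 (Fintype.card V) + 1))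

/-- test weights -/
noncomputable def rT (G : SimpleGraph V) (col : Sym2 V → C) : Tst V C → V → V → ℝ
  | Sum.inl x => r1 G x
  | Sum.inr p => r2 G col p.1 p.2.1 p.2.2

/-- test levels -/
noncomputable def lT (G : SimpleGraph V) : Tst V C → ℕ
  | Sum.inl x => lev G x
  | Sum.inr p => p.2.2

/-- test thresholds -/
noncomputable def bT (G : SimpleGraph V) (col : Sym2 V → C) : Tst V C → ℝ
  | Sum.inl _ => 1
  | Sum.inr p => b2 G col p.1 p.2.1 p.2.2

lemma total_cost (k : ℕ) (hE : ∀ e ∈ F, e ∈ G.edgeSet)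
    (hH : ∀ x y, s(x, y) ∈ F → 4 ^ (15 + 3 * k) ≤ dN G x) :
    ∑ T : Tst V C, cst F (rT G col T) * Real.exp (-((1 / 2) ^ k * 2 ^ (lT G T) / 256)) ≤
      Fintype.card V * (1 / 2) ^ k := by
  set L := Nat.log 4 (Fintype.card V) + 1 with hL
  set E : ℕ → ℝ := fun j => Real.exp (-((1 / 2) ^ k * 2 ^ j / 256)) with hEdef
  have hE0 : ∀ j, 0 ≤ E j := fun j => (Real.exp_pos _).le
  rw [Fintype.sum_sum_type]
  have p1 : ∑ x : V, cst F (rT G col (Sum.inl x : Tst V C)) *
      Real.exp (-((1 / 2) ^ k * 2 ^ (lT G (Sum.inl x : Tst V C)) / 256)) ≤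
      ∑ v, (∑ y, hF F v y) * E (lev G v) := by
    calc _ ≤ ∑ x : V, dsum F (fun v _ => ind (v = x)) * E (lev G x) :=
          Finset.sum_le_sum fun x _ => mul_le_mul_of_nonneg_right (cst1_le x) (hE0 _)
      _ = ∑ v, (∑ y, hF F v y) * E (lev G v) := by
          refine Finset.sum_congr rfl fun x _ => ?_
          congr 1
          unfold dsum
          rw [Finset.sum_eq_single x]
          · refine Finset.sum_congr rfl fun y _ => ?_
            beta_reduce
            rw [ind_true rfl, mul_one]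
          · intro b _ hb
            refine Finset.sum_eq_zero fun y _ => ?_
            beta_reduce
            rw [ind_false hb, mul_zero]
          · intro h; exact absurd (Finset.mem_univ _) h
  have p2 : ∑ p : (V ⊕ C) × (V ⊕ C) × Fin L, cst F (rT G col (Sum.inr p : Tst V C)) *
      Real.exp (-((1 / 2) ^ k * 2 ^ (lT G (Sum.inr p : Tst V C)) / 256)) ≤
      ∑ v, (∑ y, hF F v y) * (4 * dN G v) * E (lev G v) := by
    calc _ ≤ ∑ p : (V ⊕ C) × (V ⊕ C) × Fin L, dsum F (fun v y => ind (lev G v = (p.2.2 : ℕ)) *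
            ind (Tch G col v p.1) * ind (p.2.1 ∈ rest col v y)) * E p.2.2 :=
          Finset.sum_le_sum fun p _ => mul_le_mul_of_nonneg_right (cst2_le _ _ _) (hE0 _)
      _ = ∑ v, ∑ y, hF F v y * ((∑ u, ind (Tch G col v u)) * (∑ u' : V ⊕ C, ind (u' ∈ rest col v y)) *
            ∑ j : Fin L, ind (lev G v = (j : ℕ)) * E j) := by
          have e1 : ∀ g : (V ⊕ C) → (V ⊕ C) → Fin L → V → V → ℝ,
              ∑ a, ∑ b, ∑ c, ∑ v, ∑ y, g a b c v y = ∑ v, ∑ y, ∑ a, ∑ b, ∑ c, g a b c v y := by
            intro g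
            calc ∑ a, ∑ b, ∑ c, ∑ v, ∑ y, g a b c v y
                = ∑ a, ∑ b, ∑ v, ∑ c, ∑ y, g a b c v y := by
                  refine Finset.sum_congr rfl fun a _ => Finset.sum_congr rfl fun b _ => ?_
                  rw [Finset.sum_comm]
              _ = ∑ a, ∑ v, ∑ b, ∑ c, ∑ y, g a b c v y := by
                  refine Finset.sum_congr rfl fun a _ => ?_
                  rw [Finset.sum_comm]
              _ = ∑ v, ∑ a, ∑ b, ∑ c, ∑ y, g a b c v y := by rw [Finset.sum_comm]
              _ = ∑ v, ∑ a, ∑ b, ∑ y, ∑ c, g a b c v y := by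
                  refine Finset.sum_congr rfl fun v _ => Finset.sum_congr rfl fun a _ =>
                    Finset.sum_congr rfl fun b _ => ?_
                  rw [Finset.sum_comm]
              _ = ∑ v, ∑ a, ∑ y, ∑ b, ∑ c, g a b c v y := by
                  refine Finset.sum_congr rfl fun v _ => Finset.sum_congr rfl fun a _ => ?_
                  rw [Finset.sum_comm]
              _ = ∑ v, ∑ y, ∑ a, ∑ b, ∑ c, g a b c v y := by
                  refine Finset.sum_congr rfl fun v _ => ?_
                  rw [Finset.sum_comm]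
          have e5 : ∑ p : (V ⊕ C) × (V ⊕ C) × Fin L, dsum F (fun v y =>
              ind (lev G v = (p.2.2 : ℕ)) * ind (Tch G col v p.1) *
              ind (p.2.1 ∈ rest col v y)) * E p.2.2 =
              ∑ a : V ⊕ C, ∑ b : V ⊕ C, ∑ c : Fin L, ∑ v, ∑ y, hF F v y *
                (ind (lev G v = (c : ℕ)) * ind (Tch G col v a) * ind (b ∈ rest col v y)) * E c := by
            rw [Fintype.sum_prod_type]
            refine Finset.sum_congr rfl fun a _ => ?_
            rw [Fintype.sum_prod_type]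
            refine Finset.sum_congr rfl fun b _ => ?_
            refine Finset.sum_congr rfl fun c _ => ?_
            unfold dsum
            rw [Finset.sum_mul]
            refine Finset.sum_congr rfl fun v _ => ?_
            rw [Finset.sum_mul]
          rw [e5, e1]
          refine Finset.sum_congr rfl fun v _ => Finset.sum_congr rfl fun y _ => ?_
          have e4 : ∀ (A B : V ⊕ C → ℝ) (D : Fin L → ℝ), (∑ a, A a) * (∑ b, B b) * (∑ c, D c) =
              ∑ a, ∑ b, ∑ c, A a * B b * D c := by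
            intro A B D
            rw [Finset.sum_mul_sum, Finset.sum_mul]
            refine Finset.sum_congr rfl fun a _ => ?_
            rw [Finset.sum_mul]
            refine Finset.sum_congr rfl fun b _ => ?_
            rw [Finset.mul_sum]
          rw [e4, Finset.mul_sum]
          refine Finset.sum_congr rfl fun a _ => ?_
          rw [Finset.mul_sum]
          refine Finset.sum_congr rfl fun b _ => ?_
          rw [Finset.mul_sum]
          refine Finset.sum_congr rfl fun c _ => ?_
          ring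
      _ ≤ ∑ v, ∑ y, hF F v y * ((2 * dN G v) * 2 * E (lev G v)) := by
          refine Finset.sum_le_sum fun v _ => Finset.sum_le_sum fun y _ => ?_
          refine mul_le_mul_of_nonneg_left ?_ (hF_nonneg F v y)
          have e2 : ∑ j : Fin L, ind (lev G v = (j : ℕ)) * E j = E (lev G v) := by
            rw [Finset.sum_eq_single (⟨lev G v, lev_lt v⟩ : Fin L)]
            · rw [ind_true rfl, one_mul]
            · intro b _ hb
              rw [ind_false, zero_mul]
              intro h
              exact hb (Fin.ext h.symm)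
            · intro h; exact absurd (Finset.mem_univ _) h
          rw [e2]
          refine mul_le_mul_of_nonneg_right ?_ (hE0 _)
          refine mul_le_mul (sum_tch_le v) (sum_rest_le v y)
            (Finset.sum_nonneg fun _ _ => ind_nonneg _) (by positivity)
      _ = _ := by
          refine Finset.sum_congr rfl fun v _ => ?_
          rw [Finset.sum_mul, Finset.sum_mul]
          refine Finset.sum_congr rfl fun y _ => ?_
          ring
  refine le_trans (add_le_add p1 p2) ?_
  rw [← Finset.sum_add_distrib]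
  calc _ ≤ ∑ _v : V, (1 / 2 : ℝ) ^ k := by
        refine Finset.sum_le_sum fun v _ => ?_
        have hle : ∑ y, hF F v y ≤ dN G v := by
          rw [← deg_eq]
          exact Finset.sum_le_sum fun y _ => hF_le_adj hE v y
        have hnn : 0 ≤ ∑ y, hF F v y := Finset.sum_nonneg fun y _ => hF_nonneg F v y
        by_cases hv : ∃ y, s(v, y) ∈ F
        · obtain ⟨y, hy⟩ := hv
          have := numeric k (dN G v) (hH v y hy)
          refine le_trans ?_ this
          have e3 : (∑ y, hF F v y) * E (lev G v) + (∑ y, hF F v y) * (4 * dN G v) * E (lev G v) =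
              (∑ y, hF F v y) * (1 + 4 * dN G v) * E (lev G v) := by ring
          rw [e3]
          refine mul_le_mul_of_nonneg_right (mul_le_mul_of_nonneg_right hle (by positivity)) (hE0 _)
        · have : ∑ y, hF F v y = 0 := Finset.sum_eq_zero fun y _ =>
            ind_false fun h => hv ⟨y, h⟩
          rw [this]
          simp
    _ = _ := by simp

end Pool.Agent.Helper31.Rpc
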