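import Mathlib
import Pool.Agent.Helper31.RpcCost

set_option autoImplicit false
set_option linter.unusedSectionVars false

open Finset

namespace Pool.Agent.Helper31.Rpc

variable {V C : Type*} [Fintype V] [DecidableEq V]
variable {G : SimpleGraph V} {col : Sym2 V → C} {f : ℝ} {F F' : Finset (Sym2 V)}

lemma boostRP [Nonempty V] (hcol : Proper G col) (hf : 0 < f) (h : Cong G col f F) :
    Boost (RP G col) F (168 * f * Fintype.card V) := by
  intro w hw
  obtain ⟨z, P, hP⟩ := boost hcol hf h (fun e => if e ∈ F then w e else 0)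
    (fun e => by split_ifs; exacts [hw e, le_rfl])
  refine ⟨P.p.edges.toFinset, ⟨z, P, rfl⟩, ?_⟩
  have e1 : ∑ e ∈ F, (if e ∈ F then w e else 0) = ∑ e ∈ F, w e :=
    Finset.sum_congr rfl fun e he => if_pos he
  have e2 : P.wt (fun e => if e ∈ F then w e else 0) = ∑ a ∈ F ∩ P.p.edges.toFinset, w a := by
    unfold GPath.wt
    rw [← List.sum_toFinset _ P.nodup_edges, Finset.sum_ite_mem, Finset.inter_comm]
  rw [e1, e2] at hP
  exact hP

lemma single_RP (hE : ∀ e ∈ F, e ∈ G.edgeSet) : ∀ e ∈ F, ∃ P ∈ RP G col, e ∈ P := by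
  intro e he
  have hadj := hE e he
  induction e using Sym2.ind with
  | _ a b =>
    obtain ⟨P, -, hP⟩ := GPath.exists_single (col := col) (show G.Adj a b from hadj) (fun _ => 0)
    exact ⟨_, ⟨a, P, rfl⟩, List.mem_toFinset.2 hP⟩

open Classical in
lemma card_low (hE : ∀ e ∈ F, e ∈ G.edgeSet) (D : ℕ) :
    ((F.filter fun e => ∃ v ∈ e, dN G v < D).card : ℝ) ≤ Fintype.card V * D := by
  have h1 : (F.filter fun e => ∃ v ∈ e, dN G v < D) ⊆
      (Finset.univ.filter fun v => dN G v < D).biUnion fun v =>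
        (Finset.univ.filter fun y => G.Adj v y).image fun y => s(v, y) := by
    intro e he
    obtain ⟨he1, v, hv, hd⟩ := Finset.mem_filter.1 he
    obtain ⟨y, rfl⟩ := Sym2.mem_iff_exists.1 hv
    refine Finset.mem_biUnion.2 ⟨v, Finset.mem_filter.2 ⟨Finset.mem_univ _, hd⟩, ?_⟩
    exact Finset.mem_image.2 ⟨y, Finset.mem_filter.2 ⟨Finset.mem_univ _, hE _ he1⟩, rfl⟩
  have h2 := le_trans (Finset.card_le_card h1) Finset.card_biUnion_le
  have h3 : ∑ v ∈ Finset.univ.filter (fun v => dN G v < D),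
      ((Finset.univ.filter fun y => G.Adj v y).image fun y => s(v, y)).card ≤
      ∑ v ∈ Finset.univ.filter (fun v => dN G v < D), D := by
    refine Finset.sum_le_sum fun v hv => ?_
    refine le_trans Finset.card_image_le ?_
    exact (Finset.mem_filter.1 hv).2.le
  have h4 : ∑ v ∈ Finset.univ.filter (fun v => dN G v < D), D ≤ Fintype.card V * D := by
    rw [Finset.sum_const, smul_eq_mul]
    exact Nat.mul_le_mul_right _ (Finset.card_le_univ _)
  have h5 := le_trans h2 (le_trans h3 h4)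
  exact_mod_cast h5

variable [Fintype C]

lemma lT_le (T : Tst V C) : lT G T ≤ Nat.log 4 (Fintype.card V) := by
  rcases T with x | p
  · exact Nat.lt_succ_iff.1 (lev_lt x)
  · exact Nat.lt_succ_iff.1 p.2.2.2

lemma rT_nonneg (T : Tst V C) (v y : V) : 0 ≤ rT G col T v y := by
  rcases T with x | p
  · exact r1_nonneg x v y
  · exact r2_nonneg _ _ _ v y

lemma bT_pos (T : Tst V C) : 0 < bT G col T := by
  rcases T with x | p
  · exact one_pos
  · exact lt_of_lt_of_le (by positivity) (b2_ge _ _ _)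

lemma infl (hf : 0 < f) (T : Tst V C) {P : Finset (Sym2 V)} (hP : P ∈ RP G col) :
    f * 2 ^ (lT G T) / 256 * ∑ e ∈ F ∩ P, eW (rT G col T) e / (f * bT G col T) ≤ 1 / 64 := by
  rw [← Finset.sum_div]
  rcases T with x | p
  · have h := influence1 (F := F) hP x
    have hl : inv G x ≤ 1 / 4 ^ lev G x := by
      by_cases h0 : dN G x = 0
      · unfold inv
        rw [deg_eq, h0]
        simp
      · exact inv_le_lev h0
    simp only [rT, bT, lT, mul_one]
    have h2 : ∑ e ∈ F ∩ P, eW (r1 G x) e ≤ 2 * (1 / 4 ^ lev G x) := by linarith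
    calc f * 2 ^ lev G x / 256 * ((∑ e ∈ F ∩ P, eW (r1 G x) e) / f) =
          2 ^ lev G x / 256 * (∑ e ∈ F ∩ P, eW (r1 G x) e) := by field_simp
      _ ≤ 2 ^ lev G x / 256 * (2 * (1 / 4 ^ lev G x)) :=
          mul_le_mul_of_nonneg_left h2 (by positivity)
      _ = 1 / 128 * ((1 / 2) ^ lev G x) := by
          rw [show (4 : ℝ) = 2 * 2 by norm_num, mul_pow, one_div_pow]
          field_simp
          norm_num
      _ ≤ 1 / 128 * 1 := mul_le_mul_of_nonneg_left (pow_le_one₀ (by norm_num) (by norm_num))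
          (by norm_num)
      _ ≤ 1 / 64 := by norm_num
  · have h := influence2 (F := F) hP p.1 p.2.1 p.2.2
    have hb := b2_ge (G := G) (col := col) p.1 p.2.1 p.2.2
    have hb0 : 0 < b2 G col p.1 p.2.1 p.2.2 := lt_of_lt_of_le (by positivity) hb
    simp only [rT, bT, lT]
    set j : ℕ := (p.2.2 : ℕ) with hj
    set b := b2 G col p.1 p.2.1 j with hbdef
    have h3 : (∑ e ∈ F ∩ P, eW (r2 G col p.1 p.2.1 j) e) / (f * b) ≤
        (2 * (1 / 4 ^ j)) / (f * (1 / 2) ^ (j + 1)) := by
      refine div_le_div₀ (by positivity) h (by positivity) ?_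
      exact mul_le_mul_of_nonneg_left hb hf.le
    calc _ ≤ f * 2 ^ j / 256 * ((2 * (1 / 4 ^ j)) / (f * (1 / 2) ^ (j + 1))) :=
          mul_le_mul_of_nonneg_left h3 (by positivity)
      _ = 1 / 64 := by
          rw [show (4 : ℝ) = 2 * 2 by norm_num, mul_pow, one_div_pow]
          field_simp
          ring

lemma tight_iff_of (hE : ∀ e ∈ F, e ∈ G.edgeSet)
    (h : ∀ T : Tst V C, dsum F (rT G col T) ≤ f * bT G col T) : Tight G col f F where
  edge := hE
  t1 := fun x => by simpa [rT, bT] using h (Sum.inl x)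
  t2 := fun u u' j hj => h (Sum.inr (u, u', ⟨j, hj⟩))

lemma tight_test (h : Tight G col f F) (T : Tst V C) : dsum F (rT G col T) ≤ f * bT G col T := by
  rcases T with x | p
  · simpa [rT, bT] using h.t1 x
  · exact h.t2 _ _ _ p.2.2.2

theorem round [Nonempty V] (hcol : Proper G col) (k : ℕ) (F : Finset (Sym2 V))
    (hT : Tight G col ((1 / 2) ^ k) F) (hH : ∀ x y, s(x, y) ∈ F → 4 ^ (12 + 3 * k) ≤ dN G x)
    (N' : ℝ)
    (ih : ∀ F'' : Finset (Sym2 V), Tight G col ((1 / 2) ^ (k + 1)) F'' →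
      (∀ x y, s(x, y) ∈ F'' → 4 ^ (12 + 3 * (k + 1)) ≤ dN G x) → Cov (RP G col) F'' N') :
    Cov (RP G col) F ((1 / 2) ^ k * Fintype.card V * (6052 + 1176 * k) + N') := by
  classical
  set n : ℝ := (Fintype.card V : ℝ) with hn
  set f : ℝ := (1 / 2) ^ k with hf
  have hf0 : 0 < f := by positivity
  have hn0 : 0 ≤ n := Nat.cast_nonneg _
  have hN'0 : 0 ≤ N' := by
    obtain ⟨l, -, h2, -⟩ := ih ∅ (by
      refine tight_iff_of (by simp) fun T => ?_
      unfold dsum hF
      simp only [Finset.notMem_empty]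
      rw [Finset.sum_eq_zero]
      · exact mul_nonneg (by positivity) (bT_pos T).le
      · intro v _
        refine Finset.sum_eq_zero fun y _ => ?_
        rw [ind_false (by simp), zero_mul]) (by simp)
    exact le_trans (Nat.cast_nonneg _) h2
  rcases F.eq_empty_or_nonempty with hFe | hFne
  · rw [hFe]
    exact Cov.empty.mono (by positivity) subset_rfl
  -- size of the graph
  have hcard : 4 ^ (12 + 3 * k) ≤ Fintype.card V := by
    obtain ⟨e, he⟩ := hFne
    induction e using Sym2.ind with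
    | _ a b => exact le_trans (hH a b he) (dN_le a)
  have hfn : 1 ≤ f * n := by
    have h1 : (2 : ℝ) ^ k ≤ n := by
      have h2 : 2 ^ k ≤ 4 ^ (12 + 3 * k) := by
        calc 2 ^ k ≤ 4 ^ k := Nat.pow_le_pow_left (by norm_num) k
          _ ≤ 4 ^ (12 + 3 * k) := Nat.pow_le_pow_right (by norm_num) (by omega)
      have h3 : 2 ^ k ≤ Fintype.card V := le_trans h2 hcard
      rw [hn]
      exact_mod_cast h3
    calc (1 : ℝ) = (1 / 2) ^ k * 2 ^ k := by rw [← mul_pow]; norm_num
      _ ≤ f * n := mul_le_mul_of_nonneg_left h1 hf0.le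
  set M : ℝ := 168 * f * n with hM
  have hM1 : 1 ≤ M := by rw [hM]; nlinarith
  have hM0 : 0 < M := by linarith
  have htwo : ∀ x y, s(x, y) ∈ F → 2 ≤ deg G x := by
    intro x y hxy
    rw [deg_eq]
    have h1 := hH x y hxy
    have h2 : 2 ≤ 4 ^ (12 + 3 * k) := by
      calc 2 ≤ 4 ^ 1 := by norm_num
        _ ≤ 4 ^ (12 + 3 * k) := Nat.pow_le_pow_right (by norm_num) (by omega)
    exact_mod_cast le_trans h2 h1
  have hB : Boost (RP G col) F M := boostRP hcol hf0 (hT.cong hcol hf0.le htwo)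
  set Flow : Finset (Sym2 V) := F.filter fun e => ∃ v ∈ e, dN G v < 4 ^ (15 + 3 * k) with hFlow
  set Fhigh : Finset (Sym2 V) := F.filter fun e => ¬ ∃ v ∈ e, dN G v < 4 ^ (15 + 3 * k) with hFhigh
  have hlowF : Flow ⊆ F := Finset.filter_subset _ _
  have hhighF : Fhigh ⊆ F := Finset.filter_subset _ _
  -- first part
  have covLow : Cov (RP G col) Flow (M * (30 + 7 * k) + 1 + f * n) := by
    obtain ⟨l, hl, hlen, hc⟩ := greedyCover hM1 (hB.mono hlowF) ⌈M * (30 + 7 * k)⌉₊
    have h1 : ((unc Flow l).card : ℝ) ≤ f * n := by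
      refine le_trans hc ?_
      have h2 := card_low hT.edge (4 ^ (15 + 3 * k))
      have h3 : (1 - 1 / M) ^ ⌈M * (30 + 7 * k)⌉₊ ≤ (1 / 2 : ℝ) ^ (30 + 7 * k) := by
        have h4 : 0 ≤ 1 - 1 / M := by
          rw [sub_nonneg, div_le_one hM0]; exact hM1
        have h5 : 1 - 1 / M ≤ Real.exp (-(1 / M)) := by
          have := Real.add_one_le_exp (-(1 / M))
          linarith
        calc (1 - 1 / M) ^ ⌈M * (30 + 7 * k)⌉₊ ≤ Real.exp (-(1 / M)) ^ ⌈M * (30 + 7 * k)⌉₊ :=
              pow_le_pow_left₀ h4 h5 _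
          _ = Real.exp (-(⌈M * (30 + 7 * k)⌉₊ / M)) := by
              rw [← Real.exp_nat_mul]
              congr 1
              ring
          _ ≤ Real.exp (-((30 + 7 * k : ℕ) : ℝ)) := by
              rw [Real.exp_le_exp, neg_le_neg_iff, le_div_iff₀ hM0]
              have := Nat.le_ceil (M * (30 + 7 * (k : ℝ)))
              push_cast
              linarith
          _ ≤ (1 / 2) ^ (30 + 7 * k) := exp_neg_nat_le _
      calc (Flow.card : ℝ) * (1 - 1 / M) ^ ⌈M * (30 + 7 * k)⌉₊ ≤
            (n * (4 ^ (15 + 3 * k) : ℕ)) * (1 / 2) ^ (30 + 7 * k) := by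
            refine mul_le_mul h2 h3 ?_ (by positivity)
            refine pow_nonneg ?_ _
            rw [sub_nonneg, div_le_one hM0]; exact hM1
        _ = f * n := by
            push_cast
            have e1 : (1 / 2 : ℝ) ^ (30 + 7 * k) = (1 / 4) ^ (15 + 3 * k) * (1 / 2) ^ k := by
              rw [show 30 + 7 * k = 2 * (15 + 3 * k) + k by ring, pow_add, pow_mul]
              norm_num
            rw [e1, hf]
            have e2 : (4 : ℝ) ^ (15 + 3 * k) * (1 / 4) ^ (15 + 3 * k) = 1 := by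
              rw [← mul_pow]; norm_num
            calc n * 4 ^ (15 + 3 * k) * ((1 / 4) ^ (15 + 3 * k) * (1 / 2) ^ k) =
                  (4 ^ (15 + 3 * k) * (1 / 4) ^ (15 + 3 * k)) * ((1 / 2) ^ k * n) := by ring
              _ = _ := by rw [e2, one_mul]
    have h6 : Cov (RP G col) (unc Flow l) (f * n) :=
      (Cov.single (single_RP fun e he => hT.edge e (hlowF (unc_subset _ _ he)))).mono h1 subset_rfl
    refine (Cov.of_list hl h6).mono ?_ subset_rfl
    rw [hlen]
    have := Nat.ceil_lt_add_one (show 0 ≤ M * (30 + 7 * (k : ℝ)) by positivity)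
    linarith
  -- second part
  set ψ : Tst V C → Sym2 V → ℝ := fun T e => eW (rT G col T) e / (f * bT G col T) with hψ
  have hψ0 : ∀ T e, 0 ≤ ψ T e := fun T e =>
    div_nonneg (eW_nonneg (rT_nonneg T) e) (mul_nonneg hf0.le (bT_pos T).le)
  have hψsum : ∀ (T : Tst V C) (s : Finset (Sym2 V)),
      ∑ e ∈ s, ψ T e = dsum s (rT G col T) / (f * bT G col T) := by
    intro T s
    simp only [hψ]
    rw [← Finset.sum_div, sum_eW]
  have h1 : ∀ T, ∑ e ∈ Fhigh, ψ T e ≤ 1 := by
    intro T
    rw [hψsum, div_le_one (mul_pos hf0 (bT_pos T))]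
    exact tight_test (hT.mono hhighF) T
  have hlM : ∀ T : Tst V C, f * 2 ^ (lT G T) / 256 ≤ M / 8 := by
    intro T
    have h2 : (2 : ℝ) ^ lT G T ≤ n := by
      have h3 : 2 ^ lT G T ≤ Fintype.card V := by
        calc 2 ^ lT G T ≤ 4 ^ lT G T := Nat.pow_le_pow_left (by norm_num) _
          _ ≤ 4 ^ Nat.log 4 (Fintype.card V) := Nat.pow_le_pow_right (by norm_num) (lT_le T)
          _ ≤ Fintype.card V := Nat.pow_log_le_self 4 Fintype.card_ne_zero
      rw [hn]
      exact_mod_cast h3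
    have h4 := mul_le_mul_of_nonneg_left h2 hf0.le
    rw [hM]
    have h5 : 0 ≤ f * n := by positivity
    linarith
  obtain ⟨l, hl, hlen, hcost⟩ := mwu' hM1 (hB.mono hhighF) ψ hψ0 h1
    (fun T => f * 2 ^ (lT G T) / 256) (fun T => by positivity) hlM
    (fun T P hP => infl hf0 T hP) (fun T => cst Fhigh (rT G col T)) (fun T => cst_nonneg _ _)
  have hhigh : ∀ x y, s(x, y) ∈ Fhigh → 4 ^ (15 + 3 * k) ≤ dN G x := by
    intro x y hxy
    have := (Finset.mem_filter.1 hxy).2
    push Not at this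
    exact this x (Sym2.mem_mk_left x y)
  have hcost2 := le_trans hcost
    (total_cost (col := col) k (fun e he => hT.edge e (hhighF he)) hhigh)
  set F1 : Finset (Sym2 V) := unc Fhigh l with hF1
  set D : Finset (Sym2 V) := F1.filter fun e =>
    ∃ T : Tst V C, 1 / 2 < ∑ a ∈ F1, ψ T a ∧ 0 < eW (rT G col T) e with hD
  set F2 : Finset (Sym2 V) := F1.filter fun e =>
    ¬ ∃ T : Tst V C, 1 / 2 < ∑ a ∈ F1, ψ T a ∧ 0 < eW (rT G col T) e with hF2
  have hF1high : F1 ⊆ Fhigh := unc_subset _ _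
  have hF2F1 : F2 ⊆ F1 := Finset.filter_subset _ _
  have hDcard : (D.card : ℝ) ≤ f * n := by
    refine le_trans ?_ (le_trans hcost2 (le_of_eq (mul_comm _ _)))
    have k1 : D ⊆ (Finset.univ.filter fun T : Tst V C => 1 / 2 < ∑ a ∈ F1, ψ T a).biUnion
        fun T => Fhigh.filter fun e => 0 < eW (rT G col T) e := by
      intro e he
      obtain ⟨he1, T, hT1, hT2⟩ := Finset.mem_filter.1 he
      exact Finset.mem_biUnion.2 ⟨T, Finset.mem_filter.2 ⟨Finset.mem_univ _, hT1⟩,
        Finset.mem_filter.2 ⟨hF1high he1, hT2⟩⟩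
    have k2 := le_trans (Finset.card_le_card k1) Finset.card_biUnion_le
    have k3 : (D.card : ℝ) ≤ ∑ T ∈ Finset.univ.filter
        (fun T : Tst V C => 1 / 2 < ∑ a ∈ F1, ψ T a), cst Fhigh (rT G col T) := by
      unfold cst
      exact_mod_cast k2
    refine le_trans k3 (le_of_eq ?_)
    rw [Finset.sum_filter]
  have hF2tight : Tight G col ((1 / 2) ^ (k + 1)) F2 := by
    refine tight_iff_of (fun e he => hT.edge e (hhighF (hF1high (hF2F1 he)))) fun T => ?_
    have hfb : 0 < f * bT G col T := mul_pos hf0 (bT_pos T)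
    have hhalf : (1 / 2 : ℝ) ^ (k + 1) * bT G col T = f * bT G col T / 2 := by
      rw [pow_succ, hf]; ring
    rw [hhalf]
    by_cases hfail : 1 / 2 < ∑ a ∈ F1, ψ T a
    · rw [← sum_eW, Finset.sum_eq_zero]
      · positivity
      · intro e he
        have h3 := (Finset.mem_filter.1 he).2
        push Not at h3
        exact le_antisymm (h3 T hfail) (eW_nonneg (rT_nonneg T) e)
    · have h3 := not_lt.1 hfail
      rw [hψsum, div_le_iff₀ hfb] at h3
      have h4 := dsum_mono (rT_nonneg (G := G) (col := col) T) hF2F1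
      linarith
  have covF2 := ih F2 hF2tight (fun x y hxy => by
    have := hhigh x y (hF1high (hF2F1 hxy))
    rwa [show 12 + 3 * (k + 1) = 15 + 3 * k by ring])
  have covD : Cov (RP G col) D (f * n) :=
    (Cov.single (single_RP fun e he => hT.edge e
      (hhighF (hF1high (Finset.mem_of_mem_filter e he))))).mono hDcard subset_rfl
  have covF1 : Cov (RP G col) F1 (f * n + N') := by
    refine (covD.union covF2).mono le_rfl ?_
    intro e he
    by_cases h3 : ∃ T : Tst V C, 1 / 2 < ∑ a ∈ F1, ψ T a ∧ 0 < eW (rT G col T) e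
    · exact Finset.mem_union.2 (Or.inl (Finset.mem_filter.2 ⟨he, h3⟩))
    · exact Finset.mem_union.2 (Or.inr (Finset.mem_filter.2 ⟨he, h3⟩))
  have covHigh : Cov (RP G col) Fhigh (6 * M + 1 + (f * n + N')) :=
    (Cov.of_list hl covF1).mono (by linarith) subset_rfl
  refine (covLow.union covHigh).mono ?_ ?_
  · rw [hM]
    have : (0 : ℝ) ≤ k := Nat.cast_nonneg _
    nlinarith
  · intro e he
    by_cases h3 : ∃ v ∈ e, dN G v < 4 ^ (15 + 3 * k)
    · exact Finset.mem_union.2 (Or.inl (Finset.mem_filter.2 ⟨he, h3⟩))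
    · exact Finset.mem_union.2 (Or.inr (Finset.mem_filter.2 ⟨he, h3⟩))

theorem rounds [Nonempty V] (hcol : Proper G col) (m : ℕ) : ∀ (k : ℕ) (F : Finset (Sym2 V)),
    Fintype.card V < 4 ^ (12 + 3 * (k + m)) →
    Tight G col ((1 / 2) ^ k) F → (∀ x y, s(x, y) ∈ F → 4 ^ (12 + 3 * k) ≤ dN G x) →
    Cov (RP G col) F (6100 * (k + 3) * (1 / 2) ^ k * Fintype.card V) := by
  induction m with
  | zero =>
    intro k F hc _ hH
    have : F = ∅ := by
      rw [Finset.eq_empty_iff_forall_notMem]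
      intro e he
      induction e using Sym2.ind with
      | _ a b =>
        have h1 := le_trans (hH a b he) (dN_le a)
        rw [add_zero] at hc
        omega
    rw [this]
    exact Cov.empty.mono (by positivity) subset_rfl
  | succ m ih =>
    intro k F hc hT hH
    have h1 := round hcol k F hT hH _ (fun F'' h2 h3 =>
      ih (k + 1) F'' (by rwa [show k + 1 + m = k + (m + 1) by ring]) h2 h3)
    refine h1.mono ?_ subset_rfl
    push_cast
    rw [pow_succ]
    have h4 : (0 : ℝ) ≤ (1 / 2) ^ k * Fintype.card V := by positivity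
    have h5 : (0 : ℝ) ≤ k := Nat.cast_nonneg _
    nlinarith [mul_nonneg h4 h5]

theorem cover [Nonempty V] (hcol : Proper G col) (F : Finset (Sym2 V))
    (hE : ∀ e ∈ F, e ∈ G.edgeSet) :
    Cov (RP G col) F (20000000 * Fintype.card V) := by
  classical
  set F0 := F.filter fun e => ∃ v ∈ e, dN G v < 4 ^ 12 with hF0
  set F1 := F.filter fun e => ¬ ∃ v ∈ e, dN G v < 4 ^ 12 with hF1
  have c0 : Cov (RP G col) F0 (Fintype.card V * (4 ^ 12 : ℕ)) :=
    (Cov.single (single_RP fun e he => hE e (Finset.mem_of_mem_filter e he))).mono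
      (card_low hE _) subset_rfl
  have hE1 : ∀ e ∈ F1, e ∈ G.edgeSet := fun e he => hE e (Finset.mem_of_mem_filter e he)
  have t1 : Tight G col ((1 / 2) ^ 0) F1 := by
    refine tight_iff_of hE1 fun T => ?_
    rw [pow_zero, one_mul]
    have h1 : dsum F1 (rT G col T) ≤ ∑ v, ∑ y, adj G v y * rT G col T v y :=
      Finset.sum_le_sum fun v _ => Finset.sum_le_sum fun y _ =>
        mul_le_mul_of_nonneg_right (hF_le_adj hE1 v y) (rT_nonneg T v y)
    refine le_trans h1 ?_
    rcases T with x | p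
    · simp only [rT, bT, r1]
      rw [Finset.sum_eq_single x]
      · rw [ind_true rfl, ← Finset.sum_mul, one_mul]
        exact deg_mul_inv G x
      · intro b _ hb
        refine Finset.sum_eq_zero fun y _ => ?_
        rw [ind_false hb]; ring
      · intro h; exact absurd (Finset.mem_univ _) h
    · simp only [rT, bT]
      unfold b2
      have : (0 : ℝ) ≤ (1 / 2) ^ ((p.2.2 : ℕ) + 1) := by positivity
      linarith
  obtain ⟨m, hm⟩ : ∃ m : ℕ, Fintype.card V < 4 ^ (12 + 3 * (0 + m)) := by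
    refine ⟨Fintype.card V, ?_⟩
    calc Fintype.card V < 4 ^ Fintype.card V := Nat.lt_pow_self (by norm_num)
      _ ≤ _ := Nat.pow_le_pow_right (by norm_num) (by omega)
  have c1 := rounds hcol m 0 F1 hm t1 (fun x y hxy => by
    have := (Finset.mem_filter.1 hxy).2
    push Not at this
    exact this x (Sym2.mem_mk_left x y))
  refine (c0.union c1).mono ?_ ?_
  · push_cast
    have : (0 : ℝ) ≤ Fintype.card V := Nat.cast_nonneg _
    nlinarith
  · intro e he
    by_cases h3 : ∃ v ∈ e, dN G v < 4 ^ 12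
    · exact Finset.mem_union.2 (Or.inl (Finset.mem_filter.2 ⟨he, h3⟩))
    · exact Finset.mem_union.2 (Or.inr (Finset.mem_filter.2 ⟨he, h3⟩))

end Pool.Agent.Helper31.Rpc
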